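import Mathlib

set_option autoImplicit false

/-!
# A coarser Hausdorff group topology from an asymptotically central sequence

Combinatorial part: from sequences `y`, `V`, `B`, `K` with the properties `TSeq` we construct
a strictly coarser Hausdorff group topology.
-/

namespace Pool.Agent.Lib.Pc4a55f

open Filter Topology Set

theorem basis_t2 {G : Type*} [Group G] (B : GroupFilterBasis G)
    (h : ∀ g : G, (∀ U ∈ B, g ∈ U) → g = 1) : @T2Space G B.topology := by
  let σ : TopologicalSpace G := B.topology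
  have : IsTopologicalGroup G := B.isTopologicalGroup
  apply IsTopologicalGroup.t2Space_of_one_sep
  intro x hx
  by_contra hcon
  push Not at hcon
  exact hx (h x (fun U hU => hcon U (B.mem_nhds_one hU)))

theorem basis_isOpen {G : Type*} [Group G] (B : GroupFilterBasis G) (s : Set G) :
    @IsOpen G B.topology s ↔ ∀ x ∈ s, ∃ U ∈ B, ∀ u ∈ U, x * u ∈ s := by
  let σ : TopologicalSpace G := B.topology
  rw [isOpen_iff_mem_nhds]
  refine forall₂_congr (fun x _ => ?_)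
  rw [(B.nhds_hasBasis x).mem_iff]
  simp only [image_subset_iff]
  rfl

variable {G : Type*} [Group G] [τ : TopologicalSpace G]

/-- the data of the construction -/
structure TSeq (V B K : ℕ → Set G) (y : ℕ → G) : Prop where
  Vn : ∀ n, V n ∈ 𝓝 (1 : G)
  Vinv : ∀ n g, g ∈ V n → g⁻¹ ∈ V n
  Vmul : ∀ n a b c, a ∈ V (n + 1) → b ∈ V (n + 1) → c ∈ V (n + 1) → a * b * c ∈ V n
  Vbasis : ∀ W ∈ 𝓝 (1 : G), ∃ n, V n ⊆ W
  Bmono : ∀ n, B n ⊆ B (n + 1)
  BK : ∀ n a g b, a ∈ V 0 → g ∈ K n → b ∈ V 0 → a * g * b ∈ B n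
  BY : ∀ (n : ℕ) (e : ℤ) a, |e| ≤ n → a ∈ V 0 → a * y n ^ e ∈ B (n + 1)
  BL : ∀ (n : ℕ) (e : ℤ) b, |e| ≤ n → b ∈ B n → y n ^ e * b ∈ B (n + 1)
  Kmono : ∀ n, K n ⊆ K (n + 1)
  Kall : ∀ g, ∃ n, g ∈ K n
  K1 : ∀ n, (1 : G) ∈ K n
  yc : ∀ (n : ℕ) (e : ℤ) g, |e| ≤ n → g ∈ B n → y n ^ e * g * (y n ^ e)⁻¹ * g⁻¹ ∈ V (n + 3)
  yd : ∀ (n : ℕ) (e : ℤ), |e| ≤ n → y n ^ e ∈ V (n + 3) ∨ y n ^ e ∉ B n
  y1 : ∀ n, y n ∉ B n

/-- ordered products -/
def DD (y : ℕ → G) (e : ℕ → ℤ) : ℕ → ℕ → G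
  | _, 0 => 1
  | a, k + 1 => y a ^ e a * DD y e (a + 1) k

section lists

variable (y : ℕ → G) (e : ℕ → ℤ)

@[simp] theorem DD_zero (a : ℕ) : DD y e a 0 = 1 := rfl

theorem DD_succ (a k : ℕ) : DD y e a (k + 1) = y a ^ e a * DD y e (a + 1) k := rfl

theorem DD_congr {e e' : ℕ → ℤ} (a k : ℕ) (h : ∀ i, a ≤ i → i < a + k → e i = e' i) :
    DD y e a k = DD y e' a k := by
  induction k generalizing a with
  | zero => rfl
  | succ k ih =>
    rw [DD_succ, DD_succ, h a le_rfl (by omega), ih (a + 1)]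
    intro i h1 h2
    exact h i (by omega) (by omega)

theorem DD_add (a p q : ℕ) : DD y e a (p + q) = DD y e a p * DD y e (a + p) q := by
  induction p generalizing a with
  | zero => simp
  | succ p ih =>
    rw [show p + 1 + q = (p + q) + 1 by omega, DD_succ, DD_succ, ih, mul_assoc]
    congr 3
    omega

theorem DD_eq_one (a k : ℕ) (h : ∀ i, a ≤ i → i < a + k → e i = 0) : DD y e a k = 1 := by
  induction k generalizing a with
  | zero => rfl
  | succ k ih =>
    rw [DD_succ, h a le_rfl (by omega), zpow_zero, one_mul, ih (a + 1)]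
    intro i h1 h2
    exact h i (by omega) (by omega)

/-- change of range -/
theorem DD_pad (a k b l : ℕ) (hb : b ≤ a) (hl : a + k ≤ b + l) :
    DD y e a k = DD y (fun i => if a ≤ i ∧ i < a + k then e i else 0) b l := by
  obtain ⟨p, rfl⟩ := Nat.exists_eq_add_of_le hb
  obtain ⟨q, rfl⟩ : ∃ q, l = p + (k + q) := ⟨l - p - k, by omega⟩
  rw [DD_add, DD_add, DD_eq_one y _ b p, one_mul, DD_eq_one y _ (b + p + k) q, mul_one]
  · apply DD_congr
    intro i h1 h2
    rw [if_pos ⟨h1, h2⟩]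
  · intro i h1 h2
    rw [if_neg (by omega)]
  · intro i h1 h2
    rw [if_neg (by omega)]

end lists

namespace TSeq

variable {V B K : ℕ → Set G} {y : ℕ → G} (T : TSeq V B K y)

include T

theorem V1 (n : ℕ) : (1 : G) ∈ V n := mem_of_mem_nhds (T.Vn n)

theorem Vsub (n : ℕ) : V (n + 1) ⊆ V n := by
  intro g hg
  have := T.Vmul n g 1 1 hg (T.V1 _) (T.V1 _)
  simpa using this

theorem Vanti {m n : ℕ} (h : m ≤ n) : V n ⊆ V m := by
  induction h with
  | refl => exact subset_rfl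
  | step _ ih => exact (T.Vsub _).trans ih

theorem Vmul2 (n : ℕ) {a b : G} (ha : a ∈ V (n + 1)) (hb : b ∈ V (n + 1)) : a * b ∈ V n := by
  have := T.Vmul n a b 1 ha hb (T.V1 _)
  simpa using this

theorem Bmono' {m n : ℕ} (h : m ≤ n) : B m ⊆ B n := by
  induction h with
  | refl => exact subset_rfl
  | step _ ih => exact ih.trans (T.Bmono _)

theorem Kmono' {m n : ℕ} (h : m ≤ n) : K m ⊆ K n := by
  induction h with
  | refl => exact subset_rfl
  | step _ ih => exact ih.trans (T.Kmono _)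

theorem V0B {n : ℕ} {a b : G} (ha : a ∈ V 0) (hb : b ∈ V 0) : a * b ∈ B n := by
  have := T.BK n a 1 b ha (T.K1 n) hb
  simpa using this

theorem V0B' {n : ℕ} {a : G} (ha : a ∈ V 0) : a ∈ B n := by
  have := T.V0B (n := n) ha (T.V1 0)
  simpa using this

/-- moving an element to the left through a product -/
theorem L1 {g : G} (k a : ℕ) (hg : ∀ v ∈ V 0, v * g ∈ B a) (e : ℕ → ℤ) (he : ∀ i, |e i| ≤ i) :
    ∃ u ∈ V (a + 2), DD y e a k * g = u * g * DD y e a k := by
  induction k generalizing a with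
  | zero => exact ⟨1, T.V1 _, by simp⟩
  | succ k ih =>
    obtain ⟨u, hu, h⟩ := ih (a + 1) (fun v hv => T.Bmono a (hg v hv))
    have h1 : u * g ∈ B a := hg u (T.Vanti (Nat.zero_le _) hu)
    have h2 := T.yc a (e a) (u * g) (he a) h1
    refine ⟨_, T.Vmul2 (a + 2) h2 hu, ?_⟩
    rw [DD_succ, mul_assoc, h]
    group

/-- product of two products -/
theorem L2 (k a : ℕ) (e e' : ℕ → ℤ) (he : ∀ i, |e i| + |e' i| ≤ i) :
    ∃ w ∈ V (a + 1), DD y e a k * DD y e' a k = w * DD y (fun i => e i + e' i) a k := by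
  have he1 : ∀ i, |e i| ≤ i := fun i => le_trans (by linarith [abs_nonneg (e' i)]) (he i)
  have he2 : ∀ i, |e' i| ≤ i := fun i => le_trans (by linarith [abs_nonneg (e i)]) (he i)
  have he3 : ∀ i, |e i + e' i| ≤ i := fun i => le_trans (abs_add_le _ _) (he i)
  induction k generalizing a with
  | zero => exact ⟨1, T.V1 _, by simp⟩
  | succ k ih =>
    obtain ⟨w, hw, h⟩ := ih (a + 1)
    obtain ⟨u, hu, h'⟩ := T.L1 (g := y a ^ e' a) k (a + 1)
      (fun v hv => T.BY a (e' a) v (he2 a) hv) e he1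
    have hu3 : u ∈ V (a + 3) := hu
    have hw2 : w ∈ V (a + 2) := hw
    have h1 := T.yc a (e a) u (he1 a) (T.V0B' (T.Vanti (Nat.zero_le _) hu))
    have h2 := T.yc a (e a + e' a) w (he3 a) (T.V0B' (T.Vanti (Nat.zero_le _) hw))
    have h3 := T.Vmul (a + 2) _ _ _ h1 hu3 h2
    refine ⟨_, T.Vmul2 (a + 1) h3 hw2, ?_⟩
    rw [DD_succ, DD_succ, DD_succ]
    have h4 : y a ^ e a * DD y e (a + 1) k * (y a ^ e' a * DD y e' (a + 1) k) =
        y a ^ e a * (DD y e (a + 1) k * y a ^ e' a) * DD y e' (a + 1) k := by group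
    rw [h4, h']
    have h5 : y a ^ e a * (u * y a ^ e' a * DD y e (a + 1) k) * DD y e' (a + 1) k =
        y a ^ e a * u * y a ^ e' a * (DD y e (a + 1) k * DD y e' (a + 1) k) := by group
    rw [h5, h, zpow_add]
    group

theorem L3 (k a : ℕ) (e : ℕ → ℤ) (he : ∀ i, |e i| ≤ i) :
    ∃ w ∈ V (a + 1), (DD y e a k)⁻¹ = w * DD y (fun i => - e i) a k := by
  induction k generalizing a with
  | zero => exact ⟨1, T.V1 _, by simp⟩
  | succ k ih =>
    obtain ⟨w, hw, h⟩ := ih (a + 1)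
    obtain ⟨u, hu, h'⟩ := T.L1 (g := y a ^ (- e a)) k (a + 1)
      (fun v hv => T.BY a (- e a) v (by rw [abs_neg]; exact he a) hv) (fun i => - e i)
      (fun i => by rw [abs_neg]; exact he i)
    have hu2 : u ∈ V (a + 2) := T.Vsub _ hu
    refine ⟨_, T.Vmul2 (a + 1) hw hu2, ?_⟩
    rw [DD_succ, mul_inv_rev, h, ← zpow_neg, mul_assoc, h', DD_succ]
    group

theorem L5 (k a : ℕ) (e : ℕ → ℤ) (he : ∀ i, a ≤ i → i < a + k → y i ^ e i ∈ V (i + 3)) :
    DD y e a k ∈ V (a + 2) := by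
  induction k generalizing a with
  | zero => exact T.V1 _
  | succ k ih =>
    rw [DD_succ]
    apply T.Vmul2 (a + 2)
    · exact he a le_rfl (by omega)
    · exact ih (a + 1) (fun i h1 h2 => he i (by omega) (by omega))

theorem L6 (k a : ℕ) (e : ℕ → ℤ) (he : ∀ i, |e i| ≤ i) {b : G} (hb : b ∈ B a) :
    (DD y e a k)⁻¹ * b ∈ B (a + k) := by
  induction k generalizing a b with
  | zero => simpa using hb
  | succ k ih =>
    have h1 := T.BL a (- e a) b (by rw [abs_neg]; exact he a) hb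
    have h2 := ih (a + 1) h1
    rw [DD_succ, mul_inv_rev, mul_assoc, ← zpow_neg, show a + (k + 1) = a + 1 + k by omega]
    exact h2

theorem L7 (k a : ℕ) (e : ℕ → ℤ) (he : ∀ i, |e i| ≤ i) {g : G} (hg : g ∈ K a) {v : G}
    (hv : v ∈ V 0) (h : g = v * DD y e a k) : DD y e a k ∈ V (a + 2) := by
  have key : ∀ m, m ≤ k → ∀ i, a + k - m ≤ i → i < a + k → y i ^ e i ∈ V (i + 3) := by
    intro m
    induction m with
    | zero =>
      intro _ i h1 h2
      omega
    | succ m ih =>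
      intro hm i h1 h2
      by_cases hi : a + k - m ≤ i
      · exact ih (by omega) i hi h2
      have hi' : i = a + k - (m + 1) := by omega
      obtain ⟨p, rfl⟩ : ∃ p, k = p + (m + 1) := ⟨k - (m + 1), by omega⟩
      have hip : i = a + p := by omega
      subst hip
      rcases T.yd (a + p) (e (a + p)) (he _) with h3 | h3
      · exact h3
      exfalso
      apply h3
      have htail : DD y e (a + p + 1) m ∈ V 0 := by
        apply T.Vanti (Nat.zero_le (a + p + 1 + 2))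
        apply T.L5
        intro j h4 h5
        exact ih (by omega) j (by omega) (by omega)
      have h6 : g = v * (DD y e a p * (y (a + p) ^ e (a + p) * DD y e (a + p + 1) m)) := by
        rw [h, DD_add, DD_succ]
      have h7 : y (a + p) ^ e (a + p) =
          (DD y e a p)⁻¹ * (v⁻¹ * g * (DD y e (a + p + 1) m)⁻¹) := by
        rw [h6]
        group
      rw [h7]
      exact T.L6 p a e he (T.BK a _ _ _ (T.Vinv _ _ hv) hg (T.Vinv _ _ htail))
  apply T.L5
  intro i h1 h2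
  exact key k le_rfl i (by omega) h2

end TSeq

/-- the new neighbourhoods of the identity -/
def WW (V : ℕ → Set G) (y : ℕ → G) (n : ℕ) : Set G :=
  {g | ∃ v ∈ V n, ∃ a, n ≤ a ∧ ∃ (k : ℕ) (e : ℕ → ℤ), (∀ i, |e i| * 2 ^ n ≤ i) ∧ g = v * DD y e a k}

namespace TSeq

variable {V B K : ℕ → Set G} {y : ℕ → G} (T : TSeq V B K y)

theorem adm_of {e : ℕ → ℤ} {n : ℕ} (he : ∀ i : ℕ, |e i| * 2 ^ n ≤ i) : ∀ i : ℕ, |e i| ≤ i := by
  intro i
  have h1 : (1 : ℤ) ≤ 2 ^ n := one_le_pow₀ (by norm_num)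
  calc |e i| = |e i| * 1 := (mul_one _).symm
    _ ≤ |e i| * 2 ^ n := mul_le_mul_of_nonneg_left h1 (abs_nonneg _)
    _ ≤ i := he i

include T

theorem WW_V (n : ℕ) : V n ⊆ WW V y n := by
  intro v hv
  exact ⟨v, hv, n, le_rfl, 0, fun _ => 0, by simp, by simp⟩

theorem WW_anti {m n : ℕ} (h : m ≤ n) : WW V y n ⊆ WW V y m := by
  rintro g ⟨v, hv, a, ha, k, e, he, rfl⟩
  refine ⟨v, T.Vanti h hv, a, h.trans ha, k, e, ?_, rfl⟩
  intro i
  have h1 : (2 : ℤ) ^ m ≤ 2 ^ n := pow_le_pow_right₀ (by norm_num) h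
  exact le_trans (mul_le_mul_of_nonneg_left h1 (abs_nonneg _)) (he i)

theorem WW_mul (n : ℕ) {g g' : G} (hg : g ∈ WW V y (n + 2)) (hg' : g' ∈ WW V y (n + 2)) :
    g * g' ∈ WW V y n := by
  obtain ⟨v, hv, a, ha, k, e, he, rfl⟩ := hg
  obtain ⟨v', hv', a', ha', k', e', he', rfl⟩ := hg'
  have hpow : (2 : ℤ) ^ (n + 2) = 4 * 2 ^ n := by ring
  have hpos : (1 : ℤ) ≤ 2 ^ n := one_le_pow₀ (by norm_num)
  set b := min a a' with hb
  set l := max (a + k) (a' + k') - b with hl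
  set f : ℕ → ℤ := fun i => if a ≤ i ∧ i < a + k then e i else 0 with hf
  set f' : ℕ → ℤ := fun i => if a' ≤ i ∧ i < a' + k' then e' i else 0 with hf'
  have hfe : ∀ i, |f i| * 2 ^ (n + 2) ≤ i := by
    intro i
    by_cases h : a ≤ i ∧ i < a + k
    · simp only [hf, if_pos h]
      exact he i
    · simp [hf, if_neg h]
  have hfe' : ∀ i, |f' i| * 2 ^ (n + 2) ≤ i := by
    intro i
    by_cases h : a' ≤ i ∧ i < a' + k'
    · simp only [hf', if_pos h]
      exact he' i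
    · simp [hf', if_neg h]
  have h1 : DD y e a k = DD y f b l := DD_pad y e a k b l (min_le_left _ _) (by omega)
  have h2 : DD y e' a' k' = DD y f' b l := DD_pad y e' a' k' b l (min_le_right _ _) (by omega)
  have hsum : ∀ i, |f i| + |f' i| ≤ i := by
    intro i
    have h3 := hfe i
    have h4 := hfe' i
    have h5 := abs_nonneg (f i)
    have h6 := abs_nonneg (f' i)
    rw [hpow] at h3 h4
    nlinarith
  obtain ⟨w, hw, h7⟩ := T.L2 l b f f' hsum
  obtain ⟨u, hu, h8⟩ := T.L1 (g := v') l b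
    (fun z hz => T.V0B hz (T.Vanti (Nat.zero_le _) hv')) f (adm_of hfe)
  have hbn : n + 2 ≤ b := le_min ha ha'
  refine ⟨v * u * v' * w, ?_, b, by omega, l, fun i => f i + f' i, ?_, ?_⟩
  · have h9 : v * u * v' ∈ V (n + 1) :=
      T.Vmul (n + 1) _ _ _ hv (T.Vanti (by omega) hu) hv'
    exact T.Vmul2 n h9 (T.Vanti (by omega) hw)
  · intro i
    have h3 := hfe i
    have h4 := hfe' i
    have h5 := abs_nonneg (f i)
    have h6 := abs_nonneg (f' i)
    have h10 := abs_add_le (f i) (f' i)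
    rw [hpow] at h3 h4
    nlinarith
  · rw [h1, h2]
    calc v * DD y f b l * (v' * DD y f' b l) = v * (DD y f b l * v') * DD y f' b l := by group
      _ = v * (u * v' * DD y f b l) * DD y f' b l := by rw [h8]
      _ = v * u * v' * (DD y f b l * DD y f' b l) := by group
      _ = v * u * v' * (w * DD y (fun i => f i + f' i) b l) := by rw [h7]
      _ = _ := by group

theorem WW_inv (n : ℕ) {g : G} (hg : g ∈ WW V y (n + 1)) : g⁻¹ ∈ WW V y n := by
  obtain ⟨v, hv, a, ha, k, e, he, rfl⟩ := hg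
  obtain ⟨w, hw, h1⟩ := T.L3 k a e (adm_of he)
  have he' : ∀ i : ℕ, |(fun i => - e i) i| * 2 ^ (n + 1) ≤ i := by
    intro i
    simp only [abs_neg]
    exact he i
  obtain ⟨u, hu, h2⟩ := T.L1 (g := v⁻¹) k a
    (fun z hz => T.V0B hz (T.Vanti (Nat.zero_le _) (T.Vinv _ _ hv))) (fun i => - e i) (adm_of he')
  refine ⟨w * u * v⁻¹, ?_, a, by omega, k, fun i => - e i, ?_, ?_⟩
  · exact T.Vmul n _ _ _ (T.Vanti (by omega) hw) (T.Vanti (by omega) hu) (T.Vinv _ _ hv)
  · intro i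
    have h3 : (2 : ℤ) ^ n ≤ 2 ^ (n + 1) := pow_le_pow_right₀ (by norm_num) (by omega)
    exact le_trans (mul_le_mul_of_nonneg_left h3 (abs_nonneg _)) (he' i)
  · rw [mul_inv_rev, h1]
    calc w * DD y (fun i => - e i) a k * v⁻¹ = w * (DD y (fun i => - e i) a k * v⁻¹) := by group
      _ = w * (u * v⁻¹ * DD y (fun i => - e i) a k) := by rw [h2]
      _ = _ := by group

theorem WW_conj [IsTopologicalGroup G] (n : ℕ) (g : G) :
    ∃ m, ∀ z ∈ WW V y m, g * z * g⁻¹ ∈ WW V y n := by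
  obtain ⟨r, hr⟩ := T.Kall g⁻¹
  have h1 : (fun z => g * z * g⁻¹) ⁻¹' V n ∈ 𝓝 (1 : G) := by
    have h2 : Continuous (fun z : G => g * z * g⁻¹) := by fun_prop
    apply h2.continuousAt.preimage_mem_nhds
    rw [mul_one, mul_inv_cancel]
    exact T.Vn n
  obtain ⟨s, hs⟩ := T.Vbasis _ h1
  refine ⟨max (max r (s + 1)) n, ?_⟩
  rintro z ⟨v, hv, a, ha, k, e, he, rfl⟩
  set m := max (max r (s + 1)) n with hm
  have hrm : r ≤ m := le_trans (le_max_left _ _) (le_max_left _ _)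
  have hsm : s + 1 ≤ m := le_trans (le_max_right _ _) (le_max_left _ _)
  have hnm : n ≤ m := le_max_right _ _
  obtain ⟨u, hu, h2⟩ := T.L1 (g := g⁻¹) k a (by
    intro z hz
    have := T.BK a z g⁻¹ 1 hz (T.Kmono' (hrm.trans ha) hr) (T.V1 0)
    simpa using this) e (adm_of he)
  refine ⟨g * (v * u) * g⁻¹, ?_, a, hnm.trans ha, k, e, ?_, ?_⟩
  · apply hs
    apply T.Vmul2 s
    · exact T.Vanti hsm hv
    · exact T.Vanti (by omega) hu
  · intro i
    have h3 : (2 : ℤ) ^ n ≤ 2 ^ m := pow_le_pow_right₀ (by norm_num) hnm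
    exact le_trans (mul_le_mul_of_nonneg_left h3 (abs_nonneg _)) (he i)
  · calc g * (v * DD y e a k) * g⁻¹ = g * v * (DD y e a k * g⁻¹) := by group
      _ = g * v * (u * g⁻¹ * DD y e a k) := by rw [h2]
      _ = _ := by group

theorem WW_sep {g : G} (hg : ∀ n, g ∈ WW V y n) : ∀ n, g ∈ V n := by
  intro n
  obtain ⟨r, hr⟩ := T.Kall g
  obtain ⟨v, hv, a, ha, k, e, he, h⟩ := hg (max r (n + 1))
  have h1 := T.L7 k a e (adm_of he) (T.Kmono' (le_trans (le_max_left _ _) ha) hr)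
    (T.Vanti (Nat.zero_le _) hv) h
  rw [h]
  apply T.Vmul2 n
  · exact T.Vanti (le_max_right _ _) hv
  · exact T.Vanti (by omega) h1

/-- the group filter basis -/
def basis [IsTopologicalGroup G] : GroupFilterBasis G where
  sets := range (WW V y)
  nonempty := ⟨_, 0, rfl⟩
  inter_sets := by
    rintro _ _ ⟨m, rfl⟩ ⟨n, rfl⟩
    exact ⟨_, ⟨max m n, rfl⟩, subset_inter (T.WW_anti (le_max_left _ _))
      (T.WW_anti (le_max_right _ _))⟩
  one' := by
    rintro _ ⟨n, rfl⟩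
    exact T.WW_V n (T.V1 n)
  mul' := by
    rintro _ ⟨n, rfl⟩
    refine ⟨_, ⟨n + 2, rfl⟩, ?_⟩
    rintro _ ⟨a, ha, b, hb, rfl⟩
    exact T.WW_mul n ha hb
  inv' := by
    rintro _ ⟨n, rfl⟩
    exact ⟨_, ⟨n + 1, rfl⟩, fun a ha => T.WW_inv n ha⟩
  conj' := by
    rintro g _ ⟨n, rfl⟩
    obtain ⟨m, hm⟩ := T.WW_conj n g
    exact ⟨_, ⟨m, rfl⟩, fun a ha => hm a ha⟩

theorem coarser [IsTopologicalGroup G] [T2Space G] :
    ∃ σ : TopologicalSpace G, @IsTopologicalGroup G σ _ ∧ @T2Space G σ ∧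
      (∀ s : Set G, @IsOpen G σ s → @IsOpen G τ s) ∧
      ∃ s : Set G, @IsOpen G τ s ∧ ¬ @IsOpen G σ s := by
  refine ⟨T.basis.topology, T.basis.isTopologicalGroup, ?_, ?_, ?_⟩
  · -- Hausdorff
    apply basis_t2
    intro g hg
    have h2 := T.WW_sep (fun n => hg _ ⟨n, rfl⟩)
    by_contra hne
    have h4 : {g}ᶜ ∈ 𝓝 (1 : G) := isOpen_compl_singleton.mem_nhds (fun h => hne h.symm)
    obtain ⟨n, hn⟩ := T.Vbasis _ h4
    exact hn (h2 n) rfl
  · intro s hs
    rw [basis_isOpen] at hs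
    rw [isOpen_iff_mem_nhds]
    intro x hx
    obtain ⟨_, ⟨n, rfl⟩, hn⟩ := hs x hx
    have h2 : (fun z => x * z) '' V n ∈ 𝓝 x := by
      have h3 := (Homeomorph.mulLeft x).isOpenMap.image_mem_nhds (T.Vn n)
      simpa using h3
    apply mem_of_superset h2
    rintro _ ⟨z, hz, rfl⟩
    exact hn z (T.WW_V n hz)
  · refine ⟨interior (V 0), isOpen_interior, ?_⟩
    intro hcon
    have h1 : (1 : G) ∈ interior (V 0) := mem_interior_iff_mem_nhds.2 (T.Vn 0)
    rw [basis_isOpen] at hcon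
    obtain ⟨_, ⟨n, rfl⟩, hn⟩ := hcon 1 h1
    set j := max n (2 ^ n) with hj
    have h3 : y j ∈ WW V y n := by
      refine ⟨1, T.V1 n, j, le_max_left _ _, 1, fun i => if i = j then 1 else 0, ?_, ?_⟩
      · intro i
        show |if i = j then (1 : ℤ) else 0| * 2 ^ n ≤ i
        by_cases hi : i = j
        · rw [if_pos hi, hi, abs_one, one_mul]
          have : 2 ^ n ≤ j := le_max_right _ _
          exact_mod_cast this
        · rw [if_neg hi]
          simp
      · rw [DD_succ]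
        simp
    have h4 : y j ∈ V 0 := by
      have := hn (y j) h3
      rw [one_mul] at this
      exact interior_subset this
    exact T.y1 j (T.V0B' h4)

end TSeq

end Pool.Agent.Lib.Pc4a55f
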