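import Mathlib
import Pool.Agent.Lib.Pc4a55f.TSeq

set_option autoImplicit false

/-!
# A second construction of a coarser Hausdorff group topology

No local compactness: the sequence `y` is only supposed to commute asymptotically with every
element, the products `DD y e a k` act equicontinuously, and central elements are kept away from
the products by the hypothesis `sep`.
-/

namespace Pool.Agent.Lib.Pc4a55f

open Filter Topology Set

variable {G : Type*} [Group G] [τ : TopologicalSpace G]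

/-- the data of the construction -/
structure USeq (V : ℕ → Set G) (y : ℕ → G) : Prop where
  Vn : ∀ n, V n ∈ 𝓝 (1 : G)
  Vinv : ∀ n g, g ∈ V n → g⁻¹ ∈ V n
  Vmul : ∀ n a b c, a ∈ V (n + 1) → b ∈ V (n + 1) → c ∈ V (n + 1) → a * b * c ∈ V n
  Vbasis : ∀ W ∈ 𝓝 (1 : G), ∃ n, V n ⊆ W
  cc : ∀ (a j : ℕ) (e e' : ℤ), j < a → |e| ≤ a → |e'| ≤ j →
    y a ^ e * y j ^ e' * (y a ^ e)⁻¹ * (y j ^ e')⁻¹ ∈ V (2 * a + 1)
  cV : ∀ (a : ℕ) (e : ℤ) v, |e| ≤ a → v ∈ V (2 * a + 2) →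
    y a ^ e * v * (y a ^ e)⁻¹ ∈ V (2 * a + 1)
  ED : ∀ (n a k : ℕ) (e : ℕ → ℤ) v, (∀ i : ℕ, |e i| ≤ i) → n + 1 ≤ a → v ∈ V (n + 1) →
    DD y e a k * v * (DD y e a k)⁻¹ ∈ V n
  CD : ∀ (g : G) (n : ℕ), ∃ m, ∀ (a k : ℕ) (e : ℕ → ℤ), (∀ i : ℕ, |e i| ≤ i) → m ≤ a →
    g * DD y e a k * g⁻¹ * (DD y e a k)⁻¹ ∈ V n
  sep : ∀ z ∈ Subgroup.center G, z ≠ 1 → ∃ n, ∀ v ∈ V n, ∀ (a k : ℕ) (e : ℕ → ℤ),
    (∀ i : ℕ, |e i| ≤ i) → n ≤ a → z ≠ v * DD y e a k
  y1 : ∀ n, y n ∉ V 0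

namespace USeq

variable {V : ℕ → Set G} {y : ℕ → G} (T : USeq V y)

theorem adm_of {e : ℕ → ℤ} {n : ℕ} (he : ∀ i : ℕ, |e i| * 2 ^ n ≤ i) : ∀ i : ℕ, |e i| ≤ i := by
  intro i
  have h1 : (1 : ℤ) ≤ 2 ^ n := one_le_pow₀ (by norm_num)
  calc |e i| = |e i| * 1 := (mul_one _).symm
    _ ≤ |e i| * 2 ^ n := mul_le_mul_of_nonneg_left h1 (abs_nonneg _)
    _ ≤ i := he i

include T

theorem V1 (n : ℕ) : (1 : G) ∈ V n := mem_of_mem_nhds (T.Vn n)

theorem Vsub (n : ℕ) : V (n + 1) ⊆ V n := by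
  intro g hg
  have := T.Vmul n g 1 1 hg (T.V1 _) (T.V1 _)
  simpa using this

theorem Vanti {m n : ℕ} (h : m ≤ n) : V n ⊆ V m := by
  induction h with
  | refl => exact subset_rfl
  | step _ ih => exact (T.Vsub _).trans ih

theorem Vmul2 (n : ℕ) {a b : G} (ha : a ∈ V (n + 1)) (hb : b ∈ V (n + 1)) : a * b ∈ V n := by
  have := T.Vmul n a b 1 ha hb (T.V1 _)
  simpa using this

/-- moving a power of an earlier element to the left through a product -/
theorem L1 (j : ℕ) (e' : ℤ) (he' : |e'| ≤ j) (k a : ℕ) (hj : j < a) (e : ℕ → ℤ)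
    (he : ∀ i : ℕ, |e i| ≤ i) :
    ∃ u ∈ V (2 * a), DD y e a k * y j ^ e' = u * y j ^ e' * DD y e a k := by
  induction k generalizing a with
  | zero => exact ⟨1, T.V1 _, by simp⟩
  | succ k ih =>
    obtain ⟨u, hu, h⟩ := ih (a + 1) (by omega)
    have h1 := T.cV a (e a) u (he a) (by rw [show 2 * a + 2 = 2 * (a + 1) by ring]; exact hu)
    have h2 := T.cc a j (e a) e' hj (he a) he'
    refine ⟨_, T.Vmul2 (2 * a) h1 h2, ?_⟩
    rw [DD_succ, mul_assoc, h]
    group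

/-- product of two products -/
theorem L2 (k a : ℕ) (e e' : ℕ → ℤ) (he : ∀ i : ℕ, |e i| + |e' i| ≤ i) :
    ∃ w ∈ V (2 * a), DD y e a k * DD y e' a k = w * DD y (fun i => e i + e' i) a k := by
  have he1 : ∀ i : ℕ, |e i| ≤ i := fun i => le_trans (by linarith [abs_nonneg (e' i)]) (he i)
  have he2 : ∀ i : ℕ, |e' i| ≤ i := fun i => le_trans (by linarith [abs_nonneg (e i)]) (he i)
  have he3 : ∀ i : ℕ, |e i + e' i| ≤ i := fun i => le_trans (abs_add_le _ _) (he i)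
  induction k generalizing a with
  | zero => exact ⟨1, T.V1 _, by simp⟩
  | succ k ih =>
    obtain ⟨w, hw, h⟩ := ih (a + 1)
    obtain ⟨u, hu, h'⟩ := T.L1 a (e' a) (he2 a) k (a + 1) (by omega) e he1
    have h1 := T.cV a (e a) u (he1 a) (by rw [show 2 * a + 2 = 2 * (a + 1) by ring]; exact hu)
    have h2 := T.cV a (e a + e' a) w (he3 a)
      (by rw [show 2 * a + 2 = 2 * (a + 1) by ring]; exact hw)
    refine ⟨_, T.Vmul2 (2 * a) h1 h2, ?_⟩
    rw [DD_succ, DD_succ, DD_succ]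
    have h4 : y a ^ e a * DD y e (a + 1) k * (y a ^ e' a * DD y e' (a + 1) k) =
        y a ^ e a * (DD y e (a + 1) k * y a ^ e' a) * DD y e' (a + 1) k := by group
    rw [h4, h']
    have h5 : y a ^ e a * (u * y a ^ e' a * DD y e (a + 1) k) * DD y e' (a + 1) k =
        y a ^ e a * u * y a ^ e' a * (DD y e (a + 1) k * DD y e' (a + 1) k) := by group
    rw [h5, h, zpow_add]
    group

theorem L3 (k a : ℕ) (e : ℕ → ℤ) (he : ∀ i : ℕ, |e i| ≤ i) :
    ∃ w ∈ V (2 * a), (DD y e a k)⁻¹ = w * DD y (fun i => - e i) a k := by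
  induction k generalizing a with
  | zero => exact ⟨1, T.V1 _, by simp⟩
  | succ k ih =>
    obtain ⟨w, hw, h⟩ := ih (a + 1)
    obtain ⟨u, hu, h'⟩ := T.L1 a (- e a) (by rw [abs_neg]; exact he a) k (a + 1) (by omega)
      (fun i => - e i) (fun i => by rw [abs_neg]; exact he i)
    have hw' : w ∈ V (2 * a + 2) := by rw [show 2 * a + 2 = 2 * (a + 1) by ring]; exact hw
    have hu' : u ∈ V (2 * a + 2) := by rw [show 2 * a + 2 = 2 * (a + 1) by ring]; exact hu
    refine ⟨_, T.Vsub _ (T.Vmul2 (2 * a + 1) hw' hu'), ?_⟩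
    rw [DD_succ, mul_inv_rev, h, ← zpow_neg, mul_assoc, h', DD_succ]
    group

theorem WW_V (n : ℕ) : V n ⊆ WW V y n := by
  intro v hv
  exact ⟨v, hv, n, le_rfl, 0, fun _ => 0, by simp, by simp⟩

theorem WW_anti {m n : ℕ} (h : m ≤ n) : WW V y n ⊆ WW V y m := by
  rintro g ⟨v, hv, a, ha, k, e, he, rfl⟩
  refine ⟨v, T.Vanti h hv, a, h.trans ha, k, e, ?_, rfl⟩
  intro i
  have h1 : (2 : ℤ) ^ m ≤ 2 ^ n := pow_le_pow_right₀ (by norm_num) h
  exact le_trans (mul_le_mul_of_nonneg_left h1 (abs_nonneg _)) (he i)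

theorem WW_mul (n : ℕ) {g g' : G} (hg : g ∈ WW V y (n + 2)) (hg' : g' ∈ WW V y (n + 2)) :
    g * g' ∈ WW V y n := by
  obtain ⟨v, hv, a, ha, k, e, he, rfl⟩ := hg
  obtain ⟨v', hv', a', ha', k', e', he', rfl⟩ := hg'
  have hpow : (2 : ℤ) ^ (n + 2) = 4 * 2 ^ n := by ring
  have hpos : (1 : ℤ) ≤ 2 ^ n := one_le_pow₀ (by norm_num)
  set b := min a a' with hb
  set l := max (a + k) (a' + k') - b with hl
  set f : ℕ → ℤ := fun i => if a ≤ i ∧ i < a + k then e i else 0 with hf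
  set f' : ℕ → ℤ := fun i => if a' ≤ i ∧ i < a' + k' then e' i else 0 with hf'
  have hfe : ∀ i, |f i| * 2 ^ (n + 2) ≤ i := by
    intro i
    by_cases h : a ≤ i ∧ i < a + k
    · simp only [hf, if_pos h]
      exact he i
    · simp [hf, if_neg h]
  have hfe' : ∀ i, |f' i| * 2 ^ (n + 2) ≤ i := by
    intro i
    by_cases h : a' ≤ i ∧ i < a' + k'
    · simp only [hf', if_pos h]
      exact he' i
    · simp [hf', if_neg h]
  have h1 : DD y e a k = DD y f b l := DD_pad y e a k b l (min_le_left _ _) (by omega)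
  have h2 : DD y e' a' k' = DD y f' b l := DD_pad y e' a' k' b l (min_le_right _ _) (by omega)
  have hsum : ∀ i, |f i| + |f' i| ≤ i := by
    intro i
    have h3 := hfe i
    have h4 := hfe' i
    have h5 := abs_nonneg (f i)
    have h6 := abs_nonneg (f' i)
    rw [hpow] at h3 h4
    nlinarith
  obtain ⟨w, hw, h7⟩ := T.L2 l b f f' hsum
  have hbn : n + 2 ≤ b := le_min ha ha'
  have h8 := T.ED (n + 1) b l f v' (adm_of hfe) hbn hv'
  refine ⟨v * (DD y f b l * v' * (DD y f b l)⁻¹) * w, ?_, b, by omega, l,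
    fun i => f i + f' i, ?_, ?_⟩
  · exact T.Vmul n _ _ _ (T.Vsub _ hv) h8 (T.Vanti (by omega) hw)
  · intro i
    have h3 := hfe i
    have h4 := hfe' i
    have h5 := abs_nonneg (f i)
    have h6 := abs_nonneg (f' i)
    have h10 := abs_add_le (f i) (f' i)
    rw [hpow] at h3 h4
    nlinarith
  · rw [h1, h2]
    calc v * DD y f b l * (v' * DD y f' b l)
        = v * (DD y f b l * v' * (DD y f b l)⁻¹) * (DD y f b l * DD y f' b l) := by group
      _ = v * (DD y f b l * v' * (DD y f b l)⁻¹) * (w * DD y (fun i => f i + f' i) b l) := by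
          rw [h7]
      _ = _ := by group

theorem WW_inv (n : ℕ) {g : G} (hg : g ∈ WW V y (n + 2)) : g⁻¹ ∈ WW V y n := by
  obtain ⟨v, hv, a, ha, k, e, he, rfl⟩ := hg
  obtain ⟨w, hw, h1⟩ := T.L3 k a e (adm_of he)
  have he' : ∀ i : ℕ, |(fun i => - e i) i| * 2 ^ (n + 2) ≤ i := by
    intro i
    simp only [abs_neg]
    exact he i
  have h2 := T.ED (n + 1) a k (fun i => - e i) v⁻¹ (adm_of he') ha (T.Vinv _ _ hv)
  refine ⟨w * (DD y (fun i => - e i) a k * v⁻¹ * (DD y (fun i => - e i) a k)⁻¹), ?_, a,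
    by omega, k, fun i => - e i, ?_, ?_⟩
  · exact T.Vmul2 n (T.Vanti (by omega) hw) h2
  · intro i
    have h3 : (2 : ℤ) ^ n ≤ 2 ^ (n + 2) := pow_le_pow_right₀ (by norm_num) (by omega)
    exact le_trans (mul_le_mul_of_nonneg_left h3 (abs_nonneg _)) (he' i)
  · rw [mul_inv_rev, h1]
    group

theorem WW_conj [IsTopologicalGroup G] (n : ℕ) (g : G) :
    ∃ m, ∀ z ∈ WW V y m, g * z * g⁻¹ ∈ WW V y n := by
  obtain ⟨r, hr⟩ := T.CD g (n + 1)
  have h1 : (fun z => g * z * g⁻¹) ⁻¹' V (n + 1) ∈ 𝓝 (1 : G) := by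
    have h2 : Continuous (fun z : G => g * z * g⁻¹) := by fun_prop
    apply h2.continuousAt.preimage_mem_nhds
    rw [mul_one, mul_inv_cancel]
    exact T.Vn (n + 1)
  obtain ⟨s, hs⟩ := T.Vbasis _ h1
  refine ⟨max (max r s) n, ?_⟩
  rintro z ⟨v, hv, a, ha, k, e, he, rfl⟩
  set m := max (max r s) n with hm
  have hrm : r ≤ m := le_trans (le_max_left _ _) (le_max_left _ _)
  have hsm : s ≤ m := le_trans (le_max_right _ _) (le_max_left _ _)
  have hnm : n ≤ m := le_max_right _ _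
  have h2 := hr a k e (adm_of he) (hrm.trans ha)
  have h3 : g * v * g⁻¹ ∈ V (n + 1) := hs (T.Vanti hsm hv)
  refine ⟨_, T.Vmul2 n h3 h2, a, hnm.trans ha, k, e, ?_, ?_⟩
  · intro i
    have h3 : (2 : ℤ) ^ n ≤ 2 ^ m := pow_le_pow_right₀ (by norm_num) hnm
    exact le_trans (mul_le_mul_of_nonneg_left h3 (abs_nonneg _)) (he i)
  · group

theorem eq_one_of_forall [T2Space G] {g : G} (hg : ∀ n, g ∈ V n) : g = 1 := by
  by_contra hne
  have h4 : {g}ᶜ ∈ 𝓝 (1 : G) := isOpen_compl_singleton.mem_nhds (fun h => hne h.symm)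
  obtain ⟨n, hn⟩ := T.Vbasis _ h4
  exact hn (hg n) rfl

theorem WW_sep [IsTopologicalGroup G] [T2Space G] {g : G} (hg : ∀ n, g ∈ WW V y n) : g = 1 := by
  by_contra hne
  have hc : g ∈ Subgroup.center G := by
    rw [Subgroup.mem_center_iff]
    intro h
    have h1 : h * g * h⁻¹ * g⁻¹ = 1 := by
      apply T.eq_one_of_forall
      intro n
      have h2 : (fun z => h * z * h⁻¹) ⁻¹' V (n + 1) ∈ 𝓝 (1 : G) := by
        have h2 : Continuous (fun z : G => h * z * h⁻¹) := by fun_prop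
        apply h2.continuousAt.preimage_mem_nhds
        rw [mul_one, mul_inv_cancel]
        exact T.Vn (n + 1)
      obtain ⟨s, hs⟩ := T.Vbasis _ h2
      obtain ⟨r, hr⟩ := T.CD h (n + 1)
      obtain ⟨v, hv, a, ha, k, e, he, rfl⟩ := hg (max (max r s) (n + 1))
      have h3 := hr a k e (adm_of he)
        (le_trans (le_trans (le_max_left _ _) (le_max_left _ _)) ha)
      have h4 : h * v * h⁻¹ ∈ V (n + 1) :=
        hs (T.Vanti (le_trans (le_max_right _ _) (le_max_left _ _)) hv)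
      have h5 : v⁻¹ ∈ V (n + 1) := T.Vinv _ _ (T.Vanti (le_max_right _ _) hv)
      have h6 := T.Vmul n _ _ _ h4 h3 h5
      have h7 : h * (v * DD y e a k) * h⁻¹ * (v * DD y e a k)⁻¹ =
          h * v * h⁻¹ * (h * DD y e a k * h⁻¹ * (DD y e a k)⁻¹) * v⁻¹ := by group
      rw [h7]
      exact h6
    calc h * g = (h * g * h⁻¹ * g⁻¹) * (g * h) := by group
      _ = g * h := by rw [h1, one_mul]
  obtain ⟨n, hn⟩ := T.sep g hc hne
  obtain ⟨v, hv, a, ha, k, e, he, h⟩ := hg n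
  exact hn v hv a k e (adm_of he) ha h

/-- the group filter basis -/
def basis [IsTopologicalGroup G] : GroupFilterBasis G where
  sets := range (WW V y)
  nonempty := ⟨_, 0, rfl⟩
  inter_sets := by
    rintro _ _ ⟨m, rfl⟩ ⟨n, rfl⟩
    exact ⟨_, ⟨max m n, rfl⟩, subset_inter (T.WW_anti (le_max_left _ _))
      (T.WW_anti (le_max_right _ _))⟩
  one' := by
    rintro _ ⟨n, rfl⟩
    exact T.WW_V n (T.V1 n)
  mul' := by
    rintro _ ⟨n, rfl⟩
    refine ⟨_, ⟨n + 2, rfl⟩, ?_⟩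
    rintro _ ⟨a, ha, b, hb, rfl⟩
    exact T.WW_mul n ha hb
  inv' := by
    rintro _ ⟨n, rfl⟩
    exact ⟨_, ⟨n + 2, rfl⟩, fun a ha => T.WW_inv n ha⟩
  conj' := by
    rintro g _ ⟨n, rfl⟩
    obtain ⟨m, hm⟩ := T.WW_conj n g
    exact ⟨_, ⟨m, rfl⟩, fun a ha => hm a ha⟩

theorem coarser [IsTopologicalGroup G] [T2Space G] :
    ∃ σ : TopologicalSpace G, @IsTopologicalGroup G σ _ ∧ @T2Space G σ ∧
      (∀ s : Set G, @IsOpen G σ s → @IsOpen G τ s) ∧
      ∃ s : Set G, @IsOpen G τ s ∧ ¬ @IsOpen G σ s := by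
  refine ⟨T.basis.topology, T.basis.isTopologicalGroup, ?_, ?_, ?_⟩
  · -- Hausdorff
    apply basis_t2
    intro g hg
    exact T.WW_sep (fun n => hg _ ⟨n, rfl⟩)
  · intro s hs
    rw [basis_isOpen] at hs
    rw [isOpen_iff_mem_nhds]
    intro x hx
    obtain ⟨_, ⟨n, rfl⟩, hn⟩ := hs x hx
    have h2 : (fun z => x * z) '' V n ∈ 𝓝 x := by
      have h3 := (Homeomorph.mulLeft x).isOpenMap.image_mem_nhds (T.Vn n)
      simpa using h3
    apply mem_of_superset h2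
    rintro _ ⟨z, hz, rfl⟩
    exact hn z (T.WW_V n hz)
  · refine ⟨interior (V 0), isOpen_interior, ?_⟩
    intro hcon
    have h1 : (1 : G) ∈ interior (V 0) := mem_interior_iff_mem_nhds.2 (T.Vn 0)
    rw [basis_isOpen] at hcon
    obtain ⟨_, ⟨n, rfl⟩, hn⟩ := hcon 1 h1
    set j := max n (2 ^ n) with hj
    have h3 : y j ∈ WW V y n := by
      refine ⟨1, T.V1 n, j, le_max_left _ _, 1, fun i => if i = j then 1 else 0, ?_, ?_⟩
      · intro i
        show |if i = j then (1 : ℤ) else 0| * 2 ^ n ≤ i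
        by_cases hi : i = j
        · rw [if_pos hi, hi, abs_one, one_mul]
          have : 2 ^ n ≤ j := le_max_right _ _
          exact_mod_cast this
        · rw [if_neg hi]
          simp
      · rw [DD_succ]
        simp
    have h4 : y j ∈ V 0 := by
      have := hn (y j) h3
      rw [one_mul] at this
      exact interior_subset this
    exact T.y1 j h4

end USeq

end Pool.Agent.Lib.Pc4a55f
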