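import Mathlib
import Pool.Agent.Lib.Pc4a55f.USeq

set_option autoImplicit false

/-!
# The key lemma without local compactness

From an ultrafilter `ω` of asymptotically central elements and separating data for the central
elements we obtain a strictly coarser Hausdorff group topology.
-/

namespace Pool.Agent.Lib.Pc4a55f

open Filter Topology Set

/-- data separating a central element from products of asymptotically central elements -/
structure Datum (G : Type*) where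
  f : G → ℂ
  s : ℤ
  O : Set G
  δ : ℝ

/-- the datum works for the ultrafilter `ω` -/
structure Datum.Good {G : Type*} [Group G] [TopologicalSpace G] {P : Type*} (D : Datum G)
    (p : P → G) (ω : Ultrafilter P) : Prop where
  isOpen : IsOpen D.O
  pos : 0 < D.δ
  away : ∀ g ∈ D.O, 2 * D.δ ≤ ‖D.f g‖ ∧ 2 * D.δ ≤ ‖D.f g - D.f 1‖
  lim : ∀ (g : G) (e : ℤ), Tendsto (fun u => D.f (g * p u ^ e)) ω
    (𝓝 (if D.s ∣ e then D.f g else 0))

section

variable {G P : Type*} [Group G] [τ : TopologicalSpace G] [IsTopologicalGroup G]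
  [Group P] [TopologicalSpace P] [IsTopologicalGroup P]

/-- countably many data suffice -/
theorem exists_data [SecondCountableTopology G] (p : P → G) (ω : Ultrafilter P)
    (hD : ∀ z ∈ Subgroup.center G, z ≠ 1 → ∃ D : Datum G, z ∈ D.O ∧ D.Good p ω) :
    ∃ D : ℕ → Datum G, (∀ i, (D i).Good p ω) ∧
      ∀ z ∈ Subgroup.center G, z ≠ 1 → ∃ i, z ∈ (D i).O := by
  classical
  let ι := {z : G // z ∈ Subgroup.center G ∧ z ≠ 1}
  choose D0 hD0 hD0' using fun z : ι => hD z.1 z.2.1 z.2.2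
  obtain ⟨T, hT, hTU⟩ := TopologicalSpace.isOpen_iUnion_countable (fun z : ι => (D0 z).O)
    (fun z => (hD0' z).isOpen)
  have hT' : (insert none (some '' T) : Set (Option ι)).Countable := (hT.image _).insert _
  obtain ⟨F, hF⟩ := hT'.exists_eq_range (insert_nonempty _ _)
  let D1 : Option ι → Datum G := fun o => o.elim ⟨fun _ => 0, 0, ∅, 1⟩ D0
  refine ⟨fun n => D1 (F n), ?_, ?_⟩
  · have hgood : ∀ o : Option ι, (D1 o).Good p ω := by
      intro o
      cases o with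
      | none =>
        refine ⟨isOpen_empty, ?_, ?_, ?_⟩
        · show (0 : ℝ) < 1
          exact one_pos
        · intro g hg
          exact absurd hg (notMem_empty g)
        · intro g e
          show Tendsto (fun _ => (0 : ℂ)) _ (𝓝 (if (0 : ℤ) ∣ e then (0 : ℂ) else 0))
          rw [ite_self]
          exact tendsto_const_nhds
      | some z => exact hD0' z
    exact fun n => hgood (F n)
  · intro z hz hz1
    have h1 : z ∈ ⋃ z : ι, (D0 z).O := mem_iUnion.2 ⟨⟨z, hz, hz1⟩, hD0 ⟨z, hz, hz1⟩⟩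
    rw [← hTU] at h1
    simp only [mem_iUnion] at h1
    obtain ⟨w, hw, hw'⟩ := h1
    have h2 : (some w : Option ι) ∈ range F := by
      rw [← hF]
      exact mem_insert_of_mem _ ⟨w, hw, rfl⟩
    obtain ⟨n, hn⟩ := h2
    refine ⟨n, ?_⟩
    show z ∈ (D1 (F n)).O
    rw [hn]
    exact hw'

theorem tendsto_comm (p : P →* G) (hc : Continuous (fun x : P × G => p x.1 * x.2 * (p x.1)⁻¹))
    (g : G) (e : ℤ) :
    Tendsto (fun u : P => p u ^ e * g * (p u ^ e)⁻¹ * g⁻¹) (𝓝 1) (𝓝 1) := by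
  have h1 : Continuous (fun u : P => p (u ^ e) * g * (p (u ^ e))⁻¹ * g⁻¹) :=
    (hc.comp ((continuous_zpow e).prodMk continuous_const)).mul continuous_const
  have h2 := h1.tendsto 1
  simp only [one_zpow, map_one, one_mul, inv_one, mul_one, mul_inv_cancel] at h2
  refine h2.congr (fun u => ?_)
  rw [map_zpow]

theorem tendsto_comm' (p : P →* G) (hc : Continuous (fun x : P × G => p x.1 * x.2 * (p x.1)⁻¹))
    (g : G) : Tendsto (fun u : P => g * p u * g⁻¹ * (p u)⁻¹) (𝓝 1) (𝓝 1) := by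
  have h1 : Continuous (fun u : P => g * (p u * g⁻¹ * (p u)⁻¹)) :=
    continuous_const.mul (hc.comp (continuous_id.prodMk continuous_const))
  have h2 := h1.tendsto 1
  simp only [map_one, one_mul, inv_one, mul_one, mul_inv_cancel] at h2
  refine h2.congr (fun u => ?_)
  group

theorem tendsto_conj (p : P →* G) (hc : Continuous (fun x : P × G => p x.1 * x.2 * (p x.1)⁻¹)) :
    Tendsto (fun x : P × G => p x.1 * x.2 * (p x.1)⁻¹) (𝓝 1 ×ˢ 𝓝 1) (𝓝 1) := by
  rw [← nhds_prod_eq]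
  have := hc.tendsto (1, 1)
  simpa using this

/-- one step in the choice of the neighbourhoods -/
theorem exists_step (p : P →* G) (hc : Continuous (fun x : P × G => p x.1 * x.2 * (p x.1)⁻¹))
    (b : Set G) (hb : b ∈ 𝓝 (1 : G)) (F : Finset G) (V : Set G) (hV : V ∈ 𝓝 (1 : G))
    (Q : Set P) (hQ : Q ∈ 𝓝 (1 : P)) :
    ∃ V' : Set G, ∃ Q' : Set P, V' ∈ 𝓝 (1 : G) ∧ Q' ∈ 𝓝 (1 : P) ∧ (∀ g ∈ V', g⁻¹ ∈ V') ∧
      (∀ x y z, x ∈ V' → y ∈ V' → z ∈ V' → x * y * z ∈ V) ∧ V' ⊆ b ∧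
      (∀ u v, u ∈ Q' → v ∈ Q' → u * v ∈ Q) ∧
      (∀ u v, u ∈ Q' → v ∈ V' → p u * v * (p u)⁻¹ ∈ V) ∧
      (∀ g ∈ F, ∀ u ∈ Q', g * p u * g⁻¹ * (p u)⁻¹ ∈ V') := by
  obtain ⟨A, hA, C, hC, hAC⟩ := mem_prod_iff.1 (tendsto_conj p hc hV)
  obtain ⟨W, hW, hWV⟩ := exists_nhds_one_split hV
  obtain ⟨W', hW', hWV'⟩ := exists_nhds_one_split hW
  obtain ⟨R, hR, hRQ⟩ := exists_nhds_one_split hQ
  let V0 : Set G := C ∩ (W ∩ (W' ∩ b))
  have hV0 : V0 ∈ 𝓝 (1 : G) := inter_mem hC (inter_mem hW (inter_mem hW' hb))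
  let V' : Set G := V0 ∩ V0⁻¹
  have hV' : V' ∈ 𝓝 (1 : G) := inter_mem hV0 (inv_mem_nhds_one G hV0)
  have hF : ∀ᶠ u in 𝓝 (1 : P), ∀ g ∈ F, g * p u * g⁻¹ * (p u)⁻¹ ∈ V' := by
    rw [eventually_all_finset]
    intro g _
    exact tendsto_comm' p hc g hV'
  refine ⟨V', (A ∩ R) ∩ {u | ∀ g ∈ F, g * p u * g⁻¹ * (p u)⁻¹ ∈ V'}, hV',
    inter_mem (inter_mem hA hR) hF, ?_, ?_, ?_, ?_, ?_, ?_⟩
  · intro g hg
    exact ⟨hg.2, by simpa using hg.1⟩
  · intro x y z hx hy hz
    exact hWV _ (hWV' _ hx.1.2.2.1 _ hy.1.2.2.1) _ hz.1.2.1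
  · intro g hg
    exact hg.1.2.2.2
  · intro u v hu hv
    exact hRQ _ hu.1.2 _ hv.1.2
  · intro u v hu hv
    exact hAC (mk_mem_prod hu.1.1 hv.1.1)
  · intro g hg u hu
    exact hu.2 g hg

/-- the neighbourhoods -/
theorem exists_VQ [SecondCountableTopology G] (p : P →* G)
    (hc : Continuous (fun x : P × G => p x.1 * x.2 * (p x.1)⁻¹)) (V₁ : Set G)
    (hV₁ : V₁ ∈ 𝓝 (1 : G)) :
    ∃ (V : ℕ → Set G) (Q : ℕ → Set P), V 0 ⊆ V₁ ∧ (∀ n, V n ∈ 𝓝 (1 : G)) ∧
      (∀ n, Q n ∈ 𝓝 (1 : P)) ∧ (∀ n, ∀ g ∈ V n, g⁻¹ ∈ V n) ∧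
      (∀ n x y z, x ∈ V (n + 1) → y ∈ V (n + 1) → z ∈ V (n + 1) → x * y * z ∈ V n) ∧
      (∀ W ∈ 𝓝 (1 : G), ∃ n, V n ⊆ W) ∧
      (∀ n u v, u ∈ Q (n + 1) → v ∈ Q (n + 1) → u * v ∈ Q n) ∧
      (∀ n u v, u ∈ Q (n + 1) → v ∈ V (n + 1) → p u * v * (p u)⁻¹ ∈ V n) ∧
      (∀ (g : G) (n : ℕ), ∃ m, ∀ u ∈ Q m, g * p u * g⁻¹ * (p u)⁻¹ ∈ V n) := by
  classical
  obtain ⟨b, hb⟩ := (𝓝 (1 : G)).exists_antitone_basis
  let gs : ℕ → G := TopologicalSpace.denseSeq G
  choose NV NQ h1 h2 h3 h4 h5 h6 h7 h8 using fun (n : ℕ) (x : {x : Set G × Set P //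
      x.1 ∈ 𝓝 (1 : G) ∧ x.2 ∈ 𝓝 (1 : P)}) =>
    exists_step p hc (b n) (hb.mem n) ((Finset.range (n + 1)).image gs) x.1.1 x.2.1 x.1.2 x.2.2
  let st : ℕ → {x : Set G × Set P // x.1 ∈ 𝓝 (1 : G) ∧ x.2 ∈ 𝓝 (1 : P)} := fun n =>
    Nat.rec ⟨(V₁ ∩ V₁⁻¹, univ), inter_mem hV₁ (inv_mem_nhds_one G hV₁), univ_mem⟩
      (fun n x => ⟨(NV n x, NQ n x), h1 n x, h2 n x⟩) n
  have hst : ∀ n, st (n + 1) = ⟨(NV n (st n), NQ n (st n)), h1 n (st n), h2 n (st n)⟩ :=
    fun n => rfl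
  let V : ℕ → Set G := fun n => (st n).1.1
  let Q : ℕ → Set P := fun n => (st n).1.2
  have hVs : ∀ n, V (n + 1) = NV n (st n) := fun n => rfl
  have hQs : ∀ n, Q (n + 1) = NQ n (st n) := fun n => rfl
  have hV : ∀ n, V n ∈ 𝓝 (1 : G) := fun n => (st n).2.1
  have hQ : ∀ n, Q n ∈ 𝓝 (1 : P) := fun n => (st n).2.2
  have hVinv : ∀ n, ∀ g ∈ V n, g⁻¹ ∈ V n := by
    intro n
    cases n with
    | zero =>
      intro g hg
      exact ⟨hg.2, by simpa using hg.1⟩
    | succ n => exact h3 n (st n)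
  have hmul : ∀ n x y z, x ∈ V (n + 1) → y ∈ V (n + 1) → z ∈ V (n + 1) → x * y * z ∈ V n :=
    fun n => h4 n (st n)
  have hVsub : ∀ n, V (n + 1) ⊆ V n := by
    intro n x hx
    have := hmul n x 1 1 hx (mem_of_mem_nhds (hV (n + 1))) (mem_of_mem_nhds (hV (n + 1)))
    simpa using this
  have hVanti : ∀ {m n : ℕ}, m ≤ n → V n ⊆ V m := by
    intro m n h
    induction h with
    | refl => exact subset_rfl
    | step _ ih => exact (hVsub _).trans ih
  have hQmul : ∀ n u v, u ∈ Q (n + 1) → v ∈ Q (n + 1) → u * v ∈ Q n := fun n => h6 n (st n)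
  have hQsub : ∀ n, Q (n + 1) ⊆ Q n := by
    intro n x hx
    have := hQmul n x 1 hx (mem_of_mem_nhds (hQ (n + 1)))
    simpa using this
  have hQanti : ∀ {m n : ℕ}, m ≤ n → Q n ⊆ Q m := by
    intro m n h
    induction h with
    | refl => exact subset_rfl
    | step _ ih => exact (hQsub _).trans ih
  have hconj : ∀ n u v, u ∈ Q (n + 1) → v ∈ V (n + 1) → p u * v * (p u)⁻¹ ∈ V n :=
    fun n => h7 n (st n)
  refine ⟨V, Q, inter_subset_left, hV, hQ, hVinv, hmul, ?_, hQmul, hconj, ?_⟩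
  · intro W hW
    obtain ⟨n, -, hn⟩ := hb.toHasBasis.mem_iff.1 hW
    exact ⟨n + 1, (h5 n (st n)).trans hn⟩
  · intro g n
    have hopen : IsOpen {x : G | g * x⁻¹ ∈ interior (V (n + 2))} :=
      isOpen_interior.preimage (by fun_prop)
    obtain ⟨i, hi⟩ := (TopologicalSpace.denseRange_denseSeq G).exists_mem_open hopen
      ⟨g, by
        show g * g⁻¹ ∈ interior (V (n + 2))
        rw [mul_inv_cancel]
        exact mem_interior_iff_mem_nhds.2 (hV (n + 2))⟩
    have hi' : g * (gs i)⁻¹ ∈ V (n + 2) := interior_subset hi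
    refine ⟨max (i + 1) (n + 2), ?_⟩
    intro u hu
    have h9 : gs i * p u * (gs i)⁻¹ * (p u)⁻¹ ∈ V (n + 1) := by
      obtain ⟨m, hm⟩ : ∃ m, max (i + 1) (n + 2) = m + 1 := ⟨max (i + 1) (n + 2) - 1, by omega⟩
      rw [hm] at hu
      have h10 := h8 m (st m) (gs i) (Finset.mem_image_of_mem _ (Finset.mem_range.2 (by omega)))
        u hu
      have h13 : n + 1 ≤ m + 1 := by omega
      exact hVanti h13 h10
    have h11 : p u * (g * (gs i)⁻¹)⁻¹ * (p u)⁻¹ ∈ V (n + 1) :=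
      hconj (n + 1) u _ (hQanti (le_max_right _ _) hu) (hVinv (n + 2) _ hi')
    have h12 : g * p u * g⁻¹ * (p u)⁻¹ = (g * (gs i)⁻¹) * (gs i * p u * (gs i)⁻¹ * (p u)⁻¹) *
        (p u * (g * (gs i)⁻¹)⁻¹ * (p u)⁻¹) := by group
    rw [h12]
    exact hmul n _ _ _ (hVsub _ hi') h9 h11

/-- choice of the next element -/
theorem exists_u (p : P →* G) (hc : Continuous (fun x : P × G => p x.1 * x.2 * (p x.1)⁻¹))
    (ω : Ultrafilter P) (hω : (ω : Filter P) ≤ 𝓝 1) {V₀ : Set G} (hsep : ∀ᶠ u in ω, p u ∉ V₀)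
    (D : ℕ → Datum G) (hD : ∀ i, (D i).Good p ω) (a : ℕ) (S : Finset G) {W : Set G}
    (hW : W ∈ 𝓝 (1 : G)) {R : Set P} (hR : R ∈ 𝓝 (1 : P)) :
    ∃ u : P, (∀ e : ℤ, |e| ≤ a → u ^ e ∈ R) ∧
      (∀ e : ℤ, |e| ≤ a → ∀ g ∈ S, p u ^ e * g * (p u ^ e)⁻¹ * g⁻¹ ∈ W) ∧ p u ∉ V₀ ∧
      (∀ e : ℤ, |e| ≤ a → ∀ d ∈ S, ∀ i ≤ a,
        ‖(D i).f (d * p u ^ e) - (if (D i).s ∣ e then (D i).f d else 0)‖ <
          (D i).δ / 2 ^ (a + 1)) := by
  have h1 : ∀ᶠ u in (ω : Filter P), ∀ e ∈ Finset.Icc (-(a : ℤ)) a, u ^ e ∈ R := by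
    rw [eventually_all_finset]
    intro e _
    apply hω
    have := (continuous_zpow (G := P) e).tendsto 1
    rw [one_zpow] at this
    exact this hR
  have h2 : ∀ᶠ u in (ω : Filter P), ∀ e ∈ Finset.Icc (-(a : ℤ)) a, ∀ g ∈ S,
      p u ^ e * g * (p u ^ e)⁻¹ * g⁻¹ ∈ W := by
    rw [eventually_all_finset]
    intro e _
    rw [eventually_all_finset]
    intro g _
    exact hω (tendsto_comm p hc g e hW)
  have h3 : ∀ᶠ u in (ω : Filter P), ∀ e ∈ Finset.Icc (-(a : ℤ)) a, ∀ d ∈ S,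
      ∀ i ∈ Finset.range (a + 1),
        ‖(D i).f (d * p u ^ e) - (if (D i).s ∣ e then (D i).f d else 0)‖ <
          (D i).δ / 2 ^ (a + 1) := by
    rw [eventually_all_finset]
    intro e _
    rw [eventually_all_finset]
    intro d _
    rw [eventually_all_finset]
    intro i _
    have h4 := (hD i).lim d e
    have h5 : 0 < (D i).δ / 2 ^ (a + 1) := div_pos (hD i).pos (by positivity)
    have h6 := (Metric.tendsto_nhds.1 h4) _ h5
    filter_upwards [h6] with u hu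
    rwa [dist_eq_norm] at hu
  obtain ⟨u, hu1, hu2, hu3, hu4⟩ := (h1.and (h2.and (hsep.and h3))).exists
  refine ⟨u, fun e he => hu1 e (Finset.mem_Icc.2 (abs_le.1 he)),
    fun e he => hu2 e (Finset.mem_Icc.2 (abs_le.1 he)), hu3, ?_⟩
  intro e he d hd i hi
  exact hu4 e (Finset.mem_Icc.2 (abs_le.1 he)) d hd i (Finset.mem_range.2 (by omega))

theorem UKL [T2Space G] [SecondCountableTopology G] (p : P →* G)
    (hc : Continuous (fun x : P × G => p x.1 * x.2 * (p x.1)⁻¹))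
    (ω : Ultrafilter P) (hω : (ω : Filter P) ≤ 𝓝 1) {V₁ : Set G} (hV₁ : V₁ ∈ 𝓝 (1 : G))
    (hsep : ∀ᶠ u in ω, p u ∉ V₁)
    (hD : ∀ z ∈ Subgroup.center G, z ≠ 1 → ∃ D : Datum G, z ∈ D.O ∧ D.Good p ω) :
    ∃ σ : TopologicalSpace G, @IsTopologicalGroup G σ _ ∧ @T2Space G σ ∧
      (∀ s : Set G, @IsOpen G σ s → @IsOpen G τ s) ∧
      ∃ s : Set G, @IsOpen G τ s ∧ ¬ @IsOpen G σ s := by
  classical
  obtain ⟨D, hDg, hDc⟩ := exists_data p ω hD
  obtain ⟨V, Q, hV0, hV, hQ, hVinv, hmul, hbasis, hQmul, hconj, hCD⟩ := exists_VQ p hc V₁ hV₁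
  have hVsub : ∀ n, V (n + 1) ⊆ V n := by
    intro n x hx
    have := hmul n x 1 1 hx (mem_of_mem_nhds (hV (n + 1))) (mem_of_mem_nhds (hV (n + 1)))
    simpa using this
  have hVanti : ∀ {m n : ℕ}, m ≤ n → V n ⊆ V m := by
    intro m n h
    induction h with
    | refl => exact subset_rfl
    | step _ ih => exact (hVsub _).trans ih
  have hQsub : ∀ n, Q (n + 1) ⊆ Q n := by
    intro n x hx
    have := hQmul n x 1 hx (mem_of_mem_nhds (hQ (n + 1)))
    simpa using this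
  have hQanti : ∀ {m n : ℕ}, m ≤ n → Q n ⊆ Q m := by
    intro m n h
    induction h with
    | refl => exact subset_rfl
    | step _ ih => exact (hQsub _).trans ih
  choose U hU1 hU2 hU3 hU4 using fun (a : ℕ) (S : Finset G) =>
    exists_u p hc ω hω (V₀ := V 0) (hsep.mono fun u hu hu' => hu (hV0 hu')) D hDg a S
      (hV (2 * a + 1)) (hQ (2 * a + 2))
  let nx : ℕ → Finset G → Finset G := fun a S =>
    Finset.image₂ (fun d (e : ℤ) => d * p (U a S) ^ e) S (Finset.Icc (-(a : ℤ)) a)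
  let S : ℕ → Finset G := fun n => Nat.rec {1} (fun a S => nx a S) n
  have hS : ∀ n, S (n + 1) = nx n (S n) := fun n => rfl
  let u : ℕ → P := fun n => U n (S n)
  let y : ℕ → G := fun n => p (u n)
  have hSy : ∀ n d (e : ℤ), d ∈ S n → |e| ≤ n → d * y n ^ e ∈ S (n + 1) := by
    intro n d e hd he
    rw [hS]
    exact Finset.mem_image₂_of_mem hd (Finset.mem_Icc.2 (abs_le.1 he))
  have hSsub : ∀ n, S n ⊆ S (n + 1) := by
    intro n d hd
    have := hSy n d 0 hd (by simp)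
    simpa using this
  have hSmono : ∀ {m n : ℕ}, m ≤ n → S m ⊆ S n := by
    intro m n h
    induction h with
    | refl => exact subset_rfl
    | step _ ih => exact ih.trans (hSsub _)
  have hS1 : ∀ n, (1 : G) ∈ S n := fun n => hSmono (Nat.zero_le n) (Finset.mem_singleton_self 1)
  have hDDsucc : ∀ (e : ℕ → ℤ) (b k : ℕ), DD y e b (k + 1) = DD y e b k * y (b + k) ^ e (b + k) := by
    intro e b k
    rw [DD_add, DD_succ, DD_zero, mul_one]
  have hDS : ∀ (e : ℕ → ℤ) (b k : ℕ), (∀ i : ℕ, |e i| ≤ i) → DD y e b k ∈ S (b + k) := by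
    intro e b k he
    induction k with
    | zero => exact hS1 _
    | succ k ih =>
      rw [hDDsucc]
      exact hSy (b + k) _ _ ih (he _)
  have hDQ : ∀ (e : ℕ → ℤ), (∀ i : ℕ, |e i| ≤ i) → ∀ (k a : ℕ),
      ∃ q ∈ Q (2 * a), DD y e a k = p q := by
    intro e he k
    induction k with
    | zero =>
      intro a
      exact ⟨1, mem_of_mem_nhds (hQ _), by simp⟩
    | succ k ih =>
      intro a
      obtain ⟨q, hq, h⟩ := ih (a + 1)
      refine ⟨u a ^ e a * q, ?_, ?_⟩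
      · apply hQmul (2 * a)
        · exact hQanti (by omega) (hU1 a (S a) (e a) (he a))
        · exact hQanti (by omega) hq
      · rw [DD_succ, h, map_mul, map_zpow]
  have T : USeq V y := by
    constructor
    · exact hV
    · exact hVinv
    · exact hmul
    · exact hbasis
    · intro a j e e' hj he he'
      have h1 : y j ^ e' ∈ S a := by
        have := hSy j 1 e' (hS1 j) he'
        rw [one_mul] at this
        exact hSmono hj this
      exact hU2 a (S a) e he _ h1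
    · intro a e v he hv
      have h1 := hconj (2 * a + 1) (u a ^ e) v (hU1 a (S a) e he) hv
      rw [map_zpow] at h1
      exact h1
    · intro n a k e v he hn hv
      obtain ⟨q, hq, h⟩ := hDQ e he k a
      rw [h]
      exact hconj n q v (hQanti (by omega) hq) hv
    · intro g n
      obtain ⟨m, hm⟩ := hCD g n
      refine ⟨m, ?_⟩
      intro a k e he ha
      obtain ⟨q, hq, h⟩ := hDQ e he k a
      rw [h]
      exact hm q (hQanti (by omega) hq)
    · intro z hz hz1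
      obtain ⟨i, hi⟩ := hDc z hz hz1
      have h1 : (fun v : G => v⁻¹ * z) ⁻¹' (D i).O ∈ 𝓝 (1 : G) := by
        have h2 : Continuous (fun v : G => v⁻¹ * z) := by fun_prop
        apply h2.continuousAt.preimage_mem_nhds
        rw [inv_one, one_mul]
        exact (hDg i).isOpen.mem_nhds hi
      obtain ⟨n0, hn0⟩ := hbasis _ h1
      refine ⟨max n0 i, ?_⟩
      intro v hv a k e he ha hcon
      have h3 : DD y e a k ∈ (D i).O := by
        have h4 : v⁻¹ * z ∈ (D i).O := hn0 (hVanti (le_max_left _ _) hv)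
        have h5 : v⁻¹ * z = DD y e a k := by rw [hcon]; group
        rwa [h5] at h4
      have hia : i ≤ a := le_trans (le_max_right _ _) ha
      have claim : ∀ k, ∃ c : ℂ, (c = 0 ∨ c = (D i).f 1) ∧
          ‖(D i).f (DD y e a k) - c‖ ≤ (D i).δ * (1 / 2 ^ a - 1 / 2 ^ (a + k)) := by
        intro k
        induction k with
        | zero => exact ⟨(D i).f 1, Or.inr rfl, by simp⟩
        | succ k ih =>
          obtain ⟨c, hc1, hc2⟩ := ih
          have h6 := hU4 (a + k) (S (a + k)) (e (a + k)) (he _) _ (hDS e a k he) i (by omega)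
          rw [hDDsucc]
          have hpos := (hDg i).pos
          have h7 : (1 : ℝ) / 2 ^ (a + k) = 2 * (1 / 2 ^ (a + k + 1)) := by
            rw [pow_succ]; field_simp
          have h8 : (1 : ℝ) / 2 ^ (a + k) ≤ 1 / 2 ^ a := by
            apply one_div_le_one_div_of_le (by positivity)
            exact pow_le_pow_right₀ (by norm_num) (by omega)
          by_cases hs : (D i).s ∣ e (a + k)
          · rw [if_pos hs] at h6
            refine ⟨c, hc1, ?_⟩
            calc ‖(D i).f (DD y e a k * y (a + k) ^ e (a + k)) - c‖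
                ≤ ‖(D i).f (DD y e a k * y (a + k) ^ e (a + k)) - (D i).f (DD y e a k)‖ +
                  ‖(D i).f (DD y e a k) - c‖ := norm_sub_le_norm_sub_add_norm_sub _ _ _
              _ ≤ (D i).δ / 2 ^ (a + k + 1) +
                  (D i).δ * (1 / 2 ^ a - 1 / 2 ^ (a + k)) := add_le_add h6.le hc2
              _ = (D i).δ * (1 / 2 ^ a - 1 / 2 ^ (a + (k + 1))) := by
                  rw [h7, show a + (k + 1) = a + k + 1 by ring]; ring
          · rw [if_neg hs] at h6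
            refine ⟨0, Or.inl rfl, ?_⟩
            calc ‖(D i).f (DD y e a k * y (a + k) ^ e (a + k)) - 0‖
                ≤ (D i).δ / 2 ^ (a + k + 1) := h6.le
              _ = (D i).δ * (1 / 2 ^ (a + k + 1)) := by ring
              _ ≤ (D i).δ * (1 / 2 ^ a - 1 / 2 ^ (a + (k + 1))) := by
                  apply mul_le_mul_of_nonneg_left _ hpos.le
                  rw [show a + (k + 1) = a + k + 1 by ring]
                  linarith
      obtain ⟨c, hc1, hc2⟩ := claim k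
      have hpos := (hDg i).pos
      have h9 : (D i).δ * (1 / 2 ^ a - 1 / 2 ^ (a + k)) ≤ (D i).δ := by
        have h10 : (1 : ℝ) / 2 ^ a ≤ 1 := by
          rw [div_le_one (by positivity)]
          exact one_le_pow₀ (by norm_num)
        have h11 : (0 : ℝ) < 1 / 2 ^ (a + k) := by positivity
        nlinarith
      have h12 := (hDg i).away _ h3
      rcases hc1 with rfl | rfl
      · rw [sub_zero] at hc2
        linarith [h12.1]
      · linarith [h12.2]
    · intro n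
      exact hU3 n (S n)
  exact T.coarser

end

end Pool.Agent.Lib.Pc4a55f
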