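import Mathlib
import Pool.Agent.Lib.Pc4a55f.UKL

set_option autoImplicit false

/-!
# Unitary representations and idempotent ultrafilters

If `ω` is an idempotent ultrafilter of asymptotically central elements then a unitary
representation which is nontrivial at a central element `z` gives separating data for `z`.
-/

namespace Pool.Agent.Lib.Pc4a55f

open Filter Topology Set
open scoped InnerProductSpace

section weak

variable {H : Type*} [NormedAddCommGroup H] [InnerProductSpace ℂ H]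

theorem exists_weak_lim [CompleteSpace H] {α : Type*} (ω : Ultrafilter α) (x : α → H) (M : ℝ)
    (hx : ∀ a, ‖x a‖ ≤ M) :
    ∃ ζ : H, ∀ η : H, Tendsto (fun a => ⟪x a, η⟫_ℂ) ω (𝓝 ⟪ζ, η⟫_ℂ) := by
  let Φ : α → WeakDual ℂ H := fun a => StrongDual.toWeakDual (InnerProductSpace.toDual ℂ H (x a))
  have hK := WeakDual.isCompact_closedBall (𝕜 := ℂ) (E := H) 0 M
  obtain ⟨φ, -, hφ⟩ := hK.ultrafilter_le_nhds (ω.map Φ) (by
    rw [le_principal_iff]
    show Φ ⁻¹' _ ∈ (ω : Filter α)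
    apply univ_mem'
    intro a
    show InnerProductSpace.toDual ℂ H (x a) ∈ Metric.closedBall (0 : StrongDual ℂ H) M
    rw [mem_closedBall_zero_iff, LinearIsometryEquiv.norm_map]
    exact hx a)
  have hφ' : Tendsto Φ ω (𝓝 φ) := hφ
  refine ⟨(InnerProductSpace.toDual ℂ H).symm (WeakDual.toStrongDual φ), ?_⟩
  intro η
  rw [InnerProductSpace.toDual_symm_apply]
  exact ((WeakDual.eval_continuous η).tendsto φ).comp hφ'

end weak

section

variable {G P : Type*} [Group G] [TopologicalSpace G] [IsTopologicalGroup G]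
  [Group P] [TopologicalSpace P] [IsTopologicalGroup P]

theorem tendsto_conj' (p : P →* G) (hc : Continuous (fun x : P × G => p x.1 * x.2 * (p x.1)⁻¹))
    {α : Type*} {l : Filter α} {w : α → P} {v : α → G} {c : G} (hw : Tendsto w l (𝓝 1))
    (hv : Tendsto v l (𝓝 c)) : Tendsto (fun a => p (w a) * v a * (p (w a))⁻¹) l (𝓝 c) := by
  have h1 : Tendsto (fun a => p (w a) * v a * (p (w a))⁻¹) l (𝓝 (p 1 * c * (p 1)⁻¹)) :=
    (hc.tendsto (1, c)).comp (hw.prodMk_nhds hv)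
  rwa [map_one, one_mul, inv_one, mul_one] at h1

theorem tendsto_zpow_one (e : ℤ) : Tendsto (fun u : P => u ^ e) (𝓝 1) (𝓝 1) := by
  have := (continuous_zpow (G := P) e).tendsto 1
  rwa [one_zpow] at this

theorem pow_factor (p : P →* G) (hc : Continuous (fun x : P × G => p x.1 * x.2 * (p x.1)⁻¹))
    (g : G) (n : ℕ) :
    Tendsto (fun u : P => (p u ^ n)⁻¹ * (g ^ n)⁻¹ * (g * p u) ^ n) (𝓝 1) (𝓝 1) := by
  induction n with
  | zero => simpa using tendsto_const_nhds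
  | succ n ih =>
    have h1 : Tendsto (fun u : P => (p u ^ n)⁻¹ * g⁻¹ * p u ^ n) (𝓝 1) (𝓝 g⁻¹) := by
      have h2 := tendsto_conj' p hc (tendsto_zpow_one (P := P) (-(n : ℤ)))
        (tendsto_const_nhds (x := g⁻¹))
      refine h2.congr (fun u => ?_)
      rw [map_zpow, zpow_neg, inv_inv, zpow_natCast]
    have h3 : Tendsto (fun u : P => (p u ^ n)⁻¹ * g⁻¹ * p u ^ n *
        ((p u ^ n)⁻¹ * (g ^ n)⁻¹ * (g * p u) ^ n) * g) (𝓝 1) (𝓝 1) := by
      have := (h1.mul ih).mul_const g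
      simpa using this
    have h4 := tendsto_conj' p hc (tendsto_zpow_one (P := P) (-1)) h3
    refine h4.congr (fun u => ?_)
    rw [map_zpow, zpow_neg_one, pow_succ (p u), pow_succ g, pow_succ (g * p u)]
    group

theorem zpow_factor (p : P →* G) (hc : Continuous (fun x : P × G => p x.1 * x.2 * (p x.1)⁻¹))
    (g : G) (e : ℤ) :
    Tendsto (fun u : P => (p u ^ e)⁻¹ * (g ^ e)⁻¹ * (g * p u) ^ e) (𝓝 1) (𝓝 1) := by
  obtain ⟨n, rfl | rfl⟩ := e.eq_nat_or_neg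
  · simpa using pow_factor p hc g n
  · have h1 : Tendsto (fun u : P => g ^ n * ((p u ^ n)⁻¹ * (g ^ n)⁻¹ * (g * p u) ^ n)⁻¹) (𝓝 1)
        (𝓝 (g ^ n)) := by
      have := (pow_factor p hc g n).inv.const_mul (g ^ n)
      simpa using this
    have h2 := (tendsto_conj' p hc (tendsto_zpow_one (P := P) (n : ℤ)) h1).mul_const (g ^ n)⁻¹
    rw [mul_inv_cancel] at h2
    refine h2.congr (fun u => ?_)
    rw [map_zpow, zpow_neg, zpow_neg, zpow_neg, zpow_natCast, zpow_natCast, zpow_natCast]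
    group

/-- separating data from an open subgroup -/
theorem exists_datum_open (p : P →* G)
    (hc : Continuous (fun x : P × G => p x.1 * x.2 * (p x.1)⁻¹)) {ω : Ultrafilter P}
    (hω : (ω : Filter P) ≤ 𝓝 1)
    (hidem : ∀ q : P → Prop, (∀ᶠ m in ω, q m) → ∀ᶠ m in ω, ∀ᶠ m' in ω, q (m * m'))
    (V : OpenSubgroup G) {z : G} (hz : z ∉ V) : ∃ D : Datum G, z ∈ D.O ∧ D.Good p ω := by
  classical
  let S : AddSubgroup ℤ :=
    { carrier := {e | ∀ᶠ u in ω, p u ^ e ∈ V}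
      add_mem' := by
        intro a b ha hb
        have ha' : ∀ᶠ u in ω, p u ^ a ∈ V := ha
        have hb' : ∀ᶠ u in ω, p u ^ b ∈ V := hb
        show ∀ᶠ u in ω, p u ^ (a + b) ∈ V
        filter_upwards [ha', hb'] with u h1 h2
        rw [zpow_add]
        exact mul_mem h1 h2
      zero_mem' := by
        show ∀ᶠ u in ω, p u ^ (0 : ℤ) ∈ V
        simp [one_mem]
      neg_mem' := by
        intro a ha
        have ha' : ∀ᶠ u in ω, p u ^ a ∈ V := ha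
        show ∀ᶠ u in ω, p u ^ (-a) ∈ V
        filter_upwards [ha'] with u h1
        rw [zpow_neg]
        exact inv_mem h1 }
  have hS : ∀ e, e ∈ S ↔ ∀ᶠ u in ω, p u ^ e ∈ V := fun e => Iff.rfl
  obtain ⟨s, hs⟩ := Int.subgroup_cyclic S
  have hdvd : ∀ e, s ∣ e ↔ ∀ᶠ u in ω, p u ^ e ∈ V := by
    intro e
    rw [← hS, hs, ← AddSubgroup.zmultiples_eq_closure, Int.mem_zmultiples_iff]
  let f : G → ℂ := fun g => if z⁻¹ * g ∈ V then 1 else 0
  refine ⟨⟨f, s, {g | z⁻¹ * g ∈ V}, 1 / 4⟩, ?_, ?_, ?_, ?_, ?_⟩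
  · show z⁻¹ * z ∈ V
    rw [inv_mul_cancel]
    exact one_mem V
  · exact V.isOpen.preimage (continuous_const.mul continuous_id)
  · norm_num
  · intro g hg
    have h1 : f g = 1 := if_pos hg
    have h2 : f 1 = 0 := by
      apply if_neg
      rw [mul_one]
      exact fun h => hz (by simpa using inv_mem h)
    show 2 * (1 / 4 : ℝ) ≤ ‖f g‖ ∧ 2 * (1 / 4 : ℝ) ≤ ‖f g - f 1‖
    rw [h1, h2]
    norm_num
  · intro g e
    show Tendsto (fun u => f (g * p u ^ e)) ω (𝓝 (if s ∣ e then f g else 0))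
    split_ifs with he
    · rw [hdvd] at he
      apply tendsto_const_nhds.congr'
      filter_upwards [he] with u hu
      have h1 : z⁻¹ * (g * p u ^ e) ∈ V ↔ z⁻¹ * g ∈ V := by
        rw [← mul_assoc]
        exact mul_mem_cancel_right hu
      show f g = f (g * p u ^ e)
      simp only [f, h1]
    · have h1 : ∀ᶠ u in ω, z⁻¹ * (g * p u ^ e) ∉ V := by
        rw [Ultrafilter.eventually_not]
        intro hcon
        apply he
        rw [hdvd]
        obtain ⟨u, hu1, hu2⟩ := (hcon.and (hidem _ hcon)).exists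
        have h2 : ∀ᶠ v in ω, (p v ^ e)⁻¹ * (p u ^ e)⁻¹ * (p u * p v) ^ e ∈ V :=
          ((zpow_factor p hc (p u) e).mono_left hω) (V.mem_nhds_one)
        filter_upwards [hu2, h2] with v hv1 hv2
        have h3 : z⁻¹ * (g * p (u * v) ^ e) = z⁻¹ * (g * p u ^ e) * (p v ^ e *
            ((p v ^ e)⁻¹ * (p u ^ e)⁻¹ * (p u * p v) ^ e)) := by
          rw [map_mul]
          group
        rw [h3] at hv1
        have h4 := (mul_mem_cancel_left hu1).1 hv1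
        exact (mul_mem_cancel_right hv2).1 h4
      apply tendsto_const_nhds.congr'
      filter_upwards [h1] with u hu
      exact (if_neg hu).symm

variable {H : Type*} [NormedAddCommGroup H] [InnerProductSpace ℂ H]

theorem norm_rep (π : G →* (H ≃ₗᵢ[ℂ] H)) (g : G) (ξ : H) : ‖π g ξ‖ = ‖ξ‖ :=
  (π g).norm_map ξ

theorem rep_mul (π : G →* (H ≃ₗᵢ[ℂ] H)) (g h : G) (ξ : H) : π (g * h) ξ = π g (π h ξ) := by
  rw [map_mul]
  rfl

theorem rep_one (π : G →* (H ≃ₗᵢ[ℂ] H)) (ξ : H) : π 1 ξ = ξ := by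
  rw [map_one]
  rfl

theorem rep_inner (π : G →* (H ≃ₗᵢ[ℂ] H)) (g : G) (ξ η : H) : ⟪π g ξ, η⟫_ℂ = ⟪ξ, π g⁻¹ η⟫_ℂ := by
  rw [← (π g).inner_map_map ξ (π g⁻¹ η), ← rep_mul, mul_inv_cancel, rep_one]

theorem rep_inner' (π : G →* (H ≃ₗᵢ[ℂ] H)) (g : G) (ξ η : H) :
    ⟪π g⁻¹ ξ, η⟫_ℂ = ⟪ξ, π g η⟫_ℂ := by
  rw [rep_inner, inv_inv]

/-- the vectors fixed in the limit by the powers `p u ^ e` -/
def Fx (p : P →* G) (ω : Ultrafilter P) (π : G →* (H ≃ₗᵢ[ℂ] H)) (e : ℤ) : Submodule ℂ H where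
  carrier := {ξ | Tendsto (fun u => π (p u ^ e) ξ) ω (𝓝 ξ)}
  add_mem' := by
    intro a b ha hb
    have := Tendsto.add ha hb
    simpa using this
  zero_mem' := by
    simp
  smul_mem' := by
    intro c a ha
    have := Tendsto.const_smul ha c
    simpa using this

variable (p : P →* G) (ω : Ultrafilter P) (π : G →* (H ≃ₗᵢ[ℂ] H))

theorem mem_Fx {e : ℤ} {ξ : H} :
    ξ ∈ Fx p ω π e ↔ Tendsto (fun u => π (p u ^ e) ξ) ω (𝓝 ξ) := Iff.rfl

theorem isClosed_Fx (e : ℤ) : IsClosed (Fx p ω π e : Set H) := by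
  rw [← isSeqClosed_iff_isClosed]
  intro x ξ hx hxξ
  show Tendsto (fun u => π (p u ^ e) ξ) ω (𝓝 ξ)
  rw [Metric.tendsto_nhds]
  intro ε hε
  obtain ⟨n, hn⟩ := ((Metric.tendsto_nhds.1 hxξ) (ε / 3) (by positivity)).exists
  have h1 : Tendsto (fun u => π (p u ^ e) (x n)) ω (𝓝 (x n)) := hx n
  filter_upwards [(Metric.tendsto_nhds.1 h1) (ε / 3) (by positivity)] with u hu
  calc dist (π (p u ^ e) ξ) ξ ≤ dist (π (p u ^ e) ξ) (π (p u ^ e) (x n)) +
        dist (π (p u ^ e) (x n)) (x n) + dist (x n) ξ := dist_triangle4 _ _ _ _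
    _ < ε / 3 + ε / 3 + ε / 3 := by
        rw [(π (p u ^ e)).dist_map, dist_comm ξ]
        exact add_lt_add (add_lt_add hn hu) hn
    _ = ε := by ring

theorem Fx_neg {e : ℤ} {ξ : H} (h : ξ ∈ Fx p ω π e) : ξ ∈ Fx p ω π (-e) := by
  rw [mem_Fx, tendsto_iff_norm_sub_tendsto_zero] at h ⊢
  refine h.congr (fun u => ?_)
  rw [zpow_neg, ← norm_rep π (p u ^ e)⁻¹ (π (p u ^ e) ξ - ξ), map_sub, ← rep_mul, inv_mul_cancel,
    rep_one, norm_sub_rev]

theorem Fx_add {e e' : ℤ} {ξ : H} (h : ξ ∈ Fx p ω π e) (h' : ξ ∈ Fx p ω π e') :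
    ξ ∈ Fx p ω π (e + e') := by
  rw [mem_Fx, tendsto_iff_norm_sub_tendsto_zero] at h h' ⊢
  have h1 := h.add h'
  rw [add_zero] at h1
  refine squeeze_zero (fun _ => norm_nonneg _) (fun u => ?_) h1
  rw [zpow_add, rep_mul]
  have h2 : π (p u ^ e) (π (p u ^ e') ξ) - ξ =
      (π (p u ^ e) ξ - ξ) + π (p u ^ e) (π (p u ^ e') ξ - ξ) := by
    rw [map_sub]
    abel
  rw [h2]
  refine (norm_add_le _ _).trans ?_
  rw [norm_rep]

theorem Fx_zero (ξ : H) : ξ ∈ Fx p ω π 0 := by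
  rw [mem_Fx]
  simp only [zpow_zero, rep_one]
  exact tendsto_const_nhds

/-- the exponents fixing a vector form a subgroup -/
def Ex (ξ : H) : AddSubgroup ℤ where
  carrier := {e | ξ ∈ Fx p ω π e}
  add_mem' := fun h h' => Fx_add p ω π h h'
  zero_mem' := Fx_zero p ω π ξ
  neg_mem' := fun h => Fx_neg p ω π h

theorem Fx_mul {e : ℤ} {ξ : H} (h : ξ ∈ Fx p ω π e) (k : ℤ) : ξ ∈ Fx p ω π (k * e) := by
  have h1 : k • e ∈ Ex p ω π ξ := AddSubgroup.zsmul_mem _ h k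
  rw [smul_eq_mul] at h1
  exact h1

theorem Fx_gcd {e e' : ℤ} {ξ : H} (h : ξ ∈ Fx p ω π e) (h' : ξ ∈ Fx p ω π e') :
    ξ ∈ Fx p ω π (Int.gcd e e') := by
  rw [Int.gcd_eq_gcd_ab]
  apply Fx_add
  · rw [mul_comm]
    exact Fx_mul p ω π h _
  · rw [mul_comm]
    exact Fx_mul p ω π h' _

variable {ω}

theorem Fx_rep (hc : Continuous (fun x : P × G => p x.1 * x.2 * (p x.1)⁻¹))
    (hω : (ω : Filter P) ≤ 𝓝 1) (hπ : ∀ ξ, Continuous fun g => π g ξ) {e : ℤ} {ξ : H}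
    (h : ξ ∈ Fx p ω π e) (g : G) : π g ξ ∈ Fx p ω π e := by
  rw [mem_Fx] at h ⊢
  have h1 : Tendsto (fun u : P => g⁻¹ * p u ^ e * g * (p u ^ e)⁻¹) ω (𝓝 1) := by
    have h2 := (tendsto_conj' p hc ((tendsto_zpow_one e).mono_left hω)
      (tendsto_const_nhds (x := g))).const_mul g⁻¹
    rw [inv_mul_cancel] at h2
    refine h2.congr (fun u => ?_)
    rw [map_zpow]
    group
  have h3 : Tendsto (fun u : P => π (g⁻¹ * p u ^ e * g * (p u ^ e)⁻¹) ξ) ω (𝓝 ξ) := by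
    have := ((hπ ξ).tendsto 1).comp h1
    rwa [rep_one] at this
  have h4 : Tendsto (fun u : P => π (g⁻¹ * p u ^ e * g * (p u ^ e)⁻¹) (π (p u ^ e) ξ)) ω (𝓝 ξ) := by
    rw [tendsto_iff_norm_sub_tendsto_zero] at h h3 ⊢
    have h5 := h.add h3
    rw [add_zero] at h5
    refine squeeze_zero (fun _ => norm_nonneg _) (fun u => ?_) h5
    set c := g⁻¹ * p u ^ e * g * (p u ^ e)⁻¹ with hcdef
    have h6 : π c (π (p u ^ e) ξ) - ξ = π c (π (p u ^ e) ξ - ξ) + (π c ξ - ξ) := by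
      rw [map_sub]
      abel
    rw [h6]
    refine (norm_add_le _ _).trans ?_
    rw [norm_rep]
  have h7 := ((π g).continuous.tendsto ξ).comp h4
  refine h7.congr (fun u => ?_)
  rw [Function.comp_apply, ← rep_mul, ← rep_mul, ← rep_mul]
  congr 1
  group

/-- the weak limit of `π (p u ^ e) ξ` is fixed in the limit -/
theorem weak_lim_mem (hc : Continuous (fun x : P × G => p x.1 * x.2 * (p x.1)⁻¹))
    (hω : (ω : Filter P) ≤ 𝓝 1) (hπ : ∀ ξ, Continuous fun g => π g ξ)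
    (hidem : ∀ q : P → Prop, (∀ᶠ m in ω, q m) → ∀ᶠ m in ω, ∀ᶠ m' in ω, q (m * m'))
    {e : ℤ} {ξ ζ : H} (hζ : ∀ η : H, Tendsto (fun u => ⟪π (p u ^ e) ξ, η⟫_ℂ) ω (𝓝 ⟪ζ, η⟫_ℂ)) :
    ζ ∈ Fx p ω π e := by
  -- weak convergence
  have hw : ∀ η : H, Tendsto (fun u => ⟪π (p u ^ e) ζ, η⟫_ℂ) ω (𝓝 ⟪ζ, η⟫_ℂ) := by
    intro η
    have h1 : ∀ u : P, Tendsto (fun v => ⟪π (p (u * v) ^ e) ξ, η⟫_ℂ) ω
        (𝓝 ⟪π (p u ^ e) ζ, η⟫_ℂ) := by
      intro u
      have h2 := hζ (π (p u ^ e)⁻¹ η)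
      rw [← rep_inner] at h2
      have h3 : Tendsto (fun v => π ((p v ^ e)⁻¹ * (p u ^ e)⁻¹ * (p u * p v) ^ e) ξ) ω (𝓝 ξ) := by
        have := ((hπ ξ).tendsto 1).comp ((zpow_factor p hc (p u) e).mono_left hω)
        rwa [rep_one] at this
      have h4 : Tendsto (fun v => ⟪π (p (u * v) ^ e) ξ, η⟫_ℂ - ⟪π (p v ^ e) ξ, π (p u ^ e)⁻¹ η⟫_ℂ)
          ω (𝓝 0) := by
        rw [tendsto_iff_norm_sub_tendsto_zero] at h3
        have h5 := h3.mul_const ‖η‖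
        rw [zero_mul] at h5
        rw [tendsto_zero_iff_norm_tendsto_zero]
        refine squeeze_zero (fun _ => norm_nonneg _) (fun v => ?_) h5
        have h6 : π (p (u * v) ^ e) ξ = π (p u ^ e * p v ^ e)
            (π ((p v ^ e)⁻¹ * (p u ^ e)⁻¹ * (p u * p v) ^ e) ξ) := by
          rw [← rep_mul, map_mul]
          congr 2
          group
        rw [h6, ← rep_inner, ← rep_mul π (p u ^ e) (p v ^ e) ξ, ← inner_sub_left, ← map_sub]
        refine (norm_inner_le_norm _ _).trans ?_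
        rw [norm_rep]
      have h7 := h4.add h2
      rw [zero_add] at h7
      refine h7.congr (fun v => ?_)
      ring
    rw [(closed_nhds_basis (⟪ζ, η⟫_ℂ)).tendsto_right_iff]
    intro N hN
    have h8 := hidem _ ((hζ η).eventually hN.1)
    filter_upwards [h8] with u hu
    exact hN.2.mem_of_tendsto (h1 u) hu
  rw [mem_Fx, tendsto_iff_norm_sub_tendsto_zero]
  have h9 : Tendsto (fun u => ‖π (p u ^ e) ζ - ζ‖ ^ 2) ω (𝓝 0) := by
    have h10 := (Complex.continuous_re.tendsto _).comp (hw ζ)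
    have h11 : Tendsto (fun u => 2 * ‖ζ‖ ^ 2 - 2 * (⟪π (p u ^ e) ζ, ζ⟫_ℂ).re) ω
        (𝓝 (2 * ‖ζ‖ ^ 2 - 2 * (⟪ζ, ζ⟫_ℂ).re)) := (h10.const_mul 2).const_sub _
    have h12 : 2 * ‖ζ‖ ^ 2 - 2 * (⟪ζ, ζ⟫_ℂ).re = 0 := by
      have h14 : (⟪ζ, ζ⟫_ℂ).re = ‖ζ‖ ^ 2 := inner_self_eq_norm_sq (𝕜 := ℂ) ζ
      rw [h14, sub_self]
    rw [h12] at h11
    refine h11.congr (fun u => ?_)
    rw [@norm_sub_sq ℂ]
    rw [norm_rep]
    simp only [RCLike.re_to_complex]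
    ring
  have h13 := h9.sqrt
  rw [Real.sqrt_zero] at h13
  refine h13.congr (fun u => ?_)
  rw [Real.sqrt_sq (norm_nonneg _)]

/-- vectors orthogonal to the fixed vectors go weakly to zero -/
theorem weak_zero [CompleteSpace H] (hc : Continuous (fun x : P × G => p x.1 * x.2 * (p x.1)⁻¹))
    (hω : (ω : Filter P) ≤ 𝓝 1) (hπ : ∀ ξ, Continuous fun g => π g ξ)
    (hidem : ∀ q : P → Prop, (∀ᶠ m in ω, q m) → ∀ᶠ m in ω, ∀ᶠ m' in ω, q (m * m'))
    {e : ℤ} {ξ : H} (hξ : ∀ θ ∈ Fx p ω π e, ⟪ξ, θ⟫_ℂ = 0) (η : H) :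
    Tendsto (fun u => ⟪π (p u ^ e) ξ, η⟫_ℂ) ω (𝓝 0) := by
  obtain ⟨ζ, hζ⟩ := exists_weak_lim ω (fun u => π (p u ^ e) ξ) ‖ξ‖ (fun u => (norm_rep π _ _).le)
  have h1 := weak_lim_mem p π hc hω hπ hidem hζ
  have h2 : ⟪ζ, ζ⟫_ℂ = 0 := by
    have h3 : Tendsto (fun u => ⟪π (p u ^ e) ξ, ζ⟫_ℂ) ω (𝓝 ⟪ξ, ζ⟫_ℂ) := by
      have h4 : Tendsto (fun u => π (p u ^ e)⁻¹ ζ) ω (𝓝 ζ) := by
        have := Fx_neg p ω π h1
        rw [mem_Fx] at this
        simpa [zpow_neg] using this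
      have h5 := (tendsto_const_nhds (x := ξ)).inner (𝕜 := ℂ) h4
      refine h5.congr (fun u => ?_)
      rw [rep_inner]
    rw [tendsto_nhds_unique (hζ ζ) h3]
    exact hξ ζ h1
  have h6 : ζ = 0 := inner_self_eq_zero.1 h2
  have h7 := hζ η
  rwa [h6, inner_zero_left] at h7

/-- the main construction -/
theorem exists_datum [CompleteSpace H]
    (hc : Continuous (fun x : P × G => p x.1 * x.2 * (p x.1)⁻¹))
    (hω : (ω : Filter P) ≤ 𝓝 1) (hπ : ∀ ξ, Continuous fun g => π g ξ)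
    (hidem : ∀ q : P → Prop, (∀ᶠ m in ω, q m) → ∀ᶠ m in ω, ∀ᶠ m' in ω, q (m * m'))
    {z : G} (hπz : π z ≠ 1) :
    ∃ D : Datum G, z ∈ D.O ∧ D.Good p ω := by
  -- the choice of `s`
  have hs : ∃ s : ℕ, (∃ ξ' ∈ Fx p ω π (s : ℤ), π z ξ' ≠ ξ') ∧
      ∀ n : ℕ, 1 ≤ n → (s = 0 ∨ n < s) → ∀ θ ∈ Fx p ω π (n : ℤ), π z θ = θ := by
    classical
    by_cases h : ∃ n : ℕ, 1 ≤ n ∧ ∃ θ ∈ Fx p ω π (n : ℤ), π z θ ≠ θ
    · refine ⟨Nat.find h, (Nat.find_spec h).2, ?_⟩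
      intro n hn hn' θ hθ
      rcases hn' with hn' | hn'
      · have := (Nat.find_spec h).1
        omega
      · by_contra hcon
        exact Nat.find_min h hn' ⟨hn, θ, hθ, hcon⟩
    · refine ⟨0, ?_, ?_⟩
      · by_contra hcon
        push Not at hcon
        apply hπz
        ext ξ
        exact hcon ξ (Fx_zero p ω π ξ)
      · intro n hn _ θ hθ
        by_contra hcon
        exact h ⟨n, hn, θ, hθ, hcon⟩
  obtain ⟨s, ⟨ξ', hξ', hne⟩, hmin⟩ := hs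
  set ξ : H := π z ξ' - ξ' with hξdef
  have hξs : ξ ∈ Fx p ω π (s : ℤ) := sub_mem (Fx_rep p π hc hω hπ hξ' z) hξ'
  have hξ0 : ξ ≠ 0 := sub_ne_zero.2 hne
  -- inner products with vectors fixed by z
  have hzfix : ∀ θ : H, π z θ = θ → ⟪θ, ξ⟫_ℂ = 0 := by
    intro θ hθ
    have h1 : π z⁻¹ θ = θ := by
      conv_lhs => rw [← hθ]
      rw [← rep_mul, inv_mul_cancel, rep_one]
    rw [hξdef, inner_sub_right, ← rep_inner' π z θ ξ', h1, sub_self]
  -- orthogonality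
  have horth : ∀ e : ℤ, ¬ (s : ℤ) ∣ e → ∀ θ ∈ Fx p ω π e, ⟪ξ, θ⟫_ℂ = 0 := by
    intro e he θ hθ
    obtain ⟨ζ, hζ⟩ := exists_weak_lim ω (fun u => π (p u ^ (s : ℤ)) θ) ‖θ‖
      (fun u => (norm_rep π _ _).le)
    have h1 : ζ ∈ Fx p ω π (s : ℤ) := weak_lim_mem p π hc hω hπ hidem hζ
    have h2 : ζ ∈ Fx p ω π e := by
      have hcl : IsClosed (Fx p ω π e : Set H) := isClosed_Fx p ω π e
      have : CompleteSpace (Fx p ω π e) := hcl.completeSpace_coe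
      rw [← Submodule.orthogonal_orthogonal (Fx p ω π e), Submodule.mem_orthogonal]
      intro κ hκ
      have h3 : ∀ u, ⟪π (p u ^ (s : ℤ)) θ, κ⟫_ℂ = 0 := by
        intro u
        exact (Submodule.mem_orthogonal _ _).1 hκ _ (Fx_rep p π hc hω hπ hθ _)
      have h4 := hζ κ
      simp only [h3] at h4
      have h5 : ⟪ζ, κ⟫_ℂ = 0 := tendsto_nhds_unique h4 tendsto_const_nhds
      rw [← inner_conj_symm, h5, map_zero]
    have h6 : ⟪ζ, ξ⟫_ℂ = ⟪θ, ξ⟫_ℂ := by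
      have h7 : Tendsto (fun u => ⟪π (p u ^ (s : ℤ)) θ, ξ⟫_ℂ) ω (𝓝 ⟪θ, ξ⟫_ℂ) := by
        have h8 : Tendsto (fun u => π (p u ^ (s : ℤ))⁻¹ ξ) ω (𝓝 ξ) := by
          have := Fx_neg p ω π hξs
          rw [mem_Fx] at this
          simpa [zpow_neg] using this
        have h9 := (tendsto_const_nhds (x := θ)).inner (𝕜 := ℂ) h8
        refine h9.congr (fun u => ?_)
        rw [rep_inner]
      exact tendsto_nhds_unique (hζ ξ) h7
    have h10 := Fx_gcd p ω π h1 h2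
    have h11 : π z ζ = ζ := by
      apply hmin _ _ _ ζ h10
      · rw [Nat.one_le_iff_ne_zero]
        intro h0
        rw [Int.gcd_eq_zero_iff] at h0
        exact he (by rw [h0.2]; exact dvd_zero _)
      · by_cases hs0 : s = 0
        · exact Or.inl hs0
        · right
          have h12 : Int.gcd (s : ℤ) e ∣ s := by
            have := Int.gcd_dvd_left (a := (s : ℤ)) (b := e)
            exact_mod_cast this
          have h13 := Nat.le_of_dvd (Nat.pos_of_ne_zero hs0) h12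
          apply lt_of_le_of_ne h13
          intro h14
          apply he
          have := Int.gcd_dvd_right (a := (s : ℤ)) (b := e)
          rwa [h14] at this
    rw [← inner_conj_symm, ← h6, hzfix ζ h11, map_zero]
  -- the datum
  have hnorm : ⟪π z ξ, π z ξ⟫_ℂ = ((‖ξ‖ ^ 2 : ℝ) : ℂ) := by
    rw [(π z).inner_map_map, inner_self_eq_norm_sq_to_K]
    norm_cast
  have hzξ : ⟪π z ξ, ξ⟫_ℂ ≠ ((‖ξ‖ ^ 2 : ℝ) : ℂ) := by
    intro hcon
    have h1 : ‖π z ξ - ξ‖ ^ 2 = 0 := by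
      rw [@norm_sub_sq ℂ, hcon, norm_rep]
      simp only [RCLike.re_to_complex, Complex.ofReal_re]
      ring
    have h2 : π z ξ = ξ := by
      rw [sq_eq_zero_iff, norm_eq_zero, sub_eq_zero] at h1
      exact h1
    have h3 := hzfix ξ h2
    exact hξ0 (inner_self_eq_zero.1 h3)
  let f : G → ℂ := fun g => ⟪π z ξ, π g ξ⟫_ℂ
  have hfc : Continuous f := continuous_const.inner (hπ ξ)
  have hfz : f z = ((‖ξ‖ ^ 2 : ℝ) : ℂ) := hnorm
  have hf1 : f 1 = ⟪π z ξ, ξ⟫_ℂ := by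
    show ⟪π z ξ, π 1 ξ⟫_ℂ = _
    rw [rep_one]
  have hfz0 : 0 < ‖f z‖ := by
    rw [norm_pos_iff, hfz]
    have : ‖ξ‖ ^ 2 ≠ 0 := pow_ne_zero 2 (norm_ne_zero_iff.2 hξ0)
    exact_mod_cast this
  have hfz1 : 0 < ‖f z - f 1‖ := by
    rw [norm_pos_iff, sub_ne_zero, hfz, hf1]
    exact fun h => hzξ h.symm
  set δ : ℝ := min ‖f z‖ ‖f z - f 1‖ / 4 with hδ
  have hδpos : 0 < δ := div_pos (lt_min hfz0 hfz1) (by norm_num)
  refine ⟨⟨f, s, {g | 2 * δ < ‖f g‖} ∩ {g | 2 * δ < ‖f g - f 1‖}, δ⟩, ?_, ?_, hδpos, ?_, ?_⟩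
  · have h1 : min ‖f z‖ ‖f z - f 1‖ ≤ ‖f z‖ := min_le_left _ _
    have h2 : min ‖f z‖ ‖f z - f 1‖ ≤ ‖f z - f 1‖ := min_le_right _ _
    have h3 : min ‖f z‖ ‖f z - f 1‖ = 4 * δ := by rw [hδ]; ring
    constructor
    · show 2 * δ < ‖f z‖
      linarith
    · show 2 * δ < ‖f z - f 1‖
      linarith
  · exact (isOpen_lt continuous_const hfc.norm).inter
      (isOpen_lt continuous_const (hfc.sub continuous_const).norm)
  · intro g hg
    exact ⟨le_of_lt hg.1, le_of_lt hg.2⟩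
  · intro g e
    show Tendsto (fun u => ⟪π z ξ, π (g * p u ^ e) ξ⟫_ℂ) ω
      (𝓝 (if (s : ℤ) ∣ e then ⟪π z ξ, π g ξ⟫_ℂ else 0))
    split_ifs with he
    · obtain ⟨k, rfl⟩ := he
      have h1 : ξ ∈ Fx p ω π ((s : ℤ) * k) := by
        rw [mul_comm]
        exact Fx_mul p ω π hξs k
      rw [mem_Fx] at h1
      have h2 := ((π g).continuous.tendsto ξ).comp h1
      have h3 := (tendsto_const_nhds (x := π z ξ)).inner (𝕜 := ℂ) h2
      refine h3.congr (fun u => ?_)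
      rw [Function.comp_apply, rep_mul]
    · have h1 := weak_zero p π hc hω hπ hidem (horth e he) (π g⁻¹ (π z ξ))
      have h2 := (Complex.continuous_conj.tendsto 0).comp h1
      rw [map_zero] at h2
      refine h2.congr (fun u => ?_)
      rw [Function.comp_apply, inner_conj_symm, rep_inner', rep_mul]

end

end Pool.Agent.Lib.Pc4a55f
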