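import Mathlib
import Pool.Agent.Lib.Pc4a55f.Hilb

set_option autoImplicit false

/-!
# Isometric representations on Banach spaces with separable dual

If `ω` is an idempotent ultrafilter of asymptotically central elements then a strongly continuous
isometric representation on a normed space with separable dual, which is nontrivial at a central
element `z`, gives separating data for `z`.
-/

namespace Pool.Agent.Lib.Pc4a55f

open Filter Topology Set

section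

variable {X : Type*} [NormedAddCommGroup X] [NormedSpace ℝ X]

theorem exists_weak_star_lim {α : Type*} (ω : Ultrafilter α) (x : α → StrongDual ℝ X) (M : ℝ)
    (hx : ∀ a, ‖x a‖ ≤ M) :
    ∃ ψ : StrongDual ℝ X, ∀ ξ : X, Tendsto (fun a => x a ξ) ω (𝓝 (ψ ξ)) := by
  let Φ : α → WeakDual ℝ X := fun a => StrongDual.toWeakDual (x a)
  have hK := WeakDual.isCompact_closedBall (𝕜 := ℝ) (E := X) 0 M
  obtain ⟨φ, -, hφ⟩ := hK.ultrafilter_le_nhds (ω.map Φ) (by
    rw [le_principal_iff]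
    show Φ ⁻¹' _ ∈ (ω : Filter α)
    apply univ_mem'
    intro a
    show x a ∈ Metric.closedBall (0 : StrongDual ℝ X) M
    rw [mem_closedBall_zero_iff]
    exact hx a)
  have hφ' : Tendsto Φ ω (𝓝 φ) := hφ
  exact ⟨WeakDual.toStrongDual φ, fun ξ => ((WeakDual.eval_continuous ξ).tendsto φ).comp hφ'⟩

end

section

variable {G P : Type*} [Group G] [TopologicalSpace G] [IsTopologicalGroup G]
  [Group P] [TopologicalSpace P] [IsTopologicalGroup P]

variable {X : Type*} [NormedAddCommGroup X] [NormedSpace ℝ X]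

theorem rp_norm (π : G →* (X ≃ₗᵢ[ℝ] X)) (g : G) (ξ : X) : ‖π g ξ‖ = ‖ξ‖ :=
  (π g).norm_map ξ

theorem rp_mul (π : G →* (X ≃ₗᵢ[ℝ] X)) (g h : G) (ξ : X) : π (g * h) ξ = π g (π h ξ) := by
  rw [map_mul]
  rfl

theorem rp_one (π : G →* (X ≃ₗᵢ[ℝ] X)) (ξ : X) : π 1 ξ = ξ := by
  rw [map_one]
  rfl

/-- the right action on functionals -/
noncomputable def ra (π : G →* (X ≃ₗᵢ[ℝ] X)) (φ : StrongDual ℝ X) (g : G) : StrongDual ℝ X :=
  φ.comp ((π g).toContinuousLinearEquiv : X →L[ℝ] X)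

theorem ra_apply (π : G →* (X ≃ₗᵢ[ℝ] X)) (φ : StrongDual ℝ X) (g : G) (ξ : X) :
    ra π φ g ξ = φ (π g ξ) := rfl

theorem ra_mul (π : G →* (X ≃ₗᵢ[ℝ] X)) (φ : StrongDual ℝ X) (g h : G) :
    ra π φ (g * h) = ra π (ra π φ g) h := by
  ext ξ
  rw [ra_apply, ra_apply, ra_apply, rp_mul]

theorem ra_one (π : G →* (X ≃ₗᵢ[ℝ] X)) (φ : StrongDual ℝ X) : ra π φ 1 = φ := by
  ext ξ
  rw [ra_apply, rp_one]

theorem ra_sub (π : G →* (X ≃ₗᵢ[ℝ] X)) (φ ψ : StrongDual ℝ X) (g : G) :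
    ra π (φ - ψ) g = ra π φ g - ra π ψ g := by
  ext ξ
  rfl

theorem ra_add (π : G →* (X ≃ₗᵢ[ℝ] X)) (φ ψ : StrongDual ℝ X) (g : G) :
    ra π (φ + ψ) g = ra π φ g + ra π ψ g := by
  ext ξ
  rfl

theorem ra_norm_le (π : G →* (X ≃ₗᵢ[ℝ] X)) (φ : StrongDual ℝ X) (g : G) : ‖ra π φ g‖ ≤ ‖φ‖ := by
  apply ContinuousLinearMap.opNorm_le_bound _ (norm_nonneg _)
  intro ξ
  rw [ra_apply]
  refine (φ.le_opNorm _).trans ?_
  rw [rp_norm]

theorem ra_norm (π : G →* (X ≃ₗᵢ[ℝ] X)) (φ : StrongDual ℝ X) (g : G) : ‖ra π φ g‖ = ‖φ‖ := by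
  apply le_antisymm (ra_norm_le π φ g)
  have h := ra_norm_le π (ra π φ g) g⁻¹
  rwa [← ra_mul, mul_inv_cancel, ra_one] at h

/-- weak star convergence inside an orbit is norm convergence if the dual is separable -/
theorem strong_of_weak [TopologicalSpace.SeparableSpace (StrongDual ℝ X)]
    (π : G →* (X ≃ₗᵢ[ℝ] X)) (ψ : StrongDual ℝ X) {α : Type*} {l : Filter α} {g : α → G}
    (h : ∀ ξ : X, Tendsto (fun a => ψ (π (g a) ξ)) l (𝓝 (ψ ξ))) :
    Tendsto (fun a => ‖ra π ψ (g a) - ψ‖) l (𝓝 0) := by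
  let O : Set (WeakDual ℝ X) := range fun g : G => StrongDual.toWeakDual (ra π ψ g)
  let K : Set (WeakDual ℝ X) := closure O
  have hK : IsCompact K := by
    have h1 := WeakDual.isCompact_closedBall (𝕜 := ℝ) (E := X) 0 ‖ψ‖
    refine h1.of_isClosed_subset isClosed_closure ?_
    apply closure_minimal _ (WeakDual.isClosed_closedBall _ _)
    rintro _ ⟨g, rfl⟩
    show ra π ψ g ∈ Metric.closedBall (0 : StrongDual ℝ X) ‖ψ‖
    rw [mem_closedBall_zero_iff]
    exact ra_norm_le π ψ g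
  have : CompactSpace K := isCompact_iff_compactSpace.1 hK
  have hne : Nonempty K := ⟨⟨_, subset_closure ⟨1, rfl⟩⟩⟩
  rw [Metric.tendsto_nhds]
  intro ε hε
  let d := TopologicalSpace.denseSeq (StrongDual ℝ X)
  let C : ℕ → Set K := fun i =>
    {χ | WeakDual.toStrongDual (χ : WeakDual ℝ X) ∈ Metric.closedBall (d i) (ε / 4)}
  have hC : ∀ i, IsClosed (C i) := fun i =>
    (WeakDual.isClosed_closedBall (d i) (ε / 4)).preimage continuous_subtype_val
  have hU : ⋃ i, C i = univ := by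
    rw [eq_univ_iff_forall]
    intro χ
    obtain ⟨i, hi⟩ := (TopologicalSpace.denseRange_denseSeq (StrongDual ℝ X)).exists_dist_lt
      (WeakDual.toStrongDual (χ : WeakDual ℝ X)) (show 0 < ε / 4 by positivity)
    exact mem_iUnion.2 ⟨i, hi.le⟩
  obtain ⟨i, χ, hχ⟩ := nonempty_interior_of_iUnion_of_closed hC hU
  obtain ⟨W, hWC, hWo, hχW⟩ := mem_interior.1 hχ
  obtain ⟨W', hW'o, rfl⟩ := isOpen_induced_iff.1 hWo
  obtain ⟨_, hg0, ⟨g0, rfl⟩⟩ := mem_closure_iff.1 χ.2 W' hW'o hχW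
  have hmem : ∀ g : G, StrongDual.toWeakDual (ra π ψ g) ∈ W' → dist (ra π ψ g) (d i) ≤ ε / 4 := by
    intro g hg
    have h1 : (⟨_, subset_closure ⟨g, rfl⟩⟩ : K) ∈ C i := hWC hg
    exact h1
  have h2 : Tendsto (fun a => StrongDual.toWeakDual (ra π ψ (g a * g0))) l
      (𝓝 (StrongDual.toWeakDual (ra π ψ g0))) := by
    rw [tendsto_iff_forall_eval_tendsto_topDualPairing]
    intro ξ
    show Tendsto (fun a => ra π ψ (g a * g0) ξ) l (𝓝 (ra π ψ g0 ξ))
    refine (h (π g0 ξ)).congr (fun a => ?_)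
    rw [ra_apply, rp_mul]
  filter_upwards [h2.eventually (hW'o.mem_nhds hg0)] with a ha
  have h3 := hmem _ ha
  have h4 := hmem _ hg0
  have h5 : ‖ra π ψ (g a) - ψ‖ = ‖ra π ψ (g a * g0) - ra π ψ g0‖ := by
    rw [ra_mul, ← ra_sub, ra_norm]
  rw [h5, Real.dist_eq, sub_zero, abs_norm, ← dist_eq_norm]
  calc dist (ra π ψ (g a * g0)) (ra π ψ g0) ≤ dist (ra π ψ (g a * g0)) (d i) +
        dist (ra π ψ g0) (d i) := dist_triangle_right _ _ _
    _ ≤ ε / 4 + ε / 4 := add_le_add h3 h4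
    _ < ε := by linarith

/-- the functionals fixed in the limit by the powers `p u ^ e` -/
def Rx (p : P →* G) (ω : Ultrafilter P) (π : G →* (X ≃ₗᵢ[ℝ] X)) (e : ℤ)
    (φ : StrongDual ℝ X) : Prop :=
  Tendsto (fun u => ‖ra π φ (p u ^ e) - φ‖) ω (𝓝 0)

variable (p : P →* G) (ω : Ultrafilter P) (π : G →* (X ≃ₗᵢ[ℝ] X))

theorem Rx_zero (φ : StrongDual ℝ X) : Rx p ω π 0 φ := by
  unfold Rx
  simp only [zpow_zero, ra_one, sub_self, norm_zero]
  exact tendsto_const_nhds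

theorem Rx_neg {e : ℤ} {φ : StrongDual ℝ X} (h : Rx p ω π e φ) : Rx p ω π (-e) φ := by
  unfold Rx at h ⊢
  refine h.congr (fun u => ?_)
  rw [zpow_neg, ← ra_norm π (ra π φ (p u ^ e) - φ) (p u ^ e)⁻¹, ra_sub, ← ra_mul, mul_inv_cancel,
    ra_one, norm_sub_rev]

theorem Rx_add {e e' : ℤ} {φ : StrongDual ℝ X} (h : Rx p ω π e φ) (h' : Rx p ω π e' φ) :
    Rx p ω π (e + e') φ := by
  unfold Rx at h h' ⊢
  have h1 := h.add h'
  rw [add_zero] at h1
  refine squeeze_zero (fun _ => norm_nonneg _) (fun u => ?_) h1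
  have h2 : ra π φ (p u ^ (e + e')) - φ =
      ra π (ra π φ (p u ^ e) - φ) (p u ^ e') + (ra π φ (p u ^ e') - φ) := by
    rw [ra_sub, ← ra_mul, zpow_add]
    abel
  rw [h2]
  refine (norm_add_le _ _).trans ?_
  rw [ra_norm]

/-- the exponents fixing a functional form a subgroup -/
def Er (φ : StrongDual ℝ X) : AddSubgroup ℤ where
  carrier := {e | Rx p ω π e φ}
  add_mem' := fun h h' => Rx_add p ω π h h'
  zero_mem' := Rx_zero p ω π φ
  neg_mem' := fun h => Rx_neg p ω π h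

theorem Rx_mul {e : ℤ} {φ : StrongDual ℝ X} (h : Rx p ω π e φ) (k : ℤ) : Rx p ω π (k * e) φ := by
  have h1 : k • e ∈ Er p ω π φ := AddSubgroup.zsmul_mem _ h k
  rw [smul_eq_mul] at h1
  exact h1

theorem Rx_gcd {e e' : ℤ} {φ : StrongDual ℝ X} (h : Rx p ω π e φ) (h' : Rx p ω π e' φ) :
    Rx p ω π (Int.gcd e e') φ := by
  rw [Int.gcd_eq_gcd_ab]
  apply Rx_add
  · rw [mul_comm]
    exact Rx_mul p ω π h _
  · rw [mul_comm]
    exact Rx_mul p ω π h' _

theorem Rx_sub {e : ℤ} {φ ψ : StrongDual ℝ X} (h : Rx p ω π e φ) (h' : Rx p ω π e ψ) :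
    Rx p ω π e (φ - ψ) := by
  unfold Rx at h h' ⊢
  have h1 := h.add h'
  rw [add_zero] at h1
  refine squeeze_zero (fun _ => norm_nonneg _) (fun u => ?_) h1
  have h2 : ra π (φ - ψ) (p u ^ e) - (φ - ψ) =
      (ra π φ (p u ^ e) - φ) - (ra π ψ (p u ^ e) - ψ) := by
    rw [ra_sub]
    abel
  rw [h2]
  exact norm_sub_le _ _

theorem Rx_central {z : G} (hz : z ∈ Subgroup.center G) {e : ℤ} {φ : StrongDual ℝ X}
    (h : Rx p ω π e φ) : Rx p ω π e (ra π φ z) := by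
  unfold Rx at h ⊢
  refine h.congr (fun u => ?_)
  have h1 : z * p u ^ e = p u ^ e * z := (Subgroup.mem_center_iff.1 hz _).symm
  rw [← ra_mul, h1, ra_mul, ← ra_sub, ra_norm]

variable {ω}

theorem tendsto_pi_comm (hc : Continuous (fun x : P × G => p x.1 * x.2 * (p x.1)⁻¹))
    (hω : (ω : Filter P) ≤ 𝓝 1) (hπ : ∀ ξ, Continuous fun g => π g ξ) (g : G) (e : ℤ) (ξ : X) :
    Tendsto (fun v => ‖π (p v ^ e * g) ξ - π (g * p v ^ e) ξ‖) ω (𝓝 0) := by
  have h1 : Tendsto (fun v : P => (g * p v ^ e)⁻¹ * (p v ^ e * g)) ω (𝓝 1) := by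
    have h2 := ((tendsto_conj' p hc ((tendsto_zpow_one (-e)).mono_left hω)
      (tendsto_const_nhds (x := g⁻¹))).mul_const g)
    rw [inv_mul_cancel] at h2
    refine h2.congr (fun u => ?_)
    rw [map_zpow]
    group
  have h3 : Tendsto (fun v : P => π ((g * p v ^ e)⁻¹ * (p v ^ e * g)) ξ) ω (𝓝 ξ) := by
    have := ((hπ ξ).tendsto 1).comp h1
    rwa [rp_one] at this
  rw [tendsto_iff_norm_sub_tendsto_zero] at h3
  refine h3.congr (fun v => ?_)
  rw [← rp_norm π (g * p v ^ e) (π ((g * p v ^ e)⁻¹ * (p v ^ e * g)) ξ - ξ), map_sub, ← rp_mul]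
  congr 3
  group

theorem tendsto_phi_comm (hc : Continuous (fun x : P × G => p x.1 * x.2 * (p x.1)⁻¹))
    (hω : (ω : Filter P) ≤ 𝓝 1) (hπ : ∀ ξ, Continuous fun g => π g ξ) (g : G) (e : ℤ) (ξ : X)
    (φ : StrongDual ℝ X) :
    Tendsto (fun v => φ (π (p v ^ e * g) ξ) - φ (π (g * p v ^ e) ξ)) ω (𝓝 0) := by
  have h1 := (tendsto_pi_comm p π hc hω hπ g e ξ).const_mul ‖φ‖
  rw [mul_zero] at h1
  rw [tendsto_zero_iff_norm_tendsto_zero]
  refine squeeze_zero (fun _ => norm_nonneg _) (fun v => ?_) h1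
  rw [← map_sub]
  exact φ.le_opNorm _

/-- the weak star limit is fixed in the limit -/
theorem weak_star_mem [TopologicalSpace.SeparableSpace (StrongDual ℝ X)]
    (hc : Continuous (fun x : P × G => p x.1 * x.2 * (p x.1)⁻¹))
    (hω : (ω : Filter P) ≤ 𝓝 1) (hπ : ∀ ξ, Continuous fun g => π g ξ)
    (hidem : ∀ q : P → Prop, (∀ᶠ m in ω, q m) → ∀ᶠ m in ω, ∀ᶠ m' in ω, q (m * m'))
    {e : ℤ} {φ ψ : StrongDual ℝ X}
    (hψ : ∀ ξ : X, Tendsto (fun u => φ (π (p u ^ e) ξ)) ω (𝓝 (ψ ξ))) : Rx p ω π e ψ := by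
  apply strong_of_weak
  intro ξ
  have h1 : ∀ u : P, Tendsto (fun v => φ (π (p (u * v) ^ e) ξ)) ω (𝓝 (ψ (π (p u ^ e) ξ))) := by
    intro u
    have h2 := hψ (π (p u ^ e) ξ)
    have h3 := tendsto_phi_comm p π hc hω hπ (p u ^ e) e ξ φ
    have h4 : Tendsto (fun v => φ (π (p (u * v) ^ e) ξ) - φ (π (p u ^ e * p v ^ e) ξ)) ω (𝓝 0) := by
      have h5 : Tendsto (fun v => π ((p v ^ e)⁻¹ * (p u ^ e)⁻¹ * (p u * p v) ^ e) ξ) ω (𝓝 ξ) := by
        have := ((hπ ξ).tendsto 1).comp ((zpow_factor p hc (p u) e).mono_left hω)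
        rwa [rp_one] at this
      rw [tendsto_iff_norm_sub_tendsto_zero] at h5
      have h6 := h5.const_mul ‖φ‖
      rw [mul_zero] at h6
      rw [tendsto_zero_iff_norm_tendsto_zero]
      refine squeeze_zero (fun _ => norm_nonneg _) (fun v => ?_) h6
      have h7 : π (p (u * v) ^ e) ξ = π (p u ^ e * p v ^ e)
          (π ((p v ^ e)⁻¹ * (p u ^ e)⁻¹ * (p u * p v) ^ e) ξ) := by
        rw [← rp_mul, map_mul]
        congr 2
        group
      rw [h7, ← map_sub, ← map_sub]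
      refine (φ.le_opNorm _).trans ?_
      rw [rp_norm]
    have h8 := (h4.sub h3).add h2
    rw [sub_zero, zero_add] at h8
    refine h8.congr (fun v => ?_)
    rw [rp_mul π (p v ^ e) (p u ^ e) ξ]
    ring
  rw [(closed_nhds_basis (ψ ξ)).tendsto_right_iff]
  intro N hN
  have h8 := hidem _ ((hψ ξ).eventually hN.1)
  filter_upwards [h8] with u hu
  exact hN.2.mem_of_tendsto (h1 u) hu

/-- limits preserve the fixed functionals -/
theorem Rx_lim (hc : Continuous (fun x : P × G => p x.1 * x.2 * (p x.1)⁻¹))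
    (hω : (ω : Filter P) ≤ 𝓝 1) (hπ : ∀ ξ, Continuous fun g => π g ξ) {e s : ℤ}
    {φ ψ : StrongDual ℝ X} (hφ : Rx p ω π s φ)
    (hψ : ∀ ξ : X, Tendsto (fun u => φ (π (p u ^ e) ξ)) ω (𝓝 (ψ ξ))) : Rx p ω π s ψ := by
  unfold Rx at hφ ⊢
  refine squeeze_zero (fun _ => norm_nonneg _) (fun u => ?_) hφ
  apply ContinuousLinearMap.opNorm_le_bound _ (norm_nonneg _)
  intro ξ
  have h1 : Tendsto (fun v => φ (π (p v ^ e) (π (p u ^ s) ξ)) - φ (π (p v ^ e) ξ)) ω
      (𝓝 (ψ (π (p u ^ s) ξ) - ψ ξ)) := (hψ _).sub (hψ _)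
  have h2 := tendsto_phi_comm p π hc hω hπ (p u ^ s) e ξ φ
  have h3 : Tendsto (fun v => φ (π (p u ^ s * p v ^ e) ξ) - φ (π (p v ^ e) ξ)) ω
      (𝓝 (ψ (π (p u ^ s) ξ) - ψ ξ)) := by
    have h4 := h1.sub h2
    rw [sub_zero] at h4
    refine h4.congr (fun v => ?_)
    rw [rp_mul π (p v ^ e) (p u ^ s) ξ]
    ring
  refine le_of_tendsto h3.norm (Eventually.of_forall fun v => ?_)
  have h5 : φ (π (p u ^ s * p v ^ e) ξ) - φ (π (p v ^ e) ξ) =
      (ra π φ (p u ^ s) - φ) (π (p v ^ e) ξ) := by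
    rw [sub_apply, ra_apply, rp_mul]
  rw [h5]
  refine ((ra π φ (p u ^ s) - φ).le_opNorm _).trans ?_
  rw [rp_norm]

/-- the main construction -/
theorem exists_datum_asplund [TopologicalSpace.SeparableSpace (StrongDual ℝ X)]
    (hc : Continuous (fun x : P × G => p x.1 * x.2 * (p x.1)⁻¹))
    (hω : (ω : Filter P) ≤ 𝓝 1) (hπ : ∀ ξ, Continuous fun g => π g ξ)
    (hidem : ∀ q : P → Prop, (∀ᶠ m in ω, q m) → ∀ᶠ m in ω, ∀ᶠ m' in ω, q (m * m'))
    {z : G} (hz : z ∈ Subgroup.center G) (hπz : π z ≠ 1) :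
    ∃ D : Datum G, z ∈ D.O ∧ D.Good p ω := by
  -- the choice of `s`
  have hs : ∃ s : ℕ, (∃ φ' : StrongDual ℝ X, Rx p ω π (s : ℤ) φ' ∧ ra π φ' z ≠ φ') ∧
      ∀ n : ℕ, 1 ≤ n → (s = 0 ∨ n < s) → ∀ θ : StrongDual ℝ X, Rx p ω π (n : ℤ) θ →
        ra π θ z = θ := by
    classical
    by_cases h : ∃ n : ℕ, 1 ≤ n ∧ ∃ θ : StrongDual ℝ X, Rx p ω π (n : ℤ) θ ∧ ra π θ z ≠ θ
    · refine ⟨Nat.find h, (Nat.find_spec h).2, ?_⟩
      intro n hn hn' θ hθ
      rcases hn' with hn' | hn'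
      · have := (Nat.find_spec h).1
        omega
      · by_contra hcon
        exact Nat.find_min h hn' ⟨hn, θ, hθ, hcon⟩
    · refine ⟨0, ?_, ?_⟩
      · by_contra hcon
        push Not at hcon
        apply hπz
        ext ξ
        have h1 : ∀ θ : StrongDual ℝ X, θ (π z ξ) = θ ξ := by
          intro θ
          have h2 := hcon θ (Rx_zero p ω π θ)
          rw [← ra_apply, h2]
        exact (SeparatingDual.eq_iff_forall_dual_eq (R := ℝ)).2 h1
      · intro n hn _ θ hθ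
        by_contra hcon
        exact h ⟨n, hn, θ, hθ, hcon⟩
  obtain ⟨s, ⟨φ', hφ', hne⟩, hmin⟩ := hs
  set φ : StrongDual ℝ X := ra π φ' z - φ' with hφdef
  have hφs : Rx p ω π (s : ℤ) φ := Rx_sub p ω π (Rx_central p ω π hz hφ') hφ'
  have hφ0 : φ ≠ 0 := sub_ne_zero.2 hne
  -- `φ` is not fixed by `z`
  have hφz : ra π φ z - φ ≠ 0 := by
    intro hcon
    rw [sub_eq_zero] at hcon
    have h1 : ∀ n : ℕ, ra π φ' (z ^ n) = φ' + (n : ℝ) • φ := by
      intro n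
      induction n with
      | zero => simp [ra_one]
      | succ n ih =>
        rw [pow_succ, ra_mul, ih, ra_add]
        have h2 : ra π ((n : ℝ) • φ) z = (n : ℝ) • φ := by
          conv_rhs => rw [← hcon]
          rfl
        have h3 : ra π φ' z = φ' + φ := by rw [hφdef]; abel
        rw [h2, h3]
        push_cast
        rw [add_smul, one_smul]
        abel
    obtain ⟨n, hn⟩ := exists_nat_gt (2 * ‖φ'‖ / ‖φ‖)
    have h4 : ‖(n : ℝ) • φ‖ ≤ 2 * ‖φ'‖ := by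
      have h5 : (n : ℝ) • φ = ra π φ' (z ^ n) - φ' := by rw [h1]; abel
      rw [h5]
      refine (norm_sub_le _ _).trans ?_
      rw [ra_norm]
      linarith
    rw [norm_smul, Real.norm_natCast] at h4
    have h6 : 0 < ‖φ‖ := norm_pos_iff.2 hφ0
    rw [div_lt_iff₀ h6] at hn
    linarith
  have hφz0 : ra π φ z ≠ 0 := by
    intro hcon
    apply hφ0
    rw [← norm_eq_zero, ← ra_norm π φ z, hcon, norm_zero]
  -- the limits for exponents not divisible by `s`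
  have hlim0 : ∀ e : ℤ, ¬ (s : ℤ) ∣ e → ∀ ξ : X, Tendsto (fun u => φ (π (p u ^ e) ξ)) ω (𝓝 0) := by
    intro e he
    obtain ⟨ψ', hψ'⟩ := exists_weak_star_lim ω (fun u => ra π φ' (p u ^ e)) ‖φ'‖
      (fun u => ra_norm_le π _ _)
    have hψ'' : ∀ ξ : X, Tendsto (fun u => φ' (π (p u ^ e) ξ)) ω (𝓝 (ψ' ξ)) := hψ'
    have h1 : Rx p ω π e ψ' := weak_star_mem p π hc hω hπ hidem hψ''
    have h2 : Rx p ω π (s : ℤ) ψ' := Rx_lim p π hc hω hπ hφ' hψ''
    have h3 := Rx_gcd p ω π h2 h1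
    have h4 : ra π ψ' z = ψ' := by
      apply hmin _ _ _ ψ' h3
      · rw [Nat.one_le_iff_ne_zero]
        intro h0
        rw [Int.gcd_eq_zero_iff] at h0
        exact he (by rw [h0.2]; exact dvd_zero _)
      · by_cases hs0 : s = 0
        · exact Or.inl hs0
        · right
          have h12 : Int.gcd (s : ℤ) e ∣ s := by
            have := Int.gcd_dvd_left (a := (s : ℤ)) (b := e)
            exact_mod_cast this
          have h13 := Nat.le_of_dvd (Nat.pos_of_ne_zero hs0) h12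
          apply lt_of_le_of_ne h13
          intro h14
          apply he
          have := Int.gcd_dvd_right (a := (s : ℤ)) (b := e)
          rwa [h14] at this
    intro ξ
    have h5 : Tendsto (fun u => φ' (π (p u ^ e) (π z ξ)) - φ' (π (p u ^ e) ξ)) ω
        (𝓝 (ψ' (π z ξ) - ψ' ξ)) := (hψ'' _).sub (hψ'' _)
    have h6 : ψ' (π z ξ) - ψ' ξ = 0 := by
      rw [← ra_apply, h4, sub_self]
    rw [h6] at h5
    refine h5.congr (fun u => ?_)
    rw [hφdef, sub_apply, ra_apply, ← rp_mul, ← rp_mul,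
      Subgroup.mem_center_iff.1 hz]
  -- choice of the vector
  obtain ⟨ξ, hξ1, hξ2⟩ : ∃ ξ : X, ra π φ z ξ ≠ 0 ∧ (ra π φ z - φ) ξ ≠ 0 := by
    obtain ⟨a, ha⟩ : ∃ a, ra π φ z a ≠ 0 := by
      by_contra hcon
      push Not at hcon
      exact hφz0 (by ext x; simpa using hcon x)
    obtain ⟨b, hb⟩ : ∃ b, (ra π φ z - φ) b ≠ 0 := by
      by_contra hcon
      push Not at hcon
      exact hφz (by ext x; simpa using hcon x)
    by_cases h1 : (ra π φ z - φ) a ≠ 0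
    · exact ⟨a, ha, h1⟩
    by_cases h2 : ra π φ z b ≠ 0
    · exact ⟨b, h2, hb⟩
    push Not at h1 h2
    refine ⟨a + b, ?_, ?_⟩
    · rw [map_add, h2, add_zero]
      exact ha
    · rw [map_add, h1, zero_add]
      exact hb
  -- the datum
  let f : G → ℂ := fun g => ((φ (π g ξ) : ℝ) : ℂ)
  have hfc : Continuous f := Complex.continuous_ofReal.comp (φ.continuous.comp (hπ ξ))
  have hfz0 : 0 < ‖f z‖ := by
    rw [norm_pos_iff]
    exact Complex.ofReal_ne_zero.2 hξ1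
  have hfz1 : 0 < ‖f z - f 1‖ := by
    rw [norm_pos_iff]
    show ((φ (π z ξ) : ℝ) : ℂ) - ((φ (π 1 ξ) : ℝ) : ℂ) ≠ 0
    rw [← Complex.ofReal_sub, rp_one]
    exact Complex.ofReal_ne_zero.2 hξ2
  set δ : ℝ := min ‖f z‖ ‖f z - f 1‖ / 4 with hδ
  have hδpos : 0 < δ := div_pos (lt_min hfz0 hfz1) (by norm_num)
  refine ⟨⟨f, s, {g | 2 * δ < ‖f g‖} ∩ {g | 2 * δ < ‖f g - f 1‖}, δ⟩, ?_, ?_, hδpos, ?_, ?_⟩
  · have h1 : min ‖f z‖ ‖f z - f 1‖ ≤ ‖f z‖ := min_le_left _ _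
    have h2 : min ‖f z‖ ‖f z - f 1‖ ≤ ‖f z - f 1‖ := min_le_right _ _
    have h3 : min ‖f z‖ ‖f z - f 1‖ = 4 * δ := by rw [hδ]; ring
    constructor
    · show 2 * δ < ‖f z‖
      linarith
    · show 2 * δ < ‖f z - f 1‖
      linarith
  · exact (isOpen_lt continuous_const hfc.norm).inter
      (isOpen_lt continuous_const (hfc.sub continuous_const).norm)
  · intro g hg
    exact ⟨le_of_lt hg.1, le_of_lt hg.2⟩
  · intro g e
    show Tendsto (fun u => ((φ (π (g * p u ^ e) ξ) : ℝ) : ℂ)) ω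
      (𝓝 (if (s : ℤ) ∣ e then ((φ (π g ξ) : ℝ) : ℂ) else 0))
    have h1 : Tendsto (fun u => φ (π (g * p u ^ e) ξ)) ω
        (𝓝 (if (s : ℤ) ∣ e then φ (π g ξ) else 0)) := by
      have h2 := tendsto_phi_comm p π hc hω hπ g e ξ φ
      have h3 : Tendsto (fun u => φ (π (p u ^ e) (π g ξ))) ω
          (𝓝 (if (s : ℤ) ∣ e then φ (π g ξ) else 0)) := by
        split_ifs with he
        · obtain ⟨k, rfl⟩ := he
          have h4 : Rx p ω π ((s : ℤ) * k) φ := by
            rw [mul_comm]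
            exact Rx_mul p ω π hφs k
          unfold Rx at h4
          rw [tendsto_iff_norm_sub_tendsto_zero]
          have h5 := h4.mul_const ‖π g ξ‖
          rw [zero_mul] at h5
          refine squeeze_zero (fun _ => norm_nonneg _) (fun u => ?_) h5
          exact (ra π φ (p u ^ ((s : ℤ) * k)) - φ).le_opNorm _
        · exact hlim0 e he (π g ξ)
      have h6 := h3.sub h2
      rw [sub_zero] at h6
      refine h6.congr (fun u => ?_)
      rw [rp_mul π (p u ^ e) g ξ]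
      ring
    have h7 := (Complex.continuous_ofReal.tendsto _).comp h1
    split_ifs at h7 ⊢ with he
    · exact h7
    · rw [Complex.ofReal_zero] at h7
      exact h7

end

end Pool.Agent.Lib.Pc4a55f
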