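import Pool.Agent.Lib.Pc4a55f.Ser

/-! Module Char: an element of `ser G n` outside `ser G (n+1)` is detected by a homomorphism
`ser G n → ZMod 2`. -/

namespace Pool.Agent.Lib.Pc4a55f

/-- a nonzero element of a commutative group of exponent two is detected by a homomorphism to
`ZMod 2` -/
theorem exists_char_add {A : Type*} [AddCommGroup A] (h2 : ∀ x : A, 2 • x = 0) {w : A}
    (hw : w ≠ 0) : ∃ f : A →+ ZMod 2, f w = 1 := by
  let _ : Module (ZMod 2) A := AddCommGroup.zmodModule h2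
  have h := (Module.forall_dual_apply_eq_zero_iff (ZMod 2) w).not.2 hw
  push Not at h
  obtain ⟨φ, hφ⟩ := h
  refine ⟨φ.toAddMonoidHom, ?_⟩
  show φ w = 1
  generalize φ w = x at hφ ⊢
  revert x
  decide

theorem exists_char {G : Type*} [Group G] {n : ℕ} {w : G} (hw : w ∈ ser G n)
    (hw' : w ∉ ser G (n + 1)) :
    ∃ ℓ : G → ZMod 2, (∀ a ∈ ser G n, ∀ b ∈ ser G n, ℓ (a * b) = ℓ a + ℓ b) ∧ ℓ w = 1 := by
  classical
  set K := ser G n with hK
  set S := (ser G (n + 1)).subgroupOf K with hS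
  have : S.Normal := by
    rw [hS]
    infer_instance
  have hsq : ∀ q : K ⧸ S, q * q = 1 := by
    intro q
    obtain ⟨x, rfl⟩ := QuotientGroup.mk_surjective q
    rw [← QuotientGroup.mk_mul, QuotientGroup.eq_one_iff, hS, Subgroup.mem_subgroupOf]
    exact sq_mem_ser x.2
  have hcomm : ∀ a b : K ⧸ S, a * b = b * a := by
    intro a b
    have h1 := hsq (a * b)
    have h2 : ∀ c : K ⧸ S, c⁻¹ = c := fun c => inv_eq_of_mul_eq_one_left (hsq c)
    calc a * b = (a * b)⁻¹ := (h2 _).symm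
      _ = b⁻¹ * a⁻¹ := mul_inv_rev a b
      _ = b * a := by rw [h2, h2]
  let _ : CommGroup (K ⧸ S) := { (inferInstance : Group (K ⧸ S)) with mul_comm := hcomm }
  obtain ⟨f, hf⟩ := exists_char_add (A := Additive (K ⧸ S)) (fun x => by
    rw [two_nsmul]
    exact hsq x) (w := Additive.ofMul ((⟨w, hw⟩ : K) : K ⧸ S)) (by
    intro h0
    apply hw'
    have h1 : ((⟨w, hw⟩ : K) : K ⧸ S) = 1 := h0
    rw [QuotientGroup.eq_one_iff, hS, Subgroup.mem_subgroupOf] at h1
    exact h1)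
  refine ⟨fun g => if h : g ∈ K then f (Additive.ofMul ((⟨g, h⟩ : K) : K ⧸ S)) else 0, ?_, ?_⟩
  · intro a ha b hb
    simp only [dif_pos ha, dif_pos hb, dif_pos (mul_mem ha hb)]
    rw [← map_add]
    rfl
  · simp only [dif_pos hw]
    exact hf

end Pool.Agent.Lib.Pc4a55f
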