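import Mathlib
import Pool.Agent.Lib.Pc4a55f.TSeq

set_option autoImplicit false

/-!
# The key lemma

A locally compact second countable group with an asymptotically central sequence leaving every
compact set is not minimal.
-/

namespace Pool.Agent.Lib.Pc4a55f

open Filter Topology Set
open scoped Pointwise

section

variable {G : Type*} [Group G] [TopologicalSpace G]

/-- asymptotically central family -/
def AC {α : Type*} (F : Filter α) (x : α → G) : Prop :=
  ∀ K : Set G, IsCompact K → ∀ V ∈ 𝓝 (1 : G), ∀ᶠ a in F, ∀ g ∈ K, x a * g * (x a)⁻¹ * g⁻¹ ∈ V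

variable {α : Type*} {F : Filter α} {x y : α → G}

theorem AC.mono {F' : Filter α} (h : AC F x) (hF : F' ≤ F) : AC F' x :=
  fun K hK V hV => hF (h K hK V hV)

theorem AC.comp {β : Type*} {F' : Filter β} {f : β → α} (h : AC F x) (hf : Tendsto f F' F) :
    AC F' (fun b => x (f b)) :=
  fun K hK V hV => hf.eventually (h K hK V hV)

theorem AC.one : AC F (fun _ => (1 : G)) := by
  intro K _ V hV
  filter_upwards with a g _
  simpa using mem_of_mem_nhds hV

variable [IsTopologicalGroup G] [LocallyCompactSpace G]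

theorem AC.mul (hx : AC F x) (hy : AC F y) : AC F (fun a => x a * y a) := by
  intro K hK V hV
  obtain ⟨W, hW, hWV⟩ := exists_nhds_one_split hV
  obtain ⟨C, hC, hCn⟩ := exists_compact_mem_nhds (1 : G)
  filter_upwards [hy K hK (W ∩ C) (inter_mem hW hCn), hx (C * K) (hC.mul hK) W hW] with a h1 h2 g hg
  have h3 := h1 g hg
  have h4 := h2 (y a * g * (y a)⁻¹) (by
    have : y a * g * (y a)⁻¹ = (y a * g * (y a)⁻¹ * g⁻¹) * g := by group
    rw [this]
    exact Set.mul_mem_mul h3.2 hg)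
  have h5 := hWV _ h4 _ h3.1
  have h6 : x a * y a * g * (x a * y a)⁻¹ * g⁻¹ =
      x a * (y a * g * (y a)⁻¹) * (x a)⁻¹ * (y a * g * (y a)⁻¹)⁻¹ * (y a * g * (y a)⁻¹ * g⁻¹) := by
    group
  rw [h6]
  exact h5

theorem AC.pow (hx : AC F x) (n : ℕ) : AC F (fun a => x a ^ n) := by
  induction n with
  | zero => simpa using AC.one
  | succ n ih =>
    have := ih.mul hx
    simpa [pow_succ] using this

theorem AC.zpow (hx : AC F x) (hx' : AC F (fun a => (x a)⁻¹)) (e : ℤ) :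
    AC F (fun a => x a ^ e) := by
  obtain ⟨n, rfl | rfl⟩ := e.eq_nat_or_neg
  · simpa using hx.pow n
  · simpa using hx'.pow n

theorem AC.conj_tendsto (hx : AC F x) {b : α → G} {c : G} (hb : Tendsto b F (𝓝 c)) :
    Tendsto (fun a => x a * b a * (x a)⁻¹) F (𝓝 c) := by
  obtain ⟨C, hC, hCn⟩ := exists_compact_mem_nhds c
  have h1 : Tendsto (fun a => x a * b a * (x a)⁻¹ * (b a)⁻¹) F (𝓝 1) := by
    rw [tendsto_def]
    intro V hV
    filter_upwards [hx C hC V hV, hb hCn] with a h1 h2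
    exact h1 _ h2
  have h2 := h1.mul hb
  rw [one_mul] at h2
  refine h2.congr (fun a => ?_)
  group

theorem pow_tendsto (hx' : AC F (fun a => (x a)⁻¹)) (h : G) (n : ℕ) :
    Tendsto (fun a => (x a ^ n)⁻¹ * (x a * h) ^ n) F (𝓝 (h ^ n)) := by
  induction n with
  | zero => simpa using tendsto_const_nhds
  | succ n ih =>
    have h1 := (hx'.conj_tendsto ih).mul_const h
    rw [← pow_succ] at h1
    refine h1.congr (fun a => ?_)
    rw [pow_succ (x a), pow_succ (x a * h), mul_inv_rev, inv_inv]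
    simp only [mul_assoc]

theorem pow_tendsto' (hx : AC F x) (h : G) (n : ℕ) :
    Tendsto (fun a => x a ^ n * ((x a * h) ^ n)⁻¹) F (𝓝 (h ^ n)⁻¹) := by
  induction n with
  | zero => simpa using tendsto_const_nhds
  | succ n ih =>
    have h1 := hx.conj_tendsto (ih.mul_const h⁻¹)
    rw [← mul_inv_rev, ← pow_succ'] at h1
    refine h1.congr (fun a => ?_)
    rw [pow_succ' (x a), pow_succ' (x a * h), mul_inv_rev, mul_inv_rev]
    simp only [mul_assoc]

theorem zpow_tendsto (hx : AC F x) (hx' : AC F (fun a => (x a)⁻¹)) (h : G) (e : ℤ) :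
    Tendsto (fun a => (x a ^ e)⁻¹ * (x a * h) ^ e) F (𝓝 (h ^ e)) := by
  obtain ⟨n, rfl | rfl⟩ := e.eq_nat_or_neg
  · simpa using pow_tendsto hx' h n
  · simpa using pow_tendsto' hx h n

/-- the new elements -/
theorem exists_y [T2Space G] {x : ℕ → G} (hx : Tendsto x atTop (cocompact G)) (h1 : AC atTop x)
    (h2 : AC atTop (fun n => (x n)⁻¹)) (j : ℕ) {V : Set G} (hV : V ∈ 𝓝 (1 : G)) {C : Set G}
    (hC : IsCompact C) :
    ∃ y : G, (∀ e : ℤ, |e| ≤ j → y ^ e ∈ V ∨ y ^ e ∉ C) ∧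
      (∀ e : ℤ, |e| ≤ j → ∀ g ∈ C, y ^ e * g * (y ^ e)⁻¹ * g⁻¹ ∈ V) ∧ y ∉ C := by
  let U : Ultrafilter ℕ := hyperfilter ℕ
  have hU : (U : Filter ℕ) ≤ atTop := Nat.hyperfilter_le_atTop
  have hU1 : AC (U : Filter ℕ) x := h1.mono hU
  have hU2 : AC (U : Filter ℕ) (fun n => (x n)⁻¹) := h2.mono hU
  -- centrality
  have hA : ∀ e : ℤ, ∀ᶠ m in (U : Filter ℕ), ∀ᶠ l in (U : Filter ℕ), ∀ g ∈ C,
      (x l * (x m)⁻¹) ^ e * g * ((x l * (x m)⁻¹) ^ e)⁻¹ * g⁻¹ ∈ V := by
    intro e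
    have hy : AC ((U : Filter ℕ) ×ˢ (U : Filter ℕ)) (fun p : ℕ × ℕ => x p.2 * (x p.1)⁻¹) :=
      AC.mul (hU1.comp tendsto_snd) (hU2.comp tendsto_fst)
    have hy' : AC ((U : Filter ℕ) ×ˢ (U : Filter ℕ)) (fun p : ℕ × ℕ => (x p.2 * (x p.1)⁻¹)⁻¹) := by
      have := AC.mul (hU1.comp (f := Prod.fst) (F' := (U : Filter ℕ) ×ˢ (U : Filter ℕ)) tendsto_fst)
        (hU2.comp tendsto_snd)
      simpa using this
    exact (hy.zpow hy' e C hC V hV).curry
  -- the case of unbounded powers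
  have hnotE : ∀ e : ℤ, (¬ ∃ K : Set G, IsCompact K ∧ ∀ᶠ n in (U : Filter ℕ), x n ^ e ∈ K) →
      ∀ m, ∀ᶠ l in (U : Filter ℕ), (x l * (x m)⁻¹) ^ e ∉ C := by
    intro e he m
    obtain ⟨C1, hC1, hC1n⟩ := exists_compact_mem_nhds (((x m)⁻¹) ^ e)
    have h3 : ∀ᶠ l in (U : Filter ℕ), x l ^ e ∉ C * C1⁻¹ := by
      rw [Ultrafilter.eventually_not]
      intro h
      exact he ⟨_, hC.mul hC1.inv, h⟩
    filter_upwards [h3, (zpow_tendsto hU1 hU2 (x m)⁻¹ e) hC1n] with l h4 h5 h6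
    apply h4
    have h7 : x l ^ e = (x l * (x m)⁻¹) ^ e * ((x l ^ e)⁻¹ * (x l * (x m)⁻¹) ^ e)⁻¹ := by group
    rw [h7]
    exact Set.mul_mem_mul h6 (Set.inv_mem_inv.2 h5)
  -- the dichotomy
  have hB : ∀ e : ℤ, ∀ᶠ m in (U : Filter ℕ), ∀ᶠ l in (U : Filter ℕ),
      (x l * (x m)⁻¹) ^ e ∈ V ∨ (x l * (x m)⁻¹) ^ e ∉ C := by
    intro e
    by_cases he : ∃ K : Set G, IsCompact K ∧ ∀ᶠ n in (U : Filter ℕ), x n ^ e ∈ K
    · obtain ⟨K, hK, hKe⟩ := he
      obtain ⟨z, -, hz⟩ := hK.ultrafilter_le_nhds (U.map (fun n => x n ^ e)) (by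
        rw [le_principal_iff]
        exact hKe)
      have hz' : Tendsto (fun n => x n ^ e) U (𝓝 z) := hz
      have h3 : Tendsto (fun m => z * ((x m)⁻¹) ^ e) U (𝓝 1) := by
        have h4 := (hz'.inv).const_mul z
        rw [mul_inv_cancel] at h4
        refine h4.congr (fun m => ?_)
        rw [inv_zpow]
      have h5 : ∀ᶠ m in (U : Filter ℕ), z * ((x m)⁻¹) ^ e ∈ interior V :=
        h3 (interior_mem_nhds.2 hV)
      filter_upwards [h5] with m hm
      have h6 : Tendsto (fun l => (x l * (x m)⁻¹) ^ e) U (𝓝 (z * ((x m)⁻¹) ^ e)) := by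
        have h7 := hz'.mul (zpow_tendsto hU1 hU2 (x m)⁻¹ e)
        refine h7.congr (fun l => ?_)
        group
      have h8 : ∀ᶠ l in (U : Filter ℕ), (x l * (x m)⁻¹) ^ e ∈ interior V :=
        h6 (isOpen_interior.mem_nhds hm)
      filter_upwards [h8] with l hl
      exact Or.inl (interior_subset hl)
    · filter_upwards with m
      filter_upwards [hnotE e he m] with l hl
      exact Or.inr hl
  have hone : ∀ m, ∀ᶠ l in (U : Filter ℕ), x l * (x m)⁻¹ ∉ C := by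
    have h3 : ¬ ∃ K : Set G, IsCompact K ∧ ∀ᶠ n in (U : Filter ℕ), x n ^ (1 : ℤ) ∈ K := by
      rintro ⟨K, hK, h4⟩
      have h5 : ∀ᶠ n in (U : Filter ℕ), x n ∉ K := by
        have h6 : ∀ᶠ n in atTop, x n ∈ Kᶜ := hx hK.compl_mem_cocompact
        exact hU h6
      obtain ⟨n, h7, h8⟩ := (h4.and h5).exists
      rw [zpow_one] at h7
      exact h8 h7
    intro m
    have := hnotE 1 h3 m
    simpa using this
  -- combine
  have hall : ∀ᶠ m in (U : Filter ℕ), ∀ᶠ l in (U : Filter ℕ), ∀ e ∈ Finset.Icc (-(j : ℤ)) j,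
      ((x l * (x m)⁻¹) ^ e ∈ V ∨ (x l * (x m)⁻¹) ^ e ∉ C) ∧
      ∀ g ∈ C, (x l * (x m)⁻¹) ^ e * g * ((x l * (x m)⁻¹) ^ e)⁻¹ * g⁻¹ ∈ V := by
    have h3 : ∀ᶠ m in (U : Filter ℕ), ∀ e ∈ Finset.Icc (-(j : ℤ)) j, ∀ᶠ l in (U : Filter ℕ),
        ((x l * (x m)⁻¹) ^ e ∈ V ∨ (x l * (x m)⁻¹) ^ e ∉ C) ∧
        ∀ g ∈ C, (x l * (x m)⁻¹) ^ e * g * ((x l * (x m)⁻¹) ^ e)⁻¹ * g⁻¹ ∈ V := by
      rw [eventually_all_finset]
      intro e _
      filter_upwards [hA e, hB e] with m h4 h5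
      exact h5.and h4
    filter_upwards [h3] with m hm
    rw [eventually_all_finset]
    exact hm
  obtain ⟨m, hm⟩ := hall.exists
  obtain ⟨l, hl, hl'⟩ := (hm.and (hone m)).exists
  refine ⟨x l * (x m)⁻¹, ?_, ?_, hl'⟩
  · intro e he
    exact (hl e (Finset.mem_Icc.2 (abs_le.1 he))).1
  · intro e he
    exact (hl e (Finset.mem_Icc.2 (abs_le.1 he))).2

end

theorem KL {G : Type*} [Group G] [τ : TopologicalSpace G] [IsTopologicalGroup G] [T2Space G]
    [LocallyCompactSpace G] [SecondCountableTopology G] (x : ℕ → G)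
    (hx : Filter.Tendsto x Filter.atTop (Filter.cocompact G))
    (hc : ∀ K : Set G, IsCompact K → ∀ V ∈ nhds (1:G), ∀ᶠ n in Filter.atTop, ∀ g ∈ K,
      x n * g * (x n)⁻¹ * g⁻¹ ∈ V ∧ (x n)⁻¹ * g * x n * g⁻¹ ∈ V) :
    ∃ σ : TopologicalSpace G, @IsTopologicalGroup G σ _ ∧ @T2Space G σ ∧
      (∀ s : Set G, @IsOpen G σ s → @IsOpen G τ s) ∧
      ∃ s : Set G, @IsOpen G τ s ∧ ¬ @IsOpen G σ s := by
  have h1 : AC atTop x := by
    intro K hK V hV
    filter_upwards [hc K hK V hV] with n hn g hg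
    exact (hn g hg).1
  have h2 : AC atTop (fun n => (x n)⁻¹) := by
    intro K hK V hV
    filter_upwards [hc K hK V hV] with n hn g hg
    rw [inv_inv]
    exact (hn g hg).2
  obtain ⟨C0, hC0, hC0n⟩ := exists_compact_mem_nhds (1 : G)
  obtain ⟨u, hu, humul⟩ := IsTopologicalGroup.exists_antitone_basis_nhds_one G
  obtain ⟨s, -, hs⟩ := hu.toHasBasis.mem_iff.1 hC0n
  let V : ℕ → Set G := fun n => u (2 * n + s) ∩ (u (2 * n + s))⁻¹
  have hVn : ∀ n, V n ∈ 𝓝 (1 : G) := fun n =>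
    inter_mem (hu.mem _) (inv_mem_nhds_one G (hu.mem _))
  have hu3 : ∀ n a b c, a ∈ u (n + 2) → b ∈ u (n + 2) → c ∈ u (n + 2) → a * b * c ∈ u n := by
    intro n a b c ha hb hc
    apply humul n
    apply Set.mul_mem_mul
    · exact humul (n + 1) (Set.mul_mem_mul ha hb)
    · exact hu.antitone (by omega) hc
  have hV0 : V 0 ⊆ C0 := by
    intro g hg
    apply hs
    have := hg.1
    simpa using this
  let E := CompactExhaustion.choice G
  let K : ℕ → Set G := fun n => E n ∪ {1}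
  have hKc : ∀ n, IsCompact (K n) := fun n => (E.isCompact n).union isCompact_singleton
  choose Y hY1 hY2 hY3 using fun (j : ℕ) (C : {C : Set G // IsCompact C}) =>
    exists_y hx h1 h2 j (hVn (j + 3)) C.2
  let P : ℕ → G → Set G := fun n y => (fun e : ℤ => y ^ e) '' (Icc (-(n : ℤ)) n)
  have hP : ∀ n y, IsCompact (P n y) := fun n y => ((finite_Icc _ _).image _).isCompact
  let step : ℕ → {C : Set G // IsCompact C} → {C : Set G // IsCompact C} := fun n C =>
    ⟨C.1 ∪ P n (Y n C) * C.1 ∪ C0 * P n (Y n C) ∪ C0 * K (n + 1) * C0,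
      ((C.2.union ((hP _ _).mul C.2)).union (hC0.mul (hP _ _))).union ((hC0.mul (hKc _)).mul hC0)⟩
  let B : ℕ → {C : Set G // IsCompact C} := fun n =>
    Nat.rec ⟨C0 * K 0 * C0, (hC0.mul (hKc _)).mul hC0⟩ (fun n C => step n C) n
  have hBs : ∀ n, (B (n + 1)).1 =
      (B n).1 ∪ P n (Y n (B n)) * (B n).1 ∪ C0 * P n (Y n (B n)) ∪ C0 * K (n + 1) * C0 :=
    fun n => rfl
  have hB0 : (B 0).1 = C0 * K 0 * C0 := rfl
  have T : TSeq V (fun n => (B n).1) K (fun n => Y n (B n)) := by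
    constructor
    · exact hVn
    · intro n g hg
      exact ⟨hg.2, by simpa using hg.1⟩
    · intro n a b c ha hb hc
      constructor
      · apply hu3
        · rw [show 2 * n + s + 2 = 2 * (n + 1) + s by ring]; exact ha.1
        · rw [show 2 * n + s + 2 = 2 * (n + 1) + s by ring]; exact hb.1
        · rw [show 2 * n + s + 2 = 2 * (n + 1) + s by ring]; exact hc.1
      · rw [Set.mem_inv, mul_inv_rev, mul_inv_rev, ← mul_assoc]
        apply hu3
        · rw [show 2 * n + s + 2 = 2 * (n + 1) + s by ring]; exact hc.2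
        · rw [show 2 * n + s + 2 = 2 * (n + 1) + s by ring]; exact hb.2
        · rw [show 2 * n + s + 2 = 2 * (n + 1) + s by ring]; exact ha.2
    · intro W hW
      obtain ⟨n, -, hn⟩ := hu.toHasBasis.mem_iff.1 hW
      refine ⟨n, ?_⟩
      intro g hg
      exact hn (hu.antitone (by omega) hg.1)
    · intro n
      rw [hBs]
      exact fun g hg => Or.inl (Or.inl (Or.inl hg))
    · intro n a g b ha hg hb
      have h3 : a * g * b ∈ C0 * K n * C0 := Set.mul_mem_mul (Set.mul_mem_mul (hV0 ha) hg) (hV0 hb)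
      cases n with
      | zero => exact h3
      | succ n => exact Or.inr h3
    · intro n e a he ha
      exact Or.inl (Or.inr (Set.mul_mem_mul (hV0 ha) ⟨e, abs_le.1 he, rfl⟩))
    · intro n e b he hb
      exact Or.inl (Or.inl (Or.inr (Set.mul_mem_mul ⟨e, abs_le.1 he, rfl⟩ hb)))
    · intro n
      exact union_subset_union_left _ (E.subset_succ n)
    · intro g
      obtain ⟨n, hn⟩ := E.exists_mem g
      exact ⟨n, Or.inl hn⟩
    · intro n
      exact Or.inr rfl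
    · intro n e g he hg
      exact hY2 n (B n) e he g hg
    · intro n e he
      exact hY1 n (B n) e he
    · intro n
      exact hY3 n (B n)
  exact T.coarser

end Pool.Agent.Lib.Pc4a55f
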