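import Mathlib
import Pool.Agent.Lib.Pc4a55f.KL

set_option autoImplicit false

/-!
# Products of minimal topological groups

`MinimalGroup G`: `G` is a Hausdorff topological group without strictly coarser Hausdorff group
topology.
-/

namespace Pool.Agent.Lib.Pc4a55f

open Filter Topology Set

/-- `G` with its given topology is a Hausdorff topological group, and every Hausdorff group
topology on `G` which is coarser than the given topology is equal to it. -/
def MinimalGroup (G : Type*) [Group G] [τ : TopologicalSpace G] : Prop :=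
  IsTopologicalGroup G ∧ T2Space G ∧
    ∀ σ : TopologicalSpace G, @IsTopologicalGroup G σ _ → @T2Space G σ →
      (∀ s : Set G, @IsOpen G σ s → @IsOpen G τ s) → ∀ s : Set G, @IsOpen G τ s → @IsOpen G σ s

section

variable {G : Type*} [Group G] [TopologicalSpace G]

/-- pull back of a coarser topology along an injective homomorphism -/
theorem MinimalGroup.isInducing (hG : MinimalGroup G) {P : Type*} [Group P] [TopologicalSpace P]
    [IsTopologicalGroup P] [T2Space P] (ι : G →* P) (hι : Continuous ι)
    (hinj : Function.Injective ι) : IsInducing ι := by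
  have h1 := hG.2.2 (TopologicalSpace.induced ι inferInstance) (topologicalGroup_induced ι)
    (by
      letI : TopologicalSpace G := TopologicalSpace.induced ι inferInstance
      exact T2Space.of_injective_continuous hinj continuous_induced_dom)
    (by
      rintro s ⟨t, ht, rfl⟩
      exact ht.preimage hι)
  constructor
  apply le_antisymm
  · exact continuous_iff_le_induced.1 hι
  · intro s hs
    exact h1 s hs

variable [IsTopologicalGroup G] [T2Space G]

/-- (i) the case `G / Z` minimal -/
theorem tight_quot (hG : MinimalGroup (G ⧸ Subgroup.center G)) {P : Type*} [Group P]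
    [TopologicalSpace P] [IsTopologicalGroup P] (p : P →* G) (s : G →* P) (hs : Continuous s)
    (hps : ∀ g, p (s g) = g) (hc : Continuous (fun x : P × G => p x.1 * x.2 * (p x.1)⁻¹)) :
    Continuous (fun u => (p u : G ⧸ Subgroup.center G)) := by
  let q : P →* G ⧸ Subgroup.center G := (QuotientGroup.mk' (Subgroup.center G)).comp p
  have hq : ∀ u, q u = (p u : G ⧸ Subgroup.center G) := fun _ => rfl
  have hqs : Function.Surjective q := by
    intro y
    obtain ⟨g, rfl⟩ := QuotientGroup.mk_surjective y
    exact ⟨s g, by rw [hq, hps]⟩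
  -- the kernel is closed
  have hker : ∀ u, u ∈ q.ker ↔ ∀ g, p u * g * (p u)⁻¹ = g := by
    intro u
    rw [MonoidHom.mem_ker, hq, QuotientGroup.eq_one_iff, Subgroup.mem_center_iff]
    constructor
    · intro h g
      rw [← h g, mul_inv_cancel_right]
    · intro h g
      have := congrArg (fun y => y * p u) (h g)
      simpa [mul_assoc] using this.symm
  have hclosed : IsClosed (q.ker : Set P) := by
    have : (q.ker : Set P) = ⋂ g : G, {u | p u * g * (p u)⁻¹ = g} := by
      ext u
      simp only [SetLike.mem_coe, mem_iInter, mem_setOf_eq]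
      exact hker u
    rw [this]
    apply isClosed_iInter
    intro g
    exact isClosed_eq (hc.comp (Continuous.prodMk_left g)) continuous_const
  let e : P ⧸ q.ker ≃* G ⧸ Subgroup.center G :=
    QuotientGroup.quotientKerEquivOfSurjective q hqs
  have he : ∀ u : P, e (u : P ⧸ q.ker) = q u := fun u => rfl
  have hcont : Continuous e.symm := by
    have h1 : Continuous (fun g : G => ((s g : P) : P ⧸ q.ker)) :=
      QuotientGroup.continuous_mk.comp hs
    have h2 : (e.symm ∘ (QuotientGroup.mk : G → G ⧸ Subgroup.center G)) =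
        (fun g : G => ((s g : P) : P ⧸ q.ker)) := by
      funext g
      rw [Function.comp_apply, MulEquiv.symm_apply_eq, he, hq, hps]
    rw [(QuotientGroup.isQuotientMap_mk (Subgroup.center G)).continuous_iff, h2]
    exact h1
  have hT : T2Space (P ⧸ q.ker) := by
    haveI : IsClosed (q.ker : Set P) := hclosed
    infer_instance
  have hind : IsInducing e.symm.toMonoidHom :=
    MinimalGroup.isInducing hG e.symm.toMonoidHom hcont e.symm.injective
  rw [hind.continuous_iff]
  have h3 : (e.symm.toMonoidHom ∘ fun u => (p u : G ⧸ Subgroup.center G)) =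
      (fun u : P => (u : P ⧸ q.ker)) := by
    funext u
    show e.symm (q u) = _
    rw [MulEquiv.symm_apply_eq, he]
  rw [h3]
  exact QuotientGroup.continuous_mk

/-- uniform continuity of the conjugation action on compact sets -/
theorem eventually_conj {P : Type*} [Group P] [TopologicalSpace P] [IsTopologicalGroup P]
    (p : P →* G) (hc : Continuous (fun x : P × G => p x.1 * x.2 * (p x.1)⁻¹)) {K : Set G}
    (hK : IsCompact K) {V : Set G} (hV : V ∈ 𝓝 (1 : G)) :
    ∀ᶠ u in 𝓝 (1 : P), ∀ g ∈ K, p u * g * (p u)⁻¹ * g⁻¹ ∈ V ∧ (p u)⁻¹ * g * p u * g⁻¹ ∈ V := by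
  have h1 : ∀ᶠ u in 𝓝 (1 : P), ∀ g ∈ K, p u * g * (p u)⁻¹ * g⁻¹ ∈ V := by
    obtain ⟨W, hWV, hWo, hW1⟩ := mem_nhds_iff.1 hV
    have hf : Continuous (fun x : P × G => p x.1 * x.2 * (p x.1)⁻¹ * x.2⁻¹) :=
      hc.mul continuous_snd.inv
    obtain ⟨A, B, hAo, hBo, hA, hB, hAB⟩ := generalized_tube_lemma (isCompact_singleton (x := (1 : P)))
      hK (hWo.preimage hf) (by
        rintro ⟨u, g⟩ ⟨hu, -⟩
        rw [mem_singleton_iff] at hu
        subst hu
        simpa using hW1)
    filter_upwards [hAo.mem_nhds (hA rfl)] with u hu g hg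
    have h : (u, g) ∈ (fun x : P × G => p x.1 * x.2 * (p x.1)⁻¹ * x.2⁻¹) ⁻¹' W :=
      hAB (mk_mem_prod hu (hB hg))
    exact hWV h
  have h2 : ∀ᶠ u in 𝓝 (1 : P), ∀ g ∈ K, (p u)⁻¹ * g * p u * g⁻¹ ∈ V := by
    have h3 : Tendsto (fun u : P => u⁻¹) (𝓝 1) (𝓝 1) := by
      have := (continuous_inv (G := P)).tendsto 1
      rwa [inv_one] at this
    filter_upwards [h3.eventually h1] with u hu g hg
    have := hu g hg
    rw [map_inv, inv_inv] at this
    exact this
  filter_upwards [h1, h2] with u hu1 hu2 g hg
  exact ⟨hu1 g hg, hu2 g hg⟩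

section

variable [LocallyCompactSpace G] [SecondCountableTopology G]

/-- an asymptotically central sequence in a minimal group clusters -/
theorem not_tendsto (hG : MinimalGroup G) (x : ℕ → G)
    (hc : ∀ K : Set G, IsCompact K → ∀ V ∈ 𝓝 (1 : G), ∀ᶠ n in atTop, ∀ g ∈ K,
      x n * g * (x n)⁻¹ * g⁻¹ ∈ V ∧ (x n)⁻¹ * g * x n * g⁻¹ ∈ V) :
    ¬ Tendsto x atTop (cocompact G) := by
  intro hx
  obtain ⟨σ, h1, h2, h3, s, hs, hs'⟩ := KL x hx hc
  exact hs' (hG.2.2 σ h1 h2 h3 s hs)

theorem tight_lc (hG : MinimalGroup G) {P : Type*} [Group P] [TopologicalSpace P]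
    [IsTopologicalGroup P] (p : P →* G)
    (hc : Continuous (fun x : P × G => p x.1 * x.2 * (p x.1)⁻¹)) :
    Continuous (fun u => (p u : G ⧸ Subgroup.center G)) := by
  have hcont1 : ContinuousAt (fun u => (p u : G ⧸ Subgroup.center G)) 1 := by
    by_contra hcon
    rw [ContinuousAt, map_one, tendsto_def] at hcon
    push Not at hcon
    obtain ⟨A, hA, hA'⟩ := hcon
    have hA1 : ((QuotientGroup.mk : G → G ⧸ Subgroup.center G) ⁻¹' A) ∈ 𝓝 (1 : G) :=
      (QuotientGroup.continuous_mk (N := Subgroup.center G)).continuousAt hA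
    obtain ⟨v, hv⟩ := (𝓝 (1 : G)).exists_antitone_basis
    let K := CompactExhaustion.choice G
    have hex : ∀ n : ℕ, ∃ u : P, (∀ g ∈ K n, p u * g * (p u)⁻¹ * g⁻¹ ∈ v n ∧
        (p u)⁻¹ * g * p u * g⁻¹ ∈ v n) ∧ (p u : G ⧸ Subgroup.center G) ∉ A := by
      intro n
      by_contra hno
      push Not at hno
      apply hA'
      filter_upwards [eventually_conj p hc (K.isCompact n) (hv.mem n)] with u hu
      exact hno u hu
    choose u hu hu' using hex
    have hAC : ∀ K : Set G, IsCompact K → ∀ V ∈ 𝓝 (1 : G), ∀ᶠ n in atTop, ∀ g ∈ K,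
        p (u n) * g * (p (u n))⁻¹ * g⁻¹ ∈ V ∧ (p (u n))⁻¹ * g * p (u n) * g⁻¹ ∈ V := by
      intro C hC V hV
      obtain ⟨a, ha⟩ := K.exists_superset_of_isCompact hC
      obtain ⟨b, hb⟩ := hv.toHasBasis.mem_iff.1 hV
      filter_upwards [eventually_ge_atTop (max a b)] with n hn g hg
      have h1 := hu n g (K.subset (le_trans (le_max_left _ _) hn) (ha hg))
      have h2 : v n ⊆ V := (hv.antitone (le_trans (le_max_right _ _) hn)).trans hb.2
      exact ⟨h2 h1.1, h2 h1.2⟩
    apply not_tendsto hG (fun n => p (u n)) hAC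
    rw [hasBasis_cocompact.tendsto_right_iff]
    intro C hC
    by_contra hfr
    rw [not_eventually] at hfr
    have hfr' : ∃ᶠ n in atTop, p (u n) ∈ C := hfr.mono (fun n hn => by simpa using hn)
    -- an ultrafilter
    have hne : (atTop ⊓ 𝓟 {n | p (u n) ∈ C}).NeBot := by
      rw [← frequently_mem_iff_neBot]
      exact hfr'
    let W := Ultrafilter.of (atTop ⊓ 𝓟 {n | p (u n) ∈ C})
    have hW1 : (W : Filter ℕ) ≤ atTop := (Ultrafilter.of_le _).trans inf_le_left
    have hW2 : ∀ᶠ n in (W : Filter ℕ), p (u n) ∈ C :=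
      (Ultrafilter.of_le _).trans inf_le_right (mem_principal_self _)
    obtain ⟨z, hzC, hz⟩ := hC.ultrafilter_le_nhds (W.map (fun n => p (u n))) (by
      rw [le_principal_iff]
      exact hW2)
    have hz' : Tendsto (fun n => p (u n)) W (𝓝 z) := hz
    have hzc : z ∈ Subgroup.center G := by
      rw [Subgroup.mem_center_iff]
      intro g
      have h1 : Tendsto (fun n => p (u n) * g * (p (u n))⁻¹ * g⁻¹) W (𝓝 (z * g * z⁻¹ * g⁻¹)) :=
        ((hz'.mul_const g).mul hz'.inv).mul_const g⁻¹
      have h2 : Tendsto (fun n => p (u n) * g * (p (u n))⁻¹ * g⁻¹) W (𝓝 1) := by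
        rw [tendsto_def]
        intro V hV
        filter_upwards [hW1 (hAC {g} isCompact_singleton V hV)] with n hn
        exact (hn g rfl).1
      have h3 := tendsto_nhds_unique h1 h2
      have h4 : z * g = g * z := by
        have := congrArg (fun y => y * g * z) h3
        simpa [mul_assoc] using this
      exact h4.symm
    -- contradiction
    have h5 : Tendsto (fun n => (p (u n) : G ⧸ Subgroup.center G)) W (𝓝 (1 : G ⧸ Subgroup.center G)) := by
      have h6 := ((QuotientGroup.continuous_mk (N := Subgroup.center G)).tendsto z).comp hz'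
      have h7 : (z : G ⧸ Subgroup.center G) = 1 := (QuotientGroup.eq_one_iff z).2 hzc
      rw [h7] at h6
      exact h6
    have h8 : ∀ᶠ n in (W : Filter ℕ), (p (u n) : G ⧸ Subgroup.center G) ∈ A := h5 hA
    obtain ⟨n, hn⟩ := h8.exists
    exact hu' n hn
  exact continuous_of_continuousAt_one ((QuotientGroup.mk' (Subgroup.center G)).comp p) hcont1

theorem isCompact_center (hG : MinimalGroup G) :
    IsCompact (Subgroup.center G : Set G) := by
  have hcl : IsClosed (Subgroup.center G : Set G) := by
    have : (Subgroup.center G : Set G) = ⋂ g : G, {u | g * u = u * g} := by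
      ext u
      simp [Subgroup.mem_center_iff]
    rw [this]
    exact isClosed_iInter fun g => isClosed_eq (continuous_const.mul continuous_id)
      (continuous_id.mul continuous_const)
  by_contra hcon
  let K := CompactExhaustion.choice G
  have hex : ∀ n : ℕ, ∃ u ∈ Subgroup.center G, u ∉ K n := by
    intro n
    by_contra hno
    push Not at hno
    exact hcon ((K.isCompact n).of_isClosed_subset hcl hno)
  choose u hu hu' using hex
  apply not_tendsto hG u
  · intro C hC V hV
    filter_upwards with n g hg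
    have h1 := Subgroup.mem_center_iff.1 (hu n) g
    have h2 : u n * g * (u n)⁻¹ * g⁻¹ = 1 := by rw [← h1]; group
    have h3 : (u n)⁻¹ * g * u n * g⁻¹ = 1 := by rw [mul_assoc (u n)⁻¹, h1]; group
    rw [h2, h3]
    exact ⟨mem_of_mem_nhds hV, mem_of_mem_nhds hV⟩
  · rw [hasBasis_cocompact.tendsto_right_iff]
    intro C hC
    obtain ⟨a, ha⟩ := K.exists_superset_of_isCompact hC
    filter_upwards [eventually_ge_atTop a] with n hn hmem
    exact hu' n (K.subset hn (ha hmem))

end

end

/-- the class of factors: locally compact second countable, or with compact centre and minimal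
central quotient -/
def Factor (G : Type*) [Group G] [TopologicalSpace G] : Prop :=
  (LocallyCompactSpace G ∧ SecondCountableTopology G) ∨
    (IsCompact (Subgroup.center G : Set G) ∧ MinimalGroup (G ⧸ Subgroup.center G))

theorem core {I : Type*} {G : I → Type*} [∀ i, Group (G i)] [∀ i, TopologicalSpace (G i)]
    (hmin : ∀ i, MinimalGroup (G i)) (hfac : ∀ i, Factor (G i))
    {P : Type*} [Group P] [TopologicalSpace P] [IsTopologicalGroup P] [T2Space P]
    (φ : P ≃* ∀ i, G i) (hφ : Continuous φ.symm) : Continuous φ := by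
  classical
  haveI : ∀ i, IsTopologicalGroup (G i) := fun i => (hmin i).1
  haveI : ∀ i, T2Space (G i) := fun i => (hmin i).2.1
  let p : ∀ i, P →* G i := fun i => (Pi.evalMonoidHom G i).comp φ.toMonoidHom
  let s : ∀ i, G i →* P := fun i => φ.symm.toMonoidHom.comp (MonoidHom.mulSingle G i)
  have hp : ∀ i u, p i u = φ u i := fun i u => rfl
  have hs : ∀ i g, s i g = φ.symm (Pi.mulSingle i g) := fun i g => rfl
  have hps : ∀ i g, p i (s i g) = g := by
    intro i g
    rw [hp, hs, MulEquiv.apply_symm_apply, Pi.mulSingle_eq_same]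
  have hscont : ∀ i, Continuous (s i) := fun i => hφ.comp (continuous_mulSingle i)
  have hsind : ∀ i, IsInducing (s i) := fun i =>
    (hmin i).isInducing (s i) (hscont i) (fun a b h => by rw [← hps i a, h, hps])
  have hconj : ∀ i, Continuous (fun x : P × G i => p i x.1 * x.2 * (p i x.1)⁻¹) := by
    intro i
    rw [(hsind i).continuous_iff]
    have h1 : (s i ∘ fun x : P × G i => p i x.1 * x.2 * (p i x.1)⁻¹) =
        fun x : P × G i => x.1 * s i x.2 * x.1⁻¹ := by
      funext x
      rw [Function.comp_apply, hs, MulEquiv.symm_apply_eq]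
      funext j
      rw [map_mul, map_mul, hs, MulEquiv.apply_symm_apply, map_inv]
      by_cases hj : j = i
      · subst hj
        simp [hp]
      · simp [hj]
    rw [h1]
    exact (continuous_fst.mul ((hscont i).comp continuous_snd)).mul continuous_fst.inv
  have hZ : ∀ i, IsCompact (Subgroup.center (G i) : Set (G i)) := by
    intro i
    rcases hfac i with ⟨h1, h2⟩ | h
    · exact isCompact_center (hmin i)
    · exact h.1
  have hq : ∀ i, Continuous (fun u => (p i u : G i ⧸ Subgroup.center (G i))) := by
    intro i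
    rcases hfac i with ⟨h1, h2⟩ | h
    · exact tight_lc (hmin i) (p i) (hconj i)
    · exact tight_quot h.2 (p i) (s i) (hscont i) (hps i) (hconj i)
  apply continuous_of_continuousAt_one φ
  rw [ContinuousAt, map_one]
  rw [tendsto_iff_ultrafilter]
  intro W hW
  -- coordinates converge to central elements
  have hcoord : ∀ i, ∃ z : G i, Tendsto (fun u => p i u) W (𝓝 z) := by
    intro i
    have hproper : IsProperMap (QuotientGroup.mk : G i → G i ⧸ Subgroup.center (G i)) := by
      rw [isProperMap_iff_isClosedMap_and_compact_fibers]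
      refine ⟨QuotientGroup.continuous_mk, QuotientGroup.isClosedMap_coe (hZ i), ?_⟩
      intro y
      obtain ⟨g, rfl⟩ := QuotientGroup.mk_surjective y
      have : (QuotientGroup.mk : G i → G i ⧸ Subgroup.center (G i)) ⁻¹' {(g : G i ⧸ Subgroup.center (G i))} =
          (fun z => g * z) '' (Subgroup.center (G i) : Set (G i)) := by
        ext y
        simp only [mem_preimage, mem_singleton_iff, mem_image, SetLike.mem_coe]
        constructor
        · intro h
          refine ⟨g⁻¹ * y, ?_, by group⟩
          exact QuotientGroup.eq.1 h.symm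
        · rintro ⟨z, hz, rfl⟩
          rw [eq_comm, QuotientGroup.eq]
          simpa using hz
      rw [this]
      exact (hZ i).image (continuous_const.mul continuous_id)
    have h1 : Tendsto (QuotientGroup.mk : G i → G i ⧸ Subgroup.center (G i))
        (W.map (p i)) (𝓝 (1 : G i ⧸ Subgroup.center (G i))) := by
      have h2 := (hq i).tendsto 1
      rw [map_one, QuotientGroup.mk_one] at h2
      have h3 : Tendsto (fun u => (p i u : G i ⧸ Subgroup.center (G i))) W
          (𝓝 (1 : G i ⧸ Subgroup.center (G i))) := h2.mono_left hW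
      exact h3
    obtain ⟨z, -, hz⟩ := hproper.ultrafilter_le_nhds_of_tendsto h1
    exact ⟨z, hz⟩
  choose z hz using hcoord
  have h1 : Tendsto φ W (𝓝 z) := by
    rw [tendsto_pi_nhds]
    intro i
    exact hz i
  have h2 : Tendsto (fun u => φ.symm (φ u)) W (𝓝 (φ.symm z)) := (hφ.tendsto z).comp h1
  simp only [MulEquiv.symm_apply_apply] at h2
  have h3 : φ.symm z = 1 := tendsto_nhds_unique h2 hW
  have h4 : z = 1 := by
    rw [← MulEquiv.apply_symm_apply φ z, h3, map_one]
  rw [h4] at h1
  exact h1

theorem main {I : Type*} (G : I → Type*) [∀ i, Group (G i)] [∀ i, TopologicalSpace (G i)]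
    (hmin : ∀ i, MinimalGroup (G i)) (hfac : ∀ i, Factor (G i)) : MinimalGroup (∀ i, G i) := by
  haveI : ∀ i, IsTopologicalGroup (G i) := fun i => (hmin i).1
  haveI : ∀ i, T2Space (G i) := fun i => (hmin i).2.1
  refine ⟨inferInstance, inferInstance, ?_⟩
  intro σ h1 h2 h3 t ht
  have h5 : @Continuous _ _ Pi.topologicalSpace σ (MulEquiv.refl (∀ i, G i)).symm :=
    (@continuous_def _ _ Pi.topologicalSpace σ _).2 h3
  have h4 : @Continuous _ _ σ Pi.topologicalSpace (MulEquiv.refl (∀ i, G i)) :=
    @core I G _ _ hmin hfac (∀ i, G i) _ σ h1 h2 (MulEquiv.refl _) h5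
  exact (@continuous_def _ _ σ Pi.topologicalSpace _).1 h4 t ht

end Pool.Agent.Lib.Pc4a55f
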