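import Mathlib
import Pool.Agent.Lib.Pc4a55f.Aspl
import Pool.Agent.Lib.Pc4a55f.Prod

set_option autoImplicit false

/-!
# Raikov complete groups: asymptotically central ultrafilters converge
-/

namespace Pool.Agent.Lib.Pc4a55f

open Filter Topology Set
open scoped Pointwise

attribute [local instance] Ultrafilter.mul Ultrafilter.semigroup

/-- Raikov completeness: every Cauchy filter of the two-sided uniformity converges. -/
def RaikovComplete (G : Type*) [Group G] [TopologicalSpace G] : Prop :=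
  ∀ F : Filter G, F.NeBot →
    (∀ V ∈ 𝓝 (1 : G), ∃ A ∈ F, ∀ x ∈ A, ∀ y ∈ A, x⁻¹ * y ∈ V ∧ y * x⁻¹ ∈ V) →
    ∃ x : G, F ≤ 𝓝 x

/-- Every central element `z ≠ 1` lies outside some open subgroup, or is moved by some strongly
continuous representation of `G` by linear isometries of a real normed space whose dual space is
separable in the norm topology. -/
def SepCentre.{v, u} (G : Type u) [Group G] [TopologicalSpace G] : Prop :=
  ∀ z ∈ Subgroup.center G, z ≠ 1 →
    (∃ V : Subgroup G, IsOpen (V : Set G) ∧ z ∉ V) ∨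
    ∃ (X : Type v) (_ : NormedAddCommGroup X) (_ : NormedSpace ℝ X) (π : G →* (X ≃ₗᵢ[ℝ] X)),
      TopologicalSpace.SeparableSpace (StrongDual ℝ X) ∧ (∀ ξ : X, Continuous fun g => π g ξ) ∧
      π z ≠ 1

section

variable {G P : Type*} [Group G] [TopologicalSpace G] [IsTopologicalGroup G]
  [Group P] [TopologicalSpace P] [IsTopologicalGroup P]

/-- a non-convergent ultrafilter gives an idempotent one -/
theorem exists_idem (hG : RaikovComplete G) (p : P →* G)
    (hc : Continuous (fun x : P × G => p x.1 * x.2 * (p x.1)⁻¹)) (ν : Ultrafilter P)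
    (hν : (ν : Filter P) ≤ 𝓝 1) (hnc : ¬ ∃ x, Tendsto p ν (𝓝 x)) :
    ∃ (V₁ : Set G) (ω : Ultrafilter P), V₁ ∈ 𝓝 (1 : G) ∧ (ω : Filter P) ≤ 𝓝 1 ∧
      (∀ᶠ u in ω, p u ∉ V₁) ∧
      ∀ q : P → Prop, (∀ᶠ m in ω, q m) → ∀ᶠ m in ω, ∀ᶠ m' in ω, q (m * m') := by
  -- not Cauchy
  have h1 : ∃ V ∈ 𝓝 (1 : G), ¬ ∀ᶠ a in ν, ∀ᶠ b in ν, (p a)⁻¹ * p b ∈ V := by
    by_contra hcon
    push Not at hcon
    apply hnc
    obtain ⟨x, hx⟩ := hG (map p ν) inferInstance (by
      intro V hV
      obtain ⟨A, hA, C, hC, hAC⟩ := mem_prod_iff.1 (tendsto_conj p hc hV)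
      obtain ⟨W, hW, hWV⟩ := exists_nhds_split_inv (inter_mem hC hV)
      have hW' : W⁻¹ ∈ 𝓝 (1 : G) := inv_mem_nhds_one G hW
      obtain ⟨a, ha⟩ := (hcon _ hW').exists
      refine ⟨p '' ({b | (p a)⁻¹ * p b ∈ W⁻¹} ∩ A), ?_, ?_⟩
      · exact image_mem_map (inter_mem ha (hν hA))
      · rintro _ ⟨b, ⟨hb1, hb2⟩, rfl⟩ _ ⟨b', ⟨hb3, hb4⟩, rfl⟩
        have h2 : (p b)⁻¹ * p b' ∈ C ∩ V := by
          have h3 := hWV _ (Set.mem_inv.1 hb1) _ (Set.mem_inv.1 hb3)
          have h4 : (p b)⁻¹ * p b' = ((p a)⁻¹ * p b)⁻¹ / ((p a)⁻¹ * p b')⁻¹ := by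
            rw [div_eq_mul_inv]
            group
          rw [h4]
          exact h3
        refine ⟨h2.2, ?_⟩
        have h5 := hAC (mk_mem_prod hb2 h2.1)
        have h6 : p b' * (p b)⁻¹ = p b * ((p b)⁻¹ * p b') * (p b)⁻¹ := by group
        rw [h6]
        exact h5)
    exact ⟨x, hx⟩
  obtain ⟨V, hV, hVn⟩ := h1
  rw [← Ultrafilter.eventually_not] at hVn
  obtain ⟨W, hW, hWV⟩ := exists_nhds_split_inv hV
  have hW' : W⁻¹ ∈ 𝓝 (1 : G) := inv_mem_nhds_one G hW
  -- the left ideal
  let A : Set (Ultrafilter P) := {κ | (κ : Filter P) ≤ 𝓝 1}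
  have hA : IsCompact A := by
    have h2 : A = ⋂ (s : Set P) (_ : s ∈ 𝓝 (1 : P)), {κ | s ∈ κ} := by
      ext κ
      simp only [A, mem_ofPred_eq, mem_iInter]
      rfl
    rw [h2]
    apply IsClosed.isCompact
    exact isClosed_iInter fun s => isClosed_iInter fun _ => ultrafilter_isClosed_basic s
  have hAmul : ∀ κ ∈ A, ∀ κ' ∈ A, κ * κ' ∈ A := by
    intro κ hκ κ' hκ' s hs
    obtain ⟨R, hR, hRs⟩ := exists_nhds_one_split hs
    show ∀ᶠ m in ↑(κ * κ'), m ∈ s
    rw [Ultrafilter.eventually_mul]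
    filter_upwards [hκ hR] with m hm
    filter_upwards [hκ' hR] with m' hm'
    exact hRs _ hm _ hm'
  obtain ⟨ω, hω, hidem⟩ := exists_idempotent_in_compact_subsemigroup
    (Ultrafilter.continuous_mul_left (M := P)) ((fun κ => κ * ν) '' A) ⟨_, ν, hν, rfl⟩
    (hA.image (Ultrafilter.continuous_mul_left ν)) (by
      rintro _ ⟨κ, hκ, rfl⟩ _ ⟨κ', hκ', rfl⟩
      exact ⟨κ * ν * κ', hAmul _ (hAmul _ hκ _ hν) _ hκ', by simp only [mul_assoc]⟩)
  obtain ⟨κ, hκ, rfl⟩ := hω
  have hidem' : κ * ν * (κ * ν) = κ * ν := hidem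
  refine ⟨W⁻¹, κ * ν, hW', hAmul _ hκ _ hν, ?_, ?_⟩
  · rw [Ultrafilter.eventually_mul]
    apply Eventually.of_forall
    intro k
    rw [Ultrafilter.eventually_not]
    intro hcon
    have h3 : ∀ᶠ a in ν, ∀ᶠ b in ν, (p a)⁻¹ * p b ∈ V := by
      filter_upwards [hcon] with a ha
      filter_upwards [hcon] with b hb
      have h4 := hWV _ (Set.mem_inv.1 ha) _ (Set.mem_inv.1 hb)
      have h5 : (p a)⁻¹ * p b = (p (k * a))⁻¹ / (p (k * b))⁻¹ := by
        rw [map_mul, map_mul, div_eq_mul_inv]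
        group
      rw [h5]
      exact h4
    obtain ⟨a, ha1, ha2⟩ := (hVn.and h3).exists
    exact ha1 ha2
  · intro q hq
    rw [← hidem', Ultrafilter.eventually_mul] at hq
    exact hq

/-- asymptotically central ultrafilters in minimal groups converge -/
theorem tendsto_of_minimal.{v} (hG : MinimalGroup G) [T2Space G] [SecondCountableTopology G]
    (hG1 : RaikovComplete G) (hG2 : SepCentre.{v} G) (p : P →* G)
    (hc : Continuous (fun x : P × G => p x.1 * x.2 * (p x.1)⁻¹)) (ν : Ultrafilter P)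
    (hν : (ν : Filter P) ≤ 𝓝 1) : ∃ x, Tendsto p ν (𝓝 x) := by
  by_contra hcon
  obtain ⟨V₁, ω, hV₁, hω, hsep, hidem⟩ := exists_idem hG1 p hc ν hν hcon
  obtain ⟨σ, h1, h2, h3, s, hs, hs'⟩ := UKL p hc ω hω hV₁ hsep (by
    intro z hz hz1
    rcases hG2 z hz hz1 with ⟨V, hV, hzV⟩ | ⟨X, i1, i2, π, i3, hπ, hπz⟩
    · exact exists_datum_open p hc hω hidem ⟨V, hV⟩ hzV
    · exact exists_datum_asplund p π hc hω hπ hidem hz hπz)
  exact hs' (hG.2.2 σ h1 h2 h3 s hs)

theorem isClosed_center' [T2Space G] : IsClosed (Subgroup.center G : Set G) := by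
  have : (Subgroup.center G : Set G) = ⋂ g : G, {u | g * u = u * g} := by
    ext u
    simp [Subgroup.mem_center_iff]
  rw [this]
  exact isClosed_iInter fun g => isClosed_eq (continuous_const.mul continuous_id)
    (continuous_id.mul continuous_const)

theorem tight_un.{v} (hG : MinimalGroup G) [T2Space G] [SecondCountableTopology G]
    (hG1 : RaikovComplete G) (hG2 : SepCentre.{v} G) (p : P →* G)
    (hc : Continuous (fun x : P × G => p x.1 * x.2 * (p x.1)⁻¹)) :
    Continuous (fun u => (p u : G ⧸ Subgroup.center G)) := by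
  apply continuous_of_continuousAt_one ((QuotientGroup.mk' (Subgroup.center G)).comp p)
  rw [ContinuousAt, map_one]
  rw [tendsto_iff_ultrafilter]
  intro ν hν
  obtain ⟨z, hz⟩ := tendsto_of_minimal hG hG1 hG2 p hc ν hν
  have hzc : z ∈ Subgroup.center G := by
    rw [Subgroup.mem_center_iff]
    intro g
    have h1 : Tendsto (fun u : P => g * p u * g⁻¹ * (p u)⁻¹) ν (𝓝 (g * z * g⁻¹ * z⁻¹)) :=
      (((hz.const_mul g).mul_const g⁻¹)).mul hz.inv
    have h2 : Tendsto (fun u : P => g * p u * g⁻¹ * (p u)⁻¹) ν (𝓝 1) :=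
      (tendsto_comm' p hc g).mono_left hν
    have h3 := tendsto_nhds_unique h1 h2
    calc g * z = (g * z * g⁻¹ * z⁻¹) * (z * g) := by group
      _ = z * g := by rw [h3, one_mul]
  have h4 : ((z : G) : G ⧸ Subgroup.center G) = 1 := (QuotientGroup.eq_one_iff z).2 hzc
  have h5 := ((QuotientGroup.continuous_mk (N := Subgroup.center G)).tendsto z).comp hz
  rw [h4] at h5
  exact h5

/-- `G` with the topology lifted from the quotient by the centre -/
def Lifted (G : Type*) : Type _ := G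

instance {G : Type*} [Group G] : Group (Lifted G) := inferInstanceAs (Group G)

theorem isCompact_center_un.{v} (hG : MinimalGroup G) [T2Space G] [SecondCountableTopology G]
    (hG1 : RaikovComplete G) (hG2 : SepCentre.{v} G) :
    IsCompact (Subgroup.center G : Set G) := by
  let j : Lifted G →* G ⧸ Subgroup.center G := QuotientGroup.mk' (Subgroup.center G)
  let _ : TopologicalSpace (Lifted G) := TopologicalSpace.induced j inferInstance
  have : IsTopologicalGroup (Lifted G) := topologicalGroup_induced j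
  let p : Lifted G →* G := MonoidHom.id G
  have hj : ∀ u : Lifted G, j u = (p u : G ⧸ Subgroup.center G) := fun _ => rfl
  have hc : Continuous (fun x : Lifted G × G => p x.1 * x.2 * (p x.1)⁻¹) := by
    -- the action factors through the quotient
    let a : (G ⧸ Subgroup.center G) × G → G := fun x =>
      Quotient.liftOn' x.1 (fun u => u * x.2 * u⁻¹) (by
        intro u v huv
        rw [QuotientGroup.leftRel_apply] at huv
        have h1 := Subgroup.mem_center_iff.1 huv x.2
        show u * x.2 * u⁻¹ = v * x.2 * v⁻¹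
        have h2 : v = u * (u⁻¹ * v) := by group
        rw [h2]
        generalize u⁻¹ * v = w at h1
        calc u * x.2 * u⁻¹ = u * (x.2 * w) * w⁻¹ * u⁻¹ := by group
          _ = u * w * x.2 * (u * w)⁻¹ := by rw [h1]; group)
    have ha : Continuous a := by
      have hq : IsOpenQuotientMap (Prod.map (QuotientGroup.mk : G → G ⧸ Subgroup.center G) (id : G → G)) :=
        (QuotientGroup.isOpenQuotientMap_mk).prodMap IsOpenQuotientMap.id
      rw [hq.isQuotientMap.continuous_iff]
      show Continuous (fun x : G × G => x.1 * x.2 * x.1⁻¹)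
      fun_prop
    have h1 : (fun x : Lifted G × G => p x.1 * x.2 * (p x.1)⁻¹) =
        a ∘ (fun x : Lifted G × G => (j x.1, x.2)) := by
      funext x
      rfl
    rw [h1]
    exact ha.comp ((continuous_induced_dom.comp continuous_fst).prodMk continuous_snd)
  rw [isCompact_iff_ultrafilter_le_nhds]
  intro ν hν
  have hν1 : ((ν.map (fun g : G => (g : Lifted G)) : Ultrafilter (Lifted G)) :
      Filter (Lifted G)) ≤ 𝓝 1 := by
    rw [nhds_induced, map_one]
    have h2 : Tendsto (fun g : G => j (g : Lifted G)) ν (𝓝 1) := by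
      apply tendsto_const_nhds.congr'
      filter_upwards [le_principal_iff.1 hν] with g hg
      exact ((QuotientGroup.eq_one_iff g).2 hg).symm
    exact tendsto_iff_comap.1 h2
  obtain ⟨x, hx⟩ := tendsto_of_minimal hG hG1 hG2 p hc _ hν1
  have hx' : (ν : Filter G) ≤ 𝓝 x := hx
  refine ⟨x, ?_, hx'⟩
  exact isClosed_center'.mem_of_tendsto (b := (ν : Filter G)) (f := id) hx' (le_principal_iff.1 hν)

end

end Pool.Agent.Lib.Pc4a55f
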