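import Pool.Agent.Lib.Pc4a55f.Raag

/-! Module Datum: the data attached to an element in the proof of the step lemma. -/

namespace Pool.Agent.Lib.Pc4a55f

open Monoid
open scoped commutatorElement

variable {C : Type} [LinearOrder C]

/-- the data extracted from an element `w` in the proof of the step lemma, with code
`(m, (l, ν, wbar))` and size `s` -/
structure Datum (name : C → ℕ → ℕ) (n : ℕ) (lo : ℕ) (s m l : ℕ) (ν : Finset (List ℕ))
    (wbar : Gam ℕ) (x : Fin s → C) (w : Gam C) : Prop where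
  msub : w ∈ sub {i | lo ≤ i.1 ∧ i.1 < m ∧ i.2 ∈ Finset.univ.image x}
  inj : Set.InjOn (fun a => restr l (name a)) (Finset.univ.image x : Finset C)
  mser : w ∈ ser (Gam C) n
  min : ∃ A1 ⊆ Finset.univ.image x, (∀ S, S ⊂ A1 → rho S w ∈ ser (Gam C) (n + 1)) ∧
    rho A1 w ∉ ser (Gam C) (n + 1) ∧
    A1.image (fun a => restr l (name a)) = ν ∧ rel A1 w = wbar

theorem exists_restr_inj {name : C → ℕ → ℕ} (hinj : Function.Injective name) (P : Finset C) :
    ∃ l, Set.InjOn (fun a => restr l (name a)) (P : Set C) := by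
  classical
  have h : ∀ a b : C, ∃ t, a ≠ b → name a t ≠ name b t := by
    intro a b
    by_cases hab : a = b
    · exact ⟨0, fun h => absurd hab h⟩
    · have h1 : name a ≠ name b := fun h => hab (hinj h)
      obtain ⟨t, ht⟩ := Function.ne_iff.1 h1
      exact ⟨t, fun _ => ht⟩
  choose f hf using h
  refine ⟨(P ×ˢ P).sup (fun q => f q.1 q.2 + 1), ?_⟩
  intro a ha b hb hab
  by_contra hne
  have h1 : f a b + 1 ≤ (P ×ˢ P).sup (fun q => f q.1 q.2 + 1) :=
    Finset.le_sup (f := fun q : C × C => f q.1 q.2 + 1) (b := (a, b))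
      (Finset.mem_product.2 ⟨ha, hb⟩)
  have h2 : ∀ t ∈ List.range ((P ×ˢ P).sup (fun q => f q.1 q.2 + 1)), name a t = name b t :=
    List.map_inj_left.1 hab
  exact hf a b hne (h2 _ (List.mem_range.2 h1))

/-- every `w ∈ V (lo, γ)` in `ser n` outside `ser (n+1)` has data above `γ`.
Take `F` finite with `w ∈ sub F`; then `w = kill ({lo ≤ i.1, γ < i.2}) w ∈ sub (F ∩ ..)`; `P` = set
of second coordinates, `m` above all first coordinates; `l` large enough for the names of `P` to be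
distinct (`hinj`); a minimal `A1 ⊆ P` with `rho A1 w ∉ ser (n+1)` exists as `rho P w = w`; `P` is
nonempty as otherwise `w = 1`. -/
theorem exists_datum {name : C → ℕ → ℕ} (hinj : Function.Injective name) {n lo : ℕ} {γ : C}
    {w : Gam C} (hV : w ∈ VV (lo, γ)) (hw : w ∈ ser (Gam C) n) (hw' : w ∉ ser (Gam C) (n + 1)) :
    ∃ (s m l : ℕ) (ν : Finset (List ℕ)) (wbar : Gam ℕ) (x : Fin s → C), 0 < s ∧
      (∀ i, γ < x i) ∧ Datum name n lo s m l ν wbar x w := by
  classical
  obtain ⟨F, hF⟩ := exists_fin_sub w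
  let T : Set (ℕ × C) := {i | lo ≤ i.1 ∧ γ < i.2}
  have h1 : w ∈ sub ((F : Set (ℕ × C)) ∩ T) := by
    have h2 := kill_mem_of_mem (S := (F : Set (ℕ × C))) hV
    rw [kill_eq_self hF] at h2
    exact h2
  let F' : Finset (ℕ × C) := F.filter (fun i => i ∈ T)
  let P : Finset C := F'.image Prod.snd
  let m : ℕ := F.sup Prod.fst + 1
  have h3 : w ∈ sub {i | lo ≤ i.1 ∧ i.1 < m ∧ i.2 ∈ P} := by
    refine sub_mono ?_ h1
    rintro i ⟨hi, hiT⟩
    refine ⟨hiT.1, Nat.lt_succ_of_le (Finset.le_sup (f := Prod.fst) hi), ?_⟩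
    exact Finset.mem_image_of_mem _ (Finset.mem_filter.2 ⟨hi, hiT⟩)
  have hwP : w ∈ sub {i | i.2 ∈ P} := sub_mono (fun i hi => hi.2.2) h3
  obtain ⟨l, hl⟩ := exists_restr_inj hinj P
  let x : Fin P.card → C := P.orderEmbOfFin rfl
  have hx : Finset.univ.image x = P := Finset.image_orderEmbOfFin_univ P rfl
  have hset : ({A | A ⊆ P ∧ rho A w ∉ ser (Gam C) (n + 1)} : Set (Finset C)).Nonempty :=
    ⟨P, Finset.Subset.refl _, by rw [rho_eq_self hwP]; exact hw'⟩
  obtain ⟨A1, ⟨hA1P, hA1⟩, hmin⟩ :=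
    (wellFounded_lt (α := Finset C)).has_min _ hset
  refine ⟨P.card, m, l, A1.image (fun a => restr l (name a)), rel A1 w, x, ?_, ?_, ?_⟩
  · rw [Finset.card_pos, Finset.nonempty_iff_ne_empty]
    intro hP
    have h4 := rho_eq_self hwP
    rw [hP, rho_empty] at h4
    exact hw' (h4 ▸ one_mem _)
  · intro i
    have h4 : x i ∈ P := Finset.orderEmbOfFin_mem P rfl i
    obtain ⟨j, hj, hj'⟩ := Finset.mem_image.1 h4
    rw [← hj']
    exact (Finset.mem_filter.1 hj).2.2
  · refine ⟨?_, ?_, hw, A1, ?_, ?_, hA1, rfl, rfl⟩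
    · rw [hx]
      exact h3
    · rw [hx]
      exact hl
    · rw [hx]
      exact hA1P
    · intro S hS
      by_contra hcon
      exact hmin S ⟨hS.subset.trans hA1P, hcon⟩ hS

end Pool.Agent.Lib.Pc4a55f
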