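import Mathlib

/-!
# MP_c4a55f_al: definitions

* `ser G n` : iterated squares series, `CInv n χ` : functions additive and conjugation invariant
  on `ser G n`.
* `Gam α` : the right-angled Artin group on `ℕ × α` where `i`, `j` commute when `i < j` in both
  coordinates.
* `rk`, `rel`, `back`, `rho`, `Psi`, `lam` : the functional on `Gam C` built from a colouring.
* `IsTower` : the algebraic input of the topological part.
* `SD N Y` : the group `(ZMod 2)^Y ⋊ N`.
-/

namespace Pool.Agent.Lib.Pc4a55f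

open Monoid
open scoped commutatorElement

/-- the series `A 0 = ⊤`, `A (n+1)` generated by the squares of the elements of `A n` -/
def ser (G : Type*) [Group G] : ℕ → Subgroup G
  | 0 => ⊤
  | n + 1 => Subgroup.closure {g | ∃ h ∈ ser G n, g = h * h}

/-- `χ` is additive on `A n` and invariant under conjugation there -/
structure CInv {G : Type*} [Group G] (n : ℕ) (χ : G → ZMod 2) : Prop where
  add : ∀ a ∈ ser G n, ∀ b ∈ ser G n, χ (a * b) = χ a + χ b
  conj : ∀ a ∈ ser G n, ∀ g : G, χ (g * a * g⁻¹) = χ a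

/-- the relators -/
def rels (α : Type) [LT α] : Set (FreeGroup (ℕ × α)) :=
  {r | ∃ i j : ℕ × α, i.1 < j.1 ∧ i.2 < j.2 ∧ r = ⁅FreeGroup.of i, FreeGroup.of j⁆}

/-- the right-angled Artin group -/
def Gam (α : Type) [LT α] : Type := PresentedGroup (rels α)

instance (α : Type) [LT α] : Group (Gam α) := inferInstanceAs (Group (PresentedGroup (rels α)))

/-- the generators -/
def gen {α : Type} [LT α] (i : ℕ × α) : Gam α := PresentedGroup.of i

/-- the subgroup generated by the generators in `T` -/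
def sub {α : Type} [LT α] (T : Set (ℕ × α)) : Subgroup (Gam α) := Subgroup.closure (gen '' T)

/-- universal property -/
def glift {α : Type} [LT α] {H : Type*} [Group H] (f : ℕ × α → H)
    (hf : ∀ i j : ℕ × α, i.1 < j.1 → i.2 < j.2 → f i * f j = f j * f i) : Gam α →* H :=
  PresentedGroup.toGroup (f := f) (by
    rintro r ⟨i, j, h1, h2, rfl⟩
    simp only [map_commutatorElement, FreeGroup.lift_apply_of]
    rw [commutatorElement_eq_one_iff_mul_comm]
    exact hf i j h1 h2)

@[simp] theorem glift_gen {α : Type} [LT α] {H : Type*} [Group H] (f : ℕ × α → H)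
    (hf : ∀ i j : ℕ × α, i.1 < j.1 → i.2 < j.2 → f i * f j = f j * f i) (i : ℕ × α) :
    glift f hf (gen i) = f i :=
  PresentedGroup.toGroup.of _

theorem gen_comm {α : Type} [LT α] {i j : ℕ × α} (h1 : i.1 < j.1) (h2 : i.2 < j.2) :
    gen i * gen j = gen j * gen i := by
  rw [← commutatorElement_eq_one_iff_mul_comm]
  have : ⁅FreeGroup.of i, FreeGroup.of j⁆ ∈ rels α := ⟨i, j, h1, h2, rfl⟩
  have h := PresentedGroup.one_of_mem this
  rw [map_commutatorElement] at h
  exact h

theorem closure_gen {α : Type} [LT α] : Subgroup.closure (Set.range (gen (α := α))) = ⊤ :=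
  PresentedGroup.closure_range_of _

theorem hom_ext {α : Type} [LT α] {H : Type*} [Group H] {f g : Gam α →* H}
    (h : ∀ i, f (gen i) = g (gen i)) : f = g :=
  PresentedGroup.ext h

open Classical in
/-- kill the generators outside `T` -/
noncomputable def kill {α : Type} [LT α] (T : Set (ℕ × α)) : Gam α →* Gam α :=
  glift (fun i => if i ∈ T then gen i else 1) (by
    intro i j h1 h2
    by_cases hi : i ∈ T <;> by_cases hj : j ∈ T <;> simp [hi, hj, gen_comm h1 h2])

open Classical in
theorem kill_gen {α : Type} [LT α] (T : Set (ℕ × α)) (i : ℕ × α) :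
    kill T (gen i) = if i ∈ T then gen i else 1 := by
  unfold kill
  rw [glift_gen]

section lin

variable {α : Type} [LinearOrder α]

/-- keep only the generators with second coordinate in `S` -/
noncomputable def rho (S : Finset α) : Gam α →* Gam α := kill {i | i.2 ∈ S}

theorem rho_gen (S : Finset α) (i : ℕ × α) : rho S (gen i) = if i.2 ∈ S then gen i else 1 := by
  unfold rho
  rw [kill_gen]
  by_cases h : i.2 ∈ S
  · simp [h]
  · simp [h]

/-- the rank of `a` relative to `A` -/
def rk (A : Finset α) (a : α) : ℕ := (A.filter (· < a)).card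

theorem rk_lt {A : Finset α} {a b : α} (ha : a ∈ A) (hab : a < b) : rk A a < rk A b := by
  unfold rk
  apply Finset.card_lt_card
  rw [Finset.ssubset_iff_of_subset]
  · exact ⟨a, by simp [ha, hab], by simp⟩
  · intro x hx
    simp only [Finset.mem_filter] at hx ⊢
    exact ⟨hx.1, hx.2.trans hab⟩

/-- collapse of `Gam α` onto the generators in `A`, renamed by their rank in `A` -/
noncomputable def rel (A : Finset α) : Gam α →* Gam ℕ :=
  glift (fun i => if i.2 ∈ A then gen (i.1, rk A i.2) else 1) (by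
    intro i j h1 h2
    by_cases hi : i.2 ∈ A <;> by_cases hj : j.2 ∈ A <;> simp only [hi, hj, if_true, if_false,
      mul_one, one_mul]
    exact gen_comm (by exact h1) (by exact rk_lt hi h2))

theorem rel_gen (A : Finset α) (i : ℕ × α) :
    rel A (gen i) = if i.2 ∈ A then gen (i.1, rk A i.2) else 1 := by
  unfold rel
  rw [glift_gen]

/-- the two sided collapse: generators `(c,a)` with `a ∈ A`, `m ≤ c` go to the left factor,
generators `(c,b)` with `b ∈ B`, `c < m` go to the right factor, all others to `1`.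
It is only defined (else trivial) when all elements of `A` are smaller than those of `B`. -/
noncomputable def Psi (A B : Finset α) (m : ℕ) : Gam α →* Coprod (Gam ℕ) (Gam ℕ) := by
  classical
  exact if h : ∀ a ∈ A, ∀ b ∈ B, a < b then
    glift (fun i => if i.2 ∈ A ∧ m ≤ i.1 then Coprod.inl (gen (i.1, rk A i.2))
      else if i.2 ∈ B ∧ i.1 < m then Coprod.inr (gen (i.1, rk B i.2)) else 1) (by
      intro i j h1 h2
      by_cases hi : i.2 ∈ A ∧ m ≤ i.1
      · by_cases hj : j.2 ∈ A ∧ m ≤ j.1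
        · simp only [hi, hj, and_self, if_true]
          rw [← map_mul, ← map_mul, gen_comm (by exact h1) (by exact rk_lt hi.1 h2)]
        · have hj' : ¬ (j.2 ∈ B ∧ j.1 < m) := by
            rintro ⟨_, hb⟩
            omega
          simp [hj, hj']
      · by_cases hi' : i.2 ∈ B ∧ i.1 < m
        · by_cases hj : j.2 ∈ A ∧ m ≤ j.1
          · exact absurd (h _ hj.1 _ hi'.1) (not_lt.2 h2.le)
          · by_cases hj' : j.2 ∈ B ∧ j.1 < m
            · simp only [hi, hj, hi', hj', and_self, if_true, if_false]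
              rw [← map_mul, ← map_mul, gen_comm (by exact h1) (by exact rk_lt hi'.1 h2)]
            · simp [hj, hj']
        · simp [hi, hi'])
  else 1

/-- the codes: `(m, (l1, ν1, w1), (l2, ν2, w2))` -/
abbrev Code : Type :=
  ℕ × (ℕ × Finset (List ℕ) × Gam ℕ) × (ℕ × Finset (List ℕ) × Gam ℕ)

/-- restriction of a function to its first `l` values -/
def restr (l : ℕ) (f : ℕ → ℕ) : List ℕ := (List.range l).map f

open Classical in
/-- a functional on the free product detecting the commutator of `w1` and `w2` at level `n+1`,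
if there is one -/
noncomputable def chi (n : ℕ) (w1 w2 : Gam ℕ) : Coprod (Gam ℕ) (Gam ℕ) → ZMod 2 :=
  if h : ∃ χ : Coprod (Gam ℕ) (Gam ℕ) → ZMod 2,
      CInv (n + 1) χ ∧ χ ⁅(Coprod.inl w1 : Coprod (Gam ℕ) (Gam ℕ)), Coprod.inr w2⁆ = 1 then h.choose else fun _ => 0

/-- the pair `(A, B)` fits the code `N` -/
structure Fits (name : α → ℕ → ℕ) (col : α → α → Code) (N : Code) (A B : Finset α) : Prop where
  neA : A.Nonempty
  neB : B.Nonempty
  lt : ∀ a ∈ A, ∀ b ∈ B, a < b
  col : ∀ a ∈ A, ∀ b ∈ B, col a b = N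
  nameA : A.image (fun a => restr N.2.1.1 (name a)) = N.2.1.2.1
  nameB : B.image (fun b => restr N.2.2.1 (name b)) = N.2.2.2.1

open Classical in
/-- one term of the functional -/
noncomputable def term (name : α → ℕ → ℕ) (col : α → α → Code) (n : ℕ)
    (p : Code × Finset α × Finset α) (u : Gam α) : ZMod 2 :=
  if Fits name col p.1 p.2.1 p.2.2 then
    ∑ S ∈ (p.2.1 ∪ p.2.2).powerset,
      chi n p.1.2.1.2.2 p.1.2.2.2.2 (Psi p.2.1 p.2.2 p.1.1 (rho S u))
  else 0

/-- the functional at level `n + 1` -/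
noncomputable def lam (name : α → ℕ → ℕ) (col : α → α → Code) (n : ℕ) (u : Gam α) : ZMod 2 :=
  ∑ᶠ p : Code × Finset α × Finset α, term name col n p u

/-- the subgroups `V (n, γ)` -/
def VV (d : ℕ × α) : Subgroup (Gam α) := sub {i | d.1 ≤ i.1 ∧ d.2 < i.2}

end lin

/-- the properties of the index order `C`, its colouring and names -/
structure IsColoring {C 𝒞 : Type} [LinearOrder C] (name : C → ℕ → ℕ) (col : C → C → 𝒞) :
    Prop where
  ne : Nonempty C
  inj : Function.Injective name
  bdd : ∀ f : ℕ → C, ∃ γ, ∀ n, f n < γ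
  col : ∀ (s s' : ℕ) (X : Set (Fin s → C)) (Y : Set (Fin s' → C)), 0 < s → 0 < s' →
    (∀ γ, ∃ x ∈ X, ∀ i, γ < x i) → (∀ γ, ∃ y ∈ Y, ∀ j, γ < y j) →
    ∀ N : 𝒞, ∃ x ∈ X, ∃ y ∈ Y, ∀ i j, x i < y j ∧ col (x i) (y j) = N

/-- the algebraic input of the topological part -/
structure IsTower {Γ D : Type} [Group Γ] (V : D → Subgroup Γ) (R : ℕ → Subgroup Γ) : Prop where
  ne : Nonempty D
  dir : ∀ d e, ∃ f, V f ≤ V d ∧ V f ≤ V e
  comm : ∀ g : Γ, ∃ d, ∀ v ∈ V d, g * v = v * g
  normal : ∀ n, (R n).Normal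
  anti : ∀ n, R (n + 1) ≤ R n
  haus : ∀ n h, (∀ d, ∃ g ∈ V d, h⁻¹ * g ∈ R (n + 1)) → h ∈ R n
  esc : ∀ n, ∃ z, z ∉ R n ∧ ∀ O : ℕ → Set Γ, (∀ k, O k ⊆ O (k + 1)) →
    (∀ k, ∀ a ∈ O k, ∀ b ∈ O k, ⁅a, b⁆ ∈ O (k + 1)) →
    (∀ k, ∀ a ∈ O k, ∀ r ∈ R n, a * r ∈ O k) →
    (∀ d, ∃ g ∈ O 0, g ∈ V d ∧ g ∉ R n) → z ∈ O (n + 1)
  big : ∀ d, ∃ v ∈ V d, v ∉ R 0

/-- The group `(ZMod 2)^Y ⋊ N`. -/
@[ext] structure SD (N Y : Type) where
  /-- the vector -/
  vec : Y → ZMod 2
  /-- the group element -/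
  elt : N

namespace SD

variable {N Y : Type} [Group N] [MulAction N Y]

instance : Mul (SD N Y) := ⟨fun p q => ⟨fun y => p.vec y + q.vec (p.elt⁻¹ • y), p.elt * q.elt⟩⟩
instance : One (SD N Y) := ⟨⟨fun _ => 0, 1⟩⟩
instance : _root_.Inv (SD N Y) := ⟨fun p => ⟨fun y => - p.vec (p.elt • y), p.elt⁻¹⟩⟩

@[simp] theorem mul_vec (p q : SD N Y) (y : Y) :
    (p * q).vec y = p.vec y + q.vec (p.elt⁻¹ • y) := rfl
@[simp] theorem mul_elt (p q : SD N Y) : (p * q).elt = p.elt * q.elt := rfl
omit [MulAction N Y] in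
@[simp] theorem one_vec (y : Y) : (1 : SD N Y).vec y = 0 := rfl
omit [MulAction N Y] in
@[simp] theorem one_elt : (1 : SD N Y).elt = 1 := rfl
@[simp] theorem inv_vec (p : SD N Y) (y : Y) : (p⁻¹).vec y = - p.vec (p.elt • y) := rfl
@[simp] theorem inv_elt (p : SD N Y) : (p⁻¹).elt = p.elt⁻¹ := rfl

instance : Group (SD N Y) := Group.ofLeftAxioms
  (by
    intro a b c
    ext y
    · simp [add_assoc, mul_smul]
    · simp [mul_assoc])
  (by
    intro a
    ext y
    · simp
    · simp)
  (by
    intro a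
    ext y
    · rw [mul_vec, inv_vec, inv_elt, inv_inv, one_vec]
      exact neg_add_cancel _
    · simp)

end SD

/-- the topology of `(ZMod 2)^Y ⋊ N`: product topology, `Y → ZMod 2` with the product topology of
discrete factors and `N` discrete -/
instance (N Y : Type) : TopologicalSpace (SD N Y) :=
  TopologicalSpace.induced SD.vec (@Pi.topologicalSpace Y (fun _ => ZMod 2) (fun _ => ⊥)) ⊓
    TopologicalSpace.induced SD.elt ⊥

/-- no Hausdorff group topology is strictly coarser than the given topology -/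
def IsMinimalGroup (G : Type*) [Group G] [τ : TopologicalSpace G] : Prop :=
  ∀ σ : TopologicalSpace G, @IsTopologicalGroup G σ _ → @T2Space G σ → τ ≤ σ → σ = τ

/-- the two-sided uniformity: the supremum (in the sense of refinement, which is the infimum for
the order used in Mathlib) of the right and the left uniformities -/
def twoSided (G : Type*) [Group G] [TopologicalSpace G] [IsTopologicalGroup G] : UniformSpace G :=
  IsTopologicalGroup.rightUniformSpace G ⊓ IsTopologicalGroup.leftUniformSpace G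

/-- complete for the two-sided uniformity -/
def IsRaikovComplete (G : Type*) [Group G] [TopologicalSpace G] [IsTopologicalGroup G] : Prop :=
  @CompleteSpace G (twoSided G)

/-- the subgroup `R n` of the tower -/
def RR {α : Type} [LinearOrder α] (name : α → ℕ → ℕ) (col : α → α → Code) (n : ℕ) :
    Subgroup (Gam α) :=
  Subgroup.closure {u | u ∈ ser (Gam α) (n + 1) ∧ lam name col n u = 0}

/-- the set on which `Γ / R n` acts -/
abbrev YY {Γ D : Type} [Group Γ] (V : D → Subgroup Γ) (R : ℕ → Subgroup Γ)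
    [∀ n, (R n).Normal] (n : ℕ) : Type :=
  Σ d : D, (Γ ⧸ R n) ⧸ ((V d).map (QuotientGroup.mk' (R n)))

/-- the data of the chain of monotone functions -/
structure OscData {C : Type} [LinearOrder C] (name : C → ℕ → ℕ) : Prop where
  ne : Nonempty C
  inj : Function.Injective name
  mono : ∀ c, Monotone (name c)
  lt_iff : ∀ a b, a < b ↔ ∀ᶠ n in Filter.atTop, name a n < name b n
  unb : ∀ g : ℕ → ℕ, ∃ γ : C, ∃ᶠ n in Filter.atTop, g n < name γ n
  bdd : ∀ f : ℕ → C, ∃ γ, ∀ n, f n < γ

/-- cofinal families of tuples -/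
def Cof {C : Type} [LinearOrder C] {s : ℕ} (X : Set (Fin s → C)) : Prop :=
  ∀ γ, ∃ x ∈ X, ∀ i, γ < x i

/-- a jump base of `X`: prescribed values `ν i` below `l i` and arbitrarily large value at `l i` -/
def Base {C : Type} [LinearOrder C] (name : C → ℕ → ℕ) {s : ℕ} (X : Set (Fin s → C))
    (l : Fin s → ℕ) (ν : Fin s → ℕ → ℕ) : Prop :=
  ∀ M : ℕ, Cof {x | x ∈ X ∧ ∀ i, (∀ t < l i, name (x i) t = ν i t) ∧ M < name (x i) (l i)}

/-- a node of `X`: prescribed values `ρ i` below `L` -/
def Node {C : Type} [LinearOrder C] (name : C → ℕ → ℕ) {s : ℕ} (X : Set (Fin s → C))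
    (L : ℕ) (ρ : Fin s → ℕ → ℕ) : Prop :=
  Cof {x | x ∈ X ∧ ∀ i, ∀ t < L, name (x i) t = ρ i t}

/-- number of up-crossings before `T` -/
def cnt (p q : ℕ → ℕ) (T : ℕ) : ℕ :=
  ((Finset.range T).filter (fun t => p t ≤ q t ∧ q (t + 1) < p (t + 1))).card

/-- total number of up-crossings -/
noncomputable def osc (p q : ℕ → ℕ) : ℕ := Set.ncard {t : ℕ | p t ≤ q t ∧ q (t + 1) < p (t + 1)}

/-- the state of the oscillation process: the count so far lies in `[n, n + H]` -/
structure St {C : Type} [LinearOrder C] (name : C → ℕ → ℕ) {s s' : ℕ} (X : Set (Fin s → C))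
    (Y : Set (Fin s' → C)) (n H : ℕ) (l : Fin s → ℕ) (ν : Fin s → ℕ → ℕ) (L : ℕ)
    (ρ : Fin s' → ℕ → ℕ) : Prop where
  base : Base name X l ν
  node : Node name Y L ρ
  pos : ∀ i, 0 < l i
  lt : ∀ i, l i < L
  cmp : ∀ i j, ν i (l i - 1) < ρ j (l i - 1)
  lo : ∀ i j, n ≤ cnt (ν i) (ρ j) (l i - 1)
  hi : ∀ i j, cnt (ν i) (ρ j) (l i - 1) ≤ n + H

/-- the colour decoding: `crep` is constant `= v` on arbitrarily long intervals, for every `v` -/
def crep (n : ℕ) : ℕ := (Nat.unpair (Nat.log2 n)).1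

end Pool.Agent.Lib.Pc4a55f
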