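import Pool.Agent.Lib.Pc4a55f.SDmin

/-! Module EscTop: the tower gives minimal groups. -/

namespace Pool.Agent.Lib.Pc4a55f

open Topology
open scoped commutatorElement

variable {Γ D : Type} [Group Γ] {V : D → Subgroup Γ} {R : ℕ → Subgroup Γ}

/-- the stabilizer of the base point of `N / V` is `V` -/
theorem stabilizer_base [∀ n, (R n).Normal] (n : ℕ) (d : D) :
    MulAction.stabilizer (Γ ⧸ R n) (⟨d, ((1 : Γ ⧸ R n) : (Γ ⧸ R n) ⧸ _)⟩ : YY V R n) =
      (V d).map (QuotientGroup.mk' (R n)) := by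
  ext x
  have h := MulAction.stabilizer_quotient ((V d).map (QuotientGroup.mk' (R n)))
  rw [MulAction.mem_stabilizer_iff]
  constructor
  · intro hx
    rw [← h, MulAction.mem_stabilizer_iff]
    rw [Sigma.smul_mk] at hx
    have h2 := Sigma.mk.inj hx
    exact eq_of_heq h2.2
  · intro hx
    rw [← h, MulAction.mem_stabilizer_iff] at hx
    rw [Sigma.smul_mk, hx]

/-- neighbourhoods with commutators in a given neighbourhood -/
theorem exists_comm_nhds {N : Type} [Group N] [TopologicalSpace N] [IsTopologicalGroup N]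
    {U : Set N} (hU : U ∈ 𝓝 (1 : N)) :
    ∃ U' ∈ 𝓝 (1 : N), U' ⊆ U ∧ ∀ a ∈ U', ∀ b ∈ U', ⁅a, b⁆ ∈ U := by
  have hc : Continuous (fun p : N × N => ⁅p.1, p.2⁆) := by
    simp only [commutatorElement_def]
    fun_prop
  have h1 : (fun p : N × N => ⁅p.1, p.2⁆) ⁻¹' U ∈ 𝓝 ((1 : N), (1 : N)) := by
    apply hc.continuousAt
    simpa using hU
  rw [nhds_prod_eq, Filter.mem_prod_self_iff] at h1
  obtain ⟨t, ht, h2⟩ := h1
  refine ⟨t ∩ U, Filter.inter_mem ht hU, Set.inter_subset_right, ?_⟩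
  intro a ha b hb
  exact h2 (Set.mk_mem_prod ha.1 hb.1)

/-- a finite chain of neighbourhoods -/
theorem exists_chain {N : Type} [Group N] [TopologicalSpace N] [IsTopologicalGroup N]
    {U : Set N} (hU : U ∈ 𝓝 (1 : N)) (n : ℕ) :
    ∃ W : ℕ → Set N, (∀ k, W k ∈ 𝓝 (1 : N)) ∧ (∀ k, W k ⊆ W (k + 1)) ∧
      (∀ k, ∀ a ∈ W k, ∀ b ∈ W k, ⁅a, b⁆ ∈ W (k + 1)) ∧ W n = U := by
  choose! s hs1 hs2 hs3 using fun (U : Set N) (h : U ∈ 𝓝 (1 : N)) => exists_comm_nhds h
  have hB : ∀ j, s^[j] U ∈ 𝓝 (1 : N) := by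
    intro j
    induction j with
    | zero => exact hU
    | succ j ih =>
      rw [Function.iterate_succ_apply']
      exact hs1 _ ih
  refine ⟨fun k => if k ≤ n then s^[n - k] U else Set.univ, ?_, ?_, ?_, ?_⟩
  · intro k
    by_cases h : k ≤ n
    · simp only [h, if_true]
      exact hB _
    · simp only [h, if_false]
      exact Filter.univ_mem
  · intro k
    by_cases h : k + 1 ≤ n
    · have h' : k ≤ n := by omega
      simp only [h, h', if_true]
      have e : n - k = (n - (k + 1)) + 1 := by omega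
      rw [e, Function.iterate_succ_apply']
      exact hs2 _ (hB _)
    · simp only [h, if_false]
      exact Set.subset_univ _
  · intro k a ha b hb
    by_cases h : k + 1 ≤ n
    · have h' : k ≤ n := by omega
      simp only [h, h', if_true] at ha hb ⊢
      have e : n - k = (n - (k + 1)) + 1 := by omega
      rw [e, Function.iterate_succ_apply'] at ha hb
      exact hs3 _ (hB _) a ha b hb
    · simp only [h, if_false]
      exact Set.mem_univ _
  · simp

/-- Suppose `σ` is a Hausdorff group topology on `N = Γ / R n` for which all images of the `V d` are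
open, and `σ ≠ ⊥`, i.e. `{1}` is not open. Let `z` be as in `esc`; there is an open `U ∋ 1` in `N`
without the image of `z`. Choose neighbourhoods `U (n+1) = U` and, downwards, `U k` with
`U k ⊆ U (k+1)` and `⁅a, b⁆ ∈ U (k+1)` for `a, b ∈ U k` (`U k = univ`... for `k > n + 1` put
`U k = N`). Let `O k` be the preimage in `Γ`. The image of `V d` intersected with `U 0` is a
neighbourhood of `1`, so different from `{1}`: this gives `g ∈ O 0 ∩ V d`, `g ∉ R n`. So `z ∈ O (n+1)`,
contradiction. -/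
theorem IsTower.discrete (hT : IsTower V R) [∀ n, (R n).Normal] (n : ℕ)
    (σ : TopologicalSpace (Γ ⧸ R n)) (h1 : @IsTopologicalGroup (Γ ⧸ R n) σ _)
    (h2 : @T2Space (Γ ⧸ R n) σ)
    (h3 : ∀ y : YY V R n, @IsOpen _ σ (MulAction.stabilizer (Γ ⧸ R n) y : Set (Γ ⧸ R n))) :
    σ = ⊥ := by
  by_contra hσ
  let _ := σ
  obtain ⟨z, hz, hO⟩ := hT.esc n
  have hz1 : (QuotientGroup.mk' (R n)) z ≠ 1 := by
    intro h
    exact hz ((QuotientGroup.eq_one_iff z).1 h)
  have hU : ({(QuotientGroup.mk' (R n)) z}ᶜ : Set (Γ ⧸ R n)) ∈ 𝓝 (1 : Γ ⧸ R n) :=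
    isOpen_compl_singleton.mem_nhds (fun h => hz1 (Set.mem_singleton_iff.1 h).symm)
  obtain ⟨W, hW1, hW2, hW3, hW4⟩ := exists_chain hU (n + 1)
  have hfin : (QuotientGroup.mk' (R n)) z ∈ W (n + 1) := by
    refine hO (fun k => (QuotientGroup.mk' (R n)) ⁻¹' (W k)) ?_ ?_ ?_ ?_
    · intro k
      exact Set.preimage_mono (hW2 k)
    · intro k a ha b hb
      show (QuotientGroup.mk' (R n)) ⁅a, b⁆ ∈ W (k + 1)
      rw [map_commutatorElement]
      exact hW3 k _ ha _ hb
    · intro k a ha r hr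
      show (QuotientGroup.mk' (R n)) (a * r) ∈ W k
      have : (QuotientGroup.mk' (R n)) r = 1 := (QuotientGroup.eq_one_iff r).2 hr
      rw [map_mul, this, mul_one]
      exact ha
    · intro d
      by_contra hcon
      push Not at hcon
      have hopen := h3 ⟨d, ((1 : Γ ⧸ R n) : (Γ ⧸ R n) ⧸ _)⟩
      rw [stabilizer_base] at hopen
      have hmem : (((V d).map (QuotientGroup.mk' (R n)) : Subgroup (Γ ⧸ R n)) : Set (Γ ⧸ R n)) ∩ W 0
          ∈ 𝓝 (1 : Γ ⧸ R n) :=
        Filter.inter_mem (hopen.mem_nhds (Subgroup.one_mem _)) (hW1 0)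
      have hsub : (((V d).map (QuotientGroup.mk' (R n)) : Subgroup (Γ ⧸ R n)) : Set (Γ ⧸ R n)) ∩ W 0
          ⊆ {1} := by
        rintro x ⟨⟨g, hg, rfl⟩, hx⟩
        exact (QuotientGroup.eq_one_iff g).2 (hcon g hx hg)
      have h4 : ({1} : Set (Γ ⧸ R n)) ∈ 𝓝 (1 : Γ ⧸ R n) := Filter.mem_of_superset hmem hsub
      have h5 : DiscreteTopology (Γ ⧸ R n) := discreteTopology_of_isOpen_singleton_one
        (isOpen_singleton_iff_nhds_eq_pure _ |>.2 (le_antisymm (by
          rw [Filter.le_pure_iff]; exact h4) (pure_le_nhds _)))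
      exact hσ h5.eq_bot
  rw [hW4] at hfin
  exact hfin rfl

theorem IsTower.minimal (hT : IsTower V R) [∀ n, (R n).Normal] (n : ℕ) :
    IsMinimalGroup (SD (Γ ⧸ R n) (YY V R n)) :=
  SD.isMinimalGroup (hT.discrete n)

end Pool.Agent.Lib.Pc4a55f
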