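import Pool.Agent.Lib.Pc4a55f.Lam

/-! Module Eval: evaluation of `lam` on the commutator `⁅w, w'⁆`.

`w` uses first coordinates `≥ m` and second coordinates in `P1`; `w'` uses first coordinates `< m`
and second coordinates in `P2`; `P1 < P2` and all colours on `P1 × P2` equal `N`. Put
`u = ⁅w, w'⁆`. Only the triple `(N, A1, B1)` contributes to `lam`, and it contributes `1`.

Let `(N', A, B)` fit. If `A ∪ B ⊄ P1 ∪ P2`: zero (`term_eq_zero_of_not_subset`). If `A ∪ B ⊆ P1`
or `A ∪ B ⊆ P2`, one of `rho S w'`, `rho S w` is `1` for all `S ⊆ A ∪ B` so `rho S u = 1` and all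
summands vanish. Otherwise `A` meets `P1` and `B` meets `P2` (use `A < B`, `P1 < P2`), so `N' = N`
(the colour of such a pair). In this case `Psi A B m (rho S u) = ⁅inl (rel A (rho S w)),
inr (rel B (rho S w'))⁆` by `Psi_left`, `Psi_right`. If some `a ∈ A` lies in `P2` (so not in `P1`,
not in `B`): adding `a` to `S` changes nothing (`rel A (rho S w)` as `a ∉ P1`;
`rel B (rho S w')` as `a ∉ B`), zero by `sum_powerset_zero`. Same if some `b ∈ B` lies in `P1`. So
`A ⊆ P1`, `B ⊆ P2`; the names say `A = A1`, `B = B1`. For this triple: for `S` not containing all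
of `A1`, `rho S w ∈ ser (n+1)`, `CInv.comm_left`; for `S` not containing all of `B1`: `comm_right`;
for `S = A1 ∪ B1` the value is `chi_spec` (`rel A1 w ∉ ser (n+1)` by `exists_back`). -/

namespace Pool.Agent.Lib.Pc4a55f

open Monoid
open scoped commutatorElement

theorem lam_comm_eq_one {α : Type} [LinearOrder α] {name : α → ℕ → ℕ} {col : α → α → Code}
    {n m l1 l2 : ℕ} {w w' : Gam α} {P1 P2 A1 B1 : Finset α}
    (hA1 : A1 ⊆ P1) (hB1 : B1 ⊆ P2)
    (hw : w ∈ sub {i | m ≤ i.1 ∧ i.2 ∈ P1}) (hw' : w' ∈ sub {i | i.1 < m ∧ i.2 ∈ P2})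
    (hwn : w ∈ ser (Gam α) n) (hwn' : w' ∈ ser (Gam α) n)
    (hAmin : ∀ S, S ⊂ A1 → rho S w ∈ ser (Gam α) (n + 1))
    (hA : rho A1 w ∉ ser (Gam α) (n + 1))
    (hBmin : ∀ S, S ⊂ B1 → rho S w' ∈ ser (Gam α) (n + 1))
    (hB : rho B1 w' ∉ ser (Gam α) (n + 1))
    (hinj1 : Set.InjOn (fun a => restr l1 (name a)) P1)
    (hinj2 : Set.InjOn (fun a => restr l2 (name a)) P2)
    (hcol : ∀ a ∈ P1, ∀ b ∈ P2, a < b ∧ col a b =
      (m, (l1, A1.image (fun a => restr l1 (name a)), rel A1 w),
        (l2, B1.image (fun b => restr l2 (name b)), rel B1 w'))) :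
    lam name col n ⁅w, w'⁆ = 1 := by
  set N : Code := (m, (l1, A1.image (fun a => restr l1 (name a)), rel A1 w),
        (l2, B1.image (fun b => restr l2 (name b)), rel B1 w')) with hN
  have hwP : w ∈ sub {i | i.2 ∈ P1} := sub_mono (fun i hi => hi.2) hw
  have hwP' : w' ∈ sub {i | i.2 ∈ P2} := sub_mono (fun i hi => hi.2) hw'
  have hwm : w ∈ sub {i | m ≤ i.1} := sub_mono (fun i hi => hi.1) hw
  have hwm' : w' ∈ sub {i | i.1 < m} := sub_mono (fun i hi => hi.1) hw'
  have hu : ⁅w, w'⁆ ∈ sub {i | i.2 ∈ P1 ∪ P2} := by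
    have h1 : w ∈ sub {i | i.2 ∈ P1 ∪ P2} :=
      sub_mono (fun i (hi : i.2 ∈ P1) => (Finset.mem_union_left P2 hi : i.2 ∈ P1 ∪ P2)) hwP
    have h2 : w' ∈ sub {i | i.2 ∈ P1 ∪ P2} :=
      sub_mono (fun i (hi : i.2 ∈ P2) => (Finset.mem_union_right P1 hi : i.2 ∈ P1 ∪ P2)) hwP'
    rw [commutatorElement_def]
    exact mul_mem (mul_mem (mul_mem h1 h2) (inv_mem h1)) (inv_mem h2)
  have hdisj : ∀ a ∈ P1, a ∉ P2 := fun a h1 h2 => lt_irrefl a (hcol a h1 a h2).1
  have hrho1 : ∀ S : Finset α, S ⊆ P1 → rho S w' = 1 := by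
    intro S hS
    rw [rho_eq_rho_inter hwP']
    have : S ∩ P2 = ∅ := by
      rw [← Finset.disjoint_iff_inter_eq_empty, Finset.disjoint_left]
      exact fun a ha => hdisj a (hS ha)
    rw [this, rho_empty]
  have hrho2 : ∀ S : Finset α, S ⊆ P2 → rho S w = 1 := by
    intro S hS
    rw [rho_eq_rho_inter hwP]
    have : S ∩ P1 = ∅ := by
      rw [← Finset.disjoint_iff_inter_eq_empty, Finset.disjoint_left]
      exact fun a ha h => hdisj a h (hS ha)
    rw [this, rho_empty]
  have hpsi : ∀ A B : Finset α, (∀ a ∈ A, ∀ b ∈ B, a < b) → ∀ S : Finset α,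
      Psi A B m (rho S ⁅w, w'⁆) =
        ⁅(Coprod.inl (rel A (rho S w)) : Coprod (Gam ℕ) (Gam ℕ)), Coprod.inr (rel B (rho S w'))⁆ := by
    intro A B hAB S
    rw [map_commutatorElement, map_commutatorElement, Psi_left hAB (rho_mem_sub S hwm),
      Psi_right hAB (rho_mem_sub S hwm')]
  have hzero : ∀ p : Code × Finset α × Finset α, p ≠ (N, A1, B1) →
      term name col n p ⁅w, w'⁆ = 0 := by
    rintro ⟨N', A, B⟩ hp
    by_contra hne
    have hsub : A ∪ B ⊆ P1 ∪ P2 := by
      by_contra hcon
      exact hne (term_eq_zero_of_not_subset name col hu hcon)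
    have hfit : Fits name col N' A B := by
      by_contra hcon
      apply hne
      unfold term
      rw [if_neg hcon]
    have hAsub : A ⊆ P1 ∪ P2 := Finset.subset_union_left.trans hsub
    have hBsub : B ⊆ P1 ∪ P2 := Finset.subset_union_right.trans hsub
    have hterm : term name col n (N', A, B) ⁅w, w'⁆ = ∑ S ∈ (A ∪ B).powerset,
        chi n N'.2.1.2.2 N'.2.2.2.2 (Psi A B N'.1 (rho S ⁅w, w'⁆)) := by
      unfold term
      rw [if_pos hfit]
    apply hne
    rw [hterm]
    by_cases hAP : ∃ a ∈ A, a ∈ P1
    · by_cases hBP : ∃ b ∈ B, b ∈ P2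
      · obtain ⟨a0, ha0, ha0'⟩ := hAP
        obtain ⟨b0, hb0, hb0'⟩ := hBP
        have hNN : N' = N := by rw [← hfit.col a0 ha0 b0 hb0]; exact (hcol a0 ha0' b0 hb0').2
        subst hNN
        by_cases hA' : A ⊆ P1
        · by_cases hB' : B ⊆ P2
          · exfalso
            apply hp
            have h1 : A = A1 := by
              have h2 := hfit.nameA
              apply Finset.coe_injective
              refine (hinj1.image_eq_image_iff (by exact_mod_cast hA')
                (by exact_mod_cast hA1)).1 ?_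
              rw [← Finset.coe_image, ← Finset.coe_image]
              exact congrArg _ h2
            have h1' : B = B1 := by
              have h2 := hfit.nameB
              apply Finset.coe_injective
              refine (hinj2.image_eq_image_iff (by exact_mod_cast hB')
                (by exact_mod_cast hB1)).1 ?_
              rw [← Finset.coe_image, ← Finset.coe_image]
              exact congrArg _ h2
            rw [h1, h1']
          · obtain ⟨b, hb, hbP⟩ := Finset.not_subset.1 hB'
            refine sum_powerset_zero _ _ b (Finset.mem_union_right _ hb) fun S _ hbS => ?_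
            rw [hpsi A B hfit.lt, hpsi A B hfit.lt]
            have h1 : rho (insert b S) w' = rho S w' := by
              rw [rho_eq_rho_inter hwP', rho_eq_rho_inter (S := S) hwP',
                Finset.insert_inter_of_notMem hbP]
            have h2 : rel A (rho (insert b S) w) = rel A (rho S w) := by
              rw [rel_rho, rel_rho A S, Finset.insert_inter_of_notMem]
              exact fun h => lt_irrefl b (hfit.lt b h b hb)
            rw [h1, h2]
        · obtain ⟨a, ha, haP⟩ := Finset.not_subset.1 hA'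
          refine sum_powerset_zero _ _ a (Finset.mem_union_left _ ha) fun S _ haS => ?_
          rw [hpsi A B hfit.lt, hpsi A B hfit.lt]
          have h1 : rho (insert a S) w = rho S w := by
            rw [rho_eq_rho_inter hwP, rho_eq_rho_inter (S := S) hwP,
              Finset.insert_inter_of_notMem haP]
          have h2 : rel B (rho (insert a S) w') = rel B (rho S w') := by
            rw [rel_rho, rel_rho B S, Finset.insert_inter_of_notMem]
            exact fun h => lt_irrefl a (hfit.lt a ha a h)
          rw [h1, h2]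
      · have hB' : B ⊆ P1 := by
          intro b hb
          rcases Finset.mem_union.1 (hBsub hb) with h | h
          · exact h
          · exact absurd ⟨b, hb, h⟩ hBP
        obtain ⟨b0, hb0⟩ := hfit.neB
        have hA' : A ⊆ P1 := by
          intro a ha
          rcases Finset.mem_union.1 (hAsub ha) with h | h
          · exact h
          · exact absurd (hfit.lt a ha b0 hb0) (not_lt.2 (hcol b0 (hB' hb0) a h).1.le)
        apply Finset.sum_eq_zero
        intro S hS
        rw [Finset.mem_powerset] at hS
        rw [map_commutatorElement (rho S), hrho1 S (hS.trans (Finset.union_subset hA' hB')),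
          commutatorElement_one_right, map_one]
        exact (chi_inv n _ _).map_one
    · have hA' : A ⊆ P2 := by
        intro a ha
        rcases Finset.mem_union.1 (hAsub ha) with h | h
        · exact absurd ⟨a, ha, h⟩ hAP
        · exact h
      obtain ⟨a0, ha0⟩ := hfit.neA
      have hB' : B ⊆ P2 := by
        intro b hb
        rcases Finset.mem_union.1 (hBsub hb) with h | h
        · exact absurd (hfit.lt a0 ha0 b hb) (not_lt.2 (hcol b h a0 (hA' ha0)).1.le)
        · exact h
      apply Finset.sum_eq_zero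
      intro S hS
      rw [Finset.mem_powerset] at hS
      rw [map_commutatorElement (rho S), hrho2 S (hS.trans (Finset.union_subset hA' hB')),
        commutatorElement_one_left, map_one]
      exact (chi_inv n _ _).map_one
  have hlt1 : ∀ a ∈ A1, ∀ b ∈ B1, a < b := fun a ha b hb => (hcol a (hA1 ha) b (hB1 hb)).1
  have hfit : Fits name col N A1 B1 := by
    refine ⟨?_, ?_, hlt1, fun a ha b hb => (hcol a (hA1 ha) b (hB1 hb)).2, rfl, rfl⟩
    · rw [Finset.nonempty_iff_ne_empty]
      rintro rfl
      rw [rho_empty] at hA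
      exact hA (one_mem _)
    · rw [Finset.nonempty_iff_ne_empty]
      rintro rfl
      rw [rho_empty] at hB
      exact hB (one_mem _)
  unfold lam
  rw [finsum_eq_single _ (N, A1, B1) hzero]
  have hterm : term name col n (N, A1, B1) ⁅w, w'⁆ = ∑ S ∈ (A1 ∪ B1).powerset,
      chi n (rel A1 w) (rel B1 w') (Psi A1 B1 m (rho S ⁅w, w'⁆)) := by
    unfold term
    rw [if_pos hfit]
  rw [hterm, Finset.sum_eq_single (A1 ∪ B1)]
  · rw [hpsi A1 B1 hlt1, rel_rho A1, rel_rho B1, Finset.union_inter_cancel_left,
      Finset.union_inter_cancel_right, rel_rho_self, rel_rho_self]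
    obtain ⟨b1, hb1⟩ := exists_back A1
    obtain ⟨b2, hb2⟩ := exists_back B1
    refine chi_spec (map_mem_ser _ hwn) ?_ (map_mem_ser _ hwn') ?_
    · intro h
      apply hA
      rw [← hb1]
      exact map_mem_ser b1 h
    · intro h
      apply hB
      rw [← hb2]
      exact map_mem_ser b2 h
  · intro S hS hne
    rw [Finset.mem_powerset] at hS
    rw [hpsi A1 B1 hlt1]
    by_cases h1 : A1 ⊆ S
    · have h2 : ¬ B1 ⊆ S := fun h => hne (hS.antisymm (Finset.union_subset h1 h))
      have h3 : S ∩ B1 ⊂ B1 := by
        refine Finset.inter_subset_right.ssubset_of_not_subset ?_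
        exact fun h => h2 (h.trans Finset.inter_subset_left)
      rw [rel_rho B1]
      exact (chi_inv n _ _).comm_right
        (map_mem_ser Coprod.inr (map_mem_ser (rel B1) (hBmin _ h3))) _
    · have h3 : S ∩ A1 ⊂ A1 := by
        refine Finset.inter_subset_right.ssubset_of_not_subset ?_
        exact fun h => h1 (h.trans Finset.inter_subset_left)
      rw [rel_rho A1]
      exact (chi_inv n _ _).comm_left
        (map_mem_ser Coprod.inl (map_mem_ser (rel A1) (hAmin _ h3))) _
  · intro h
    exact absurd (Finset.mem_powerset_self _) h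

end Pool.Agent.Lib.Pc4a55f
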