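import Pool.Agent.Lib.Pc4a55f.Ser

/-! Module SerFin: for a finitely generated group all quotients `G / ser G n` are finite. -/

namespace Pool.Agent.Lib.Pc4a55f

/-- finitely generated groups of exponent two are finite -/
theorem finite_of_sq {Q : Type*} [Group Q] [Group.FG Q] (hsq : ∀ q : Q, q * q = 1) :
    Finite Q := by
  have hcomm : ∀ a b : Q, a * b = b * a := by
    intro a b
    have h2 : ∀ c : Q, c⁻¹ = c := fun c => inv_eq_of_mul_eq_one_left (hsq c)
    calc a * b = (a * b)⁻¹ := (h2 _).symm
      _ = b⁻¹ * a⁻¹ := mul_inv_rev a b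
      _ = b * a := by rw [h2, h2]
  let _ : CommGroup Q := { (inferInstance : Group Q) with mul_comm := hcomm }
  apply CommGroup.finite_of_fg_torsion
  intro q
  rw [isOfFinOrder_iff_pow_eq_one]
  exact ⟨2, by norm_num, by rw [sq]; exact hsq q⟩

theorem finiteIndex_ser (G : Type*) [Group G] [Group.FG G] (n : ℕ) :
    (ser G n).FiniteIndex := by
  induction n with
  | zero =>
    show (⊤ : Subgroup G).FiniteIndex
    infer_instance
  | succ n ih =>
    set K := ser G n with hK
    set S := (ser G (n + 1)).subgroupOf K with hS
    have : S.Normal := by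
      rw [hS]
      infer_instance
    have hfg : Group.FG K := by
      have := Subgroup.fg_of_index_ne_zero K
      infer_instance
    have hfin : Finite (K ⧸ S) := by
      have : Group.FG (K ⧸ S) := QuotientGroup.fg S
      apply finite_of_sq
      intro q
      obtain ⟨x, rfl⟩ := QuotientGroup.mk_surjective q
      rw [← QuotientGroup.mk_mul, QuotientGroup.eq_one_iff, hS, Subgroup.mem_subgroupOf]
      exact sq_mem_ser x.2
    have hSi : S.FiniteIndex := Subgroup.finiteIndex_of_finite_quotient
    have h1 : (ser G (n + 1)).relIndex K ≠ 0 := hSi.index_ne_zero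
    have h2 := Subgroup.relIndex_mul_index (ser_succ_le (G := G) n)
    constructor
    rw [← h2]
    exact mul_ne_zero h1 ih.index_ne_zero

theorem finite_quot_ser (G : Type*) [Group G] [Group.FG G] (n : ℕ) : Finite (G ⧸ ser G n) := by
  have := finiteIndex_ser G n
  exact Subgroup.finite_quotient_of_finiteIndex

end Pool.Agent.Lib.Pc4a55f
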