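import Pool.Agent.Lib.Pc4a55f.Char

/-! Module Wr: the functional on the free product of two finite groups. -/

namespace Pool.Agent.Lib.Pc4a55f

open Monoid
open scoped commutatorElement

namespace WrAux

/-- the Heisenberg group mod 2 -/
@[ext] structure Hei where
  /-- first coordinate -/
  a : ZMod 2
  /-- second coordinate -/
  b : ZMod 2
  /-- central coordinate -/
  c : ZMod 2

namespace Hei

instance : Mul Hei := ⟨fun x y => ⟨x.a + y.a, x.b + y.b, x.c + y.c + x.a * y.b⟩⟩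
instance : One Hei := ⟨⟨0, 0, 0⟩⟩
instance : _root_.Inv Hei := ⟨fun x => ⟨-x.a, -x.b, -x.c + x.a * x.b⟩⟩

@[simp] theorem mul_a (x y : Hei) : (x * y).a = x.a + y.a := rfl
@[simp] theorem mul_b (x y : Hei) : (x * y).b = x.b + y.b := rfl
@[simp] theorem mul_c (x y : Hei) : (x * y).c = x.c + y.c + x.a * y.b := rfl
@[simp] theorem one_a : (1 : Hei).a = 0 := rfl
@[simp] theorem one_b : (1 : Hei).b = 0 := rfl
@[simp] theorem one_c : (1 : Hei).c = 0 := rfl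
@[simp] theorem inv_a (x : Hei) : (x⁻¹).a = -x.a := rfl
@[simp] theorem inv_b (x : Hei) : (x⁻¹).b = -x.b := rfl
@[simp] theorem inv_c (x : Hei) : (x⁻¹).c = -x.c + x.a * x.b := rfl

instance : Group Hei := Group.ofLeftAxioms
  (by
    intro x y z
    ext
    · simp [add_assoc]
    · simp [add_assoc]
    · simp
      ring)
  (by
    intro x
    ext <;> simp)
  (by
    intro x
    ext
    · simp [CharTwo.add_self_eq_zero]
    · simp [CharTwo.add_self_eq_zero]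
    · have h := CharTwo.add_self_eq_zero (x.c + x.a * x.b)
      simp only [mul_c, inv_c, inv_a, one_c, ZMod.neg_eq_self_mod_two]
      linear_combination h)

end Hei

/-- the wreath product `(T → Hei) ⋊ T` -/
@[ext] structure Wre (T : Type) where
  /-- the function -/
  f : T → Hei
  /-- the top element -/
  s : T

namespace Wre

variable {T : Type} [Group T]

instance : Mul (Wre T) := ⟨fun x y => ⟨fun t => x.f t * y.f (x.s⁻¹ * t), x.s * y.s⟩⟩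
instance : One (Wre T) := ⟨⟨fun _ => 1, 1⟩⟩
instance : _root_.Inv (Wre T) := ⟨fun x => ⟨fun t => (x.f (x.s * t))⁻¹, x.s⁻¹⟩⟩

@[simp] theorem mul_f (x y : Wre T) (t : T) : (x * y).f t = x.f t * y.f (x.s⁻¹ * t) := rfl
@[simp] theorem mul_s (x y : Wre T) : (x * y).s = x.s * y.s := rfl
@[simp] theorem one_f (t : T) : (1 : Wre T).f t = 1 := rfl
@[simp] theorem one_s : (1 : Wre T).s = 1 := rfl
@[simp] theorem inv_f (x : Wre T) (t : T) : (x⁻¹).f t = (x.f (x.s * t))⁻¹ := rfl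
@[simp] theorem inv_s (x : Wre T) : (x⁻¹).s = x.s⁻¹ := rfl

omit [Group T] in
theorem ext' {x y : Wre T} (h : ∀ t, x.f t = y.f t) (hs : x.s = y.s) : x = y :=
  Wre.ext (funext h) hs

instance : Group (Wre T) := Group.ofLeftAxioms
  (by
    intro x y z
    refine ext' (fun t => ?_) ?_
    · simp [mul_assoc]
    · simp [mul_assoc])
  (by
    intro x
    refine ext' (fun t => ?_) ?_ <;> simp)
  (by
    intro x
    refine ext' (fun t => ?_) ?_ <;> simp)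

/-- the projection to the top group -/
def top : Wre T →* T where
  toFun := Wre.s
  map_one' := rfl
  map_mul' _ _ := rfl

/-- the elements `(f, 1)` with `f` central -/
def cen (T : Type) [Group T] : Subgroup (Wre T) where
  carrier := {x | x.s = 1 ∧ ∀ t, (x.f t).a = 0 ∧ (x.f t).b = 0}
  one_mem' := ⟨rfl, fun _ => ⟨rfl, rfl⟩⟩
  mul_mem' := by
    rintro x y ⟨hx, hx'⟩ ⟨hy, hy'⟩
    refine ⟨by simp [hx, hy], fun t => ?_⟩
    simp [hx' t, hy' _]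
  inv_mem' := by
    rintro x ⟨hx, hx'⟩
    refine ⟨by simp [hx], fun t => ?_⟩
    simp [hx' _]

/-- the sum of the central coordinates -/
noncomputable def tot [Fintype T] (x : Wre T) : ZMod 2 := ∑ t, (x.f t).c

theorem tot_mul [Fintype T] {x y : Wre T} (hx : x ∈ cen T) (hy : y ∈ cen T) :
    tot (x * y) = tot x + tot y := by
  obtain ⟨hx, hx'⟩ := hx
  obtain ⟨hy, hy'⟩ := hy
  unfold tot
  rw [← Finset.sum_add_distrib]
  refine Finset.sum_congr rfl fun t _ => ?_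
  simp [hx, hx' t]

theorem tot_conj [Fintype T] {x : Wre T} (hx : x ∈ cen T) (g : Wre T) :
    tot (g * x * g⁻¹) = tot x := by
  obtain ⟨hx, hx'⟩ := hx
  unfold tot
  have h : ∀ t, ((g * x * g⁻¹).f t).c = (x.f (g.s⁻¹ * t)).c := by
    intro t
    simp only [mul_f, mul_s, inv_f, hx, mul_one, mul_inv_cancel_left, Hei.mul_c, Hei.mul_a,
      Hei.inv_c, Hei.inv_b, (hx' _).1, (hx' _).2, mul_zero, add_zero]
    ring
  simp only [h]
  exact Equiv.sum_comp (Equiv.mulLeft g.s⁻¹) fun t => (x.f t).c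

end Wre

section cocycle

variable {Q : Type} [Group Q] {n : ℕ}

/-- the cocycle -/
def coc (ℓ : Q → ZMod 2) (τ : Q ⧸ ser Q n → Q) (g : Q) (t : Q ⧸ ser Q n) : ZMod 2 :=
  ℓ ((τ t)⁻¹ * g * τ ((g : Q ⧸ ser Q n)⁻¹ * t))

theorem coc_mem (τ : Q ⧸ ser Q n → Q) (hτ : ∀ t, (τ t : Q ⧸ ser Q n) = t) (g : Q)
    (t : Q ⧸ ser Q n) : (τ t)⁻¹ * g * τ ((g : Q ⧸ ser Q n)⁻¹ * t) ∈ ser Q n := by
  rw [← QuotientGroup.eq_one_iff]
  show ((τ t : Q ⧸ ser Q n))⁻¹ * (g : Q ⧸ ser Q n) *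
    (τ ((g : Q ⧸ ser Q n)⁻¹ * t) : Q ⧸ ser Q n) = 1
  rw [hτ, hτ]
  group

theorem coc_mul (ℓ : Q → ZMod 2) (hℓ : ∀ a ∈ ser Q n, ∀ b ∈ ser Q n, ℓ (a * b) = ℓ a + ℓ b)
    (τ : Q ⧸ ser Q n → Q) (hτ : ∀ t, (τ t : Q ⧸ ser Q n) = t) (g h : Q) (t : Q ⧸ ser Q n) :
    coc ℓ τ (g * h) t = coc ℓ τ g t + coc ℓ τ h ((g : Q ⧸ ser Q n)⁻¹ * t) := by
  unfold coc
  rw [← hℓ _ (coc_mem τ hτ g t) _ (coc_mem τ hτ h _)]
  congr 1
  rw [QuotientGroup.mk_mul, mul_inv_rev]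
  group

theorem coc_one (ℓ : Q → ZMod 2) (τ : Q ⧸ ser Q n → Q) (hτ : τ 1 = 1) {g : Q}
    (hg : g ∈ ser Q n) : coc ℓ τ g 1 = ℓ g := by
  unfold coc
  rw [(QuotientGroup.eq_one_iff g).2 hg, inv_one, one_mul, hτ, inv_one, one_mul, mul_one]

end cocycle

/-- the top group -/
abbrev TT (Q1 Q2 : Type) [Group Q1] [Group Q2] (n : ℕ) : Type :=
  (Q1 ⧸ ser Q1 n) × (Q2 ⧸ ser Q2 n)

section homs

variable {Q1 Q2 : Type} [Group Q1] [Group Q2] {n : ℕ}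

open Classical in
/-- the first homomorphism -/
noncomputable def phi1 (ℓ : Q1 → ZMod 2)
    (hℓ : ∀ a ∈ ser Q1 n, ∀ b ∈ ser Q1 n, ℓ (a * b) = ℓ a + ℓ b)
    (τ : Q1 ⧸ ser Q1 n → Q1) (hτ : ∀ t, (τ t : Q1 ⧸ ser Q1 n) = t) : Q1 →* Wre (TT Q1 Q2 n) :=
  MonoidHom.mk' (fun g => ⟨fun t => if t.2 = 1 then ⟨coc ℓ τ g t.1, 0, 0⟩ else 1,
      ((g : Q1 ⧸ ser Q1 n), 1)⟩) (by
    intro g h
    refine Wre.ext' (fun t => ?_) ?_
    · obtain ⟨t1, t2⟩ := t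
      by_cases ht : t2 = 1
      · subst ht
        ext
        · simp [coc_mul ℓ hℓ τ hτ]
        · simp
        · simp
      · simp [ht]
    · simp)

open Classical in
/-- the second homomorphism -/
noncomputable def phi2 (ℓ : Q2 → ZMod 2)
    (hℓ : ∀ a ∈ ser Q2 n, ∀ b ∈ ser Q2 n, ℓ (a * b) = ℓ a + ℓ b)
    (τ : Q2 ⧸ ser Q2 n → Q2) (hτ : ∀ t, (τ t : Q2 ⧸ ser Q2 n) = t) : Q2 →* Wre (TT Q1 Q2 n) :=
  MonoidHom.mk' (fun g => ⟨fun t => if t.1 = 1 then ⟨0, coc ℓ τ g t.2, 0⟩ else 1,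
      (1, (g : Q2 ⧸ ser Q2 n))⟩) (by
    intro g h
    refine Wre.ext' (fun t => ?_) ?_
    · obtain ⟨t1, t2⟩ := t
      by_cases ht : t1 = 1
      · subst ht
        ext
        · simp
        · simp [coc_mul ℓ hℓ τ hτ]
        · simp
      · simp [ht]
    · simp)

end homs

end WrAux

open WrAux

theorem alg_finite {Q1 Q2 : Type} [Group Q1] [Group Q2] [Finite Q1] [Finite Q2] {n : ℕ}
    {w1 : Q1} {w2 : Q2} (h1 : w1 ∈ ser Q1 n) (h1' : w1 ∉ ser Q1 (n + 1))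
    (h2 : w2 ∈ ser Q2 n) (h2' : w2 ∉ ser Q2 (n + 1)) :
    ∃ χ : Coprod Q1 Q2 → ZMod 2, CInv (n + 1) χ ∧
      χ ⁅(Coprod.inl w1 : Coprod Q1 Q2), Coprod.inr w2⁆ = 1 := by
  classical
  obtain ⟨ℓ1, hℓ1, hℓ1w⟩ := exists_char h1 h1'
  obtain ⟨ℓ2, hℓ2, hℓ2w⟩ := exists_char h2 h2'
  -- sections
  have hsec : ∀ (Q : Type) [Group Q], ∃ τ : Q ⧸ ser Q n → Q,
      (∀ t, (τ t : Q ⧸ ser Q n) = t) ∧ τ 1 = 1 := by
    intro Q _
    refine ⟨fun t => if t = 1 then 1 else t.out, fun t => ?_, by simp⟩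
    by_cases ht : t = 1
    · simp [ht]
    · simp only [ht, if_false]
      exact QuotientGroup.out_eq' t
  obtain ⟨τ1, hτ1, hτ1'⟩ := hsec Q1
  obtain ⟨τ2, hτ2, hτ2'⟩ := hsec Q2
  let _ : Fintype (TT Q1 Q2 n) := Fintype.ofFinite _
  set φ1 : Q1 →* Wre (TT Q1 Q2 n) := phi1 ℓ1 hℓ1 τ1 hτ1 with hφ1
  set φ2 : Q2 →* Wre (TT Q1 Q2 n) := phi2 ℓ2 hℓ2 τ2 hτ2 with hφ2
  let Φ : Coprod Q1 Q2 →* Wre (TT Q1 Q2 n) := Coprod.lift φ1 φ2
  have htop : ∀ u ∈ ser (Coprod Q1 Q2) n, (Φ u).s = 1 := by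
    intro u hu
    have h : Wre.top (Φ u) ∈ ser (TT Q1 Q2 n) n := map_mem_ser (Wre.top.comp Φ) hu
    have ha : (Wre.top (Φ u)).1 ∈ ser (Q1 ⧸ ser Q1 n) n := map_mem_ser (MonoidHom.fst _ _) h
    have hb : (Wre.top (Φ u)).2 ∈ ser (Q2 ⧸ ser Q2 n) n := map_mem_ser (MonoidHom.snd _ _) h
    rw [ser_quot, Subgroup.mem_bot] at ha hb
    exact Prod.ext ha hb
  have hcen : ∀ u ∈ ser (Coprod Q1 Q2) (n + 1), Φ u ∈ Wre.cen (TT Q1 Q2 n) := by
    have h : ser (Coprod Q1 Q2) (n + 1) ≤ (Wre.cen (TT Q1 Q2 n)).comap Φ := by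
      refine (Subgroup.closure_le _).2 ?_
      rintro x ⟨y, hy, rfl⟩
      rw [SetLike.mem_coe, Subgroup.mem_comap, map_mul]
      have hs := htop y hy
      refine ⟨by simp [hs], fun t => ?_⟩
      simp only [Wre.mul_f, hs, inv_one, one_mul, Hei.mul_a, Hei.mul_b]
      exact ⟨CharTwo.add_self_eq_zero _, CharTwo.add_self_eq_zero _⟩
    exact fun u hu => h hu
  refine ⟨fun u => Wre.tot (Φ u), ⟨?_, ?_⟩, ?_⟩
  · intro a ha b hb
    rw [map_mul]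
    exact Wre.tot_mul (hcen a ha) (hcen b hb)
  · intro a ha g
    rw [map_mul, map_mul, map_inv]
    exact Wre.tot_conj (hcen a ha) _
  · have e1 : (w1 : Q1 ⧸ ser Q1 n) = 1 := (QuotientGroup.eq_one_iff w1).2 h1
    have e2 : (w2 : Q2 ⧸ ser Q2 n) = 1 := (QuotientGroup.eq_one_iff w2).2 h2
    have s1 : (φ1 w1).s = 1 := Prod.ext e1 rfl
    have s2 : (φ2 w2).s = 1 := Prod.ext rfl e2
    have hΦ : Φ ⁅(Coprod.inl w1 : Coprod Q1 Q2), Coprod.inr w2⁆ = ⁅φ1 w1, φ2 w2⁆ := by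
      rw [map_commutatorElement, Coprod.lift_apply_inl, Coprod.lift_apply_inr]
    show Wre.tot (Φ _) = 1
    rw [hΦ]
    have hf : ∀ t, (⁅φ1 w1, φ2 w2⁆ : Wre (TT Q1 Q2 n)).f t = ⁅(φ1 w1).f t, (φ2 w2).f t⁆ := by
      intro t
      simp only [commutatorElement_def, Wre.mul_f, Wre.mul_s, Wre.inv_f, Wre.inv_s, s1, s2,
        inv_one, one_mul, mul_one]
    unfold Wre.tot
    rw [Finset.sum_eq_single (1 : TT Q1 Q2 n)]
    · rw [hf]
      have c1 : (φ1 w1).f 1 = ⟨1, 0, 0⟩ := by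
        show (if (1 : Q2 ⧸ ser Q2 n) = 1 then (⟨coc ℓ1 τ1 w1 1, 0, 0⟩ : Hei) else 1) = _
        rw [if_pos rfl, coc_one ℓ1 τ1 hτ1' h1, hℓ1w]
      have c2 : (φ2 w2).f 1 = ⟨0, 1, 0⟩ := by
        show (if (1 : Q1 ⧸ ser Q1 n) = 1 then (⟨0, coc ℓ2 τ2 w2 1, 0⟩ : Hei) else 1) = _
        rw [if_pos rfl, coc_one ℓ2 τ2 hτ2' h2, hℓ2w]
      rw [c1, c2, commutatorElement_def]
      simp
      exact CharTwo.add_self_eq_zero 1
    · intro t _ ht
      rw [hf]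
      by_cases ht2 : t.2 = 1
      · have ht1 : t.1 ≠ 1 := fun h => ht (Prod.ext h ht2)
        have : (φ2 w2).f t = 1 := if_neg ht1
        rw [this, commutatorElement_one_right, Hei.one_c]
      · have : (φ1 w1).f t = 1 := if_neg ht2
        rw [this, commutatorElement_one_left, Hei.one_c]
    · intro h
      exact absurd (Finset.mem_univ _) h

end Pool.Agent.Lib.Pc4a55f
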