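import Pool.Agent.Lib.Pc4a55f.Raag
import Pool.Agent.Lib.Pc4a55f.SerFin
import Pool.Agent.Lib.Pc4a55f.Wr

/-! Module FQ: finite quotients of `Gam α` and the functional on `Gam ℕ ∗ Gam ℕ`. -/

namespace Pool.Agent.Lib.Pc4a55f

open Monoid
open scoped commutatorElement

/-- Take a finite `F` with `w ∈ sub F`; `Δ = sub F` is finitely generated, `kill F : Gam α →* Δ`
(codomain restricted, `kill_mem`), `Q = Δ ⧸ ser Δ n` finite by `finite_quot_ser`, `ser Q n = ⊥` by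
`ser_quot`. If `q w ∈ ser Q n` then `kill F w ∈ ser Δ n`, and applying the inclusion `Δ →* Gam α`,
`w = kill F w ∈ ser (Gam α) n`. -/
theorem exists_finite_quot {α : Type} [LT α] {n : ℕ} {w : Gam α} (hw : w ∉ ser (Gam α) n) :
    ∃ (Q : Type) (_ : Group Q) (_ : Finite Q) (q : Gam α →* Q), q w ∉ ser Q n := by
  classical
  obtain ⟨F, hF⟩ := exists_fin_sub w
  have hfg : Group.FG (sub (F : Set (ℕ × α)) : Subgroup (Gam α)) := by
    unfold sub
    rw [← Finset.coe_image]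
    exact Group.closure_finset_fg _
  let k : Gam α →* (sub (F : Set (ℕ × α)) : Subgroup (Gam α)) :=
    (kill (F : Set (ℕ × α))).codRestrict _ (fun g => kill_mem _ g)
  refine ⟨(sub (F : Set (ℕ × α)) : Subgroup (Gam α)) ⧸ ser _ n, inferInstance,
    finite_quot_ser _ n, (QuotientGroup.mk' _).comp k, ?_⟩
  intro h
  rw [ser_quot, Subgroup.mem_bot, MonoidHom.comp_apply, QuotientGroup.mk'_apply,
    QuotientGroup.eq_one_iff] at h
  have h1 := map_mem_ser (sub (F : Set (ℕ × α)) : Subgroup (Gam α)).subtype h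
  apply hw
  have h2 : (sub (F : Set (ℕ × α)) : Subgroup (Gam α)).subtype (k w) = w := kill_eq_self hF
  rwa [h2] at h1

/-- compose `alg_finite` with the homomorphism of coproducts `Coprod.map q1 q2` -/
theorem exists_chi {n : ℕ} {w1 w2 : Gam ℕ} (h1 : w1 ∈ ser (Gam ℕ) n)
    (h1' : w1 ∉ ser (Gam ℕ) (n + 1)) (h2 : w2 ∈ ser (Gam ℕ) n)
    (h2' : w2 ∉ ser (Gam ℕ) (n + 1)) :
    ∃ χ : Coprod (Gam ℕ) (Gam ℕ) → ZMod 2, CInv (n + 1) χ ∧
      χ ⁅(Coprod.inl w1 : Coprod (Gam ℕ) (Gam ℕ)), Coprod.inr w2⁆ = 1 := by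
  obtain ⟨Q1, _, _, q1, hq1⟩ := exists_finite_quot h1'
  obtain ⟨Q2, _, _, q2, hq2⟩ := exists_finite_quot h2'
  obtain ⟨χ, hχ, hχ1⟩ := alg_finite (map_mem_ser q1 h1) hq1 (map_mem_ser q2 h2) hq2
  refine ⟨fun u => χ (Coprod.map q1 q2 u), hχ.comp _, ?_⟩
  show χ (Coprod.map q1 q2 ⁅(Coprod.inl w1 : Coprod (Gam ℕ) (Gam ℕ)), Coprod.inr w2⁆) = 1
  rw [map_commutatorElement, Coprod.map_apply_inl, Coprod.map_apply_inr]
  exact hχ1

end Pool.Agent.Lib.Pc4a55f
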