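import Pool.Agent.Lib.Pc4a55f.Defs

/-! Module Osc1: existence of the chain of monotone functions.

On monotone functions `ℕ → ℕ` (subtype or a relation on functions) let `r f g` be
`∀ᶠ n, f n < g n` (irreflexive, transitive). `C` = a maximal chain (`maxChain r`,
`maxChain_spec : IsMaxChain r (maxChain r)`), as a subtype; `a < b` iff `r a b`; it is a linear
order as two different members of a chain are comparable.

`unb`: if `γ ≤ g` eventually for every `γ ∈ C`, put `g' n = (sup over k ≤ n of g k) + 1`, monotone,
and `r γ g'` for all `γ ∈ C`; by maximality `g' ∈ C`, so `r g' g'`: contradiction.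
`bdd`: if no `γ ∈ C` is above all `f n` strictly, then every `γ ∈ C` is `≤ f n` for some `n`, so
`γ ≤ g` eventually, where `g` eventually dominates all `f n` (`g k = sup over n ≤ k of f n k`);
contradiction to `unb`.
`ne`: by `unb`. -/

namespace Pool.Agent.Lib.Pc4a55f

open Filter

namespace Osc1Aux

/-- the monotone functions -/
abbrev MF : Type := {f : ℕ → ℕ // Monotone f}

/-- strict eventual domination -/
def dom (f g : MF) : Prop := ∀ᶠ n in atTop, f.1 n < g.1 n

theorem dom_irrefl (f : MF) : ¬ dom f f := by
  intro h
  obtain ⟨n, hn⟩ := h.exists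
  exact lt_irrefl _ hn

theorem dom_trans {f g h : MF} (h1 : dom f g) (h2 : dom g h) : dom f h := by
  filter_upwards [h1, h2] with n a b
  exact a.trans b

/-- the members of a maximal chain -/
def Ch : Type := {f : MF // f ∈ maxChain dom}

/-- the order of the maximal chain -/
def ltc (a b : Ch) : Prop := dom a.1 b.1

instance : IsStrictTotalOrder Ch ltc where
  irrefl a := dom_irrefl a.1
  trans a b c h1 h2 := dom_trans h1 h2
  trichotomous := by
    intro a b h1 h2
    by_contra hne
    have hne' : a.1 ≠ b.1 := fun h => hne (Subtype.ext h)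
    rcases (maxChain_spec (r := dom)).1 a.2 b.2 hne' with h | h
    · exact h1 h
    · exact h2 h

/-- the linear order on the chain -/
noncomputable instance : LinearOrder Ch := by
  classical
  exact linearOrderOfSTO ltc

theorem lt_iff' (a b : Ch) : a < b ↔ dom a.1 b.1 := Iff.rfl

theorem unb' (g : ℕ → ℕ) : ∃ γ : Ch, ∃ᶠ n in atTop, g n < γ.1.1 n := by
  by_contra hcon
  push Not at hcon
  let g' : MF := ⟨fun n => (Finset.range (n + 1)).sup g + 1, by
    intro a b hab
    have : (Finset.range (a + 1)).sup g ≤ (Finset.range (b + 1)).sup g := by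
      apply Finset.sup_mono
      intro x hx
      simp only [Finset.mem_range] at hx ⊢
      omega
    exact Nat.add_le_add_right this 1⟩
  have hall : ∀ γ ∈ maxChain dom, dom γ g' := by
    intro γ hγ
    have h1 := hcon ⟨γ, hγ⟩
    filter_upwards [h1] with n hn
    change γ.1 n ≤ g n at hn
    have h2 : g n ≤ (Finset.range (n + 1)).sup g := Finset.le_sup (f := g) (by simp)
    show γ.1 n < (Finset.range (n + 1)).sup g + 1
    omega
  have hch : IsChain dom (insert g' (maxChain dom)) := by
    apply IsChain.insert (maxChain_spec (r := dom)).1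
    intro b hb _
    exact Or.inr (hall b hb)
  have heq := (maxChain_spec (r := dom)).2 hch (Set.subset_insert _ _)
  have hmem : g' ∈ maxChain dom := by
    rw [heq]
    exact Set.mem_insert _ _
  exact dom_irrefl _ (hall g' hmem)

end Osc1Aux

open Osc1Aux in
theorem exists_oscData : ∃ (C : Type) (_ : LinearOrder C) (name : C → ℕ → ℕ), OscData name := by
  refine ⟨Ch, inferInstance, fun c => c.1.1, ?_⟩
  refine ⟨?_, ?_, ?_, ?_, ?_, ?_⟩
  · obtain ⟨γ, _⟩ := unb' (fun _ => 0)
    exact ⟨γ⟩
  · intro a b h
    exact Subtype.ext (Subtype.ext h)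
  · intro c
    exact c.1.2
  · intro a b
    exact Iff.rfl
  · exact unb'
  · intro f
    by_contra hcon
    push Not at hcon
    obtain ⟨γ, hγ⟩ := unb' (fun k => (Finset.range (k + 1)).sup (fun n => (f n).1.1 k))
    obtain ⟨n, hn⟩ := hcon γ
    have h1 : ∀ᶠ k in atTop, γ.1.1 k ≤ (f n).1.1 k := by
      rcases hn.lt_or_eq with h | h
      · have h' : dom γ.1 (f n).1 := h
        filter_upwards [h'] with k hk
        exact hk.le
      · subst h
        exact Filter.Eventually.of_forall fun k => le_rfl
    obtain ⟨k, hk1, hk2, hk3⟩ := (hγ.and_eventually (h1.and (eventually_ge_atTop n))).exists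
    have h2 : (f n).1.1 k ≤ (Finset.range (k + 1)).sup (fun n => (f n).1.1 k) :=
      Finset.le_sup (f := fun n => (f n).1.1 k) (by simp; omega)
    omega

end Pool.Agent.Lib.Pc4a55f
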