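import Pool.Agent.Lib.Pc4a55f.Osc4
import Pool.Agent.Lib.Pc4a55f.Osc1

/-! Module Osc5: the colouring. -/

namespace Pool.Agent.Lib.Pc4a55f

/-- for every `v` there is `k` with `2 ^ k > H` and `(unpair k).1 = v` (`k = pair v (H + 1)`,
`right_le_pair`); on `[2^k, 2^(k+1))` `log2 = k` -/
theorem exists_block (v H : ℕ) : ∃ n, ∀ t, n ≤ t → t ≤ n + H → crep t = v := by
  refine ⟨2 ^ (Nat.pair v (H + 1)), fun t h1 h2 => ?_⟩
  have hk : H + 1 ≤ Nat.pair v (H + 1) := Nat.right_le_pair _ _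
  have hlt : Nat.pair v (H + 1) < 2 ^ (Nat.pair v (H + 1)) := Nat.lt_two_pow_self
  have ht : t ≠ 0 := by
    have : 0 < 2 ^ (Nat.pair v (H + 1)) := by positivity
    omega
  have hlog : Nat.log2 t = Nat.pair v (H + 1) := by
    rw [Nat.log2_eq_iff ht]
    refine ⟨h1, ?_⟩
    rw [pow_succ]
    omega
  unfold crep
  rw [hlog, Nat.unpair_pair]

/-- `col a b = dec (crep (osc (name a) (name b)))` with `dec : ℕ → 𝒞` surjective -/
theorem exists_coloring (𝒞 : Type) [Countable 𝒞] [Nonempty 𝒞] :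
    ∃ (C : Type) (_ : LinearOrder C) (name : C → ℕ → ℕ) (col : C → C → 𝒞),
      IsColoring name col := by
  obtain ⟨dec, hdec⟩ := exists_surjective_nat 𝒞
  obtain ⟨C, inst, name, h⟩ := exists_oscData
  refine ⟨C, inst, name, fun a b => dec (crep (osc (name a) (name b))), h.ne, h.inj, h.bdd, ?_⟩
  intro s s' X Y _ _ hX hY N
  obtain ⟨v, rfl⟩ := hdec N
  obtain ⟨H, hH⟩ := osc_lemma h (X := X) (Y := Y) hX hY
  obtain ⟨n, hn⟩ := exists_block v H
  obtain ⟨x, hx, y, hy, hxy⟩ := hH n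
  refine ⟨x, hx, y, hy, fun i j => ⟨(hxy i j).1, ?_⟩⟩
  rw [hn _ (hxy i j).2.1 (hxy i j).2.2]

end Pool.Agent.Lib.Pc4a55f
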