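import Pool.Agent.Lib.Pc4a55f.Defs

/-! Module Raikov: locally compact groups are Raikov complete. -/

namespace Pool.Agent.Lib.Pc4a55f

open Filter Topology

theorem isRaikovComplete_of_locallyCompact (G : Type*) [Group G] [τ : TopologicalSpace G]
    [IsTopologicalGroup G] [LocallyCompactSpace G] : IsRaikovComplete G := by
  have htop : (twoSided G).toTopologicalSpace = τ := by
    unfold twoSided
    rw [UniformSpace.toTopologicalSpace_inf]
    exact inf_idem _
  refine @CompleteSpace.mk G (twoSided G) ?_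
  intro F hF
  -- Cauchy for the left uniformity
  have hF2 : @Cauchy G (IsTopologicalGroup.leftUniformSpace G) F := by
    refine ⟨hF.1, hF.2.trans ?_⟩
    unfold twoSided
    exact inf_le_right
  obtain ⟨K, hK, hK1⟩ := exists_compact_mem_nhds (1 : G)
  have hent : {p : G × G | p.1⁻¹ * p.2 ∈ K} ∈ @uniformity G (IsTopologicalGroup.leftUniformSpace G) :=
    ⟨K, hK1, fun p hp => hp⟩
  have h1 := hF2.2 hent
  obtain ⟨A, hA, hAK⟩ := Filter.mem_prod_same_iff.1 h1
  have hne : NeBot F := hF.1
  obtain ⟨x, hx⟩ := hne.nonempty_of_mem hA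
  have hsub : A ⊆ (fun y => x⁻¹ * y) ⁻¹' K := fun y hy => hAK (Set.mk_mem_prod hx hy)
  have hcomp : IsCompact ((fun y => x⁻¹ * y) ⁻¹' K) := by
    have : (fun y => x⁻¹ * y) ⁻¹' K = (Homeomorph.mulLeft x⁻¹) ⁻¹' K := rfl
    rw [this]
    exact (Homeomorph.mulLeft x⁻¹).isCompact_preimage.2 hK
  obtain ⟨y, _, hy⟩ := hcomp.exists_clusterPt (f := F) (by
    rw [le_principal_iff]
    exact mem_of_superset hA hsub)
  refine ⟨y, ?_⟩
  have hy' : @ClusterPt G (twoSided G).toTopologicalSpace y F := by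
    rw [htop]
    exact hy
  exact @le_nhds_of_cauchy_adhp G (twoSided G) F y hF hy'

end Pool.Agent.Lib.Pc4a55f
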