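import Pool.Agent.Lib.Pc4a55f.Tow1

/-! Module Tow: the tower. -/

namespace Pool.Agent.Lib.Pc4a55f

open Monoid
open scoped commutatorElement

variable {C : Type} [LinearOrder C]

theorem mem_VV_anti {d e : ℕ × C} (h1 : d.1 ≤ e.1) (h2 : d.2 ≤ e.2) : VV e ≤ VV d :=
  sub_mono fun _ hi => ⟨h1.trans hi.1, h2.trans_lt hi.2⟩

/-- a finite set of indices has an upper bound -/
theorem exists_beyond {name : C → ℕ → ℕ} {col : C → C → Code} (hc : IsColoring name col)
    (F : Finset (ℕ × C)) : ∃ d : ℕ × C, ∀ i ∈ F, i.1 < d.1 ∧ i.2 < d.2 := by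
  haveI := hc.ne
  obtain ⟨γ, hγ⟩ := exists_gt_countable hc.bdd (fun i : F => i.1.2)
  refine ⟨(F.sup Prod.fst + 1, γ), fun i hi => ⟨?_, hγ ⟨i, hi⟩⟩⟩
  have := Finset.le_sup (f := Prod.fst) hi
  omega

theorem lam_eq_one_or {name : C → ℕ → ℕ} {col : C → C → Code} {n : ℕ} {u : Gam C}
    (hu : u ∉ RR name col n) (hs : u ∈ ser (Gam C) (n + 1)) : lam name col n u = 1 := by
  have h : lam name col n u ≠ 0 := fun h => hu ((mem_RR name col).2 ⟨hs, h⟩)
  revert h
  generalize lam name col n u = t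
  revert t
  decide

/-- two elements of `ser (n+1)` with `lam = 1` are congruent modulo `RR n` -/
theorem mem_coset {name : C → ℕ → ℕ} {col : C → C → Code} {n : ℕ} {u z : Gam C}
    (hu : u ∈ ser (Gam C) (n + 1)) (hz : z ∈ ser (Gam C) (n + 1)) (hlu : lam name col n u = 1)
    (hlz : lam name col n z = 1) : u⁻¹ * z ∈ RR name col n := by
  rw [mem_RR]
  refine ⟨mul_mem (inv_mem hu) hz, ?_⟩
  rw [(lam_inv name col n).add _ (inv_mem hu) _ hz, (lam_inv name col n).map_inv hu, hlu, hlz]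
  decide

/-- an element outside `ser (n+1)` lies in `ser j` outside `ser (j+1)` for some `j ≤ n` -/
theorem exists_level {n : ℕ} {u : Gam C} (hu : u ∉ ser (Gam C) (n + 1)) :
    ∃ j ≤ n, u ∈ ser (Gam C) j ∧ u ∉ ser (Gam C) (j + 1) := by
  induction n with
  | zero => exact ⟨0, le_rfl, trivial, hu⟩
  | succ n ih =>
    by_cases h : u ∈ ser (Gam C) (n + 1)
    · exact ⟨n + 1, le_rfl, h, hu⟩
    · obtain ⟨j, hj, h1, h2⟩ := ih h
      exact ⟨j, hj.trans (Nat.le_succ n), h1, h2⟩

/-- `esc`: an element `g ∈ O 0 ∩ V d`, `g ∉ R n` either lies in `ser (n+1)` with `lam n g = 1` (then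
`z ∈ g * R n` and we are done), or in `ser j` outside `ser (j+1)` for some `j ≤ n`; by directedness
one `j` works for all `d`; `iterate` with `i = n - j` and `step` give `w, w' ∈ O (n - j)` with
`⁅w, w'⁆ ∈ O (n - j + 1)`, `⁅w, w'⁆ ∈ ser (n+1)`, `lam n ⁅w, w'⁆ = 1`, so `z ∈ ⁅w, w'⁆ * R n`.

`haus`: let `h` have finite support `F`, `d` beyond `F`, then `kill F h = h`, `kill F g = 1`, so
`h⁻¹ = kill F (h⁻¹ * g) ∈ ser (n+2)`, so `h ∈ ser (n+2) ≤ R n` (by `CInv.zero_of_mem_succ`).

`big`: a generator. `comm`: `comm_of_large`. -/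
theorem isTower {name : C → ℕ → ℕ} {col : C → C → Code} (hc : IsColoring name col) :
    IsTower (VV (α := C)) (RR name col) := by
  haveI := hc.ne
  refine ⟨⟨(0, Classical.arbitrary C)⟩, ?_, ?_, fun n => inferInstance, ?_, ?_, ?_, ?_⟩
  · intro d e
    exact ⟨(max d.1 e.1, max d.2 e.2), mem_VV_anti (le_max_left _ _) (le_max_left _ _),
      mem_VV_anti (le_max_right _ _) (le_max_right _ _)⟩
  · intro g
    obtain ⟨F, hF⟩ := exists_fin_sub g
    obtain ⟨d, hd⟩ := exists_beyond hc F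
    refine ⟨d, fun v hv => comm_of_large hF ?_ hv⟩
    intro i hi j hj
    exact ⟨(hd i hi).1.trans_le hj.1, (hd i hi).2.trans hj.2⟩
  · intro n u hu
    rw [mem_RR] at hu ⊢
    exact ⟨ser_succ_le _ hu.1, (lam_inv name col n).zero_of_mem_succ hu.1⟩
  · intro n h hh
    obtain ⟨F, hF⟩ := exists_fin_sub h
    obtain ⟨d, hd⟩ := exists_beyond hc F
    obtain ⟨g, hg, hgr⟩ := hh d
    rw [mem_RR] at hgr
    have h1 : kill (F : Set (ℕ × C)) g = 1 := by
      refine kill_eq_one hg ?_
      rw [Set.disjoint_left]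
      intro i hi hi'
      exact absurd (hd i hi).1 (not_lt.2 hi'.1)
    have h2 : kill (F : Set (ℕ × C)) (h⁻¹ * g) = h⁻¹ := by
      rw [map_mul, h1, mul_one, map_inv, kill_eq_self hF]
    have h3 := map_mem_ser (kill (F : Set (ℕ × C))) hgr.1
    rw [h2] at h3
    have h4 : h ∈ ser (Gam C) (n + 1 + 1) := by
      have := inv_mem h3
      rwa [inv_inv] at this
    rw [mem_RR]
    exact ⟨ser_succ_le _ h4, (lam_inv name col n).zero_of_mem_succ h4⟩
  · intro n
    obtain ⟨z, hz, hlz⟩ := exists_z hc n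
    refine ⟨z, ?_, ?_⟩
    · intro h
      rw [mem_RR, hlz] at h
      exact absurd h.2 one_ne_zero
    · intro O hmono hcomm habs hO
      have hmono' : ∀ i k, O i ⊆ O (i + k) := by
        intro i k
        induction k with
        | zero => exact subset_rfl
        | succ k ih => exact ih.trans (hmono (i + k))
      by_cases hcase : ∃ g ∈ O 0, g ∉ RR name col n ∧ g ∈ ser (Gam C) (n + 1)
      · obtain ⟨g, hg, hgr, hgs⟩ := hcase
        have hl := lam_eq_one_or hgr hgs
        have h1 := habs 0 g hg _ (mem_coset hgs hz hl hlz)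
        rw [mul_inv_cancel_left] at h1
        have h2 := hmono' 0 (n + 1) h1
        rwa [Nat.zero_add] at h2
      · have hlev : ∃ j : Fin (n + 1), ∀ d : ℕ × C, ∃ w ∈ O 0, w ∈ VV d ∧
            w ∈ ser (Gam C) j ∧ w ∉ ser (Gam C) (j + 1) := by
          by_contra hcon
          push Not at hcon
          choose f hf using hcon
          obtain ⟨d, hd⟩ := exists_beyond hc (Finset.univ.image f)
          obtain ⟨g, hg, hgV, hgR⟩ := hO d
          have hgs : g ∉ ser (Gam C) (n + 1) := fun h => hcase ⟨g, hg, hgR, h⟩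
          obtain ⟨j, hj, h1, h2⟩ := exists_level hgs
          have h3 := hd (f ⟨j, Nat.lt_succ_of_le hj⟩)
            (Finset.mem_image_of_mem _ (Finset.mem_univ _))
          exact h2 (hf ⟨j, Nat.lt_succ_of_le hj⟩ g hg (mem_VV_anti h3.1.le h3.2.le hgV) h1)
        obtain ⟨⟨j, hj⟩, hlev⟩ := hlev
        simp only at hlev
        have hj' : j ≤ n := Nat.lt_succ_iff.1 hj
        have h1 := iterate hc hcomm hlev (n - j)
        rw [Nat.add_sub_cancel' hj'] at h1
        obtain ⟨w, hw, w', hw', -, -, hs, hs', hl⟩ := step hc h1 (0, Classical.arbitrary C)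
        have h2 := hcomm _ w hw w' hw'
        have h3 := habs _ _ h2 _ (mem_coset (comm_mem_ser hs hs') hz hl hlz)
        rw [mul_inv_cancel_left] at h3
        have h4 := hmono' _ j h3
        have h5 : n - j + 1 + j = n + 1 := by omega
        rwa [h5] at h4
  · intro d
    obtain ⟨i, hi⟩ := exists_gen hc d
    refine ⟨gen i, hi, ?_⟩
    intro h
    rw [mem_RR] at h
    exact gen_notMem_ser_one i h.1

end Pool.Agent.Lib.Pc4a55f
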