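import Pool.Agent.Lib.Pc4a55f.Prod2
import Pool.Agent.Lib.Pc4a55f.EscTop
import Pool.Agent.Lib.Pc4a55f.Tow
import Pool.Agent.Lib.Pc4a55f.Osc5
import Pool.Agent.Lib.Pc4a55f.Raikov

namespace Pool.Agent.Lib.Pc4a55f

theorem main :
    ∃ (G : ℕ → Type) (_ : ∀ n, Group (G n)) (_ : ∀ n, TopologicalSpace (G n))
      (_ : ∀ n, IsTopologicalGroup (G n)),
      (∀ n, T2Space (G n) ∧ LocallyCompactSpace (G n) ∧ IsRaikovComplete (G n) ∧
        IsMinimalGroup (G n)) ∧
      ∃ σ : TopologicalSpace (∀ n, G n), @IsTopologicalGroup (∀ n, G n) σ _ ∧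
        @T2Space (∀ n, G n) σ ∧ Pi.topologicalSpace < σ := by
  obtain ⟨C, _, name, col, hc⟩ := exists_coloring Code
  have hT := isTower hc
  haveI : ∀ n, (RR name col n).Normal := hT.normal
  refine ⟨fun n => SD (Gam C ⧸ RR name col n) (YY (VV (α := C)) (RR name col) n),
    fun n => inferInstance, fun n => inferInstance, fun n => inferInstance, fun n => ?_, ?_⟩
  · exact ⟨inferInstance, inferInstance, isRaikovComplete_of_locallyCompact _, hT.minimal n⟩
  · exact hT.not_minimal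

end Pool.Agent.Lib.Pc4a55f
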