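import Pool.Agent.Lib.Pc4a55f.FQ

/-! Module Lam: the functional `lam` is well behaved; the subgroups `RR n`. -/

namespace Pool.Agent.Lib.Pc4a55f

open Monoid
open scoped commutatorElement

theorem chi_inv (n : ℕ) (w1 w2 : Gam ℕ) : CInv (n + 1) (chi n w1 w2) := by
  unfold chi
  split_ifs with h
  · exact h.choose_spec.1
  · exact CInv.zero

theorem chi_spec {n : ℕ} {w1 w2 : Gam ℕ} (h1 : w1 ∈ ser (Gam ℕ) n)
    (h1' : w1 ∉ ser (Gam ℕ) (n + 1)) (h2 : w2 ∈ ser (Gam ℕ) n)
    (h2' : w2 ∉ ser (Gam ℕ) (n + 1)) :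
    chi n w1 w2 ⁅(Coprod.inl w1 : Coprod (Gam ℕ) (Gam ℕ)), Coprod.inr w2⁆ = 1 := by
  unfold chi
  rw [dif_pos (exists_chi h1 h1' h2 h2')]
  exact (exists_chi h1 h1' h2 h2').choose_spec.2

/-- a sum over all subsets of `T` vanishes if adding the element `a ∈ T` never changes the term -/
theorem sum_powerset_zero {α : Type} [DecidableEq α] (T : Finset α) (f : Finset α → ZMod 2)
    (a : α) (ha : a ∈ T) (h : ∀ S ⊆ T, a ∉ S → f (insert a S) = f S) :
    ∑ S ∈ T.powerset, f S = 0 := by
  have h1 : T = insert a (T.erase a) := (Finset.insert_erase ha).symm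
  rw [h1, Finset.sum_powerset_insert (Finset.notMem_erase a T), ← Finset.sum_add_distrib]
  apply Finset.sum_eq_zero
  intro S hS
  rw [Finset.mem_powerset] at hS
  have h2 : a ∉ S := fun hh => Finset.notMem_erase a T (hS hh)
  rw [h S (hS.trans (Finset.erase_subset _ _)) h2]
  exact CharTwo.add_self_eq_zero _

variable {α : Type} [LinearOrder α] (name : α → ℕ → ℕ) (col : α → α → Code)

theorem term_inv (n : ℕ) (p : Code × Finset α × Finset α) :
    CInv (n + 1) (term name col n p) := by
  unfold term
  by_cases h : Fits name col p.1 p.2.1 p.2.2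
  · simp only [if_pos h]
    refine CInv.sum _ _ fun S _ => ?_
    exact (chi_inv n _ _).comp ((Psi p.2.1 p.2.2 p.1.1).comp (rho S))
  · simp only [if_neg h]
    exact CInv.zero

/-- if `A ∪ B` has an element outside `P`, the term vanishes on `sub {i | i.2 ∈ P}`
(`sum_powerset_zero`) -/
theorem term_eq_zero_of_not_subset {n : ℕ} {P : Finset α} {u : Gam α}
    (hu : u ∈ sub {i | i.2 ∈ P}) {p : Code × Finset α × Finset α}
    (hp : ¬ p.2.1 ∪ p.2.2 ⊆ P) : term name col n p u = 0 := by
  obtain ⟨a, ha, haP⟩ := Finset.not_subset.1 hp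
  unfold term
  split_ifs with h
  · refine sum_powerset_zero _ _ a ha fun S _ _ => ?_
    have h1 : rho (insert a S) u = rho S u := by
      rw [rho_eq_rho_inter hu, rho_eq_rho_inter (S := S) hu, Finset.insert_inter_of_notMem haP]
    rw [h1]
  · rfl

/-- only finitely many terms do not vanish: `A, B ⊆ P` and `N` is one of the colours of pairs
from `P` -/
theorem finite_support (n : ℕ) (u : Gam α) :
    (Function.support fun p => term name col n p u).Finite := by
  classical
  obtain ⟨F, hF⟩ := exists_fin_sub u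
  let P : Finset α := F.image Prod.snd
  have hu : u ∈ sub {i | i.2 ∈ P} := by
    refine sub_mono ?_ hF
    intro i hi
    exact Finset.mem_image_of_mem _ hi
  let T : Finset (Code × Finset α × Finset α) :=
    ((P ×ˢ P).image (fun q => col q.1 q.2)) ×ˢ (P.powerset ×ˢ P.powerset)
  refine T.finite_toSet.subset ?_
  intro p hp
  rw [Function.mem_support] at hp
  have h1 : p.2.1 ∪ p.2.2 ⊆ P := by
    by_contra hcon
    exact hp (term_eq_zero_of_not_subset name col hu hcon)
  have h2 : Fits name col p.1 p.2.1 p.2.2 := by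
    by_contra hcon
    apply hp
    unfold term
    rw [if_neg hcon]
  rw [Finset.mem_coe, Finset.mem_product, Finset.mem_product, Finset.mem_powerset,
    Finset.mem_powerset, Finset.mem_image]
  obtain ⟨a, ha⟩ := h2.neA
  obtain ⟨b, hb⟩ := h2.neB
  refine ⟨⟨(a, b), ?_, h2.col a ha b hb⟩, (Finset.subset_union_left).trans h1,
    (Finset.subset_union_right).trans h1⟩
  rw [Finset.mem_product]
  exact ⟨h1 (Finset.mem_union_left _ ha), h1 (Finset.mem_union_right _ hb)⟩

/-- use `finsum_add_distrib` -/
theorem lam_inv (n : ℕ) : CInv (n + 1) (lam name col n) := by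
  constructor
  · intro a ha b hb
    unfold lam
    rw [← finsum_add_distrib (finite_support name col n a) (finite_support name col n b)]
    exact finsum_congr fun p => (term_inv name col n p).add a ha b hb
  · intro a ha g
    unfold lam
    exact finsum_congr fun p => (term_inv name col n p).conj a ha g

theorem mem_RR {n : ℕ} {u : Gam α} :
    u ∈ RR name col n ↔ u ∈ ser (Gam α) (n + 1) ∧ lam name col n u = 0 := by
  constructor
  · intro hu
    have hl := lam_inv name col n
    refine Subgroup.closure_induction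
      (p := fun u _ => u ∈ ser (Gam α) (n + 1) ∧ lam name col n u = 0) ?_ ?_ ?_ ?_ hu
    · intro x hx
      exact hx
    · exact ⟨one_mem _, hl.map_one⟩
    · rintro x y _ _ ⟨hx, hx'⟩ ⟨hy, hy'⟩
      exact ⟨mul_mem hx hy, by rw [hl.add x hx y hy, hx', hy', add_zero]⟩
    · rintro x _ ⟨hx, hx'⟩
      exact ⟨inv_mem hx, by rw [hl.map_inv hx, hx']⟩
  · intro hu
    exact Subgroup.subset_closure hu

instance RR_normal (n : ℕ) : (RR name col n).Normal := by
  constructor
  intro a ha g
  rw [mem_RR] at ha ⊢
  exact ⟨(ser_normal (n + 1)).conj_mem _ ha.1 g, by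
    rw [(lam_inv name col n).conj a ha.1 g]
    exact ha.2⟩

end Pool.Agent.Lib.Pc4a55f
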