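import Pool.Agent.Lib.Pc4a55f.Osc2a

/-! Module Osc2: jump bases. -/

namespace Pool.Agent.Lib.Pc4a55f

open Filter

variable {C : Type} [LinearOrder C] {name : C → ℕ → ℕ}

/-- the auxiliary property used in the search for a jump base -/
def QQ (name : C → ℕ → ℕ) {s : ℕ} (X : Set (Fin s → C)) (k : ℕ) (l : Fin s → ℕ)
    (ν : Fin s → ℕ → ℕ) : Prop :=
  ∀ M : ℕ, Cof {x | x ∈ X ∧ ∀ i, (∀ t < l i, name (x i) t = ν i t) ∧ M < name (x i) k}

/-- one step: if `(l, ν)` is not a jump base then one of the `l i` can be increased -/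
theorem QQ.step (h : OscData name) {s : ℕ} {X : Set (Fin s → C)} {k : ℕ} {l : Fin s → ℕ}
    {ν : Fin s → ℕ → ℕ} (hQ : QQ name X k l ν) (hl : ∀ i, l i ≤ k) (hB : ¬ Base name X l ν) :
    ∃ i v, l i < k ∧ QQ name X k (Function.update l i (l i + 1))
      (Function.update ν i (Function.update (ν i) (l i) v)) := by
  haveI := h.ne
  unfold Base at hB
  push Not at hB
  obtain ⟨M0, hM0⟩ := hB
  unfold Cof at hM0
  push Not at hM0
  obtain ⟨γ0, hγ0⟩ := hM0
  -- the sets
  let W : Fin s × Fin (M0 + 1) → ℕ → Set (Fin s → C) := fun p M =>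
    {x | (x ∈ X ∧ ∀ i, (∀ t < l i, name (x i) t = ν i t) ∧ M < name (x i) k) ∧
      name (x p.1) (l p.1) = p.2}
  have hW : ∀ M, ∃ p, Cof (W p M) := by
    intro M
    have h1 := (hQ M).above γ0
    have h2 := Cof.pigeon h.bdd h1 (κ := Fin s × Fin (M0 + 1))
      (fun p x => name (x p.1) (l p.1) = (p.2 : ℕ)) (by
        rintro x ⟨⟨hx, hx'⟩, hx2⟩
        by_contra hcon
        push Not at hcon
        have hall : ∀ i, M0 < name (x i) (l i) := by
          intro i
          by_contra hi
          push Not at hi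
          exact hcon (i, ⟨name (x i) (l i), by omega⟩) rfl
        obtain ⟨i, hi⟩ := hγ0 x ⟨hx, fun i => ⟨(hx' i).1, hall i⟩⟩
        exact absurd (hx2 i) (not_lt.2 hi))
    obtain ⟨p, hp⟩ := h2
    refine ⟨p, hp.mono ?_⟩
    rintro x ⟨⟨hx, _⟩, hx3⟩
    exact ⟨hx, hx3⟩
  have hWanti : ∀ p M M', M ≤ M' → W p M' ⊆ W p M := by
    rintro p M M' hMM x ⟨⟨hx, hx'⟩, hx3⟩
    exact ⟨⟨hx, fun i => ⟨(hx' i).1, hMM.trans_lt (hx' i).2⟩⟩, hx3⟩
  obtain ⟨p, hp⟩ : ∃ p, ∀ M, Cof (W p M) := by
    by_contra hcon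
    push Not at hcon
    choose f hf using hcon
    obtain ⟨p, hp⟩ := hW (∑ q, f q)
    refine hf p (hp.mono (hWanti p _ _ ?_))
    exact Finset.single_le_sum (f := f) (fun _ _ => Nat.zero_le _) (Finset.mem_univ p)
  have hlk : l p.1 < k := by
    obtain ⟨x, ⟨⟨_, hx'⟩, hx3⟩, _⟩ := hp M0 γ0
    refine lt_of_le_of_ne (hl _) ?_
    intro he
    have h1 := (hx' p.1).2
    rw [← he, hx3] at h1
    have := p.2.2
    omega
  refine ⟨p.1, p.2, hlk, ?_⟩
  intro M
  refine (hp M).mono ?_
  rintro x ⟨⟨hx, hx'⟩, hx3⟩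
  refine ⟨hx, fun i => ⟨?_, (hx' i).2⟩⟩
  intro t ht
  by_cases hi : i = p.1
  · subst hi
    rw [Function.update_self] at ht ⊢
    by_cases htl : t = l p.1
    · subst htl
      rw [Function.update_self]
      exact hx3
    · rw [Function.update_of_ne htl]
      exact (hx' p.1).1 t (by omega)
  · rw [Function.update_of_ne hi] at ht ⊢
    exact (hx' i).1 t ht

theorem QQ.exists_base (h : OscData name) {s : ℕ} {X : Set (Fin s → C)} {K k : ℕ} :
    ∀ (n : ℕ) (l : Fin s → ℕ) (ν : Fin s → ℕ → ℕ), QQ name X k l ν → (∀ i, K ≤ l i) →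
      (∀ i, l i ≤ k) → ∑ i, (k - l i) = n →
      ∃ (l : Fin s → ℕ) (ν : Fin s → ℕ → ℕ), (∀ i, K ≤ l i) ∧ Base name X l ν := by
  intro n
  induction n using Nat.strong_induction_on with
  | _ n ih =>
    intro l ν hQ hK hk hn
    by_cases hB : Base name X l ν
    · exact ⟨l, ν, hK, hB⟩
    · obtain ⟨i, v, hi, hQ'⟩ := hQ.step h hk hB
      have h1 : ∀ j, l j ≤ Function.update l i (l i + 1) j := by
        intro j
        by_cases hj : j = i
        · subst hj; rw [Function.update_self]; omega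
        · rw [Function.update_of_ne hj]
      have h2 : ∀ j, Function.update l i (l i + 1) j ≤ k := by
        intro j
        by_cases hj : j = i
        · subst hj; rw [Function.update_self]; omega
        · rw [Function.update_of_ne hj]; exact hk j
      have h3 : ∑ j, (k - Function.update l i (l i + 1) j) < n := by
        rw [← hn]
        apply Finset.sum_lt_sum
        · intro j _
          have := h1 j
          omega
        · exact ⟨i, Finset.mem_univ i, by rw [Function.update_self]; omega⟩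
      exact ih _ h3 _ _ hQ' (fun j => (hK j).trans (h1 j)) h2 rfl

/-- By pigeonhole (`Cof.pigeon`, countably many patterns `Fin s → List ℕ`) all `x ∈ X` have the
same values below `K`. Take `k ≥ K` from `exists_height`. Among all pairs `(l, ν)` with
`K ≤ l i ≤ k` and
`Q l ν : ∀ M, Cof {x | x ∈ X ∧ ∀ i, (∀ t < l i, name (x i) t = ν i t) ∧ M < name (x i) k}`
(there is one: `l i = K`) choose one with `∑ l i` maximal. Claim: `Base name X l ν`. If not, there
are `M0`, `γ0` such that every `x ∈ X` above `γ0` with pattern `(l, ν)` has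
`name (x i) (l i) ≤ M0` for some `i`. For every `M ≥ M0`, the set in `Q l ν` for `M`, above `γ0`,
is cofinal, and each of its members has some `i`, `v ≤ M0` with `name (x i) (l i) = v` (and then
`l i < k`, as `M < name (x i) k`). By pigeonhole some `(i, v)` works for `M`; as there are finitely
many pairs `(i, v)`, one pair works for arbitrarily large `M`, so for all `M`. Then
`Q (l + e_i) (ν with value v at l i)`, contradicting the maximality.
(`Function.update l i (l i + 1)`, `Function.update ν i (Function.update (ν i) (l i) v)`.) -/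
theorem exists_base (h : OscData name) {s : ℕ} {X : Set (Fin s → C)} (hX : Cof X) (K : ℕ) :
    ∃ (l : Fin s → ℕ) (ν : Fin s → ℕ → ℕ), (∀ i, K ≤ l i) ∧ Base name X l ν := by
  haveI := h.ne
  obtain ⟨π, hπ⟩ := Cof.pigeon h.bdd hX (κ := Fin s → List ℕ)
    (fun π x => ∀ i, restr K (name (x i)) = π i) (fun x _ => ⟨fun i => restr K (name (x i)),
      fun _ => rfl⟩)
  obtain ⟨k, hKk, hk⟩ := exists_height h hπ K
  refine QQ.exists_base h (K := K) (k := k) _ (fun _ => K) (fun i t => (π i).getD t 0) ?_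
    (fun _ => le_rfl) (fun _ => hKk) rfl
  intro M
  refine (hk M).mono ?_
  rintro x ⟨⟨hx, hx2⟩, hx3⟩
  refine ⟨hx, fun i => ⟨?_, hx3 i⟩⟩
  intro t ht
  show name (x i) t = (π i).getD t 0
  rw [← hx2 i, restr]
  simp [List.getD, ht]

end Pool.Agent.Lib.Pc4a55f
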