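import Pool.Agent.Lib.Pc4a55f.Pig

/-! Module Osc2a: common high level. -/

namespace Pool.Agent.Lib.Pc4a55f

open Filter

variable {C : Type} [LinearOrder C] {name : C → ℕ → ℕ}

/-- Suppose not: for every `k ≥ K` there are `M k` and `γ k ∈ C` such that no `x ∈ X` above `γ k`
has all `x i k > M k`. Let `γ` be above all `γ k` and let `γ' ≥ γ` satisfy
`∃ᶠ k, (sup over j ≤ k of M j) < name γ' k`
(from `unb`: get some `δ` and take `γ' = max γ δ`). Take `x ∈ X` above `γ'`. For large `k` all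
`name (x i) k > name γ' k`, and for infinitely many `k` also `name γ' k > M k`: contradiction. -/
theorem exists_height (h : OscData name) {s : ℕ} {X : Set (Fin s → C)} (hX : Cof X) (K : ℕ) :
    ∃ k ≥ K, ∀ M : ℕ, Cof {x | x ∈ X ∧ ∀ i, M < name (x i) k} := by
  classical
  by_contra hcon
  have h1 : ∀ k : ℕ, ∃ (M : ℕ) (γ : C), K ≤ k → ∀ x ∈ X, (∀ i, γ < x i) →
      ∃ i, name (x i) k ≤ M := by
    intro k
    by_cases hk : K ≤ k
    · by_contra hk2
      apply hcon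
      refine ⟨k, hk, fun M γ => ?_⟩
      by_contra hk3
      apply hk2
      refine ⟨M, γ, fun _ x hx hx' => ?_⟩
      by_contra hk4
      exact hk3 ⟨x, ⟨hx, fun i => lt_of_not_ge fun hle => hk4 ⟨i, hle⟩⟩, hx'⟩
    · obtain ⟨c⟩ := h.ne
      exact ⟨0, c, fun hh => absurd hh hk⟩
  choose M γ hM using h1
  obtain ⟨γ0, hγ0⟩ := h.bdd γ
  obtain ⟨δ, hδ⟩ := h.unb M
  obtain ⟨x, hx, hx'⟩ := hX (max γ0 δ)
  have h2 : ∀ i, ∀ᶠ t in atTop, name δ t < name (x i) t := fun i =>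
    (h.lt_iff _ _).1 ((le_max_right _ _).trans_lt (hx' i))
  have h3 : ∀ᶠ t in atTop, (∀ i, name δ t < name (x i) t) ∧ K ≤ t :=
    (eventually_all.2 h2).and (eventually_ge_atTop K)
  obtain ⟨t, ht1, ht2, ht3⟩ := (hδ.and_eventually h3).exists
  obtain ⟨i, hi⟩ := hM t ht3 x hx fun i =>
    (hγ0 t).trans ((le_max_left _ _).trans_lt (hx' i))
  exact absurd (ht1.trans (ht2 i)) (not_lt.2 hi)

end Pool.Agent.Lib.Pc4a55f
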