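import Pool.Agent.Lib.Pc4a55f.Osc3b

/-! Module Osc3: the step of the oscillation process. -/

namespace Pool.Agent.Lib.Pc4a55f

open Filter

variable {C : Type} [LinearOrder C] {name : C → ℕ → ℕ}

/-- Step: a base `(m, μ)` of `Y` above the node `ρ`, `m j ≥ L`; jump of `X` at `(l, ν)` above all
`μ j t`, `t < m j`, to a node `τ` of length `L' > m j`; a base `(l', ν')` of `X` above it,
`l' i ≥ L'`; jump of `Y` at `(m, μ)` above all `ν' i t`, `t < l' i`, to a node `ρ'` of length
`L'' > l' i`. The up-crossings of `(ν' i, ρ' j)` before `l' i - 1` are those of `(ν i, ρ j)` before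
`l i - 1`, and `t = l i - 1`. -/
theorem St.step (h : OscData name) {s s' : ℕ} {X : Set (Fin s → C)} {Y : Set (Fin s' → C)}
    {n H : ℕ} {l : Fin s → ℕ} {ν : Fin s → ℕ → ℕ} {L : ℕ} {ρ : Fin s' → ℕ → ℕ}
    (hS : St name X Y n H l ν L ρ) : ∃ l' ν' L' ρ', St name X Y (n + 1) H l' ν' L' ρ' := by
  obtain ⟨m, μ, _, hmL, hμ, hmμ⟩ := exists_base_of_node h hS.node L
  obtain ⟨M1, hM1⟩ := Osc3bAux.exists_bd m μ
  let L' := Finset.univ.sup m + 1 + L
  have hL'm : ∀ j, m j < L' := fun j => by
    have := Finset.le_sup (f := m) (Finset.mem_univ j)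
    show m j < Finset.univ.sup m + 1 + L
    omega
  have hL'L : L < L' := by
    show L < Finset.univ.sup m + 1 + L
    omega
  obtain ⟨τ, hτ1, hτ2, hτ3⟩ := exists_node_of_base h hS.base M1 L'
    (fun i => ((hS.lt i).trans hL'L).le)
  obtain ⟨l', ν', _, hl', hν', hlν'⟩ := exists_base_of_node h hτ1 L'
  obtain ⟨M2, hM2⟩ := Osc3bAux.exists_bd l' ν'
  let L'' := Finset.univ.sup l' + 1 + L'
  have hL''l : ∀ i, l' i < L'' := fun i => by
    have := Finset.le_sup (f := l') (Finset.mem_univ i)
    show l' i < Finset.univ.sup l' + 1 + L'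
    omega
  have hL''L' : L' < L'' := by
    show L' < Finset.univ.sup l' + 1 + L'
    omega
  obtain ⟨ρ', hρ1, hρ2, hρ3⟩ := exists_node_of_base h hmμ M2 L''
    (fun j => ((hL'm j).trans hL''L').le)
  have key : ∀ i j, cnt (ν' i) (ρ' j) (l' i - 1) = cnt (ν i) (ρ j) (l i - 1) + 1 := by
    intro i j
    have a1 := hS.pos i
    have a2 := hS.lt i
    have a3 := hmL j
    have a4 := hL'm j
    have a5 := hl' i
    have a6 := hL''l i
    have e1 : ∀ t < l i, ν' i t = ν i t := fun t ht => by
      rw [hν' i t (by omega), hτ2 i t ht]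
    have e2 : ∀ t < L, ρ' j t = ρ j t := fun t ht => by
      rw [hρ2 j t (by omega), hμ j t ht]
    have e3 : ∀ t, l i ≤ t → t < m j → ρ' j t < ν' i t := fun t h1 h2 => by
      rw [hρ2 j t h2, hν' i t (by omega)]
      exact (hM1 j t h2).trans_lt (hτ3 i t h1 (by omega))
    have e4 : ∀ t, m j ≤ t → t < l' i → ν' i t < ρ' j t := fun t h1 h2 =>
      (hM2 i t h2).trans_lt (hρ3 j t h1 (by omega))
    unfold cnt
    have hset : (Finset.range (l' i - 1)).filter (fun t => ν' i t ≤ ρ' j t ∧ ρ' j (t + 1) < ν' i (t + 1))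
        = insert (l i - 1) ((Finset.range (l i - 1)).filter
          (fun t => ν i t ≤ ρ j t ∧ ρ j (t + 1) < ν i (t + 1))) := by
      ext t
      simp only [Finset.mem_filter, Finset.mem_range, Finset.mem_insert]
      rcases lt_trichotomy t (l i - 1) with ht | ht | ht
      · rw [e1 t (by omega), e1 (t + 1) (by omega), e2 t (by omega), e2 (t + 1) (by omega)]
        constructor
        · rintro ⟨_, h2⟩
          exact Or.inr ⟨ht, h2⟩
        · rintro (h1 | ⟨_, h2⟩)
          · omega
          · exact ⟨by omega, h2⟩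
      · constructor
        · intro _
          exact Or.inl ht
        · intro _
          subst ht
          refine ⟨by omega, ?_, ?_⟩
          · rw [e1 _ (by omega), e2 _ (by omega)]
            exact (hS.cmp i j).le
          · have : l i - 1 + 1 = l i := by omega
            rw [this]
            exact e3 _ le_rfl (by omega)
      · constructor
        · rintro ⟨h1, h2, h3⟩
          exfalso
          by_cases htm : t < m j
          · have := e3 t (by omega) htm
            omega
          · have := e4 (t + 1) (by omega) (by omega)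
            omega
        · rintro (h1 | ⟨h1, _⟩)
          · omega
          · omega
    rw [hset, Finset.card_insert_of_notMem]
    simp
  refine ⟨l', ν', L'', ρ', hlν', hρ1, ?_, hL''l, ?_, ?_, ?_⟩
  · intro i
    have := hl' i
    omega
  · intro i j
    have a4 := hL'm j
    have a5 := hl' i
    have a6 := hL''l i
    exact (hM2 i (l' i - 1) (by omega)).trans_lt (hρ3 j _ (by omega) (by omega))
  · intro i j
    rw [key]
    exact Nat.add_le_add_right (hS.lo i j) 1
  · intro i j
    rw [key]
    have := hS.hi i j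
    omega

theorem exists_st (h : OscData name) {s s' : ℕ} {X : Set (Fin s → C)} {Y : Set (Fin s' → C)}
    (hX : Cof X) (hY : Cof Y) : ∃ H, ∀ n, ∃ l ν L ρ, St name X Y n H l ν L ρ := by
  obtain ⟨H, l, ν, L, ρ, h0⟩ := exists_start h hX hY
  refine ⟨H, fun n => ?_⟩
  induction n with
  | zero => exact ⟨l, ν, L, ρ, h0⟩
  | succ n ih =>
    obtain ⟨l', ν', L', ρ', h1⟩ := ih
    exact h1.step h

end Pool.Agent.Lib.Pc4a55f
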