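import Pool.Agent.Lib.Pc4a55f.Osc2

/-! Module Osc3a: bases above nodes, nodes after jumps. -/

namespace Pool.Agent.Lib.Pc4a55f

open Filter

variable {C : Type} [LinearOrder C] {name : C → ℕ → ℕ}

theorem Osc3aAux.restr_eq_iff {L : ℕ} {f g : ℕ → ℕ} : restr L f = restr L g ↔ ∀ t < L, f t = g t := by
  unfold restr
  rw [List.map_inj_left]
  simp

/-- a base above a node: apply `exists_base` to the cofinal set of the node -/
theorem exists_base_of_node (h : OscData name) {s : ℕ} {X : Set (Fin s → C)} {L : ℕ}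
    {ρ : Fin s → ℕ → ℕ} (hX : Node name X L ρ) (K : ℕ) :
    ∃ (l : Fin s → ℕ) (ν : Fin s → ℕ → ℕ), (∀ i, K ≤ l i) ∧ (∀ i, L ≤ l i) ∧
      (∀ i, ∀ t < L, ν i t = ρ i t) ∧ Base name X l ν := by
  obtain ⟨l, ν, h1, h2⟩ := exists_base h (X := {x | x ∈ X ∧ ∀ i, ∀ t < L, name (x i) t = ρ i t})
    hX (max K L)
  refine ⟨l, ν, fun i => (le_max_left _ _).trans (h1 i), fun i => (le_max_right _ _).trans (h1 i),
    ?_, ?_⟩
  · obtain ⟨γ⟩ := h.ne
    obtain ⟨x, hx, _⟩ := h2 0 γ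
    intro i t ht
    rw [← hx.1.2 i t ht, (hx.2 i).1 t (ht.trans_le ((le_max_right _ _).trans (h1 i)))]
  · intro M
    refine (h2 M).mono ?_
    rintro x ⟨hx, hx'⟩
    exact ⟨hx.1, hx'⟩

/-- a node after a jump: pigeonhole on the values below `L`. As the functions are monotone, the
values on `[l i, L)` are `> M`. -/
theorem exists_node_of_base (h : OscData name) {s : ℕ} {X : Set (Fin s → C)} {l : Fin s → ℕ}
    {ν : Fin s → ℕ → ℕ} (hX : Base name X l ν) (M L : ℕ) (hL : ∀ i, l i ≤ L) :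
    ∃ τ : Fin s → ℕ → ℕ, Node name X L τ ∧ (∀ i, ∀ t < l i, τ i t = ν i t) ∧
      (∀ i, ∀ t, l i ≤ t → t < L → M < τ i t) := by
  have := h.ne
  obtain ⟨k, hk⟩ := (hX M).pigeon h.bdd (κ := Fin s → List ℕ)
    (fun k x => ∀ i, restr L (name (x i)) = k i)
    (fun x _ => ⟨fun i => restr L (name (x i)), fun i => rfl⟩)
  obtain ⟨γ⟩ := h.ne
  obtain ⟨x, ⟨⟨hx1, hx2⟩, hx3⟩, _⟩ := hk γ
  refine ⟨fun i t => name (x i) t, ?_, ?_, ?_⟩
  · refine hk.mono ?_
    rintro y ⟨⟨hy1, _⟩, hy3⟩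
    refine ⟨hy1, fun i => ?_⟩
    rw [← Osc3aAux.restr_eq_iff (L := L) (f := name (y i)) (g := fun t => name (x i) t)]
    rw [hy3 i, ← hx3 i]
  · intro i t ht
    exact (hx2 i).1 t ht
  · intro i t ht _
    exact (hx2 i).2.trans_le (h.mono _ ht)

end Pool.Agent.Lib.Pc4a55f
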