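import Pool.Agent.Lib.Pc4a55f.Osc3a

/-! Module Osc3b: start of the oscillation process. -/

namespace Pool.Agent.Lib.Pc4a55f

open Filter

variable {C : Type} [LinearOrder C] {name : C → ℕ → ℕ}

/-- a bound of finitely many numbers -/
theorem Osc3bAux.exists_bd {s : ℕ} (l : Fin s → ℕ) (ν : Fin s → ℕ → ℕ) :
    ∃ M, ∀ i, ∀ t < l i, ν i t ≤ M := by
  refine ⟨Finset.univ.sup (fun i => (Finset.range (l i)).sup (ν i)), fun i t ht => ?_⟩
  have h1 : ν i t ≤ (Finset.range (l i)).sup (ν i) := Finset.le_sup (f := ν i) (by simpa using ht)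
  exact h1.trans (Finset.le_sup (f := fun i => (Finset.range (l i)).sup (ν i)) (Finset.mem_univ i))

/-- Start: a base `(m, μ)` of `Y` (`exists_base`); a base `(l, ν)` of `X` with `l i > m j + 1` for all
`i, j` (`exists_base`); then a jump of `Y` above all `ν i t`, `t < l i`, with a node `ρ` of length
`L > l i` (`exists_node_of_base`). For `t < l i - 1` an up-crossing of `(ν i, ρ j)` at `t` requires
`t < m j` (as `ρ j > ν i` on `[m j, l i)`), so the count is at most `H = sup m j`. -/
theorem exists_start (h : OscData name) {s s' : ℕ} {X : Set (Fin s → C)} {Y : Set (Fin s' → C)}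
    (hX : Cof X) (hY : Cof Y) : ∃ H l ν L ρ, St name X Y 0 H l ν L ρ := by
  obtain ⟨m, μ, _, hm⟩ := exists_base h hY 0
  let H := Finset.univ.sup m
  have hH : ∀ j, m j ≤ H := fun j => Finset.le_sup (f := m) (Finset.mem_univ j)
  obtain ⟨l, ν, hl, hlν⟩ := exists_base h hX (H + 2)
  let L := Finset.univ.sup l + 1 + H
  have hL : ∀ i, l i < L := fun i => by
    have := Finset.le_sup (f := l) (Finset.mem_univ i)
    show l i < Finset.univ.sup l + 1 + H
    omega
  obtain ⟨M, hM⟩ := Osc3bAux.exists_bd l ν
  obtain ⟨ρ, hρ1, hρ2, hρ3⟩ := exists_node_of_base h hm M L (fun j => by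
    have := hH j
    show m j ≤ Finset.univ.sup l + 1 + H
    omega)
  refine ⟨H, l, ν, L, ρ, hlν, hρ1, ?_, hL, ?_, ?_, ?_⟩
  · intro i
    have := hl i
    omega
  · intro i j
    have h1 := hl i
    have h2 := hH j
    have h3 := hL i
    have h4 := hM i (l i - 1) (by omega)
    have h5 := hρ3 j (l i - 1) (by omega) (by omega)
    omega
  · intro i j
    exact Nat.zero_le _
  · intro i j
    unfold cnt
    have h1 := hl i
    have h2 := hH j
    have h3 := hL i
    calc _ ≤ (Finset.range H).card := by
          apply Finset.card_le_card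
          intro t ht
          simp only [Finset.mem_filter, Finset.mem_range] at ht ⊢
          by_contra hcon
          have h4 := hM i (t + 1) (by omega)
          have h5 := hρ3 j (t + 1) (by omega) (by omega)
          omega
      _ = 0 + H := by simp

end Pool.Agent.Lib.Pc4a55f
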