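import Pool.Agent.Lib.Pc4a55f.Pig

/-! Module Osc4a: a countable dense subset. -/

namespace Pool.Agent.Lib.Pc4a55f

open Filter

variable {C : Type} [LinearOrder C] {name : C → ℕ → ℕ}

/-- a countable subset of `X` realising every finite pattern realised in `X` (choose a witness for
every `(patterns Fin s → List ℕ, M)`), and a bound `b` for all its coordinates -/
theorem exists_dense (h : OscData name) {s : ℕ} (X : Set (Fin s → C)) :
    ∃ (X0 : Set (Fin s → C)) (b : C), X0 ⊆ X ∧ (∀ x ∈ X0, ∀ i, x i < b) ∧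
      ∀ (l : Fin s → ℕ) (ν : Fin s → ℕ → ℕ) (M : ℕ),
        (∃ x ∈ X, ∀ i, (∀ t < l i, name (x i) t = ν i t) ∧ M < name (x i) (l i)) →
        ∃ x ∈ X0, ∀ i, (∀ t < l i, name (x i) t = ν i t) ∧ M < name (x i) (l i) := by
  classical
  have := h.ne
  let K : Type := (Fin s → ℕ) × (Fin s → List ℕ) × ℕ
  let P : K → (Fin s → C) → Prop := fun k x =>
    x ∈ X ∧ ∀ i, (List.range (k.1 i)).map (name (x i)) = k.2.1 i ∧ k.2.2 < name (x i) (k.1 i)
  let f : K → Fin s → C := fun k => if hk : ∃ x, P k x then hk.choose else fun _ =>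
    Classical.arbitrary C
  have hf : ∀ k, (∃ x, P k x) → P k (f k) := by
    intro k hk
    simp only [f, dif_pos hk]
    exact hk.choose_spec
  obtain ⟨b, hb⟩ := exists_gt_countable h.bdd (fun q : K × Fin s => f q.1 q.2)
  refine ⟨{x | ∃ k, (∃ x, P k x) ∧ x = f k}, b, ?_, ?_, ?_⟩
  · rintro x ⟨k, hk, rfl⟩
    exact (hf k hk).1
  · rintro x ⟨k, hk, rfl⟩ i
    exact hb (k, i)
  · rintro l ν M ⟨x, hx, hx'⟩
    let k : K := (l, fun i => (List.range (l i)).map (ν i), M)
    have hk : ∃ x, P k x := by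
      refine ⟨x, hx, fun i => ⟨?_, (hx' i).2⟩⟩
      exact List.map_inj_left.2 fun t ht => (hx' i).1 t (List.mem_range.1 ht)
    refine ⟨f k, ⟨k, hk, rfl⟩, fun i => ⟨?_, ((hf k hk).2 i).2⟩⟩
    intro t ht
    exact List.map_inj_left.1 ((hf k hk).2 i).1 t (List.mem_range.2 ht)

end Pool.Agent.Lib.Pc4a55f
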