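import Pool.Agent.Lib.Pc4a55f.Defs

/-! Module Osc4b: counting up-crossings. -/

namespace Pool.Agent.Lib.Pc4a55f

/-- if `(ν, ρ)` describe `(p, q)` up to `l`, `L`, `p` jumps above `q` at `l`, stays above until `m`,
and `q` is above `p` from `m` on, then the number of up-crossings is the count before `l - 1`
plus one -/
theorem osc_eq {p q ν ρ : ℕ → ℕ} {l L m : ℕ} (hl : 0 < l) (hlL : l < L) (hLm : L ≤ m)
    (hp : ∀ t < l, p t = ν t) (hq : ∀ t < L, q t = ρ t) (hcmp : ν (l - 1) < ρ (l - 1))
    (habove : ∀ t, l ≤ t → t < m → q t < p t) (hbelow : ∀ t, m ≤ t → p t ≤ q t) :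
    osc p q = cnt ν ρ (l - 1) + 1 := by
  classical
  have hset : {t : ℕ | p t ≤ q t ∧ q (t + 1) < p (t + 1)} =
      ((insert (l - 1) ((Finset.range (l - 1)).filter
        (fun t => ν t ≤ ρ t ∧ ρ (t + 1) < ν (t + 1))) : Finset ℕ) : Set ℕ) := by
    ext t
    simp only [Set.mem_setOf_eq, Finset.coe_insert, Set.mem_insert_iff, Finset.mem_coe,
      Finset.mem_filter, Finset.mem_range]
    constructor
    · rintro ⟨h1, h2⟩
      rcases lt_trichotomy t (l - 1) with h3 | h3 | h3
      · right
        rw [hp t (by omega), hq t (by omega)] at h1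
        rw [hp (t + 1) (by omega), hq (t + 1) (by omega)] at h2
        exact ⟨h3, h1, h2⟩
      · exact Or.inl h3
      · exfalso
        by_cases h4 : t < m
        · exact absurd h1 (not_le.2 (habove t (by omega) h4))
        · exact absurd h2 (not_lt.2 (hbelow (t + 1) (by omega)))
    · rintro (rfl | ⟨h3, h1, h2⟩)
      · refine ⟨?_, ?_⟩
        · rw [hp (l - 1) (by omega), hq (l - 1) (by omega)]
          exact hcmp.le
        · have h4 : l - 1 + 1 = l := by omega
          rw [h4]
          exact habove l le_rfl (by omega)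
      · rw [hp t (by omega), hq t (by omega), hp (t + 1) (by omega), hq (t + 1) (by omega)]
        exact ⟨h1, h2⟩
  unfold osc cnt
  rw [hset, Set.ncard_coe_finset, Finset.card_insert_of_notMem]
  simp

end Pool.Agent.Lib.Pc4a55f
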