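import Pool.Agent.Lib.Pc4a55f.Osc3
import Pool.Agent.Lib.Pc4a55f.Osc4a
import Pool.Agent.Lib.Pc4a55f.Osc4b

/-! Module Osc4: the oscillation lemma. -/

namespace Pool.Agent.Lib.Pc4a55f

open Filter

variable {C : Type} [LinearOrder C] {name : C → ℕ → ℕ}

/-- The oscillation lemma. Take `X0`, `b` from `exists_dense`; by pigeonhole there is `k` such that
`Y' = {y ∈ Y | ∀ j, b < y j ∧ ∀ t ≥ k, name b t ≤ name (y j) t}` is cofinal. Apply `exists_st` to
`X`, `Y'`: `H`, and for each `n` a state. Take a base `(m, μ)` of `Y'` above the node `ρ` with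
`m j ≥ max L k`; `x ∈ X0` with pattern `(l, ν)` and `name (x i) (l i) > μ j t` for all `t < m j`
(from the base of `X` and `exists_dense`); `T` such that `name (x i) t ≤ name b t` for `t ≥ T`;
then `y ∈ Y'` with pattern `(m, μ)` and `name (y j) (m j) > name (x i) t` for all
`t ≤ max T (m j)`. For `t ≥ m j`: if `t ≤ T`, `name (x i) t < name (y j) (m j) ≤ name (y j) t`;
else `name (x i) t ≤ name b t ≤ name (y j) t`. So `osc = cnt + 1 ∈ [n+1, n+H+1]` by `osc_eq`. -/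
theorem osc_lemma (h : OscData name) {s s' : ℕ} {X : Set (Fin s → C)} {Y : Set (Fin s' → C)}
    (hX : Cof X) (hY : Cof Y) :
    ∃ H, ∀ n, ∃ x ∈ X, ∃ y ∈ Y, ∀ i j, x i < y j ∧
      n ≤ osc (name (x i)) (name (y j)) ∧ osc (name (x i)) (name (y j)) ≤ n + H := by
  classical
  have := h.ne
  obtain ⟨X0, b, hX0, hb, hdense⟩ := exists_dense h X
  obtain ⟨k, hk⟩ := (hY.above b).pigeon h.bdd
    (fun (k : ℕ) y => ∀ j, ∀ t, k ≤ t → name b t ≤ name (y j) t) (by
      rintro y ⟨hy, hy'⟩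
      have h1 : ∀ j, ∀ᶠ t in atTop, name b t < name (y j) t := fun j => (h.lt_iff _ _).1 (hy' j)
      obtain ⟨k, hk⟩ := eventually_atTop.1 (eventually_all.2 h1)
      exact ⟨k, fun j t ht => (hk t ht j).le⟩)
  set Y' : Set (Fin s' → C) := {x | x ∈ {x | x ∈ Y ∧ ∀ i, b < x i} ∧
    ∀ j, ∀ t, k ≤ t → name b t ≤ name (x j) t} with hY'
  obtain ⟨H, hH⟩ := exists_st h hX hk
  refine ⟨H + 1, fun n => ?_⟩
  obtain ⟨l, ν, L, ρ, hS⟩ := hH n
  obtain ⟨m, μ, hmk, hmL, hμ, hbase⟩ := exists_base_of_node h hS.node k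
  -- bound of the values of `μ`
  let M : ℕ := Finset.univ.sup fun j => (Finset.range (m j)).sup (μ j)
  have hM : ∀ j, ∀ t < m j, μ j t ≤ M := fun j t ht =>
    (Finset.le_sup (f := μ j) (Finset.mem_range.2 ht)).trans
      (Finset.le_sup (f := fun j => (Finset.range (m j)).sup (μ j)) (Finset.mem_univ j))
  obtain ⟨c⟩ := h.ne
  obtain ⟨x', hx', -⟩ := hS.base M c
  obtain ⟨x, hx, hxp⟩ := hdense l ν M ⟨x', hx'.1, hx'.2⟩
  have h2 : ∀ i, ∀ᶠ t in atTop, name (x i) t < name b t := fun i =>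
    (h.lt_iff _ _).1 (hb x hx i)
  obtain ⟨T, hT⟩ := eventually_atTop.1 (eventually_all.2 h2)
  obtain ⟨y, ⟨hy, hyp⟩, -⟩ := hbase (Finset.univ.sup fun i => name (x i) T) c
  refine ⟨x, hX0 hx, y, hy.1.1, fun i j => ⟨(hb x hx i).trans (hy.1.2 j), ?_⟩⟩
  have hosc : osc (name (x i)) (name (y j)) = cnt (ν i) (ρ j) (l i - 1) + 1 := by
    refine osc_eq (hS.pos i) (hS.lt i) (hmL j) (hxp i).1 ?_ (hS.cmp i j) ?_ ?_
    · intro t ht
      rw [(hyp j).1 t (ht.trans_le (hmL j)), hμ j t ht]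
    · intro t ht1 ht2
      rw [(hyp j).1 t ht2]
      exact ((hM j t ht2).trans_lt (hxp i).2).trans_le (h.mono _ ht1)
    · intro t ht
      by_cases htT : t ≤ T
      · have h3 : name (x i) T ≤ Finset.univ.sup fun i => name (x i) T :=
          Finset.le_sup (f := fun i => name (x i) T) (Finset.mem_univ i)
        exact ((h.mono _ htT).trans h3).trans ((hyp j).2.le.trans (h.mono _ ht))
      · exact (hT t (by omega) i).le.trans (hy.2 j t ((hmk j).trans ht))
  rw [hosc]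
  have h3 := hS.lo i j
  have h4 := hS.hi i j
  omega

end Pool.Agent.Lib.Pc4a55f
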