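import Pool.Agent.Lib.Pc4a55f.Defs

/-! Module Pig: pigeonhole principles. -/

namespace Pool.Agent.Lib.Pc4a55f

theorem exists_gt_countable {C : Type} [LinearOrder C] [Nonempty C]
    (bdd : ∀ f : ℕ → C, ∃ γ, ∀ n, f n < γ) {κ : Type*} [Countable κ] (f : κ → C) :
    ∃ γ, ∀ k, f k < γ := by
  rcases isEmpty_or_nonempty κ with h | h
  · exact ⟨Classical.arbitrary C, fun k => (h.false k).elim⟩
  · obtain ⟨g, hg⟩ := exists_surjective_nat κ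
    obtain ⟨γ, hγ⟩ := bdd (fun n => f (g n))
    refine ⟨γ, fun k => ?_⟩
    obtain ⟨n, rfl⟩ := hg k
    exact hγ n

theorem pigeon {C : Type} [LinearOrder C] [Nonempty C] (bdd : ∀ f : ℕ → C, ∃ γ, ∀ n, f n < γ)
    {κ : Type*} [Countable κ] (p : κ → C → Prop)
    (anti : ∀ k γ γ', γ ≤ γ' → p k γ' → p k γ) (h : ∀ γ, ∃ k, p k γ) : ∃ k, ∀ γ, p k γ := by
  by_contra hcon
  push_neg at hcon
  choose f hf using hcon
  obtain ⟨γ, hγ⟩ := exists_gt_countable bdd f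
  obtain ⟨k, hk⟩ := h γ
  exact hf k (anti k _ _ (hγ k).le hk)

/-- pigeonhole for cofinal families of tuples -/
theorem Cof.pigeon {C : Type} [LinearOrder C] [Nonempty C]
    (bdd : ∀ f : ℕ → C, ∃ γ, ∀ n, f n < γ) {κ : Type*} [Countable κ] {s : ℕ}
    {X : Set (Fin s → C)} (hX : Cof X) (p : κ → (Fin s → C) → Prop) (h : ∀ x ∈ X, ∃ k, p k x) :
    ∃ k, Cof {x | x ∈ X ∧ p k x} := by
  refine Pc4a55f.pigeon bdd (fun k γ => ∃ x ∈ {x | x ∈ X ∧ p k x}, ∀ i, γ < x i) ?_ ?_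
  · rintro k γ γ' hle ⟨x, hx, hx'⟩
    exact ⟨x, hx, fun i => hle.trans_lt (hx' i)⟩
  · intro γ
    obtain ⟨x, hx, hx'⟩ := hX γ
    obtain ⟨k, hk⟩ := h x hx
    exact ⟨k, x, ⟨hx, hk⟩, hx'⟩

theorem Cof.mono {C : Type} [LinearOrder C] {s : ℕ} {X Y : Set (Fin s → C)} (hX : Cof X)
    (h : X ⊆ Y) : Cof Y := by
  intro γ
  obtain ⟨x, hx, hx'⟩ := hX γ
  exact ⟨x, h hx, hx'⟩

/-- a cofinal family restricted to a final segment -/
theorem Cof.above {C : Type} [LinearOrder C] {s : ℕ} {X : Set (Fin s → C)} (hX : Cof X) (b : C) :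
    Cof {x | x ∈ X ∧ ∀ i, b < x i} := by
  intro γ
  obtain ⟨x, hx, hx'⟩ := hX (max b γ)
  exact ⟨x, ⟨hx, fun i => (le_max_left _ _).trans_lt (hx' i)⟩,
    fun i => (le_max_right _ _).trans_lt (hx' i)⟩

end Pool.Agent.Lib.Pc4a55f
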