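import Mathlib
import Pool.Agent.Lib.Pc4a55f.Compl

set_option autoImplicit false

/-!
# Products of minimal topological groups: the general theorem
-/

namespace Pool.Agent.Lib.Pc4a55f

open Filter Topology Set

/-- The class of factors. Either `G` is second countable and locally compact, or `G` is second
countable and Raikov complete and its centre is separated by open subgroups and representations
(`SepCentre`), or the centre of `G` is compact and the quotient of `G` by its centre is a minimal
group. -/
def GoodFactor.{v, u} (G : Type u) [Group G] [TopologicalSpace G] : Prop :=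
  (SecondCountableTopology G ∧ (LocallyCompactSpace G ∨ (RaikovComplete G ∧ SepCentre.{v} G))) ∨
    (IsCompact (Subgroup.center G : Set G) ∧ MinimalGroup (G ⧸ Subgroup.center G))

theorem core2.{v, w, u, a} {I : Type a} {G : I → Type u} [∀ i, Group (G i)]
    [∀ i, TopologicalSpace (G i)]
    (hmin : ∀ i, MinimalGroup (G i)) (hfac : ∀ i, GoodFactor.{v} (G i))
    {P : Type w} [Group P] [TopologicalSpace P] [IsTopologicalGroup P] [T2Space P]
    (φ : P ≃* ∀ i, G i) (hφ : Continuous φ.symm) : Continuous φ := by
  classical
  haveI : ∀ i, IsTopologicalGroup (G i) := fun i => (hmin i).1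
  haveI : ∀ i, T2Space (G i) := fun i => (hmin i).2.1
  let p : ∀ i, P →* G i := fun i => (Pi.evalMonoidHom G i).comp φ.toMonoidHom
  let s : ∀ i, G i →* P := fun i => φ.symm.toMonoidHom.comp (MonoidHom.mulSingle G i)
  have hp : ∀ i u, p i u = φ u i := fun i u => rfl
  have hs : ∀ i g, s i g = φ.symm (Pi.mulSingle i g) := fun i g => rfl
  have hps : ∀ i g, p i (s i g) = g := by
    intro i g
    rw [hp, hs, MulEquiv.apply_symm_apply, Pi.mulSingle_eq_same]
  have hscont : ∀ i, Continuous (s i) := fun i => hφ.comp (continuous_mulSingle i)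
  have hsind : ∀ i, IsInducing (s i) := fun i =>
    (hmin i).isInducing (s i) (hscont i) (fun a b h => by rw [← hps i a, h, hps])
  have hconj : ∀ i, Continuous (fun x : P × G i => p i x.1 * x.2 * (p i x.1)⁻¹) := by
    intro i
    rw [(hsind i).continuous_iff]
    have h1 : (s i ∘ fun x : P × G i => p i x.1 * x.2 * (p i x.1)⁻¹) =
        fun x : P × G i => x.1 * s i x.2 * x.1⁻¹ := by
      funext x
      rw [Function.comp_apply, hs, MulEquiv.symm_apply_eq]
      funext j
      rw [map_mul, map_mul, hs, MulEquiv.apply_symm_apply, map_inv]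
      by_cases hj : j = i
      · subst hj
        simp [hp]
      · simp [hj]
    rw [h1]
    exact (continuous_fst.mul ((hscont i).comp continuous_snd)).mul continuous_fst.inv
  have hZ : ∀ i, IsCompact (Subgroup.center (G i) : Set (G i)) := by
    intro i
    rcases hfac i with ⟨h1, h2 | ⟨h2, h3⟩⟩ | h
    · exact isCompact_center (hmin i)
    · exact isCompact_center_un (hmin i) h2 h3
    · exact h.1
  have hq : ∀ i, Continuous (fun u => (p i u : G i ⧸ Subgroup.center (G i))) := by
    intro i
    rcases hfac i with ⟨h1, h2 | ⟨h2, h3⟩⟩ | h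
    · exact tight_lc (hmin i) (p i) (hconj i)
    · exact tight_un (hmin i) h2 h3 (p i) (hconj i)
    · exact tight_quot h.2 (p i) (s i) (hscont i) (hps i) (hconj i)
  apply continuous_of_continuousAt_one φ
  rw [ContinuousAt, map_one]
  rw [tendsto_iff_ultrafilter]
  intro W hW
  -- coordinates converge to central elements
  have hcoord : ∀ i, ∃ z : G i, Tendsto (fun u => p i u) W (𝓝 z) := by
    intro i
    have hproper : IsProperMap (QuotientGroup.mk : G i → G i ⧸ Subgroup.center (G i)) := by
      rw [isProperMap_iff_isClosedMap_and_compact_fibers]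
      refine ⟨QuotientGroup.continuous_mk, QuotientGroup.isClosedMap_coe (hZ i), ?_⟩
      intro y
      obtain ⟨g, rfl⟩ := QuotientGroup.mk_surjective y
      have : (QuotientGroup.mk : G i → G i ⧸ Subgroup.center (G i)) ⁻¹'
          {(g : G i ⧸ Subgroup.center (G i))} =
          (fun z => g * z) '' (Subgroup.center (G i) : Set (G i)) := by
        ext y
        simp only [mem_preimage, mem_singleton_iff, mem_image, SetLike.mem_coe]
        constructor
        · intro h
          refine ⟨g⁻¹ * y, ?_, by group⟩
          exact QuotientGroup.eq.1 h.symm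
        · rintro ⟨z, hz, rfl⟩
          rw [eq_comm, QuotientGroup.eq]
          simpa using hz
      rw [this]
      exact (hZ i).image (continuous_const.mul continuous_id)
    have h1 : Tendsto (QuotientGroup.mk : G i → G i ⧸ Subgroup.center (G i))
        (W.map (p i)) (𝓝 (1 : G i ⧸ Subgroup.center (G i))) := by
      have h2 := (hq i).tendsto 1
      rw [map_one, QuotientGroup.mk_one] at h2
      have h3 : Tendsto (fun u => (p i u : G i ⧸ Subgroup.center (G i))) W
          (𝓝 (1 : G i ⧸ Subgroup.center (G i))) := h2.mono_left hW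
      exact h3
    obtain ⟨z, -, hz⟩ := hproper.ultrafilter_le_nhds_of_tendsto h1
    exact ⟨z, hz⟩
  choose z hz using hcoord
  have h1 : Tendsto φ W (𝓝 z) := by
    rw [tendsto_pi_nhds]
    intro i
    exact hz i
  have h2 : Tendsto (fun u => φ.symm (φ u)) W (𝓝 (φ.symm z)) := (hφ.tendsto z).comp h1
  simp only [MulEquiv.symm_apply_apply] at h2
  have h3 : φ.symm z = 1 := tendsto_nhds_unique h2 hW
  have h4 : z = 1 := by
    rw [← MulEquiv.apply_symm_apply φ z, h3, map_one]
  rw [h4] at h1
  exact h1

theorem main2.{v, u, a} {I : Type a} (G : I → Type u) [∀ i, Group (G i)]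
    [∀ i, TopologicalSpace (G i)]
    (hmin : ∀ i, MinimalGroup (G i)) (hfac : ∀ i, GoodFactor.{v} (G i)) :
    MinimalGroup (∀ i, G i) := by
  haveI : ∀ i, IsTopologicalGroup (G i) := fun i => (hmin i).1
  haveI : ∀ i, T2Space (G i) := fun i => (hmin i).2.1
  refine ⟨inferInstance, inferInstance, ?_⟩
  intro σ h1 h2 h3 t ht
  have h5 : @Continuous _ _ Pi.topologicalSpace σ (MulEquiv.refl (∀ i, G i)).symm :=
    (@continuous_def _ _ Pi.topologicalSpace σ _).2 h3
  have h4 : @Continuous _ _ σ Pi.topologicalSpace (MulEquiv.refl (∀ i, G i)) :=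
    @core2 I G _ _ hmin hfac (∀ i, G i) _ σ h1 h2 (MulEquiv.refl _) h5
  exact (@continuous_def _ _ σ Pi.topologicalSpace _).1 h4 t ht

end Pool.Agent.Lib.Pc4a55f
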