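import Pool.Agent.Lib.Pc4a55f.SDtop

/-! Module Prod1: the coarser topology on the product, a basis of subgroups. -/

namespace Pool.Agent.Lib.Pc4a55f

open Topology
open scoped commutatorElement

variable {Γ D : Type} [Group Γ] {V : D → Subgroup Γ} {R : ℕ → Subgroup Γ} [∀ n, (R n).Normal]

/-- the product -/
abbrev PP (V : D → Subgroup Γ) (R : ℕ → Subgroup Γ) [∀ n, (R n).Normal] : Type :=
  ∀ n, SD (Γ ⧸ R n) (YY V R n)

/-- the basic sets: for `N < k` the `N`-th coordinate has zero vector on `F N`, and the group parts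
of the first `k` coordinates are images of one element of `V d` -/
def Wset (k : ℕ) (d : D) (F : ∀ n, Finset (YY V R n)) : Set (PP V R) :=
  {x | ∃ g ∈ V d, ∀ N < k, (x N).elt = QuotientGroup.mk g ∧ ∀ y ∈ F N, (x N).vec y = 0}

/-- `V d` fixes the points of `F N`, `N < k` -/
def Fixes (k : ℕ) (d : D) (F : ∀ n, Finset (YY V R n)) : Prop :=
  ∀ g ∈ V d, ∀ N < k, ∀ y ∈ F N, (QuotientGroup.mk g : Γ ⧸ R N) • y = y

omit [∀ n, (R n).Normal] in
/-- finitely many conditions, each true on some `V d`, are true together on some `V d'`. -/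
theorem IsTower.fin_dir (hT : IsTower V R) {ι : Type*} (s : Finset ι) (P : ι → Γ → Prop)
    (h : ∀ i ∈ s, ∃ d, ∀ g ∈ V d, P i g) (d : D) :
    ∃ d', V d' ≤ V d ∧ ∀ g ∈ V d', ∀ i ∈ s, P i g := by
  classical
  induction s using Finset.induction_on with
  | empty => exact ⟨d, le_rfl, by simp⟩
  | insert a s ha ih =>
    obtain ⟨d1, hd1, h1⟩ := ih (fun i hi => h i (Finset.mem_insert_of_mem hi))
    obtain ⟨d2, h2⟩ := h a (Finset.mem_insert_self _ _)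
    obtain ⟨f, hf1, hf2⟩ := hT.dir d1 d2
    refine ⟨f, hf1.trans hd1, fun g hg i hi => ?_⟩
    rcases Finset.mem_insert.1 hi with rfl | hi
    · exact h2 g (hf2 hg)
    · exact h1 g (hf1 hg) i hi

/-- a point of `Y N` is fixed by some `V d` -/
theorem IsTower.fix_pt (hT : IsTower V R) (N : ℕ) (y : YY V R N) :
    ∃ d, ∀ g ∈ V d, (QuotientGroup.mk g : Γ ⧸ R N) • y = y := by
  obtain ⟨e, q⟩ := y
  obtain ⟨c', rfl⟩ := QuotientGroup.mk_surjective q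
  obtain ⟨c, rfl⟩ := QuotientGroup.mk_surjective c'
  obtain ⟨d1, hd1⟩ := hT.comm c
  obtain ⟨f, hf1, hf2⟩ := hT.dir d1 e
  refine ⟨f, fun g hg => ?_⟩
  have hc := hd1 g (hf1 hg)
  have h : (QuotientGroup.mk g : Γ ⧸ R N) •
      (QuotientGroup.mk (QuotientGroup.mk c : Γ ⧸ R N) :
        (Γ ⧸ R N) ⧸ ((V e).map (QuotientGroup.mk' (R N)))) =
      QuotientGroup.mk (QuotientGroup.mk c : Γ ⧸ R N) := by
    rw [MulAction.Quotient.smul_mk, smul_eq_mul, ← QuotientGroup.mk_mul, ← hc]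
    rw [QuotientGroup.eq]
    refine ⟨g⁻¹, inv_mem (hf2 hg), ?_⟩
    rw [QuotientGroup.mk'_apply, QuotientGroup.mk_mul, QuotientGroup.mk_inv]
    group
  exact congrArg (Sigma.mk e) h

/-- for every `k` and `F`, some `d' `, with `V d' ≤ V d`, fixes `F`: the point
`(e, c V_e)` of `Y N` is fixed by all `g ∈ V e` which commute with a lift of `c`; use
`IsTower.comm`, `IsTower.dir` finitely often -/
theorem IsTower.exists_fixes (hT : IsTower V R) (k : ℕ) (d : D) (F : ∀ n, Finset (YY V R n)) :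
    ∃ d', V d' ≤ V d ∧ Fixes k d' F := by
  obtain ⟨d', h1, h2⟩ := hT.fin_dir ((Finset.range k).sigma F)
    (fun p g => (QuotientGroup.mk g : Γ ⧸ R p.1) • p.2 = p.2)
    (fun p _ => hT.fix_pt p.1 p.2) d
  refine ⟨d', h1, fun g hg N hN y hy => ?_⟩
  exact h2 g hg ⟨N, y⟩ (Finset.mem_sigma.2 ⟨Finset.mem_range.2 hN, hy⟩)

theorem Wset_mul {k : ℕ} {d : D} {F : ∀ n, Finset (YY V R n)} (hF : Fixes k d F)
    {x y : PP V R} (hx : x ∈ Wset k d F) (hy : y ∈ Wset k d F) : x * y ∈ Wset k d F := by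
  obtain ⟨g, hg, hx⟩ := hx
  obtain ⟨h, hh, hy⟩ := hy
  refine ⟨g * h, mul_mem hg hh, fun N hN => ⟨?_, fun z hz => ?_⟩⟩
  · rw [Pi.mul_apply, SD.mul_elt, (hx N hN).1, (hy N hN).1]
    rfl
  · rw [Pi.mul_apply, SD.mul_vec, (hx N hN).1, (hx N hN).2 z hz, zero_add]
    have h1 := hF g⁻¹ (inv_mem hg) N hN z hz
    rw [QuotientGroup.mk_inv] at h1
    rw [h1]
    exact (hy N hN).2 z hz

theorem Wset_inv {k : ℕ} {d : D} {F : ∀ n, Finset (YY V R n)} (hF : Fixes k d F)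
    {x : PP V R} (hx : x ∈ Wset k d F) : x⁻¹ ∈ Wset k d F := by
  obtain ⟨g, hg, hx⟩ := hx
  refine ⟨g⁻¹, inv_mem hg, fun N hN => ⟨?_, fun z hz => ?_⟩⟩
  · rw [Pi.inv_apply, SD.inv_elt, (hx N hN).1]
    rfl
  · rw [Pi.inv_apply, SD.inv_vec, (hx N hN).1, hF g hg N hN z hz, (hx N hN).2 z hz, neg_zero]

/-- conjugation by `x0`: let `ν N` be lifts of `(x0 N).elt`; choose `d'` with `V d' ≤ V d`, all
elements of `V d'` commuting with the `ν N`, `N < k`, and `F' N = (x0 N).elt⁻¹ • F N ∪ F N`; shrink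
`d'` to fix `F'`.
`(x0 w x0⁻¹).vec y = x0.vec y + w.vec (x0.elt⁻¹ • y) - x0.vec (g⁻¹ • y)` (with `w.elt = g`). -/
theorem IsTower.Wset_conj (hT : IsTower V R) {k : ℕ} {d : D} {F : ∀ n, Finset (YY V R n)}
    (hF : Fixes k d F) (x0 : PP V R) :
    ∃ d' F', V d' ≤ V d ∧ Fixes k d' F' ∧ ∀ w ∈ Wset k d' F', x0 * w * x0⁻¹ ∈ Wset k d F := by
  classical
  have _ := hF
  have hν : ∀ N, ∃ ν : Γ, (QuotientGroup.mk ν : Γ ⧸ R N) = (x0 N).elt :=
    fun N => QuotientGroup.mk_surjective _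
  choose ν hν using hν
  obtain ⟨d1, hd1, h1⟩ := hT.fin_dir (Finset.range k) (fun N g => ν N * g = g * ν N)
    (fun N _ => hT.comm (ν N)) d
  obtain ⟨d2, hd2, h2⟩ := hT.exists_fixes k d1 (fun N => (F N).image (fun y => (x0 N).elt⁻¹ • y))
  refine ⟨d2, fun N => (F N).image (fun y => (x0 N).elt⁻¹ • y), hd2.trans hd1, h2, ?_⟩
  rintro w ⟨g, hg, hw⟩
  refine ⟨g, hd1 (hd2 hg), fun N hN => ⟨?_, fun y hy => ?_⟩⟩
  · have h3 := h1 g (hd2 hg) N (Finset.mem_range.2 hN)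
    rw [Pi.mul_apply, Pi.mul_apply, Pi.inv_apply, SD.mul_elt, SD.mul_elt, SD.inv_elt,
      (hw N hN).1, ← hν N, mul_inv_eq_iff_eq_mul, ← QuotientGroup.mk_mul, h3,
      QuotientGroup.mk_mul]
  · have hz : (x0 N).elt⁻¹ • y ∈ (F N).image (fun y => (x0 N).elt⁻¹ • y) :=
      Finset.mem_image_of_mem _ hy
    have h4 := h2 g⁻¹ (inv_mem hg) N hN _ hz
    rw [QuotientGroup.mk_inv] at h4
    rw [Pi.mul_apply, Pi.mul_apply, Pi.inv_apply, SD.mul_vec, SD.mul_vec, SD.mul_elt,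
      SD.inv_vec, (hw N hN).1, (hw N hN).2 _ hz, mul_inv_rev, mul_smul, h4, smul_inv_smul,
      add_zero]
    exact add_neg_cancel _

/-- the intersection of two basic sets contains a basic set -/
theorem IsTower.Wset_inter (hT : IsTower V R) (k1 k2 : ℕ) (d1 d2 : D)
    (F1 F2 : ∀ n, Finset (YY V R n)) :
    ∃ k d F, Fixes k d F ∧ Wset k d F ⊆ Wset k1 d1 F1 ∩ Wset k2 d2 F2 := by
  classical
  obtain ⟨e, he1, he2⟩ := hT.dir d1 d2
  obtain ⟨d, hd, hf⟩ := hT.exists_fixes (max k1 k2) e (fun N => F1 N ∪ F2 N)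
  refine ⟨max k1 k2, d, fun N => F1 N ∪ F2 N, hf, ?_⟩
  rintro x ⟨g, hg, hx⟩
  refine ⟨⟨g, he1 (hd hg), fun N hN => ?_⟩, ⟨g, he2 (hd hg), fun N hN => ?_⟩⟩
  · obtain ⟨h1, h2⟩ := hx N (lt_of_lt_of_le hN (le_max_left _ _))
    exact ⟨h1, fun y hy => h2 y (Finset.mem_union_left _ hy)⟩
  · obtain ⟨h1, h2⟩ := hx N (lt_of_lt_of_le hN (le_max_right _ _))
    exact ⟨h1, fun y hy => h2 y (Finset.mem_union_right _ hy)⟩

end Pool.Agent.Lib.Pc4a55f
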