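import Pool.Agent.Lib.Pc4a55f.Prod2a

/-! Module Prod2: the product is not minimal. -/

namespace Pool.Agent.Lib.Pc4a55f

open Topology
open scoped commutatorElement

variable {Γ D : Type} [Group Γ] {V : D → Subgroup Γ} {R : ℕ → Subgroup Γ} [∀ n, (R n).Normal]

theorem one_mem_Wset (k : ℕ) (d : D) (F : ∀ n, Finset (YY V R n)) :
    (1 : PP V R) ∈ Wset k d F := by
  refine ⟨1, (V d).one_mem, fun N _ => ⟨?_, fun y _ => ?_⟩⟩
  · rfl
  · rfl

/-- the group filter basis of the sets `Wset k d F` with `Fixes k d F` -/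
theorem IsTower.exists_basis (hT : IsTower V R) :
    ∃ B : GroupFilterBasis (PP V R),
      B.sets = {W | ∃ k d F, Fixes k d F ∧ W = Wset (V := V) (R := R) k d F} := by
  refine ⟨{ sets := {W | ∃ k d F, Fixes k d F ∧ W = Wset (V := V) (R := R) k d F}
            nonempty := ?_
            inter_sets := ?_
            one' := ?_
            mul' := ?_
            inv' := ?_
            conj' := ?_ }, rfl⟩
  · obtain ⟨d⟩ := hT.ne
    refine ⟨Wset 0 d (fun _ => ∅), 0, d, fun _ => ∅, ?_, rfl⟩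
    intro g _ N hN
    exact absurd hN (Nat.not_lt_zero _)
  · rintro _ _ ⟨k1, d1, F1, _, rfl⟩ ⟨k2, d2, F2, _, rfl⟩
    obtain ⟨k, d, F, hF, hsub⟩ := hT.Wset_inter k1 k2 d1 d2 F1 F2
    exact ⟨_, ⟨k, d, F, hF, rfl⟩, hsub⟩
  · rintro _ ⟨k, d, F, _, rfl⟩
    exact one_mem_Wset k d F
  · rintro _ ⟨k, d, F, hF, rfl⟩
    refine ⟨_, ⟨k, d, F, hF, rfl⟩, ?_⟩
    rintro _ ⟨x, hx, y, hy, rfl⟩
    exact Wset_mul hF hx hy
  · rintro _ ⟨k, d, F, hF, rfl⟩
    refine ⟨_, ⟨k, d, F, hF, rfl⟩, ?_⟩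
    intro x hx
    exact Wset_inv hF hx
  · rintro x0 _ ⟨k, d, F, hF, rfl⟩
    obtain ⟨d', F', _, hF', h⟩ := hT.Wset_conj hF x0
    exact ⟨_, ⟨k, d', F', hF', rfl⟩, fun w hw => h w hw⟩

/-- the basic sets are neighbourhoods of `1` in the product topology -/
theorem Wset_mem_nhds (k : ℕ) (d : D) (F : ∀ n, Finset (YY V R n)) :
    Wset k d F ∈ 𝓝 (1 : PP V R) := by
  have h1 : ∀ᶠ x : PP V R in 𝓝 1, ∀ N ∈ Finset.range k,
      (x N).elt = 1 ∧ ∀ y ∈ F N, (x N).vec y = 0 := by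
    rw [Filter.eventually_all_finset]
    intro N _
    have hc : Filter.Tendsto (fun x : PP V R => x N) (𝓝 1) (𝓝 ((1 : PP V R) N)) :=
      (continuous_apply N).tendsto 1
    have h2 : {p : SD (Γ ⧸ R N) (YY V R N) | p.elt = 1 ∧ ∀ y ∈ F N, p.vec y = 0} ∈
        𝓝 ((1 : PP V R) N) := by
      rw [SD.mem_nhds_iff]
      exact ⟨F N, fun q hq hq' => ⟨hq, hq'⟩⟩
    exact hc h2
  filter_upwards [h1] with x hx
  refine ⟨1, (V d).one_mem, fun N hN => ?_⟩
  exact hx N (Finset.mem_range.2 hN)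

/-- The topology of the basis is a Hausdorff group topology, coarser than the product topology
(`Wset k d F` contains all `x` with `(x N).elt = 1` and `(x N).vec = 0` on `F N`, `N < k`), and
different: `{x | (x 0).elt = 1}` is open in the product topology and contains no `Wset k d F`,
by `big`. -/
theorem IsTower.not_minimal (hT : IsTower V R) :
    ∃ σ : TopologicalSpace (PP V R), @IsTopologicalGroup (PP V R) σ _ ∧ @T2Space (PP V R) σ ∧
      Pi.topologicalSpace < σ := by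
  obtain ⟨B, hB⟩ := hT.exists_basis
  have hmem : ∀ W, W ∈ B ↔ ∃ k d F, Fixes k d F ∧ W = Wset (V := V) (R := R) k d F := by
    intro W
    change W ∈ B.sets ↔ _
    rw [hB]
    rfl
  refine ⟨B.topology, B.isTopologicalGroup, ?_, ?_⟩
  · let t : TopologicalSpace (PP V R) := B.topology
    rw [B.t2Space_iff_sInter_subset rfl]
    intro x hx
    by_contra hne
    obtain ⟨k, d, F, hF, hxW⟩ := hT.separate (x := x) hne
    exact hxW (hx _ ((hmem _).2 ⟨k, d, F, hF, rfl⟩))
  · rw [lt_iff_le_and_ne]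
    constructor
    · apply le_of_nhds_le_nhds
      intro x
      rw [B.nhds_eq, GroupFilterBasis.N, ← map_mul_left_nhds_one x]
      apply Filter.map_mono
      intro U hU
      rw [FilterBasis.mem_filter_iff] at hU
      obtain ⟨W, hW, hWU⟩ := hU
      obtain ⟨k, d, F, _, rfl⟩ := (hmem _).1 hW
      exact Filter.mem_of_superset (Wset_mem_nhds k d F) hWU
    · intro heq
      have hopen : IsOpen {x : PP V R | (x 0).elt = 1} :=
        (SD.isOpen_fiber (N := Γ ⧸ R 0) (Y := YY V R 0) 1).preimage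
          (continuous_apply (A := fun n => SD (Γ ⧸ R n) (YY V R n)) (0 : ℕ))
      have hn : {x : PP V R | (x 0).elt = 1} ∈ @nhds _ B.topology (1 : PP V R) := by
        rw [← heq]
        exact hopen.mem_nhds rfl
      rw [B.nhds_one_hasBasis.mem_iff] at hn
      obtain ⟨W, hW, hWU⟩ := hn
      obtain ⟨k, d, F, _, rfl⟩ := (hmem _).1 hW
      obtain ⟨v, hv, hv0⟩ := hT.big d
      have hx : (fun N => (⟨fun _ => 0, QuotientGroup.mk v⟩ : SD (Γ ⧸ R N) (YY V R N))) ∈
          Wset (V := V) (R := R) k d F :=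
        ⟨v, hv, fun N _ => ⟨rfl, fun y _ => rfl⟩⟩
      have h2 := hWU hx
      have h3 : (QuotientGroup.mk v : Γ ⧸ R 0) = 1 := h2
      rw [QuotientGroup.eq_one_iff] at h3
      exact hv0 h3

end Pool.Agent.Lib.Pc4a55f
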