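import Pool.Agent.Lib.Pc4a55f.Prod1

/-! Module Prod2a: the coarser topology is Hausdorff. -/

namespace Pool.Agent.Lib.Pc4a55f

open Topology
open scoped commutatorElement

variable {Γ D : Type} [Group Γ] {V : D → Subgroup Γ} {R : ℕ → Subgroup Γ} [∀ n, (R n).Normal]

/-- if `x ≠ 1` then some basic set misses `x`. If `(x N).vec y ≠ 0` take `F N = {y}`. Otherwise
`(x N).elt ≠ 1`; if `x` is in all basic sets, let `h` be a lift of `(x (N+1)).elt`; for all `d` there is
`g ∈ V d` with `(x (N+1)).elt = g`, `(x N).elt = g`; so `h⁻¹ g ∈ R (N+1)`, so `h ∈ R N` by `haus`,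
and `g ∈ R N` by `anti`; contradiction. -/
theorem IsTower.separate (hT : IsTower V R) {x : PP V R} (hx : x ≠ 1) :
    ∃ k d F, Fixes (V := V) (R := R) k d F ∧ x ∉ Wset k d F := by
  classical
  obtain ⟨d0⟩ := hT.ne
  by_cases hv : ∃ N, ∃ y, (x N).vec y ≠ 0
  · obtain ⟨N, y, hy⟩ := hv
    obtain ⟨d', _, hF⟩ := hT.exists_fixes (N + 1) d0
      (Function.update (fun _ => ∅) N {y})
    refine ⟨N + 1, d', _, hF, ?_⟩
    rintro ⟨g, _, hg⟩
    refine hy ((hg N (Nat.lt_succ_self N)).2 y ?_)
    rw [Function.update_self]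
    exact Finset.mem_singleton_self y
  · push Not at hv
    by_contra hcon
    push Not at hcon
    apply hx
    funext N
    refine SD.ext ?_ ?_
    · funext y
      exact hv N y
    · change (x N).elt = 1
      obtain ⟨h, hh⟩ := QuotientGroup.mk_surjective (x (N + 1)).elt
      have hall : ∀ d, ∃ g ∈ V d, (x N).elt = QuotientGroup.mk g ∧ h⁻¹ * g ∈ R (N + 1) := by
        intro d
        have hf : Fixes (V := V) (R := R) (N + 2) d (fun _ => ∅) := by
          intro g _ M _ y hy
          exact absurd hy (Finset.notMem_empty y)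
        obtain ⟨g, hgV, hg⟩ := hcon (N + 2) d (fun _ => ∅) hf
        refine ⟨g, hgV, (hg N (by omega)).1, ?_⟩
        have h1 := (hg (N + 1) (by omega)).1
        rw [← hh] at h1
        exact QuotientGroup.eq.1 h1
      have hR : h ∈ R N := hT.haus N h fun d => by
        obtain ⟨g, hgV, _, hg⟩ := hall d
        exact ⟨g, hgV, hg⟩
      obtain ⟨g, _, hg1, hg2⟩ := hall d0
      have hgR : g ∈ R N := by
        have := (R N).mul_mem hR (hT.anti N hg2)
        rwa [mul_inv_cancel_left] at this
      rw [hg1]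
      exact (QuotientGroup.eq_one_iff g).2 hgR

end Pool.Agent.Lib.Pc4a55f
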