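import Pool.Agent.Lib.Pc4a55f.Raag1

/-! Module Raag2: facts on `rho S`, `rel A`, `Psi A B m`. -/

namespace Pool.Agent.Lib.Pc4a55f

open scoped commutatorElement

section lin

variable {α : Type} [LinearOrder α]

theorem rho_eq_self {S : Finset α} {g : Gam α} (hg : g ∈ sub {i | i.2 ∈ S}) : rho S g = g :=
  kill_eq_self hg

theorem rho_rho (S T : Finset α) (g : Gam α) : rho S (rho T g) = rho (S ∩ T) g := by
  have h : (rho S).comp (rho T) = rho (S ∩ T) := by
    apply hom_ext
    intro i
    rw [MonoidHom.comp_apply, rho_gen, rho_gen]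
    by_cases h1 : i.2 ∈ T
    · rw [if_pos h1, rho_gen]
      by_cases h2 : i.2 ∈ S
      · rw [if_pos h2, if_pos (Finset.mem_inter.2 ⟨h2, h1⟩)]
      · rw [if_neg h2, if_neg (fun h => h2 (Finset.mem_inter.1 h).1)]
    · rw [if_neg h1, map_one, if_neg (fun h => h1 (Finset.mem_inter.1 h).2)]
  exact DFunLike.congr_fun h g

/-- only `S ∩ P` matters for `rho S` on `sub {i | i.2 ∈ P}` -/
theorem rho_eq_rho_inter {S P : Finset α} {g : Gam α} (hg : g ∈ sub {i | i.2 ∈ P}) :
    rho S g = rho (S ∩ P) g := by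
  conv_lhs => rw [← rho_eq_self hg]
  exact rho_rho S P g

theorem rho_empty (g : Gam α) : rho (∅ : Finset α) g = 1 := by
  have h : rho (∅ : Finset α) = 1 := by
    apply hom_ext
    intro i
    rw [rho_gen, if_neg (Finset.notMem_empty _)]
    rfl
  rw [h]
  rfl

/-- only `S ∩ A` matters for `rel A (rho S u)` -/
theorem rel_rho (A S : Finset α) (u : Gam α) : rel A (rho S u) = rel A (rho (S ∩ A) u) := by
  have h : (rel A).comp (rho S) = (rel A).comp (rho (S ∩ A)) := by
    apply hom_ext
    intro i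
    rw [MonoidHom.comp_apply, MonoidHom.comp_apply, rho_gen, rho_gen]
    by_cases h1 : i.2 ∈ A
    · by_cases h2 : i.2 ∈ S
      · rw [if_pos h2, if_pos (Finset.mem_inter.2 ⟨h2, h1⟩)]
      · rw [if_neg h2, if_neg (fun h => h2 (Finset.mem_inter.1 h).1)]
    · rw [if_neg (fun h => h1 (Finset.mem_inter.1 h).2), map_one]
      by_cases h2 : i.2 ∈ S
      · rw [if_pos h2, rel_gen, if_neg h1]
      · rw [if_neg h2, map_one]
  exact DFunLike.congr_fun h u

theorem rel_rho_self (A : Finset α) (u : Gam α) : rel A (rho A u) = rel A u := by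
  have h : (rel A).comp (rho A) = rel A := by
    apply hom_ext
    intro i
    rw [MonoidHom.comp_apply, rho_gen]
    by_cases h1 : i.2 ∈ A
    · rw [if_pos h1]
    · rw [if_neg h1, map_one, rel_gen, if_neg h1]
  exact DFunLike.congr_fun h u

theorem rk_lt_card {A : Finset α} {a : α} (ha : a ∈ A) : rk A a < A.card := by
  unfold rk
  apply Finset.card_lt_card
  rw [Finset.ssubset_iff_of_subset (Finset.filter_subset _ _)]
  exact ⟨a, ha, by simp⟩

theorem rk_inj {A : Finset α} {a b : α} (ha : a ∈ A) (hb : b ∈ A) (h : rk A a = rk A b) :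
    a = b := by
  rcases lt_trichotomy a b with h1 | h1 | h1
  · exact absurd h (rk_lt ha h1).ne
  · exact h1
  · exact absurd h (rk_lt hb h1).ne'

theorem rk_mono {A : Finset α} {a b : α} (h : a ≤ b) : rk A a ≤ rk A b := by
  unfold rk
  apply Finset.card_le_card
  intro x hx
  simp only [Finset.mem_filter] at hx ⊢
  exact ⟨hx.1, hx.2.trans_le h⟩

/-- `rel A` loses nothing on `rho A`: there is a homomorphism back,
`gen (c, k) ↦ gen (c, k-th element of A)` for `k < A.card`, else `1`. -/
theorem exists_back (A : Finset α) : ∃ b : Gam ℕ →* Gam α, ∀ u, b (rel A u) = rho A u := by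
  classical
  let f : ℕ × ℕ → Gam α := fun i =>
    if h : ∃ a ∈ A, rk A a = i.2 then gen (i.1, h.choose) else 1
  have hf : ∀ i j : ℕ × ℕ, i.1 < j.1 → i.2 < j.2 → f i * f j = f j * f i := by
    intro i j h1 h2
    by_cases hi : ∃ a ∈ A, rk A a = i.2
    · by_cases hj : ∃ a ∈ A, rk A a = j.2
      · simp only [f, dif_pos hi, dif_pos hj]
        refine gen_comm h1 ?_
        show hi.choose < hj.choose
        by_contra hcon
        have h3 := rk_mono (A := A) (not_lt.1 hcon)
        rw [hi.choose_spec.2, hj.choose_spec.2] at h3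
        omega
      · simp only [f, dif_neg hj, mul_one, one_mul]
    · simp only [f, dif_neg hi, mul_one, one_mul]
  refine ⟨glift f hf, ?_⟩
  have h : (glift f hf).comp (rel A) = rho A := by
    apply hom_ext
    intro i
    rw [MonoidHom.comp_apply, rel_gen, rho_gen]
    by_cases h1 : i.2 ∈ A
    · rw [if_pos h1, if_pos h1, glift_gen]
      have h2 : ∃ a ∈ A, rk A a = (i.1, rk A i.2).2 := ⟨i.2, h1, rfl⟩
      simp only [f]
      rw [dif_pos h2]
      have h3 : h2.choose = i.2 := rk_inj h2.choose_spec.1 h1 h2.choose_spec.2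
      rw [h3]
    · rw [if_neg h1, if_neg h1, map_one]
  intro u
  exact DFunLike.congr_fun h u

/-- `rho` keeps membership in `sub` -/
theorem rho_mem_sub {T : Set (ℕ × α)} (S : Finset α) {u : Gam α} (hu : u ∈ sub T) :
    rho S u ∈ sub T :=
  sub_mono Set.inter_subset_right (kill_mem_of_mem hu)

theorem Psi_left {A B : Finset α} (h : ∀ a ∈ A, ∀ b ∈ B, a < b) {m : ℕ} {w : Gam α}
    (hw : w ∈ sub {i | m ≤ i.1}) : Psi A B m w = Monoid.Coprod.inl (rel A w) := by
  refine sub_induction (p := fun w => Psi A B m w = Monoid.Coprod.inl (rel A w)) ?_ ?_ ?_ ?_ hw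
  · intro i hi
    unfold Psi
    rw [dif_pos h, glift_gen, rel_gen]
    by_cases h1 : i.2 ∈ A
    · rw [if_pos ⟨h1, hi⟩, if_pos h1]
    · rw [if_neg (fun h => h1 h.1), if_neg h1, map_one,
        if_neg (fun h => absurd h.2 (not_lt.2 hi))]
  · simp only [map_one]
  · intro x y hx hy
    simp only [map_mul, hx, hy]
  · intro x hx
    simp only [map_inv, hx]

theorem Psi_right {A B : Finset α} (h : ∀ a ∈ A, ∀ b ∈ B, a < b) {m : ℕ} {w : Gam α}
    (hw : w ∈ sub {i | i.1 < m}) : Psi A B m w = Monoid.Coprod.inr (rel B w) := by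
  refine sub_induction (p := fun w => Psi A B m w = Monoid.Coprod.inr (rel B w)) ?_ ?_ ?_ ?_ hw
  · intro i hi
    unfold Psi
    rw [dif_pos h, glift_gen, rel_gen, if_neg (fun h => absurd h.2 (not_le.2 hi))]
    by_cases h1 : i.2 ∈ B
    · rw [if_pos ⟨h1, hi⟩, if_pos h1]
    · rw [if_neg (fun h => h1 h.1), if_neg h1, map_one]
  · simp only [map_one]
  · intro x y hx hy
    simp only [map_mul, hx, hy]
  · intro x hx
    simp only [map_inv, hx]

end lin

end Pool.Agent.Lib.Pc4a55f
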