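import Pool.Agent.Lib.Pc4a55f.Ser

/-! Module Raag1: basic facts on `Gam α`, `sub T`, `kill T`. -/

namespace Pool.Agent.Lib.Pc4a55f

open scoped commutatorElement

section lt

variable {α : Type} [LT α]

theorem sub_mono {S T : Set (ℕ × α)} (h : S ⊆ T) : (sub S : Subgroup (Gam α)) ≤ sub T :=
  Subgroup.closure_mono (Set.image_mono h)

theorem gen_mem_sub {T : Set (ℕ × α)} {i : ℕ × α} (h : i ∈ T) : gen i ∈ sub T :=
  Subgroup.subset_closure ⟨i, h, rfl⟩

theorem sub_induction {T : Set (ℕ × α)} {p : Gam α → Prop} (hgen : ∀ i ∈ T, p (gen i))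
    (hone : p 1) (hmul : ∀ x y, p x → p y → p (x * y)) (hinv : ∀ x, p x → p x⁻¹) {g : Gam α}
    (hg : g ∈ sub T) : p g := by
  refine Subgroup.closure_induction (p := fun x _ => p x) ?_ hone
    (fun x y _ _ => hmul x y) (fun x _ => hinv x) hg
  rintro _ ⟨i, hi, rfl⟩
  exact hgen i hi

theorem mem_sub_univ (g : Gam α) : g ∈ sub (Set.univ : Set (ℕ × α)) := by
  unfold sub
  rw [Set.image_univ, closure_gen]
  trivial

theorem exists_fin_sub (g : Gam α) : ∃ F : Finset (ℕ × α), g ∈ sub (F : Set (ℕ × α)) := by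
  classical
  refine sub_induction (p := fun g => ∃ F : Finset (ℕ × α), g ∈ sub (F : Set (ℕ × α)))
    ?_ ?_ ?_ ?_ (mem_sub_univ g)
  · intro i _
    exact ⟨{i}, gen_mem_sub (by simp)⟩
  · exact ⟨∅, one_mem _⟩
  · rintro x y ⟨F, hF⟩ ⟨F', hF'⟩
    exact ⟨F ∪ F', mul_mem (sub_mono (by simp) hF) (sub_mono (by simp) hF')⟩
  · rintro x ⟨F, hF⟩
    exact ⟨F, inv_mem hF⟩

theorem kill_mem_of_mem {S T : Set (ℕ × α)} {g : Gam α} (hg : g ∈ sub T) :
    kill S g ∈ sub (S ∩ T) := by
  refine sub_induction (p := fun g => kill S g ∈ sub (S ∩ T)) ?_ ?_ ?_ ?_ hg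
  · intro i hi
    rw [kill_gen]
    split_ifs with h
    · exact gen_mem_sub ⟨h, hi⟩
    · exact one_mem _
  · rw [map_one]
    exact one_mem _
  · intro x y hx hy
    rw [map_mul]
    exact mul_mem hx hy
  · intro x hx
    rw [map_inv]
    exact inv_mem hx

theorem kill_mem (T : Set (ℕ × α)) (g : Gam α) : kill T g ∈ sub T := by
  have := kill_mem_of_mem (S := T) (mem_sub_univ g)
  rwa [Set.inter_univ] at this

theorem kill_eq_self {T : Set (ℕ × α)} {g : Gam α} (hg : g ∈ sub T) : kill T g = g := by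
  refine sub_induction (p := fun g => kill T g = g) ?_ ?_ ?_ ?_ hg
  · intro i hi
    rw [kill_gen, if_pos hi]
  · exact map_one _
  · intro x y hx hy
    rw [map_mul, hx, hy]
  · intro x hx
    rw [map_inv, hx]

theorem kill_kill (S T : Set (ℕ × α)) (g : Gam α) : kill S (kill T g) = kill (S ∩ T) g := by
  have h : (kill S).comp (kill T) = kill (S ∩ T) := by
    apply hom_ext
    intro i
    rw [MonoidHom.comp_apply, kill_gen, kill_gen]
    by_cases h1 : i ∈ T
    · rw [if_pos h1, kill_gen]
      by_cases h2 : i ∈ S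
      · rw [if_pos h2, if_pos ⟨h2, h1⟩]
      · rw [if_neg h2, if_neg (fun h => h2 h.1)]
    · rw [if_neg h1, map_one, if_neg (fun h => h1 h.2)]
  exact DFunLike.congr_fun h g

theorem kill_eq_one {S T : Set (ℕ × α)} {g : Gam α} (hg : g ∈ sub T) (h : Disjoint S T) :
    kill S g = 1 := by
  have h1 := kill_mem_of_mem (S := S) hg
  rw [Set.disjoint_iff_inter_eq_empty.1 h] at h1
  unfold sub at h1
  rw [Set.image_empty, Subgroup.closure_empty, Subgroup.mem_bot] at h1
  exact h1

/-- a generator is not a product of squares (map it to `Multiplicative (ZMod 2)`) -/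
theorem gen_notMem_ser_one (i : ℕ × α) : gen i ∉ ser (Gam α) 1 := by
  intro h
  let f : Gam α →* Multiplicative (ZMod 2) :=
    glift (fun _ => Multiplicative.ofAdd 1) (fun _ _ _ _ => rfl)
  have h1 := map_mem_ser f h
  have h2 : ser (Multiplicative (ZMod 2)) 1 = ⊥ := by
    rw [eq_bot_iff]
    refine (Subgroup.closure_le _).2 ?_
    rintro x ⟨y, -, rfl⟩
    rw [SetLike.mem_coe, Subgroup.mem_bot]
    revert y
    decide
  rw [h2, Subgroup.mem_bot] at h1
  have h3 : f (gen i) = Multiplicative.ofAdd 1 := glift_gen _ _ _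
  rw [h3] at h1
  exact absurd h1 (by decide)

instance [Countable α] : Countable (Gam α) := by
  have : Countable (FreeGroup (ℕ × α)) :=
    Function.Surjective.countable (f := FreeGroup.mk) Quot.mk_surjective
  exact Function.Surjective.countable (f := PresentedGroup.mk (rels α))
    (QuotientGroup.mk'_surjective _)

/-- an element commutes with all generators which are large in both coordinates -/
theorem comm_of_large {F : Set (ℕ × α)} {g : Gam α} (hg : g ∈ sub F) {T : Set (ℕ × α)}
    (hT : ∀ i ∈ F, ∀ j ∈ T, i.1 < j.1 ∧ i.2 < j.2) {v : Gam α} (hv : v ∈ sub T) :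
    g * v = v * g := by
  refine sub_induction (p := fun v => g * v = v * g) ?_ ?_ ?_ ?_ hv
  · intro j hj
    refine sub_induction (p := fun g => g * gen j = gen j * g) ?_ ?_ ?_ ?_ hg
    · intro i hi
      exact gen_comm (hT i hi j hj).1 (hT i hi j hj).2
    · rw [one_mul, mul_one]
    · intro x y hx hy
      rw [mul_assoc, hy, ← mul_assoc, hx, mul_assoc]
    · intro x hx
      exact (Commute.inv_left (a := x) (b := gen j) hx)
  · rw [one_mul, mul_one]
  · intro x y hx hy
    rw [← mul_assoc, hx, mul_assoc, hy, mul_assoc]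
  · intro x hx
    exact (Commute.inv_right (a := g) (b := x) hx)

end lt

end Pool.Agent.Lib.Pc4a55f
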