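import Pool.Agent.Lib.Pc4a55f.SDtop

/-! Module SDmin: a minimality criterion for `SD N Y`. -/

namespace Pool.Agent.Lib.Pc4a55f

open Topology

section Aux

variable {G : Type*} [Group G] [TopologicalSpace G] [IsTopologicalGroup G]

/-- the commutators of elements near `1` with the elements of a compact set avoid a closed set
not containing `1` -/
theorem comm_avoid {K C : Set G} (hK : IsCompact K) (hC : IsClosed C) (h1 : (1 : G) ∉ C) :
    ∃ U ∈ 𝓝 (1 : G), ∀ g ∈ U, ∀ k ∈ K, g * k * g⁻¹ * k⁻¹ ∉ C := by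
  have hcont : Continuous fun p : G × G => p.1 * p.2 * p.1⁻¹ * p.2⁻¹ := by fun_prop
  have hopen : IsOpen {p : G × G | p.1 * p.2 * p.1⁻¹ * p.2⁻¹ ∈ Cᶜ} :=
    hC.isOpen_compl.preimage hcont
  have hsub : ({1} : Set G) ×ˢ K ⊆ {p : G × G | p.1 * p.2 * p.1⁻¹ * p.2⁻¹ ∈ Cᶜ} := by
    rintro ⟨g, k⟩ ⟨hg, _⟩
    have hg' : g = 1 := hg
    subst hg'
    simpa using h1
  obtain ⟨u, v, hu, _, hsu, hkv, huv⟩ := generalized_tube_lemma isCompact_singleton hK hopen hsub
  refine ⟨u, hu.mem_nhds (hsu rfl), fun g hg k hk => ?_⟩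
  exact huv (Set.mk_mem_prod hg (hkv hk))

/-- quotient topologies -/
theorem openKer {N : Type*} [Group N] (f : G →* N) (hf : Function.Surjective f)
    (hK : IsClosed (f.ker : Set G)) (P : Set (Set N))
    (hP : ∀ S ∈ P, IsOpen (f ⁻¹' S))
    (hN : ∀ σ : TopologicalSpace N, @IsTopologicalGroup N σ _ → @T2Space N σ →
      (∀ S ∈ P, @IsOpen N σ S) → σ = ⊥) : IsOpen (f.ker : Set G) := by
  let e : G ⧸ f.ker ≃* N := QuotientGroup.quotientKerEquivOfSurjective f hf
  let σ : TopologicalSpace N := TopologicalSpace.induced e.symm inferInstance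
  have hg : @IsTopologicalGroup N σ _ := topologicalGroup_induced e.symm
  have ht2 : @T2Space N σ := by
    have : T3Space (G ⧸ f.ker) := inferInstance
    exact @T2Space.of_injective_continuous _ _ σ _ inferInstance _ e.symm.injective
      continuous_induced_dom
  have hopen : ∀ S : Set N, IsOpen (f ⁻¹' S) → @IsOpen N σ S := by
    intro S hS
    rw [isOpen_induced_iff]
    refine ⟨e ⁻¹' S, ?_, ?_⟩
    · rw [← (QuotientGroup.isQuotientMap_mk f.ker).isOpen_preimage]
      exact hS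
    · ext x
      simp
  have hbot := hN σ hg ht2 fun S hS => hopen S (hP S hS)
  have h1 : @IsOpen N σ {1} := by
    rw [hbot]
    exact @isOpen_discrete N ⊥ (@DiscreteTopology.mk _ ⊥ rfl) _
  rw [isOpen_induced_iff] at h1
  obtain ⟨t, ht, ht'⟩ := h1
  have h2 : (f.ker : Set G) = QuotientGroup.mk ⁻¹' t := by
    ext x
    have h3 : e.symm (f x) = (x : G ⧸ f.ker) := by
      rw [MulEquiv.symm_apply_eq]
      rfl
    have h4 : f x ∈ e.symm ⁻¹' t ↔ f x ∈ ({1} : Set N) := by rw [ht']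
    rw [Set.mem_preimage, h3, Set.mem_singleton_iff] at h4
    rw [SetLike.mem_coe, MonoidHom.mem_ker]
    exact h4.symm
  rw [h2]
  exact ht.preimage QuotientGroup.continuous_mk

end Aux

variable {N Y : Type} [Group N] [MulAction N Y]

/-- the projection to `N` -/
def SD.eltHom (N Y : Type) [Group N] [MulAction N Y] : SD N Y →* N where
  toFun := SD.elt
  map_one' := rfl
  map_mul' _ _ := rfl

theorem SD.comm_vec (g k : SD N Y) (hk : k.elt = 1) (y : Y) :
    (g * k * g⁻¹ * k⁻¹).vec y = k.vec (g.elt⁻¹ • y) - k.vec y := by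
  simp only [SD.mul_vec, SD.mul_elt, SD.inv_vec, SD.inv_elt, hk, mul_one, mul_inv_cancel, inv_one,
    one_smul, smul_inv_smul]
  ring

theorem SD.comm_elt (g k : SD N Y) (hk : k.elt = 1) : (g * k * g⁻¹ * k⁻¹).elt = 1 := by
  simp [hk]

theorem SD.isMinimalGroup
    (hN : ∀ σ : TopologicalSpace N, @IsTopologicalGroup N σ _ → @T2Space N σ →
      (∀ y : Y, @IsOpen N σ (MulAction.stabilizer N y : Set N)) → σ = ⊥) :
    IsMinimalGroup (SD N Y) := by
  classical
  have hfib : IsCompact {p : SD N Y | p.elt = 1} := SD.isCompact_fiber (1 : N)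
  -- the sets `{p | p.elt = 1, some coordinate in F is nonzero}` are compact
  have hCF : ∀ F : Finset Y, IsCompact {p : SD N Y | p.elt = 1 ∧ ∃ y ∈ F, p.vec y ≠ 0} := by
    intro F
    refine hfib.of_isClosed_subset ?_ fun p hp => hp.1
    rw [← isOpen_compl_iff, isOpen_iff_mem_nhds]
    intro p hp
    refine SD.mem_nhds_iff.2 ⟨F, fun q h1 h2 hq => hp ?_⟩
    obtain ⟨hq1, y, hy, hqy⟩ := hq
    exact ⟨h1 ▸ hq1, y, hy, by rw [← h2 y hy]; exact hqy⟩
  -- compact for the given topology implies closed for `σ`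
  have hcc' : ∀ σ : TopologicalSpace (SD N Y), instTopologicalSpaceSD N Y ≤ σ →
      ∀ s : Set (SD N Y), @IsCompact _ (instTopologicalSpaceSD N Y) s → @IsCompact _ σ s := by
    intro σ hle s hs
    have := @IsCompact.image _ _ (instTopologicalSpaceSD N Y) σ s id hs
      (@continuous_id_iff_le _ (instTopologicalSpaceSD N Y) σ |>.2 hle)
    rwa [Set.image_id] at this
  have hnh : ∀ U : Set (SD N Y), U ∈ 𝓝 (1 : SD N Y) → ∃ F : Finset Y, ∀ q : SD N Y,
      q.elt = 1 → (∀ y ∈ F, q.vec y = 0) → q ∈ U := fun U hU => SD.mem_nhds_iff.1 hU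
  intro σ hσ hσ2 hle
  have hccl : ∀ s : Set (SD N Y), @IsCompact _ (instTopologicalSpaceSD N Y) s →
      @IsClosed _ σ s := fun s hs => @IsCompact.isClosed _ σ _ s (hcc' σ hle s hs)
  have hker : ((SD.eltHom N Y).ker : Set (SD N Y)) = {p | p.elt = 1} := rfl
  have hKcl : @IsClosed _ σ ((SD.eltHom N Y).ker : Set (SD N Y)) := by
    rw [hker]
    exact hccl _ hfib
  have hstab : ∀ y : Y, @IsOpen _ σ ((SD.eltHom N Y) ⁻¹' (MulAction.stabilizer N y : Set N)) := by
    intro y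
    obtain ⟨U, hU, hU'⟩ := @comm_avoid _ _ σ hσ {p | p.elt = 1}
      {p | p.elt = 1 ∧ ∃ y' ∈ ({y} : Finset Y), p.vec y' ≠ 0} (hcc' σ hle _ hfib)
      (hccl _ (hCF {y})) (by
        rintro ⟨_, y', _, h⟩
        exact h rfl)
    have h2 : ∀ g ∈ U, g ∈ (MulAction.stabilizer N y).comap (SD.eltHom N Y) := by
      intro g hg
      rw [Subgroup.mem_comap, MulAction.mem_stabilizer_iff]
      show g.elt • y = y
      let k : SD N Y := ⟨fun y' => if y' = y then 1 else 0, 1⟩
      have hk := hU' g hg k rfl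
      have h3 : (g * k * g⁻¹ * k⁻¹).vec y = 0 := by
        by_contra h
        exact hk ⟨SD.comm_elt g k rfl, y, Finset.mem_singleton_self y, h⟩
      rw [SD.comm_vec g k rfl] at h3
      have h4 : k.vec y = 1 := if_pos rfl
      have h5 : k.vec (g.elt⁻¹ • y) = if g.elt⁻¹ • y = y then 1 else 0 := rfl
      rw [h4, h5] at h3
      by_cases h6 : g.elt⁻¹ • y = y
      · calc g.elt • y = g.elt • (g.elt⁻¹ • y) := by rw [h6]
          _ = y := smul_inv_smul _ _
      · rw [if_neg h6] at h3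
        exact absurd h3 (by decide)
    have h7 := @Subgroup.isOpen_of_mem_nhds _ _ σ _
      ((MulAction.stabilizer N y).comap (SD.eltHom N Y)) 1
      (Filter.mem_of_superset hU h2)
    exact h7
  have hKop : @IsOpen _ σ ((SD.eltHom N Y).ker : Set (SD N Y)) := by
    refine @openKer _ _ σ hσ N _ (SD.eltHom N Y) (fun n => ⟨⟨fun _ => 0, n⟩, rfl⟩) hKcl
      {S | ∃ y : Y, S = (MulAction.stabilizer N y : Set N)} ?_ ?_
    · rintro S ⟨y, rfl⟩
      exact hstab y
    · intro σ' h1 h2 h3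
      exact hN σ' h1 h2 fun y => h3 _ ⟨y, rfl⟩
  refine @IsTopologicalGroup.ext _ _ σ _ hσ inferInstance (le_antisymm ?_ ?_)
  · intro U hU
    obtain ⟨F, hF⟩ := hnh U hU
    have h1 : @IsOpen _ σ {p : SD N Y | p.elt = 1 ∧ ∃ y ∈ F, p.vec y ≠ 0}ᶜ :=
      @IsClosed.isOpen_compl _ σ _ (hccl _ (hCF F))
    have h2 := @IsOpen.inter _ σ _ _ hKop h1
    refine @Filter.mem_of_superset _ _ _ _ (@IsOpen.mem_nhds _ σ _ _ h2 ⟨rfl, ?_⟩) ?_
    · rintro ⟨_, y', _, h⟩
      exact h rfl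
    · rintro p ⟨hp1, hp2⟩
      have hp1' : p.elt = 1 := hp1
      refine hF p hp1' fun y hy => ?_
      by_contra h
      exact hp2 ⟨hp1', y, hy, h⟩
  · exact nhds_mono hle

end Pool.Agent.Lib.Pc4a55f
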