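import Pool.Agent.Lib.Pc4a55f.Defs

/-! Module SDtop: the topological group `SD N Y = (ZMod 2)^Y ⋊ N`. -/

namespace Pool.Agent.Lib.Pc4a55f

open Topology

variable {N Y : Type}

/-- a set is a neighbourhood of `p` iff it contains all `q` with `q.elt = p.elt` agreeing with
`p` on some finite set -/
theorem SD.mem_nhds_iff {p : SD N Y} {U : Set (SD N Y)} :
    U ∈ 𝓝 p ↔ ∃ F : Finset Y, ∀ q : SD N Y, q.elt = p.elt → (∀ y ∈ F, q.vec y = p.vec y) →
      q ∈ U := by
  classical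
  have h0 : 𝓝 p = Filter.comap SD.vec (Filter.pi fun y => pure (p.vec y)) ⊓
      Filter.comap SD.elt (pure p.elt) := by
    refine (nhds_inf (t₁ := TopologicalSpace.induced SD.vec
      (@Pi.topologicalSpace Y (fun _ => ZMod 2) (fun _ => ⊥)))
      (t₂ := TopologicalSpace.induced SD.elt ⊥) (a := p)).trans ?_
    rw [@nhds_induced _ _ (@Pi.topologicalSpace Y (fun _ => ZMod 2) (fun _ => ⊥)),
      @nhds_induced _ _ ⊥]
    have h2 : @nhds (Y → ZMod 2) (@Pi.topologicalSpace Y (fun _ => ZMod 2) (fun _ => ⊥)) p.vec =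
        Filter.pi fun y => pure (p.vec y) := by
      rw [@nhds_pi Y (fun _ => ZMod 2) (fun _ => ⊥)]
      congr 1
      funext y
      exact @nhds_discrete (ZMod 2) ⊥ (@DiscreteTopology.mk _ ⊥ rfl) ▸ rfl
    have h3 : @nhds N ⊥ p.elt = pure p.elt :=
      @nhds_discrete N ⊥ (@DiscreteTopology.mk _ ⊥ rfl) ▸ rfl
    rw [h2, h3]
  rw [h0, Filter.mem_inf_iff]
  constructor
  · rintro ⟨t1, ht1, t2, ht2, rfl⟩
    rw [Filter.mem_comap] at ht1 ht2
    obtain ⟨s1, hs1, hs1'⟩ := ht1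
    obtain ⟨s2, hs2, hs2'⟩ := ht2
    rw [Filter.mem_pi] at hs1
    obtain ⟨I, hI, t, ht, hIt⟩ := hs1
    refine ⟨hI.toFinset, fun q hq hq' => ⟨hs1' (hIt fun y hy => ?_), hs2' ?_⟩⟩
    · rw [hq' y (hI.mem_toFinset.2 hy)]
      exact Filter.mem_pure.1 (ht y)
    · show q.elt ∈ s2
      rw [hq]
      exact Filter.mem_pure.1 hs2
  · rintro ⟨F, hF⟩
    refine ⟨SD.vec ⁻¹' ((F : Set Y).pi fun y => {p.vec y}) ∪ U, ?_, SD.elt ⁻¹' {p.elt} ∪ U, ?_, ?_⟩
    · refine Filter.mem_of_superset ?_ Set.subset_union_left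
      exact Filter.preimage_mem_comap (Filter.mem_pi.2 ⟨F, F.finite_toSet, fun y => {p.vec y},
        fun y => Filter.mem_pure.2 rfl, subset_rfl⟩)
    · refine Filter.mem_of_superset ?_ Set.subset_union_left
      exact Filter.preimage_mem_comap (Filter.mem_pure.2 rfl)
    · ext q
      constructor
      · intro hq
        exact ⟨Or.inr hq, Or.inr hq⟩
      · rintro ⟨h1 | h1, h2 | h2⟩
        · exact hF q h2 fun y hy => h1 y hy
        · exact h2
        · exact h1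
        · exact h1

variable [Group N] [MulAction N Y]

instance SD.isTopologicalGroup : IsTopologicalGroup (SD N Y) := by
  classical
  have hmul : Continuous fun p : SD N Y × SD N Y => p.1 * p.2 := by
    rw [continuous_iff_continuousAt]
    rintro ⟨p, q⟩
    intro U hU
    obtain ⟨F, hF⟩ := SD.mem_nhds_iff.1 hU
    rw [Filter.mem_map, nhds_prod_eq, Filter.mem_prod_iff]
    refine ⟨{p' | p'.elt = p.elt ∧ ∀ y ∈ F, p'.vec y = p.vec y},
      SD.mem_nhds_iff.2 ⟨F, fun p' h1 h2 => ⟨h1, h2⟩⟩,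
      {q' | q'.elt = q.elt ∧ ∀ y ∈ F, q'.vec (p.elt⁻¹ • y) = q.vec (p.elt⁻¹ • y)},
      SD.mem_nhds_iff.2 ⟨F.image (p.elt⁻¹ • ·), fun q' h1 h2 => ⟨h1, fun y hy =>
        h2 _ (Finset.mem_image_of_mem _ hy)⟩⟩, ?_⟩
    rintro ⟨p', q'⟩ ⟨⟨h1, h2⟩, h3, h4⟩
    refine hF _ ?_ fun y hy => ?_
    · simp only [SD.mul_elt]
      rw [h1, h3]
    · simp only [SD.mul_vec]
      rw [h2 y hy, h1, h4 y hy]
  have hinv : Continuous fun p : SD N Y => p⁻¹ := by
    rw [continuous_iff_continuousAt]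
    intro p U hU
    obtain ⟨F, hF⟩ := SD.mem_nhds_iff.1 hU
    rw [Filter.mem_map]
    refine SD.mem_nhds_iff.2 ⟨F.image (p.elt • ·), fun p' h1 h2 => hF _ ?_ fun y hy => ?_⟩
    · simp only [SD.inv_elt]
      rw [h1]
    · simp only [SD.inv_vec]
      rw [h1, h2 _ (Finset.mem_image_of_mem _ hy)]
  exact { continuous_mul := hmul, continuous_inv := hinv }

instance SD.t2 : T2Space (SD N Y) := by
  classical
  rw [t2Space_iff_disjoint_nhds]
  intro p q hpq
  rw [Filter.disjoint_iff]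
  by_cases he : p.elt = q.elt
  · have hv : p.vec ≠ q.vec := fun h => hpq (SD.ext h he)
    obtain ⟨y, hy⟩ := Function.ne_iff.1 hv
    refine ⟨{p' | p'.vec y = p.vec y}, SD.mem_nhds_iff.2 ⟨{y}, fun p' _ h2 =>
      h2 y (Finset.mem_singleton_self y)⟩, {q' | q'.vec y = q.vec y}, SD.mem_nhds_iff.2
      ⟨{y}, fun p' _ h2 => h2 y (Finset.mem_singleton_self y)⟩, ?_⟩
    rw [Set.disjoint_left]
    intro z h1 h2
    exact hy ((show z.vec y = p.vec y from h1).symm.trans h2)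
  · refine ⟨{p' | p'.elt = p.elt}, SD.mem_nhds_iff.2 ⟨∅, fun p' h1 _ => h1⟩,
      {q' | q'.elt = q.elt}, SD.mem_nhds_iff.2 ⟨∅, fun p' h1 _ => h1⟩, ?_⟩
    rw [Set.disjoint_left]
    intro z h1 h2
    exact he ((show z.elt = p.elt from h1).symm.trans h2)

/-- `{p | p.elt = 1}` is open and compact (image of the compact space `Y → ZMod 2`) -/
theorem SD.isCompact_fiber (g : N) : IsCompact {p : SD N Y | p.elt = g} := by
  let τ : TopologicalSpace (ZMod 2) := ⊥
  have hd : DiscreteTopology (ZMod 2) := ⟨rfl⟩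
  have hcont : Continuous (fun v : Y → ZMod 2 => (⟨v, g⟩ : SD N Y)) := by
    refine continuous_inf_rng.2 ⟨continuous_induced_rng.2 ?_, continuous_induced_rng.2 ?_⟩
    · exact continuous_id
    · exact @continuous_const _ _ _ ⊥ g
  have h := isCompact_univ.image hcont
  convert h using 1
  ext p
  constructor
  · intro hp
    exact ⟨p.vec, trivial, SD.ext rfl (show p.elt = g from hp).symm⟩
  · rintro ⟨v, _, rfl⟩
    rfl

theorem SD.isOpen_fiber (g : N) : IsOpen {p : SD N Y | p.elt = g} := by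
  rw [isOpen_iff_mem_nhds]
  intro p hp
  exact SD.mem_nhds_iff.2 ⟨∅, fun q h1 _ => h1.trans hp⟩

instance SD.locallyCompact : LocallyCompactSpace (SD N Y) := by
  have : WeaklyLocallyCompactSpace (SD N Y) := ⟨fun p => ⟨_, SD.isCompact_fiber p.elt,
    (SD.isOpen_fiber p.elt).mem_nhds rfl⟩⟩
  infer_instance

end Pool.Agent.Lib.Pc4a55f
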