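import Pool.Agent.Lib.Pc4a55f.Defs

/-! Module Ser: basic facts on the series `ser G n` and on `CInv`. -/

namespace Pool.Agent.Lib.Pc4a55f

open scoped commutatorElement

variable {G H : Type*} [Group G] [Group H]

theorem sq_mem_ser {n : ℕ} {h : G} (hh : h ∈ ser G n) : h * h ∈ ser G (n + 1) :=
  Subgroup.subset_closure ⟨h, hh, rfl⟩

theorem map_mem_ser (f : G →* H) {n : ℕ} {g : G} (hg : g ∈ ser G n) : f g ∈ ser H n := by
  induction n generalizing g with
  | zero => trivial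
  | succ n ih =>
    have h : ser G (n + 1) ≤ (ser H (n + 1)).comap f := by
      refine (Subgroup.closure_le _).2 ?_
      rintro x ⟨y, hy, rfl⟩
      rw [SetLike.mem_coe, Subgroup.mem_comap, map_mul]
      exact sq_mem_ser (ih hy)
    exact h hg

instance ser_normal (n : ℕ) : (ser G n).Normal := by
  constructor
  intro a ha g
  have := map_mem_ser (MulAut.conj g).toMonoidHom ha
  simpa using this

theorem ser_succ_le (n : ℕ) : ser G (n + 1) ≤ ser G n := by
  refine (Subgroup.closure_le _).2 ?_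
  rintro x ⟨y, hy, rfl⟩
  exact mul_mem hy hy

theorem ser_antitone : Antitone (ser G) :=
  antitone_nat_of_succ_le fun n => ser_succ_le n

/-- a commutator is a product of squares -/
theorem comm_mem_ser {n : ℕ} {a b : G} (ha : a ∈ ser G n) (hb : b ∈ ser G n) :
    ⁅a, b⁆ ∈ ser G (n + 1) := by
  have h : ⁅a, b⁆ = ((a * b) * (a * b)) * ((b⁻¹ * a⁻¹ * b) * (b⁻¹ * a⁻¹ * b)) *
      (b⁻¹ * b⁻¹) := by
    rw [commutatorElement_def]
    group
  rw [h]
  exact mul_mem (mul_mem (sq_mem_ser (mul_mem ha hb))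
    (sq_mem_ser (mul_mem (mul_mem (inv_mem hb) (inv_mem ha)) hb))) (sq_mem_ser (inv_mem hb))

theorem exists_mem_ser_of_surj (f : G →* H) (hf : Function.Surjective f) {n : ℕ} {y : H}
    (hy : y ∈ ser H n) : ∃ x ∈ ser G n, f x = y := by
  induction n generalizing y with
  | zero =>
    obtain ⟨x, rfl⟩ := hf y
    exact ⟨x, trivial, rfl⟩
  | succ n ih =>
    have h : ser H (n + 1) ≤ (ser G (n + 1)).map f := by
      refine (Subgroup.closure_le _).2 ?_
      rintro x ⟨y, hy, rfl⟩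
      obtain ⟨z, hz, rfl⟩ := ih hy
      exact ⟨z * z, sq_mem_ser hz, by simp⟩
    exact h hy

theorem ser_quot (n : ℕ) : ser (G ⧸ ser G n) n = ⊥ := by
  rw [eq_bot_iff]
  intro y hy
  obtain ⟨x, hx, rfl⟩ := exists_mem_ser_of_surj (QuotientGroup.mk' (ser G n))
    (QuotientGroup.mk'_surjective _) hy
  rw [Subgroup.mem_bot]
  exact (QuotientGroup.eq_one_iff _).2 hx

namespace CInv

variable {n : ℕ} {χ : G → ZMod 2}

theorem map_one (hχ : CInv n χ) : χ 1 = 0 := by
  have h := hχ.add 1 (one_mem _) 1 (one_mem _)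
  rw [mul_one] at h
  exact left_eq_add.1 h

theorem map_inv (hχ : CInv n χ) {a : G} (ha : a ∈ ser G n) : χ a⁻¹ = χ a := by
  have h := hχ.add a ha a⁻¹ (inv_mem ha)
  rw [mul_inv_cancel, hχ.map_one] at h
  have h2 : χ a⁻¹ = - χ a := by
    rw [eq_neg_iff_add_eq_zero, add_comm]
    exact h.symm
  rw [h2, ZMod.neg_eq_self_mod_two]

theorem zero_of_mem_succ (hχ : CInv n χ) {a : G} (ha : a ∈ ser G (n + 1)) : χ a = 0 := by
  have h : ∀ x ∈ ser G (n + 1), x ∈ ser G n ∧ χ x = 0 := by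
    intro x hx
    refine Subgroup.closure_induction (p := fun x _ => x ∈ ser G n ∧ χ x = 0) ?_ ?_ ?_ ?_ hx
    · rintro x ⟨y, hy, rfl⟩
      exact ⟨mul_mem hy hy, by rw [hχ.add y hy y hy]; exact CharTwo.add_self_eq_zero _⟩
    · exact ⟨one_mem _, hχ.map_one⟩
    · rintro x y _ _ ⟨hx, hx'⟩ ⟨hy, hy'⟩
      exact ⟨mul_mem hx hy, by rw [hχ.add x hx y hy, hx', hy', add_zero]⟩
    · rintro x _ ⟨hx, hx'⟩
      exact ⟨inv_mem hx, by rw [hχ.map_inv hx, hx']⟩
  exact (h a ha).2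

theorem comm_left (hχ : CInv n χ) {p : G} (hp : p ∈ ser G n) (q : G) : χ ⁅p, q⁆ = 0 := by
  have h : ⁅p, q⁆ = p * (q * p⁻¹ * q⁻¹) := by
    rw [commutatorElement_def]
    group
  rw [h, hχ.add p hp _ ((ser_normal n).conj_mem _ (inv_mem hp) q), hχ.conj _ (inv_mem hp),
    hχ.map_inv hp]
  exact CharTwo.add_self_eq_zero _

theorem comm_right (hχ : CInv n χ) {p : G} (hp : p ∈ ser G n) (q : G) : χ ⁅q, p⁆ = 0 := by
  have h : ⁅q, p⁆ = (q * p * q⁻¹) * p⁻¹ := by
    rw [commutatorElement_def]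
  rw [h, hχ.add _ ((ser_normal n).conj_mem _ hp q) _ (inv_mem hp), hχ.conj _ hp,
    hχ.map_inv hp]
  exact CharTwo.add_self_eq_zero _

theorem comp (f : G →* H) {χ : H → ZMod 2} (hχ : CInv n χ) : CInv n (fun g => χ (f g)) := by
  constructor
  · intro a ha b hb
    simp only [map_mul]
    exact hχ.add _ (map_mem_ser f ha) _ (map_mem_ser f hb)
  · intro a ha g
    simp only [map_mul, _root_.map_inv]
    exact hχ.conj _ (map_mem_ser f ha) _

theorem zero : CInv n (fun _ : G => (0 : ZMod 2)) :=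
  ⟨fun _ _ _ _ => (add_zero 0).symm, fun _ _ _ => rfl⟩

theorem sum {ι : Type*} (s : Finset ι) (χ : ι → G → ZMod 2) (h : ∀ i ∈ s, CInv n (χ i)) :
    CInv n (fun g => ∑ i ∈ s, χ i g) := by
  constructor
  · intro a ha b hb
    rw [← Finset.sum_add_distrib]
    exact Finset.sum_congr rfl fun i hi => (h i hi).add a ha b hb
  · intro a ha g
    exact Finset.sum_congr rfl fun i hi => (h i hi).conj a ha g

end CInv

end Pool.Agent.Lib.Pc4a55f
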