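import Pool.Agent.Lib.Pc4a55f.Eval
import Pool.Agent.Lib.Pc4a55f.Datum
import Pool.Agent.Lib.Pc4a55f.Pig

/-! Module Step: the step lemma. -/

namespace Pool.Agent.Lib.Pc4a55f

open Monoid
open scoped commutatorElement

variable {C : Type} [LinearOrder C]

/-- the step lemma. Fix `m0, γ0`. By `exists_datum` and `pigeon` there is a code
`(s', m, l2, ν2, w2)` such that for every `γ` there are `w' ∈ O ∩ V (m0, γ0)` and `y : Fin s' → C`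
above `γ` with `Datum name n m0 s' m l2 ν2 w2 y w'`; (apply the hypothesis at `(m0, max γ0 γ)`);
then again, at `(max m m0, max γ0 γ)`, a code `(s, m', l1, ν1, w1)` for `w`. Apply `IsColoring.col`
to the two families with colour `(max m m0, (l1, ν1, w1), (l2, ν2, w2))` and conclude by
`lam_comm_eq_one`. -/
theorem step {name : C → ℕ → ℕ} {col : C → C → Code} (hc : IsColoring name col) {n : ℕ}
    {O : Set (Gam C)}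
    (hO : ∀ d : ℕ × C, ∃ w ∈ O, w ∈ VV d ∧ w ∈ ser (Gam C) n ∧ w ∉ ser (Gam C) (n + 1)) :
    ∀ d : ℕ × C, ∃ w ∈ O, ∃ w' ∈ O, w ∈ VV d ∧ w' ∈ VV d ∧ w ∈ ser (Gam C) n ∧
      w' ∈ ser (Gam C) n ∧ lam name col n ⁅w, w'⁆ = 1 := by
  rintro ⟨m0, γ0⟩
  have := hc.ne
  have key : ∀ lo, m0 ≤ lo → ∃ κ : ℕ × ℕ × ℕ × Finset (List ℕ) × Gam ℕ, ∀ γ : C,
      ∃ w ∈ O, w ∈ VV (m0, γ0) ∧ ∃ x : Fin κ.1 → C, 0 < κ.1 ∧ (∀ i, γ < x i) ∧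
        Datum name n lo κ.1 κ.2.1 κ.2.2.1 κ.2.2.2.1 κ.2.2.2.2 x w := by
    intro lo hlo
    refine pigeon hc.bdd (fun (κ : ℕ × ℕ × ℕ × Finset (List ℕ) × Gam ℕ) γ =>
      ∃ w ∈ O, w ∈ VV (m0, γ0) ∧ ∃ x : Fin κ.1 → C, 0 < κ.1 ∧ (∀ i, γ < x i) ∧
        Datum name n lo κ.1 κ.2.1 κ.2.2.1 κ.2.2.2.1 κ.2.2.2.2 x w) ?_ ?_
    · rintro κ γ γ' hle ⟨w, hw, hV, x, hs, hx, hD⟩
      exact ⟨w, hw, hV, x, hs, fun i => hle.trans_lt (hx i), hD⟩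
    · intro γ
      obtain ⟨w, hw, hV, h1, h2⟩ := hO (lo, max γ0 γ)
      obtain ⟨s, m, l, ν, wbar, x, hs, hx, hD⟩ := exists_datum hc.inj hV h1 h2
      refine ⟨(s, m, l, ν, wbar), w, hw, ?_, x, hs, fun i => (le_max_right _ _).trans_lt (hx i), hD⟩
      refine sub_mono ?_ hV
      intro i hi
      exact ⟨hlo.trans hi.1, (le_max_left _ _).trans_lt hi.2⟩
  obtain ⟨⟨s', m', l2, ν2, w2⟩, hY⟩ := key m0 le_rfl
  obtain ⟨⟨s, m1, l1, ν1, w1⟩, hX⟩ := key (max m0 m') (le_max_left _ _)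
  dsimp only at hX hY
  obtain ⟨γ⟩ := hc.ne
  obtain ⟨-, -, -, -, hs, -⟩ := hX γ
  obtain ⟨-, -, -, -, hs', -⟩ := hY γ
  obtain ⟨x, ⟨w, hwO, hwV, hD⟩, y, ⟨w', hwO', hwV', hD'⟩, hxy⟩ :=
    hc.col s s' {x | ∃ w ∈ O, w ∈ VV (m0, γ0) ∧ Datum name n (max m0 m') s m1 l1 ν1 w1 x w}
      {y | ∃ w ∈ O, w ∈ VV (m0, γ0) ∧ Datum name n m0 s' m' l2 ν2 w2 y w} hs hs'
      (fun γ => by
        obtain ⟨w, hw, hV, x, -, hx, hD⟩ := hX γ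
        exact ⟨x, ⟨w, hw, hV, hD⟩, hx⟩)
      (fun γ => by
        obtain ⟨w, hw, hV, x, -, hx, hD⟩ := hY γ
        exact ⟨x, ⟨w, hw, hV, hD⟩, hx⟩)
      (max m0 m', (l1, ν1, w1), (l2, ν2, w2))
  obtain ⟨A1, hA1, hAmin, hA, hν1, hw1⟩ := hD.min
  obtain ⟨B1, hB1, hBmin, hB, hν2, hw2⟩ := hD'.min
  refine ⟨w, hwO, w', hwO', hwV, hwV', hD.mser, hD'.mser, ?_⟩
  refine lam_comm_eq_one (m := max m0 m') (l1 := l1) (l2 := l2) hA1 hB1 ?_ ?_ hD.mser hD'.mser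
    hAmin hA hBmin hB hD.inj hD'.inj ?_
  · refine sub_mono ?_ hD.msub
    intro i hi
    exact ⟨hi.1, hi.2.2⟩
  · refine sub_mono ?_ hD'.msub
    intro i hi
    exact ⟨hi.2.1.trans_le (le_max_right _ _), hi.2.2⟩
  · intro a ha b hb
    obtain ⟨i, -, rfl⟩ := Finset.mem_image.1 ha
    obtain ⟨j, -, rfl⟩ := Finset.mem_image.1 hb
    rw [hν1, hν2, hw1, hw2]
    exact hxy i j

end Pool.Agent.Lib.Pc4a55f
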