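import Pool.Agent.Lib.Pc4a55f.Step

/-! Module Tow1: iteration of the step lemma. -/

namespace Pool.Agent.Lib.Pc4a55f

open Monoid
open scoped commutatorElement

variable {C : Type} [LinearOrder C]

theorem comm_mem_VV {d : ℕ × C} {w w' : Gam C} (hw : w ∈ VV d) (hw' : w' ∈ VV d) :
    ⁅w, w'⁆ ∈ VV d := by
  rw [commutatorElement_def]
  exact mul_mem (mul_mem (mul_mem hw hw') (inv_mem hw)) (inv_mem hw')

/-- iteration of the step lemma: if `O k` increases, contains commutators of the previous one, and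
`O 0` meets every `V d` in an element of `ser j` outside `ser (j+1)`, then `O (i)` meets every
`V d` in an element of `ser (j+i)` outside `ser (j+i+1)`: `⁅w, w'⁆ ∈ ser (j+1)` by `comm_mem_ser`
and `lam ⁅w, w'⁆ = 1` excludes `⁅w, w'⁆ ∈ ser (j+2)` (`CInv.zero_of_mem_succ`). -/
theorem iterate {name : C → ℕ → ℕ} {col : C → C → Code} (hc : IsColoring name col)
    {O : ℕ → Set (Gam C)}
    (hcomm : ∀ k, ∀ a ∈ O k, ∀ b ∈ O k, ⁅a, b⁆ ∈ O (k + 1)) {j : ℕ}
    (hO : ∀ d : ℕ × C, ∃ w ∈ O 0, w ∈ VV d ∧ w ∈ ser (Gam C) j ∧ w ∉ ser (Gam C) (j + 1))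
    (i : ℕ) : ∀ d : ℕ × C, ∃ w ∈ O i, w ∈ VV d ∧ w ∈ ser (Gam C) (j + i) ∧
      w ∉ ser (Gam C) (j + i + 1) := by
  induction i with
  | zero => exact hO
  | succ i ih =>
    intro d
    obtain ⟨w, hw, w', hw', hV, hV', hs, hs', hl⟩ := step hc ih d
    refine ⟨⁅w, w'⁆, hcomm i w hw w' hw', comm_mem_VV hV hV', comm_mem_ser hs hs', ?_⟩
    intro h
    have h1 := (lam_inv name col (j + i)).zero_of_mem_succ h
    rw [hl] at h1
    exact absurd h1 one_ne_zero

theorem exists_gen {name : C → ℕ → ℕ} {col : C → C → Code} (hc : IsColoring name col)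
    (d : ℕ × C) : ∃ i : ℕ × C, gen i ∈ VV d := by
  obtain ⟨γ, hγ⟩ := hc.bdd (fun _ => d.2)
  exact ⟨(d.1, γ), gen_mem_sub ⟨le_rfl, hγ 0⟩⟩

/-- there is `z ∈ ser (n+1)` with `lam n z = 1` (`iterate` with `O k = univ`, `j = 0`, then
`step`) -/
theorem exists_z {name : C → ℕ → ℕ} {col : C → C → Code} (hc : IsColoring name col) (n : ℕ) :
    ∃ z ∈ ser (Gam C) (n + 1), lam name col n z = 1 := by
  have h := iterate hc (O := fun _ => Set.univ) (fun _ _ _ _ _ => Set.mem_univ _) (j := 0)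
    (by
      intro d
      obtain ⟨i, hi⟩ := exists_gen hc d
      exact ⟨gen i, Set.mem_univ _, hi, trivial, gen_notMem_ser_one i⟩) n
  rw [Nat.zero_add] at h
  obtain ⟨γ⟩ := hc.ne
  obtain ⟨w, -, w', -, -, -, hs, hs', hl⟩ := step hc h (0, γ)
  exact ⟨⁅w, w'⁆, comm_mem_ser hs hs', hl⟩

end Pool.Agent.Lib.Pc4a55f
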